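import Pool.Agent.LPC.Defs

/-!
# Package LPC-RecPolyA (part of RecPoly): recursions of polylogarithmic length with polylogarithmic values

*Statement (`rec_poly`).* `A, L, N ∈ DFun r`, `H ∈ DFun (r+2)`, `f 0 v = A v`,
`f (j+1) v = H j (f j v) v` for `j < L v`, and `L v, f j v ≤ (lg (N v) + 1)^K` for `j ≤ L v`. Then
`v ↦ f (L v) v` is `DFun`.

*Proof.* Let `H' j a v = if j < L v then min (H j a v) ((lg (N v) + 1)^K) else a`, `φ 0 v = A v`,
`φ (j+1) v = H' j (φ j v) v`; then `φ j v = f (min j (L v)) v` by induction. `H'` is `DFun (r+2)`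
(`DFun.ite`, `DFun.min`, `DFun.lg`, `DFun.powConst`). Apply `Pool.Agent.PTr.uniform_rec` to `φ` with
`Dom n w := N (w ∘ succ) ≤ n`: the required `NUF (r+1) Dom (fun _ w => φ (w 0) (w ∘ succ))` follows from
`NUF.recLog (A := 2K) (J := 2K)` in `r + 1` variables `w = (j, v)`, with length
`min (w 0) (L (w ∘ succ))` (note `φ j v = φ (min j (L v)) v`; use `NUF.congr`): for `n ≥ 4` and `N v ≤ n`:
`(lg (N v) + 1)^K ≤ (lg n + 1)^K ≤ (lg n)^(2K)`. (Model: the proof of `exists_resid` in
`Pool/Agent/PTr/Chain.lean`.) The result: `P ∈ Delta0 (r+3)`, `n₀` with `P(n, j, y, v) → y = φ j v` and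
`P(n, j, φ j v, v)` for `n ≥ n₀`, `n ≥ N v`. So `y = f (L v) v ↔ P(N v + n₀, L v, y, v)`, and
`f (L v) v ≤ (lg (N v) + 1)^K`, a `DFun`; `DFun.ofGraph`. ∎

*Vector version (`rec_vec`).* The same for states in `ℕ^κ`, `κ` a finite type. *Proof.* Transport to
`κ = Fin D` (`Fintype.equivFin`). Code the state `x` by `code b x = ∑_k x_k (b+1)^k`,
`b = (lg (N v) + 1)^K` (`Pool.Agent.PTr.code`, `dig_code`, `code_lt`: here `x_k ≤ b`, so
`x_k % (b+1) = x_k`), apply `rec_poly` to the codes, `H j a v = code b (k ↦ H_k j (digits of a) v)`,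
with `N' = 2 N + 2` and a large `K'`: `(b + 1)^D ≤ (lg (2N+2) + 1)^((K+1) D)` since
`b + 1 ≤ 2 (lg N + 1)^K ≤ (lg (2N + 2) + 1)^(K+1)`. Then take the digit `k`.

Difficulty: 0.9 h.
-/

set_option autoImplicit false

namespace Pool.Agent.LPC

open Finset Filter Pool.Agent.Grz Pool.Agent.GAvg Pool.Agent.PTr

theorem rec_poly {r : ℕ} (K : ℕ) {A L N : (Fin r → ℕ) → ℕ} (hA : DFun r A) (hL : DFun r L)
    (hN : DFun r N) {H : ℕ → ℕ → (Fin r → ℕ) → ℕ}
    (hH : DFun (r + 2) (fun w => H (w 0) (w 1) (fun i => w i.succ.succ)))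
    {f : ℕ → (Fin r → ℕ) → ℕ} (h0 : ∀ v, f 0 v = A v)
    (h1 : ∀ v j, j < L v → f (j + 1) v = H j (f j v) v)
    (hLb : ∀ v, L v ≤ (lg (N v) + 1) ^ K)
    (hb : ∀ v j, j ≤ L v → f j v ≤ (lg (N v) + 1) ^ K) : DFun r (fun v => f (L v) v) := by
  -- bounds
  have hbd : ∀ n : ℕ, 4 ≤ n → ∀ m : ℕ, m ≤ n → (lg m + 1) ^ K ≤ lg n ^ (2 * K) := by
    intro n hn m hm
    have h2 : 2 ≤ lg n := Nat.le_log_of_pow_le (by norm_num) (by simpa using hn)
    have h3 : lg m ≤ lg n := Nat.log_mono_right hm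
    rw [pow_mul]
    refine Nat.pow_le_pow_left ?_ K
    nlinarith
  -- the recursion for `φ j v = f (min j (L v)) v`
  have hH' : DFun (r + 2) (fun w => (fun (j a : ℕ) (v : Fin r → ℕ) =>
      if j < L v then H j a v else a) (w 0) (w 1) (fun i => w i.succ.succ)) := by
    have hL2 : DFun (r + 2) (fun w => L (fun i => w i.succ.succ)) := hL.weak.weak
    exact DFun.ite (Delta0.ltFun (DFun.proj 0) hL2) hH (DFun.proj 1)
  have h0' : ∀ v, (fun (j : ℕ) (v : Fin r → ℕ) => f (min j (L v)) v) 0 v = A v := by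
    intro v
    simp only [Nat.zero_min]
    exact h0 v
  have h1' : ∀ j v, (fun (j : ℕ) (v : Fin r → ℕ) => f (min j (L v)) v) (j + 1) v =
      (fun (j a : ℕ) (v : Fin r → ℕ) => if j < L v then H j a v else a) j
        ((fun (j : ℕ) (v : Fin r → ℕ) => f (min j (L v)) v) j v) v := by
    intro j v
    simp only
    by_cases hj : j < L v
    · rw [if_pos hj, min_eq_left (Nat.succ_le_of_lt hj), min_eq_left hj.le]
      exact h1 v j hj
    · rw [if_neg hj, min_eq_right (by omega), min_eq_right (by omega)]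
  have hH3 : DFun (r + 1 + 2) (fun w => H (w 0) (w 1) (fun i => w i.succ.succ.succ)) := by
    have h := hH.comp (n := r + 1 + 2) (h := Fin.cons (fun w => w 0) (Fin.cons (fun w => w 1)
      (fun l w => w l.succ.succ.succ))) (by
        intro i
        refine Fin.cases ?_ (fun i => ?_) i
        · exact DFun.proj 0
        · refine Fin.cases ?_ (fun i => ?_) i
          · exact DFun.proj 1
          · exact DFun.proj _)
    exact h
  have hφ : NUF (r + 1) (fun n w => N (fun i => w i.succ) ≤ n)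
      (fun _ w => (fun (j : ℕ) (v : Fin r → ℕ) => f (min j (L v)) v) (w 0)
        (fun i => w i.succ)) := by
    refine NUF.recLog (r := r + 1) (2 * K) (2 * K)
      (L := fun _ w => min (w 0) (L (fun i => w i.succ)))
      (A₀ := fun _ w => A (fun i => w i.succ))
      (H := fun _ j a w => H j a (fun i => w i.succ))
      (f := fun _ j w => f j (fun i => w i.succ)) ?_ ?_ ?_ ?_ ?_ ?_ ?_
    · exact Adv.ofDFun (k := fun w : Fin (r + 1) → ℕ => min (w 0) (L (fun i => w i.succ)))
        ((DFun.proj 0).min hL.weak)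
    · filter_upwards [eventually_ge_atTop 4] with n hn w hw
      exact (min_le_right _ _).trans ((hLb _).trans (hbd n hn _ hw))
    · exact Adv.ofDFun (k := fun w : Fin (r + 1) → ℕ => A (fun i => w i.succ)) hA.weak
    · exact Adv.ofDFun (k := fun w : Fin (r + 1 + 2) → ℕ =>
        H (w 0) (w 1) (fun i => w i.succ.succ.succ)) hH3
    · exact Eventually.of_forall fun n w _ => h0 (fun i => w i.succ)
    · exact Eventually.of_forall fun n w _ j hj =>
        h1 (fun i => w i.succ) j (lt_of_lt_of_le hj (min_le_right _ _))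
    · filter_upwards [eventually_ge_atTop 4] with n hn w hw j hj
      exact (hb _ j (hj.trans (min_le_right _ _))).trans (hbd n hn _ hw)
  obtain ⟨P, n₀, hP, hs, hc⟩ := uniform_rec
    (H := fun (j a : ℕ) (v : Fin r → ℕ) => if j < L v then H j a v else a)
    (φ := fun (j : ℕ) (v : Fin r → ℕ) => f (min j (L v)) v)
    (Dom := fun n w => N (fun i => w i.succ) ≤ n) hA hH' h0' h1' hφ
  refine DFun.ofGraph (b := fun v => (lg (N v) + 1) ^ K)
    (DFun.powConst ((DFun.lg hN).add (DFun.const 1)) K) (fun v => hb v (L v) le_rfl) ?_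
  have h := hP.subst (n := r + 1) (h := Fin.cons (fun w => N (fun i => w i.succ) + n₀)
    (Fin.cons (fun w => L (fun i => w i.succ)) (Fin.cons (fun w => w 0)
      (fun i w => w i.succ)))) (by
      intro i
      refine Fin.cases ?_ (fun i => ?_) i
      · exact hN.weak.add (DFun.const n₀)
      · refine Fin.cases ?_ (fun i => ?_) i
        · exact hL.weak
        · refine Fin.cases ?_ (fun i => ?_) i
          · exact DFun.proj 0
          · exact DFun.proj i.succ)
  simp only [Adv.cons_apply] at h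
  refine h.of_iff fun w => ?_
  have hφL : ∀ v : Fin r → ℕ, f (min (L v) (L v)) v = f (L v) v := fun v => by rw [min_self]
  constructor
  · intro hw
    have h2 := hc (N (fun i => w i.succ) + n₀) (L (fun i => w i.succ)) (fun i => w i.succ)
      (Nat.le_add_left _ _) (fun i _ => Nat.le_add_right _ _)
    rw [hφL, ← hw] at h2
    exact h2
  · intro hw
    have h2 := hs _ _ _ _ hw
    rw [h2, hφL]

end Pool.Agent.LPC
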