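import Pool.Agent.LPC.Defs
import Pool.Agent.LPC.RecPolyA

/-!
# Package LPC-RecVec (part of RecPoly): recursions of polylogarithmic length with polylogarithmic values

*Statement (`rec_poly`).* `A, L, N ∈ DFun r`, `H ∈ DFun (r+2)`, `f 0 v = A v`,
`f (j+1) v = H j (f j v) v` for `j < L v`, and `L v, f j v ≤ (lg (N v) + 1)^K` for `j ≤ L v`. Then
`v ↦ f (L v) v` is `DFun`.

*Proof.* Let `H' j a v = if j < L v then min (H j a v) ((lg (N v) + 1)^K) else a`, `φ 0 v = A v`,
`φ (j+1) v = H' j (φ j v) v`; then `φ j v = f (min j (L v)) v` by induction. `H'` is `DFun (r+2)`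
(`DFun.ite`, `DFun.min`, `DFun.lg`, `DFun.powConst`). Apply `Pool.Agent.PTr.uniform_rec` to `φ`
with `Dom n w := N (w ∘ succ) ≤ n`: the required `NUF (r+1) Dom (fun _ w => φ (w 0) (w ∘ succ))`
follows from `NUF.recLog (A := 2K) (J := 2K)` in `r + 1` variables `w = (j, v)`, with length
`min (w 0) (L (w ∘ succ))` (note `φ j v = φ (min j (L v)) v`; use `NUF.congr`): for `n ≥ 4` and
`N v ≤ n`: `(lg (N v) + 1)^K ≤ (lg n + 1)^K ≤ (lg n)^(2K)`. (Model: the proof of `exists_resid` in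
`Pool/Agent/PTr/Chain.lean`.) The result: `P ∈ Delta0 (r+3)`, `n₀` with
`P(n, j, y, v) → y = φ j v` and `P(n, j, φ j v, v)` for `n ≥ n₀`, `n ≥ N v`. So
`y = f (L v) v ↔ P(N v + n₀, L v, y, v)`, and `f (L v) v ≤ (lg (N v) + 1)^K`, a `DFun`;
`DFun.ofGraph`. ∎

*Vector version (`rec_vec`).* The same for states in `ℕ^κ`, `κ` a finite type. *Proof.* Transport
to `κ = Fin D` (`Fintype.equivFin`). Code the state `x` by `code b x = ∑_k x_k (b+1)^k`,
`b = (lg (N v) + 1)^K` (`Pool.Agent.PTr.code`, `dig_code`, `code_lt`: here `x_k ≤ b`, so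
`x_k % (b+1) = x_k`), apply `rec_poly` to the codes,
`H j a v = code b (k ↦ H_k j (digits of a) v)`, with `N' = 2 N + 2` and a large `K'`:
`(b + 1)^D ≤ (lg (2N+2) + 1)^((K+1) D)` since `b + 1 ≤ 2 (lg N + 1)^K ≤ (lg (2N + 2) + 1)^(K+1)`.
Then take the digit `k`.

Difficulty: 0.9 h.

-/

set_option autoImplicit false

namespace Pool.Agent.LPC

open Finset Pool.Agent.Grz Pool.Agent.GAvg Pool.Agent.PTr

/-- operations which preserve definable functions -/
def DOp (κ : Type) (r : ℕ) (H : ℕ → (κ → ℕ) → (Fin r → ℕ) → ℕ) : Prop :=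
  ∀ {n : ℕ} {j : (Fin n → ℕ) → ℕ} {x : κ → (Fin n → ℕ) → ℕ} {v : Fin r → (Fin n → ℕ) → ℕ},
    DFun n j → (∀ k, DFun n (x k)) → (∀ i, DFun n (v i)) →
      DFun n (fun w => H (j w) (fun k => x k w) (fun i => v i w))

private theorem RecVec_fin {r D : ℕ} (K : ℕ) {A : Fin D → (Fin r → ℕ) → ℕ}
    {L N : (Fin r → ℕ) → ℕ} (hA : ∀ k, DFun r (A k)) (hL : DFun r L) (hN : DFun r N)
    {H : Fin D → ℕ → (Fin D → ℕ) → (Fin r → ℕ) → ℕ} (hH : ∀ k, DOp (Fin D) r (H k))
    {f : ℕ → (Fin r → ℕ) → Fin D → ℕ} (h0 : ∀ v k, f 0 v k = A k v)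
    (h1 : ∀ v j, j < L v → ∀ k, f (j + 1) v k = H k j (f j v) v)
    (hLb : ∀ v, L v ≤ (lg (N v) + 1) ^ K)
    (hb : ∀ v j, j ≤ L v → ∀ k, f j v k ≤ (lg (N v) + 1) ^ K) (k : Fin D) :
    DFun r (fun v => f (L v) v k) := by
  have hB : DFun r (fun v => (lg (N v) + 1) ^ K) :=
    DFun.powConst ((DFun.lg hN).add (DFun.const 1)) K
  have hdig : ∀ v j, j ≤ L v → ∀ l : Fin D,
      GAvg.dig ((lg (N v) + 1) ^ K + 1) (code ((lg (N v) + 1) ^ K) (f j v)) l = f j v l := by
    intro v j hj l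
    rw [dig_code, Nat.mod_eq_of_lt]
    have := hb v j hj l
    omega
  have hlgm : ∀ v, lg (N v) + 1 ≤ lg (2 * N v + 2) := by
    intro v
    have e1 : 2 * N v + 2 = (N v + 1) * 2 := by ring
    have e2 : lg (2 * N v + 2) = lg (N v + 1) + 1 := by
      rw [e1]
      exact Nat.log_mul_base (by norm_num) (by omega)
    rw [e2]
    have : lg (N v) ≤ lg (N v + 1) := Nat.log_mono_right (by omega)
    omega
  have hpow : ∀ v, (lg (N v) + 1) ^ K ≤ (lg (2 * N v + 2) + 1) ^ K := fun v =>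
    Nat.pow_le_pow_left (by have := hlgm v; omega) K
  have hpos : ∀ v, 1 ≤ lg (2 * N v + 2) + 1 := fun v => by omega
  have hb1 : ∀ v, (lg (N v) + 1) ^ K + 1 ≤ (lg (2 * N v + 2) + 1) ^ (K + 1) := by
    intro v
    have h2 : 1 ≤ (lg (2 * N v + 2) + 1) ^ K := Nat.one_le_pow _ _ (hpos v)
    have h3 : 2 ≤ lg (2 * N v + 2) + 1 := by have := hlgm v; omega
    calc (lg (N v) + 1) ^ K + 1 ≤ (lg (2 * N v + 2) + 1) ^ K + (lg (2 * N v + 2) + 1) ^ K :=
          Nat.add_le_add (hpow v) h2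
      _ = (lg (2 * N v + 2) + 1) ^ K * 2 := by ring
      _ ≤ (lg (2 * N v + 2) + 1) ^ K * (lg (2 * N v + 2) + 1) := Nat.mul_le_mul_left _ h3
      _ = (lg (2 * N v + 2) + 1) ^ (K + 1) := by rw [pow_succ]
  have hmain := rec_poly (r := r) ((K + 1) * D + K)
    (A := fun v => code ((lg (N v) + 1) ^ K) (fun k => A k v)) (L := L)
    (N := fun v => 2 * N v + 2)
    (DFun.code hB hA) hL (((DFun.const 2).mul hN).add (DFun.const 2))
    (H := fun j a v => code ((lg (N v) + 1) ^ K)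
      (fun k => H k j (fun l => GAvg.dig ((lg (N v) + 1) ^ K + 1) a l) v))
    (by
      have hN2 : DFun (r + 2) (fun w => N (fun i => w i.succ.succ)) :=
        hN.comp (h := fun i w => w i.succ.succ) (fun i => DFun.proj _)
      have hB2 : DFun (r + 2) (fun w => (lg (N (fun i => w i.succ.succ)) + 1) ^ K) :=
        DFun.powConst ((DFun.lg hN2).add (DFun.const 1)) K
      refine DFun.code hB2 fun k => ?_
      refine hH k (DFun.proj 0) (fun l => ?_) (fun i => DFun.proj _)
      unfold GAvg.dig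
      refine DFun.modPos (DFun.divPos (DFun.proj 1)
        (DFun.powConst (hB2.add (DFun.const 1)) _) ?_)
        (hB2.add (DFun.const 1)) (fun _ => Nat.succ_pos _)
      intro w
      positivity)
    (f := fun j v => code ((lg (N v) + 1) ^ K) (f j v))
    (by
      intro v
      have e : f 0 v = fun k => A k v := funext fun k => h0 v k
      simp only [e])
    (by
      intro v j hj
      have e : f (j + 1) v = fun k => H k j (f j v) v := funext fun k => h1 v j hj k
      have e2 : (fun l : Fin D => GAvg.dig ((lg (N v) + 1) ^ K + 1)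
          (code ((lg (N v) + 1) ^ K) (f j v)) l) = f j v := funext fun l => hdig v j hj.le l
      simp only [e, e2])
    (by
      intro v
      refine (hLb v).trans ((hpow v).trans ?_)
      exact Nat.pow_le_pow_right (hpos v) (by omega))
    (by
      intro v j _
      refine (code_lt _ _).le.trans ?_
      calc ((lg (N v) + 1) ^ K + 1) ^ D ≤ ((lg (2 * N v + 2) + 1) ^ (K + 1)) ^ D :=
            Nat.pow_le_pow_left (hb1 v) D
        _ = (lg (2 * N v + 2) + 1) ^ ((K + 1) * D) := by rw [← pow_mul]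
        _ ≤ (lg (2 * N v + 2) + 1) ^ ((K + 1) * D + K) :=
            Nat.pow_le_pow_right (hpos v) (by omega))
  have hfin : DFun r (fun v => GAvg.dig ((lg (N v) + 1) ^ K + 1)
      (code ((lg (N v) + 1) ^ K) (f (L v) v)) k) := by
    unfold GAvg.dig
    refine DFun.modPos (DFun.divPos hmain
      (DFun.powConst (hB.add (DFun.const 1)) _) ?_)
      (hB.add (DFun.const 1)) (fun _ => Nat.succ_pos _)
    intro w
    positivity
  have e : (fun v => f (L v) v k) = fun v => GAvg.dig ((lg (N v) + 1) ^ K + 1)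
      (code ((lg (N v) + 1) ^ K) (f (L v) v)) k := by
    funext v
    exact (hdig v (L v) le_rfl k).symm
  rw [e]
  exact hfin

theorem rec_vec {r : ℕ} {κ : Type} [Fintype κ] (K : ℕ) {A : κ → (Fin r → ℕ) → ℕ}
    {L N : (Fin r → ℕ) → ℕ} (hA : ∀ k, DFun r (A k)) (hL : DFun r L) (hN : DFun r N)
    {H : κ → ℕ → (κ → ℕ) → (Fin r → ℕ) → ℕ} (hH : ∀ k, DOp κ r (H k))
    {f : ℕ → (Fin r → ℕ) → κ → ℕ} (h0 : ∀ v k, f 0 v k = A k v)
    (h1 : ∀ v j, j < L v → ∀ k, f (j + 1) v k = H k j (f j v) v)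
    (hLb : ∀ v, L v ≤ (lg (N v) + 1) ^ K)
    (hb : ∀ v j, j ≤ L v → ∀ k, f j v k ≤ (lg (N v) + 1) ^ K) (k : κ) :
    DFun r (fun v => f (L v) v k) := by
  have hk : k = (Fintype.equivFin κ).symm (Fintype.equivFin κ k) := by simp
  have h := RecVec_fin (r := r) (D := Fintype.card κ) K
    (A := fun i => A ((Fintype.equivFin κ).symm i)) (L := L) (N := N)
    (fun i => hA _) hL hN
    (H := fun i j x v => H ((Fintype.equivFin κ).symm i) j
      (fun l => x (Fintype.equivFin κ l)) v)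
    (by
      intro i n j x v hj hx hv
      exact hH ((Fintype.equivFin κ).symm i) hj (fun l => hx (Fintype.equivFin κ l)) hv)
    (f := fun j v i => f j v ((Fintype.equivFin κ).symm i))
    (fun v i => h0 v _)
    (by
      intro v j hj i
      have e : (fun l => f j v ((Fintype.equivFin κ).symm (Fintype.equivFin κ l))) = f j v := by
        funext l
        simp
      simp only [e]
      exact h1 v j hj _)
    hLb (fun v j hj i => hb v j hj _) (Fintype.equivFin κ k)
  have e : (fun v => f (L v) v k) =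
      fun v => f (L v) v ((Fintype.equivFin κ).symm (Fintype.equivFin κ k)) := by
    funext v
    rw [← hk]
  rw [e]
  exact h


end Pool.Agent.LPC
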