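import Pool.Agent.LPC.RecPoly

/-!
# Package LPC-SumPoly: sums of polylogarithmically many terms

*Statement (`dfun_sumPoly`).* `g ∈ DFun (n+1)`, `S, N ∈ DFun n`, `S v ≤ (lg (N v) + 1)^K`. Then
`v ↦ ∑_(i < S v) g i v` is `DFun n`. (`zf_sumPoly`: the same for `ZF`: the difference of two such sums.)

*Proof.* `g` is bounded by a polynomial `p`, monotone, so `g i v ≤ B v := p(S v, v)` for `i < S v`, a
`DFun`, and the sum is `≤ T v := S v * B v`. Let `μ v = lg (T v + 1) + 2`, so `T v < 2^(μ v)`. For `1 ≤ δ ≤ 2 μ v`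
the residue `ρ(δ, v) = (∑_(i < S v) g i v) % δ` is `DFun (n+1)` on this range: apply `rec_poly` in the
variables `(δ, v)` with `δ' = min δ (2 μ v) + 0` (to have the bound for all arguments) to
`f j (δ, v) = (∑_(i < j) g i v) % (δ' )` if `δ' > 0`, (`f (j+1) = (f j + g j v) % δ'`; `Nat.add_mod`), values
`≤ 2 μ v ≤ (lg (N' v) + 1)^K'` for `N' v = N v + 8 (T v + 2)` and suitable `K' ≥ K`. Then
`y = ∑ ↔ y ≤ T v ∧ ∀ δ ≤ 2 μ v, 1 ≤ δ → y % δ = ρ(δ, v)` by `Pool.Agent.PTr.eq_of_mod_all`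
(both are `< 2^(μ v)`), a `Delta0` relation (`Delta0.ballFun`); `DFun.ofGraph`. ∎

Difficulty: 0.6 h.
-/

set_option autoImplicit false

namespace Pool.Agent.LPC

open Finset Pool.Agent.Grz Pool.Agent.GAvg Pool.Agent.PTr Pool.Agent.MTr

private theorem SumPoly_cons {n m : ℕ} {f : (Fin n → ℕ) → ℕ} {h : Fin m → (Fin n → ℕ) → ℕ}
    (hf : DFun n f) (hh : ∀ i, DFun n (h i)) (i : Fin (m + 1)) :
    DFun n (fun v => (Fin.cons (f v) (fun j => h j v) : Fin (m + 1) → ℕ) i) := by
  refine Fin.cases ?_ (fun j => ?_) i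
  · exact hf
  · exact hh j

private theorem SumPoly_arith {K a b c x : ℕ} (h1 : a ≤ (b + 1) ^ K) (h2 : b ≤ x) (h3 : c ≤ x)
    (h4 : 1 ≤ x) : a ≤ (x + 1) ^ (K + 2) ∧ 2 * (c + 1) ≤ (x + 1) ^ (K + 2) := by
  constructor
  · have h5 : (b + 1) ^ K ≤ (x + 1) ^ K := Nat.pow_le_pow_left (by omega) K
    have h6 : (x + 1) ^ K ≤ (x + 1) ^ (K + 2) := Nat.pow_le_pow_right (by omega) (by omega)
    exact h1.trans (h5.trans h6)
  · have h5 : (x + 1) ^ 2 ≤ (x + 1) ^ (K + 2) := Nat.pow_le_pow_right (by omega) (by omega)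
    nlinarith

theorem dfun_sumPoly {n : ℕ} (K : ℕ) {S N : (Fin n → ℕ) → ℕ} {g : ℕ → (Fin n → ℕ) → ℕ}
    (hg : DFun (n + 1) (fun w => g (w 0) (fun i => w i.succ))) (hS : DFun n S) (hN : DFun n N)
    (hSb : ∀ v, S v ≤ (lg (N v) + 1) ^ K) : DFun n (fun v => ∑ i ∈ range (S v), g i v) := by
  obtain ⟨p, hp⟩ := hg.bound
  have hB : DFun n (fun v => MvPolynomial.eval (Fin.cons (S v) v : Fin (n + 1) → ℕ) p) :=
    DFun.evalPoly p (SumPoly_cons (h := fun j v => v j) hS fun j => DFun.proj j)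
  obtain ⟨T, hTdef⟩ : ∃ T : (Fin n → ℕ) → ℕ,
      T = fun v => S v * MvPolynomial.eval (Fin.cons (S v) v : Fin (n + 1) → ℕ) p := ⟨_, rfl⟩
  have hT : DFun n T := by
    rw [hTdef]
    exact hS.mul hB
  have hsum : ∀ v, ∑ i ∈ range (S v), g i v ≤ T v := by
    intro v
    rw [hTdef]
    have h1 : ∀ i ∈ range (S v),
        g i v ≤ MvPolynomial.eval (Fin.cons (S v) v : Fin (n + 1) → ℕ) p := by
      intro i hi
      have h2 : g i v ≤ MvPolynomial.eval (Fin.cons i v : Fin (n + 1) → ℕ) p :=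
        hp (Fin.cons i v)
      refine h2.trans (eval_mono p fun j => ?_)
      refine Fin.cases ?_ (fun k => ?_) j
      · exact (mem_range.1 hi).le
      · exact le_rfl
    refine (sum_le_card_nsmul _ _ _ h1).trans (le_of_eq ?_)
    rw [card_range, smul_eq_mul]
  obtain ⟨M, hM⟩ : ∃ M : (Fin n → ℕ) → ℕ, M = fun v => 2 * (lg (T v) + 1) := ⟨_, rfl⟩
  have hMd : DFun n M := by
    rw [hM]
    exact (DFun.const 2).mul ((DFun.lg hT).add (DFun.const 1))
  -- the residues
  have hd : DFun (n + 1) (fun w => min (w 0) (M fun i => w i.succ)) :=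
    (DFun.proj 0).min hMd.weak
  have hρ : DFun (n + 1) (fun w => (∑ i ∈ range (S fun i => w i.succ), g i (fun i => w i.succ)) %
      (min (w 0) (M fun i => w i.succ) + 1)) := by
    refine rec_poly (K + 2) (A := fun _ => 0) (L := fun w => S fun i => w i.succ)
      (N := fun w => N (fun i => w i.succ) + T (fun i => w i.succ) + 2)
      (H := fun j a w => (a + g j (fun i => w i.succ)) % (min (w 0) (M fun i => w i.succ) + 1))
      (f := fun j w => (∑ i ∈ range j, g i (fun i => w i.succ)) %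
        (min (w 0) (M fun i => w i.succ) + 1))
      (DFun.const 0) hS.weak ((hN.weak.add hT.weak).add (DFun.const 2)) ?_ ?_ ?_ ?_ ?_
    · have h1 : DFun (n + 1 + 2) (fun u => g (u 0) (fun i => u i.succ.succ.succ)) :=
        hg.comp (h := Fin.cons (fun u => u 0) (fun i u => u i.succ.succ.succ)) (fun i => by
          refine Fin.cases ?_ (fun j => ?_) i
          · exact DFun.proj 0
          · exact DFun.proj j.succ.succ.succ)
      exact ((DFun.proj 1).add h1).mod hd.weak.weak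
    · intro v
      rw [range_zero, sum_empty, Nat.zero_mod]
    · intro v j _
      rw [sum_range_succ, Nat.mod_add_mod]
    · intro v
      have h1 := SumPoly_arith (c := lg (T fun i => v i.succ)) (hSb fun i => v i.succ)
        (Nat.log_mono_right (by omega) : lg (N fun i => v i.succ) ≤
          lg (N (fun i => v i.succ) + T (fun i => v i.succ) + 2))
        (Nat.log_mono_right (by omega)) (one_le_lg (by omega))
      exact h1.1
    · intro v j _
      have h1 := SumPoly_arith (c := lg (T fun i => v i.succ)) (hSb fun i => v i.succ)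
        (Nat.log_mono_right (by omega) : lg (N fun i => v i.succ) ≤
          lg (N (fun i => v i.succ) + T (fun i => v i.succ) + 2))
        (Nat.log_mono_right (by omega)) (one_le_lg (by omega))
      refine le_trans ?_ h1.2
      have h2 : (∑ i ∈ range j, g i (fun i => v i.succ)) %
          (min (v 0) (M fun i => v i.succ) + 1) < min (v 0) (M fun i => v i.succ) + 1 :=
        Nat.mod_lt _ (Nat.succ_pos _)
      have h3 : min (v 0) (M fun i => v i.succ) ≤ 2 * (lg (T fun i => v i.succ) + 1) := by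
        rw [hM]
        exact min_le_right _ _
      exact (Nat.lt_succ_iff.1 h2).trans h3
  -- the graph
  obtain ⟨ρ, hρdef⟩ : ∃ ρ : (Fin (n + 1) → ℕ) → ℕ, ρ = fun w =>
      (∑ i ∈ range (S fun i => w i.succ), g i (fun i => w i.succ)) %
      (min (w 0) (M fun i => w i.succ) + 1) := ⟨_, rfl⟩
  rw [← hρdef] at hρ
  have hρv : ∀ (x : ℕ) (v : Fin n → ℕ), ρ (Fin.cons x v) =
      (∑ i ∈ range (S v), g i v) % (min x (M v) + 1) := by
    intro x v
    rw [hρdef]
    rfl
  refine DFun.ofGraph hT hsum ?_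
  have hP : Delta0 (n + 1 + 1) (fun u => u 1 % (u 0 + 1) =
      ρ (Fin.cons (u 0) (fun i => u i.succ.succ))) := by
    refine Delta0.eqFun ((DFun.proj 1).mod (DFun.proj 0)) ?_
    exact hρ.comp (SumPoly_cons (h := fun j u => u j.succ.succ) (DFun.proj 0)
      fun j => DFun.proj j.succ.succ)
  have h1 := (Delta0.leFun (DFun.proj (n := n + 1) 0) hT.weak).and
    (Delta0.ballFun (n := n + 1) (b := fun w => M fun i => w i.succ)
      (P := fun x w => w 0 % (x + 1) = ρ (Fin.cons x (fun i => w i.succ))) hMd.weak hP)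
  refine h1.of_iff fun w => ?_
  constructor
  · intro h
    rw [h]
    refine ⟨hsum _, fun x hx => ?_⟩
    rw [hρv, min_eq_left hx]
  · rintro ⟨h2, h3⟩
    refine eq_of_mod_all (m := lg (T fun i => w i.succ) + 1) (by omega) ?_ ?_ ?_
    · exact lt_of_le_of_lt h2 (lt_two_pow_lg _)
    · exact lt_of_le_of_lt (hsum _) (lt_two_pow_lg _)
    · intro d hd1 hd2
      obtain ⟨x, rfl⟩ : ∃ x, d = x + 1 := ⟨d - 1, by omega⟩
      have hx : x ≤ M fun i => w i.succ := by
        rw [hM]
        dsimp only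
        omega
      have h4 := h3 x hx
      rw [hρv, min_eq_left hx] at h4
      exact h4

theorem zf_sumPoly {n : ℕ} (K : ℕ) {S N : (Fin n → ℕ) → ℕ} {g : ℕ → (Fin n → ℕ) → ℤ}
    (hg : ZF (n + 1) (fun w => g (w 0) (fun i => w i.succ))) (hS : DFun n S) (hN : DFun n N)
    (hSb : ∀ v, S v ≤ (lg (N v) + 1) ^ K) : ZF n (fun v => ∑ i ∈ range (S v), g i v) := by
  obtain ⟨p, m, hp, hm, e⟩ := hg
  have hc : ∀ w : Fin (n + 1) → ℕ, (Fin.cons (w 0) (fun i => w i.succ) : Fin (n + 1) → ℕ) = w :=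
    fun w => Fin.cons_self_tail w
  have h1 : DFun n (fun v => ∑ i ∈ range (S v), p (Fin.cons i v)) := by
    refine dfun_sumPoly K ?_ hS hN hSb
    simp only [hc]
    exact hp
  have h2 : DFun n (fun v => ∑ i ∈ range (S v), m (Fin.cons i v)) := by
    refine dfun_sumPoly K ?_ hS hN hSb
    simp only [hc]
    exact hm
  refine ⟨_, _, h1, h2, fun v => ?_⟩
  have h3 : ∀ i, g i v = (p (Fin.cons i v) : ℤ) - (m (Fin.cons i v) : ℤ) := fun i =>
    e (Fin.cons i v)
  push_cast
  rw [← sum_sub_distrib]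
  exact sum_congr rfl fun i _ => h3 i

end Pool.Agent.LPC
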