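import Pool.Agent.LPC.LinTools

/-!
# Package LPC-RelStep (part of StepRep): step functions as affine forms in determined additional
variables

*Statement (`step_rep`).* Let `T ∈ Step d n`, `B ∈ DFun n`. There are a finite type `κ`, `Φ ∈
LinRel (Fin d ⊕ κ) n`,
an affine form `f` (`Aff`) and `C ∈ DFun n` such that for all `v` and `x ∈ [0, B v)^d` there is
exactly one
`z ∈ ℕ^κ` with `Φ (x, z) v`, it lies in `[0, C v)^κ`, and `T x v = f (x, z) v < C v`.

*Proof.* Induction on `T`. Variable `x_i`: `κ` empty, `Φ` true, `f = x_i`, `C = B + 1` (`x_i < B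
v`).
Coefficient `c`: `κ` empty, `f = c v`, `C = c + 1`. Sum: `κ = κ₁ ⊕ κ₂`, `Φ₁ ∧ Φ₂` (renamed), `f₁ +
f₂`,
`C = C₁ + C₂`. Multiple `c T`: same `κ, Φ`, `c f`, `C' = c C + C + 1`. Truncated difference: `κ =
κ₁ ⊕ κ₂ ⊕ Unit` with
a new variable `y`, `Φ = Φ₁ ∧ Φ₂ ∧ ((f₂ ≤ f₁ ∧ y = f₁ - f₂) ∨ (f₁ < f₂ ∧ y = 0))`, `f = y`, `C = C₁
+ C₂`.
Division by `c`: `κ ⊕ Unit` with a new variable `y` and
`Φ ∧ ((c = 0 ∧ y = 0) ∨ (1 ≤ c ∧ c y ≤ f ∧ f < c y + c))`, `f' = y` (`LinRel.cond`, `Aff.mul`;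
`f ≥ 0` as it is the value of `T`; `Nat.div_eq_iff`), `C' = C`. ∎

*`rel_step`.* For `R ∈ Rel d n` there is `T ∈ Step d n` with `T x v = 1` if `R x v` and `0`
otherwise.
`f ≤ g`: `1 - (f - g)` (truncated). `not`: `1 - T`. `and`: `1 - ((1 - T) + (1 - T'))`.

Difficulty: 0.8 h.
-/

set_option autoImplicit false

namespace Pool.Agent.LPC

open Finset Pool.Agent.Grz Pool.Agent.GAvg Pool.Agent.PTr Pool.Agent.MTr

open scoped Classical in
theorem rel_step {d n : ℕ} {R : (Fin d → ℕ) → (Fin n → ℕ) → Prop} (hR : Rel d n R) :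
    ∃ T, Step d n T ∧ ∀ x v, T x v = if R x v then 1 else 0 := by
  have hone : Step d n (fun _ _ => 1) := Step.coef (DFun.const 1)
  induction hR with
  | @le f g hf hg =>
    refine ⟨fun x v => 1 - (f x v - g x v), hone.sub (hf.sub hg), fun x v => ?_⟩
    by_cases h : f x v ≤ g x v
    · rw [if_pos h]
      show 1 - (f x v - g x v) = 1
      omega
    · rw [if_neg h]
      show 1 - (f x v - g x v) = 0
      omega
  | @not R _ ih =>
    obtain ⟨T, hT, h⟩ := ih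
    refine ⟨fun x v => 1 - T x v, hone.sub hT, fun x v => ?_⟩
    show 1 - T x v = _
    rw [h x v]
    by_cases hR : R x v
    · rw [if_pos hR, if_neg (not_not.2 hR)]
    · rw [if_neg hR, if_pos hR]
  | @and R S _ _ ih1 ih2 =>
    obtain ⟨T, hT, h⟩ := ih1
    obtain ⟨U, hU, h'⟩ := ih2
    refine ⟨fun x v => 1 - ((1 - T x v) + (1 - U x v)),
      hone.sub ((hone.sub hT).add (hone.sub hU)), fun x v => ?_⟩
    show 1 - ((1 - T x v) + (1 - U x v)) = _
    rw [h x v, h' x v]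
    by_cases hR : R x v <;> by_cases hS : S x v <;> simp [hR, hS]

end Pool.Agent.LPC
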