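import Pool.Agent.LPC.CountLin
import Pool.Agent.LPC.StepRep

/-!
# Package LPC-ProdRep (part of Main): sums of products of step functions

*`prod_rep`.* Let `T i ∈ Step d n` for `i < k`, `B ∈ DFun n`. There are a finite `κ`, `Φ ∈ LinRel
(Fin d ⊕ κ) n` and
`C ∈ DFun n` such that for all `v` and `x ∈ [0, B v)^d`: `∏_i T i x v = #{z ∈ [0, C v)^κ : Φ (x, z)
v}`.
*Proof.* Induction on `k`. `k = 0`: `κ` empty, `Φ` true, `C = 1` (one point). Step: let `(κ₁, Φ₁,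
C₁)` be for
the product of the first `k` functions and `(κ₂, Φ₂, f₂, C₂)` from `step_rep` for the last one. Take
`κ = κ₁ ⊕ κ₂ ⊕ Unit`, `C = C₁ + C₂`, and for `(z₁, z₂, y)`: `z₁ ∈ [0, C₁ v)^κ₁`, `Φ₁ (x, z₁)`, `Φ₂
(x, z₂)`, and
`y < f₂ (x, z₂)`. The number of solutions in `[0, C v)^κ` is `(number of z₁) · 1 · T x v`: the
unique `z₂`
has entries `< C₂ v ≤ C v` and `y < T x v < C₂ v` gives `y < C v`. (`Finset.card_product` and a
bijection
`(κ₁ ⊕ κ₂ ⊕ Unit → ℕ) ≃ (κ₁ → ℕ) × (κ₂ → ℕ) × ℕ`, `Equiv.sumArrowEquivProdArrow`.)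

*`sum_def`.* `v ↦ ∑_(x ∈ [0, B v)^d, R x v) ∏_i T i x v` is `DFun`, `R ∈ Rel d n`. *Proof.* By
`rel_step` write
`[R x v]` as a further factor `T k` (`Finset.sum_filter`, `Fin.prod_univ_castSucc`). With
`prod_rep` the sum is
`#{(x, z) ∈ [0, C' v)^(Fin d ⊕ κ) : x_i < B v, z_j < C v, Φ (x, z) v}`, `C' = B + C`, which is
`DFun` by
`count_lin`. ∎

Difficulty: 0.7 h.
-/

set_option autoImplicit false

namespace Pool.Agent.LPC

open Finset Pool.Agent.Grz Pool.Agent.GAvg Pool.Agent.PTr Pool.Agent.MTr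

open scoped Classical in
theorem prod_rep {d n k : ℕ} {T : Fin k → (Fin d → ℕ) → (Fin n → ℕ) → ℕ}
    (hT : ∀ i, Step d n (T i)) {B : (Fin n → ℕ) → ℕ} (hB : DFun n B) :
    ∃ (κ : Type) (_ : Fintype κ) (_ : DecidableEq κ)
      (Φ : (Fin d ⊕ κ → ℕ) → (Fin n → ℕ) → Prop) (C : (Fin n → ℕ) → ℕ),
      LinRel (Fin d ⊕ κ) n Φ ∧ DFun n C ∧ ∀ v (x : Fin d → ℕ), (∀ i, x i < B v) →
        ∏ i, T i x v = #{z ∈ box κ (C v) | Φ (Sum.elim x z) v} := by
  induction k with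
  | zero =>
    obtain ⟨Ψ, hΨ⟩ : ∃ Ψ : (Fin d ⊕ Empty → ℕ) → (Fin n → ℕ) → Prop,
      Ψ = fun _ _ => (0 : ℤ) ≤ 0 := ⟨_, rfl⟩
    refine ⟨Empty, inferInstance, inferInstance, Ψ, fun _ => 1, ?_, DFun.const 1, ?_⟩
    · rw [hΨ]
      exact LinRel.le (Aff.coef (ZF.const 0)) (Aff.coef (ZF.const 0))
    · intro v x _
      have h0 : ∀ z : Empty → ℕ, Ψ (Sum.elim x z) v := fun z => by
        rw [hΨ]
      rw [Fin.prod_univ_zero, filter_true_of_mem (fun z _ => h0 z)]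
      simp [box]
  | succ k ih =>
    obtain ⟨κ₁, i₁, e₁, Φ₁, C₁, hΦ₁, hC₁, h₁⟩ := ih (T := fun i => T i.castSucc)
      (fun i => hT i.castSucc)
    obtain ⟨κ₂, i₂, e₂, Φ₂, f₂, C₂, hΦ₂, hf₂, hC₂, h₂⟩ := step_rep (hT (Fin.last k)) hB
    let r₁ : Fin d ⊕ κ₁ → Fin d ⊕ (κ₁ ⊕ (κ₂ ⊕ Unit)) := Sum.map id Sum.inl
    let r₂ : Fin d ⊕ κ₂ → Fin d ⊕ (κ₁ ⊕ (κ₂ ⊕ Unit)) := Sum.map id (Sum.inr ∘ Sum.inl)
    obtain ⟨Ψ, hΨ⟩ : ∃ Ψ : (Fin d ⊕ (κ₁ ⊕ (κ₂ ⊕ Unit)) → ℕ) → (Fin n → ℕ) → Prop,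
      Ψ = fun y v => (Φ₁ (fun i => y (r₁ i)) v ∧
          ∀ j : κ₁, ((y (Sum.inr (Sum.inl j)) : ℕ) : ℤ) < ((C₁ v : ℕ) : ℤ)) ∧
        (Φ₂ (fun i => y (r₂ i)) v ∧
          ((y (Sum.inr (Sum.inr (Sum.inr ()))) : ℕ) : ℤ) < f₂ (fun i => y (r₂ i)) v) :=
      ⟨_, rfl⟩
    refine ⟨κ₁ ⊕ (κ₂ ⊕ Unit), inferInstance, inferInstance, Ψ,
      fun v => C₁ v + C₂ v, ?_, hC₁.add hC₂, ?_⟩
    · rw [hΨ]
      refine LinRel.and (LinRel.and (hΦ₁.rename r₁) (LinRel.all fun j => ?_))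
        (LinRel.and (hΦ₂.rename r₂) (LinRel.lt (Aff.var _) (hf₂.rename r₂)))
      exact LinRel.lt (Aff.var _) (Aff.coef (ZF.nat hC₁))
    · intro v x hx
      obtain ⟨z₂, hz₂, hΦz, huniq, hTf, hTC⟩ := h₂ v x hx
      have e₁' : ∀ z : κ₁ ⊕ (κ₂ ⊕ Unit) → ℕ,
          (fun i => Sum.elim x z (r₁ i)) = Sum.elim x (fun j => z (Sum.inl j)) := by
        intro z
        funext i
        rcases i with i | i <;> rfl
      have e₂' : ∀ z : κ₁ ⊕ (κ₂ ⊕ Unit) → ℕ,
          (fun i => Sum.elim x z (r₂ i)) = Sum.elim x (fun j => z (Sum.inr (Sum.inl j))) := by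
        intro z
        funext i
        rcases i with i | i <;> rfl
      rw [Fin.prod_univ_castSucc, h₁ v x hx, ← card_range (T (Fin.last k) x v), ← card_product]
      have hkey : ∀ z : κ₁ ⊕ (κ₂ ⊕ Unit) → ℕ,
          Φ₂ (fun i => Sum.elim x z (r₂ i)) v → (fun j => z (Sum.inr (Sum.inl j))) = z₂ := by
        intro z hz
        rw [e₂'] at hz
        exact huniq _ hz
      symm
      refine card_nbij' (fun z => (fun j => z (Sum.inl j), z (Sum.inr (Sum.inr ()))))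
        (fun q => Sum.elim q.1 (Sum.elim z₂ fun _ => q.2)) ?_ ?_ ?_ ?_
      · intro z hz
        rw [mem_coe, mem_filter, hΨ] at hz
        obtain ⟨-, ⟨ha, hb⟩, hc, hd⟩ := hz
        rw [mem_coe, mem_product, mem_filter, mem_range]
        refine ⟨⟨?_, ?_⟩, ?_⟩
        · rw [box, Fintype.mem_piFinset]
          intro j
          rw [mem_range]
          exact_mod_cast hb j
        · rw [e₁'] at ha
          exact ha
        · have h3 := hkey z hc
          rw [e₂', h3, ← hTf] at hd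
          exact_mod_cast hd
      · rintro ⟨z₁, y⟩ hq
        rw [mem_coe, mem_product, mem_filter, mem_range] at hq
        obtain ⟨⟨ha, hb⟩, hc⟩ := hq
        rw [box, Fintype.mem_piFinset] at ha
        have ha' : ∀ j, z₁ j < C₁ v := fun j => mem_range.1 (ha j)
        have hc' : y < T (Fin.last k) x v := hc
        rw [mem_coe, mem_filter, hΨ]
        refine ⟨?_, ⟨?_, ?_⟩, ?_, ?_⟩
        · rw [box, Fintype.mem_piFinset]
          rintro (j | j | j)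
          · rw [mem_range]
            exact (ha' j).trans_le (Nat.le_add_right _ _)
          · rw [mem_range]
            exact (hz₂ j).trans_le (Nat.le_add_left _ _)
          · rw [mem_range]
            show y < C₁ v + C₂ v
            omega
        · rw [e₁']
          exact hb
        · intro j
          exact_mod_cast ha' j
        · rw [e₂']
          exact hΦz
        · rw [e₂']
          show ((y : ℕ) : ℤ) < f₂ (Sum.elim x z₂) v
          rw [← hTf]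
          exact_mod_cast hc'
      · intro z hz
        rw [mem_coe, mem_filter, hΨ] at hz
        obtain ⟨-, -, hc, -⟩ := hz
        have h3 := hkey z hc
        funext j
        rcases j with j | j | j
        · rfl
        · exact (congrFun h3 j).symm
        · rfl
      · rintro ⟨z₁, y⟩ _
        rfl

end Pool.Agent.LPC
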