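import Pool.Agent.LPC.CountLin
import Pool.Agent.LPC.StepRep
import Pool.Agent.LPC.ProdRep

/-!
# Package LPC-MainB (part of Main): sums of products of step functions

*`prod_rep`.* Let `T i ∈ Step d n` for `i < k`, `B ∈ DFun n`. There are a finite `κ`, `Φ ∈ LinRel
(Fin d ⊕ κ) n` and `C ∈ DFun n` such that for all `v` and `x ∈ [0, B v)^d`: `∏_i T i x v = #{z ∈
[0, C v)^κ : Φ (x, z) v}`. *Proof.* Induction on `k`. `k = 0`: `κ` empty, `Φ` true, `C = 1` (one
point). Step: let `(κ₁, Φ₁, C₁)` be for the product of the first `k` functions and `(κ₂, Φ₂, f₂,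
C₂)` from `step_rep` for the last one. Take `κ = κ₁ ⊕ κ₂ ⊕ Unit`, `C = C₁ + C₂`, and for `(z₁, z₂,
y)`: `z₁ ∈ [0, C₁ v)^κ₁`, `Φ₁ (x, z₁)`, `Φ₂ (x, z₂)`, and `y < f₂ (x, z₂)`. The number of
solutions in `[0, C v)^κ` is `(number of z₁) · 1 · T x v`: the unique `z₂` has entries `< C₂ v ≤ C
v` and `y < T x v < C₂ v` gives `y < C v`. (`Finset.card_product` and a bijection `(κ₁ ⊕ κ₂ ⊕ Unit
→ ℕ) ≃ (κ₁ → ℕ) × (κ₂ → ℕ) × ℕ`, `Equiv.sumArrowEquivProdArrow`.)

*`sum_def`.* `v ↦ ∑_(x ∈ [0, B v)^d, R x v) ∏_i T i x v` is `DFun`, `R ∈ Rel d n`. *Proof.* By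
`rel_step` write `[R x v]` as a further factor `T k` (`Finset.sum_filter`,
`Fin.prod_univ_castSucc`). With `prod_rep` the sum is `#{(x, z) ∈ [0, C' v)^(Fin d ⊕ κ) : x_i < B
v, z_j < C v, Φ (x, z) v}`, `C' = B + C`, which is `DFun` by `count_lin`. ∎

Difficulty: 0.7 h.
-/

set_option autoImplicit false

namespace Pool.Agent.LPC

open Finset Pool.Agent.Grz Pool.Agent.GAvg Pool.Agent.PTr Pool.Agent.MTr

private theorem mainB_mem_box {ι : Type} [Fintype ι] [DecidableEq ι] {B : ℕ} {x : ι → ℕ} :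
    x ∈ box ι B ↔ ∀ i, x i < B := by
  simp [box, Fintype.mem_piFinset]

private theorem mainB_mem_filter {α : Type} {s : Finset α} {p : α → Prop} (h : DecidablePred p)
    {a : α} : a ∈ @Finset.filter α p h s ↔ a ∈ s ∧ p a := Finset.mem_filter

open scoped Classical in
theorem sum_def {d n k : ℕ} {T : Fin k → (Fin d → ℕ) → (Fin n → ℕ) → ℕ}
    (hT : ∀ i, Step d n (T i)) {R : (Fin d → ℕ) → (Fin n → ℕ) → Prop} (hR : Rel d n R)
    {B : (Fin n → ℕ) → ℕ} (hB : DFun n B) :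
    DFun n (fun v => ∑ x ∈ box (Fin d) (B v) with R x v, ∏ i, T i x v) := by
  obtain ⟨TR, hTR, hTRe⟩ := rel_step hR
  have hT' : ∀ i : Fin (k + 1),
      Step d n ((Fin.snoc T TR : Fin (k + 1) → (Fin d → ℕ) → (Fin n → ℕ) → ℕ) i) := by
    intro i
    refine Fin.lastCases ?_ (fun i => ?_) i
    · rw [Fin.snoc_last]
      exact hTR
    · rw [Fin.snoc_castSucc]
      exact hT i
  obtain ⟨κ, iF, iD, Φ, C, hΦ, hC, hz⟩ := prod_rep hT' hB
  have hR' : LinRel (Fin d ⊕ κ) n (fun w v => (∀ i : Fin d, (w (Sum.inl i) : ℤ) < (B v : ℤ)) ∧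
      ((∀ j : κ, (w (Sum.inr j) : ℤ) < (C v : ℤ)) ∧ Φ w v)) :=
    LinRel.and (LinRel.all fun i => LinRel.lt (Aff.var (Sum.inl i)) (Aff.coef (ZF.nat hB)))
      (LinRel.and (LinRel.all fun j => LinRel.lt (Aff.var (Sum.inr j)) (Aff.coef (ZF.nat hC))) hΦ)
  have h1 := count_lin hR' (hB.add hC)
  refine (?_ : (fun v => ∑ x ∈ box (Fin d) (B v) with R x v, ∏ i, T i x v) = _) ▸ h1
  funext v
  have h2 : ∑ x ∈ box (Fin d) (B v) with R x v, ∏ i, T i x v =
      ∑ x ∈ box (Fin d) (B v), #{z ∈ box κ (C v) | Φ (Sum.elim x z) v} := by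
    rw [Finset.sum_filter]
    refine Finset.sum_congr rfl fun x hx => ?_
    rw [← hz v x (mainB_mem_box.1 hx), Fin.prod_univ_castSucc]
    simp only [Fin.snoc_castSucc, Fin.snoc_last]
    rw [hTRe]
    split_ifs <;> simp
  rw [h2, ← Finset.card_sigma]
  refine Finset.card_bij' (fun p _ => Sum.elim p.1 p.2)
    (fun w _ => ⟨fun i => w (Sum.inl i), fun j => w (Sum.inr j)⟩) ?_ ?_ ?_ ?_
  · intro p hp
    rw [Finset.mem_sigma, Finset.mem_filter, mainB_mem_box, mainB_mem_box] at hp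
    refine (mainB_mem_filter _).2 ⟨mainB_mem_box.2 ?_, ?_, ?_, hp.2.2⟩
    · rintro (i | j)
      · exact (hp.1 i).trans_le (Nat.le_add_right _ _)
      · exact (hp.2.1 j).trans_le (Nat.le_add_left _ _)
    · intro i
      exact_mod_cast hp.1 i
    · intro j
      exact_mod_cast hp.2.1 j
  · intro w hw
    replace hw := (mainB_mem_filter _).1 hw
    rw [Finset.mem_sigma, Finset.mem_filter, mainB_mem_box, mainB_mem_box]
    refine ⟨fun i => by exact_mod_cast hw.2.1 i, fun j => by exact_mod_cast hw.2.2.1 j, ?_⟩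
    have h3 : Sum.elim (fun i => w (Sum.inl i)) (fun j => w (Sum.inr j)) = w := by
      funext a
      cases a <;> rfl
    rw [h3]
    exact hw.2.2.2
  · intro p _
    rfl
  · intro w _
    funext a
    cases a <;> rfl

end Pool.Agent.LPC
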