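import Pool.Agent.LPC.SumPoly

/-!
# Package LPC-SeqCode: coding sequences of bounded product

*Statement.* There are `sq ∈ DFun 2` and `C` such that every sequence `y_0, …, y_(L-1)` with
`∏ (y_l + 2) ≤ X` has a code `a ≤ (X + 2)^C`: `sq a l = y_l` for `l < L`.

*Proof.* For `B, p` let `cnt B p = ∑_(i < min p (lg B + 1)) (B / 2^i % 2)`, a `DFun 2` by `dfun_sumPoly` (`N = B`,
`K = 1`) and `DFun.divPow`. Let `mk B l` be the least `p ≤ lg B` with `B / 2^p % 2 = 1` and `cnt B p = l`, and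
`mk B l = 0` if there is none (`DFun` by its graph, bounded by `lg B ≤ B`). With `A = (Nat.unpair a).1`,
`B = (Nat.unpair a).2`, `p = mk B l`, `p' = mk B (l + 1)`:
`sq a l = A / 2^p % 2^(p' - p)` (`= u - (u / 2^(p'-p)) * 2^(p'-p)`, `u = A / 2^p`; a `DFun 2`: use
`DFun.divPow` and the graph `z + q * P = u ∧ z < P ∧ P = 2^(p' - p)` with `P ≤ 2 u` or `P > u`, or simply
`2^(p'-p) ≤ 2^(lg B) ≤ B + 1`, a `DFun` by `Delta0.eqPow` and `DFun.ofGraph`).
Given `y`, let `k_l = lg (y_l + 2) + 1 ≥ 2`, so `y_l < 2^(k_l)`; `t_l = ∑_(i < l) k_i`, `T = t_L`. As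
`k_l ≤ 2 lg (y_l + 2)` and `∏ 2^(lg (y_l + 2)) ≤ ∏ (y_l + 2) ≤ X`: `2^T ≤ X^2`. Put
`A = ∑_(l < L) y_l 2^(t_l) < 2^T`, `B = ∑_(l ≤ L) 2^(t_l) < 2^(T+1)` (distinct powers; `lg B = T`),
`a = Nat.pair A B ≤ (2 X^2 + 1)^2 ≤ (X + 2)^C`. Bit `p` of `B` is `1` iff `p = t_l` for some
`l ≤ L`, and `cnt B (t_l) = l`; so `mk B l = t_l` for `l ≤ L`, and
`A / 2^(t_l) % 2^(k_l) = y_l` (`A = ∑_(i<l) y_i 2^(t_i) + 2^(t_l) (y_l + 2^(k_l) (…))`, first part `< 2^(t_l)`). ∎
(A convenient way to organise: by induction on `L` prove the existence of `A, B` with the bounds and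
`A / 2^(t_l) % 2^(k_l) = y_l`, adding the new last block on top.)

Difficulty: 0.9 h.
-/

set_option autoImplicit false

namespace Pool.Agent.LPC

open Finset Pool.Agent.Grz Pool.Agent.GAvg Pool.Agent.PTr

/-- the number of binary digits `1` of `B` below position `p` -/
private def SeqCode_cnt (B p : ℕ) : ℕ := ∑ i ∈ range (min p (lg B + 1)), (B / 2 ^ i % 2)

private def SeqCode_R (B l p : ℕ) : Prop := p ≤ lg B ∧ B / 2 ^ p % 2 = 1 ∧ SeqCode_cnt B p = l

private noncomputable def SeqCode_mk (B l : ℕ) : ℕ := sInf {p | SeqCode_R B l p}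

private theorem SeqCode_dcnt {n : ℕ} {f g : (Fin n → ℕ) → ℕ} (hf : DFun n f) (hg : DFun n g) :
    DFun n (fun v => SeqCode_cnt (f v) (g v)) := by
  refine dfun_sumPoly (n := n) 1 (S := fun v => min (g v) (lg (f v) + 1)) (N := f)
    (g := fun i v => f v / 2 ^ i % 2) ?_ ?_ hf ?_
  · have h := (DFun.divPow (le_refl 2) hf.weak (DFun.proj (n := n + 1) 0)).mod
      (DFun.const (n := n + 1) 1)
    exact h
  · exact DFun.min hg ((DFun.lg hf).add (DFun.const 1))
  · intro v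
    rw [pow_one]
    exact min_le_right _ _

private theorem SeqCode_dR {n : ℕ} {f g h : (Fin n → ℕ) → ℕ} (hf : DFun n f) (hg : DFun n g)
    (hh : DFun n h) : Delta0 n (fun v => SeqCode_R (f v) (g v) (h v)) := by
  have h1 := (DFun.divPow (le_refl 2) hf hh).mod (DFun.const (n := n) 1)
  exact (Delta0.leFun hh (DFun.lg hf)).and
    ((Delta0.eqFun h1 (DFun.const 1)).and (Delta0.eqFun (SeqCode_dcnt hf hh) hg))

private theorem SeqCode_mk_le (B l : ℕ) : SeqCode_mk B l ≤ lg B := by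
  unfold SeqCode_mk
  rcases Set.eq_empty_or_nonempty {p | SeqCode_R B l p} with h | h
  · rw [h]
    simp
  · exact (Nat.sInf_mem h).1

private theorem SeqCode_dmk {n : ℕ} {f g : (Fin n → ℕ) → ℕ} (hf : DFun n f) (hg : DFun n g) :
    DFun n (fun v => SeqCode_mk (f v) (g v)) := by
  refine DFun.ofGraph (b := fun v => lg (f v)) (DFun.lg hf) (fun v => SeqCode_mk_le _ _) ?_
  have h0 : DFun (n + 1) (fun w => w 0) := DFun.proj 0
  have h1 : Delta0 (n + 1) (fun w => SeqCode_R (f (fun i => w i.succ)) (g (fun i => w i.succ))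
      (w 0)) := SeqCode_dR hf.weak hg.weak h0
  have h2 : Delta0 (n + 1) (fun w => ∀ x, x ≤ w 0 →
      (x < w 0 → ¬ SeqCode_R (f (fun i => w i.succ)) (g (fun i => w i.succ)) x)) := by
    refine Delta0.ballFun h0 (P := fun x w => x < w 0 →
      ¬ SeqCode_R (f (fun i => w i.succ)) (g (fun i => w i.succ)) x) ?_
    exact (Delta0.ltFun (DFun.proj 0) (DFun.proj 1)).imp
      (SeqCode_dR hf.weak.weak hg.weak.weak (DFun.proj 0)).not
  have h3 : Delta0 (n + 1) (fun w => ∀ x, x ≤ lg (f (fun i => w i.succ)) →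
      ¬ SeqCode_R (f (fun i => w i.succ)) (g (fun i => w i.succ)) x) := by
    refine Delta0.ballFun (DFun.lg hf.weak) (P := fun x w =>
      ¬ SeqCode_R (f (fun i => w i.succ)) (g (fun i => w i.succ)) x) ?_
    exact (SeqCode_dR hf.weak.weak hg.weak.weak (DFun.proj 0)).not
  refine ((h1.and h2).or ((Delta0.eqFun h0 (DFun.const 0)).and h3)).of_iff fun w => ?_
  set B := f (fun i => w i.succ)
  set l := g (fun i => w i.succ)
  constructor
  · intro h
    rcases Set.eq_empty_or_nonempty {p | SeqCode_R B l p} with h4 | h4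
    · right
      refine ⟨?_, fun x _ hx => ?_⟩
      · rw [h, SeqCode_mk, h4]
        simp
      · have h5 : x ∈ {p | SeqCode_R B l p} := hx
        rw [h4] at h5
        exact h5
    · left
      have h5 : SeqCode_R B l (sInf {p | SeqCode_R B l p}) := Nat.sInf_mem h4
      refine ⟨?_, fun x _ hx => ?_⟩
      · rw [h]
        exact h5
      · rw [h] at hx
        exact Nat.notMem_of_lt_sInf hx
  · rintro (⟨h4, h5⟩ | ⟨h4, h5⟩)
    · refine le_antisymm ?_ (Nat.sInf_le h4)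
      by_contra h6
      have h7 : sInf {p | SeqCode_R B l p} < w 0 := not_le.1 h6
      exact h5 _ h7.le h7 (Nat.sInf_mem (s := {p | SeqCode_R B l p}) ⟨_, h4⟩)
    · have h6 : {p | SeqCode_R B l p} = ∅ :=
        Set.eq_empty_iff_forall_notMem.2 fun x hx => h5 x hx.1 hx
      rw [h4, SeqCode_mk, h6]
      simp

private theorem SeqCode_dpow {n : ℕ} {f g h : (Fin n → ℕ) → ℕ} (hf : DFun n f) (hg : DFun n g)
    (hh : DFun n h) : DFun n (fun v => 2 ^ (SeqCode_mk (f v) (g v) - SeqCode_mk (f v) (h v))) := by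
  refine DFun.ofGraph (b := fun v => f v + 1) (hf.add (DFun.const 1)) (fun v => ?_) ?_
  · have h1 := SeqCode_mk_le (f v) (g v)
    have h2 : SeqCode_mk (f v) (g v) - SeqCode_mk (f v) (h v) ≤ lg (f v) := by omega
    refine (Nat.pow_le_pow_right (by norm_num) h2).trans ?_
    rcases Nat.eq_zero_or_pos (f v) with h0 | h0
    · rw [h0]
      simp [lg]
    · have := lg_pow_ge (f v) h0
      omega
  · exact Delta0.eqPow (le_refl 2) (DFun.proj 0)
      ((SeqCode_dmk hf.weak hg.weak).sub (SeqCode_dmk hf.weak hh.weak))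

/-- the coding function -/
private noncomputable def SeqCode_sq (a l : ℕ) : ℕ :=
  (Nat.unpair a).1 / 2 ^ SeqCode_mk (Nat.unpair a).2 l %
    2 ^ (SeqCode_mk (Nat.unpair a).2 (l + 1) - SeqCode_mk (Nat.unpair a).2 l)

private theorem SeqCode_dsq : DFun 2 (fun v => SeqCode_sq (v 0) (v 1)) := by
  have ha : DFun 2 (fun v => v 0) := DFun.proj 0
  have hl : DFun 2 (fun v => v 1) := DFun.proj 1
  have hA := ha.unpair1
  have hB := ha.unpair2
  exact DFun.modAny (DFun.divPow (le_refl 2) hA (SeqCode_dmk hB hl))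
    (SeqCode_dpow hB (hl.add (DFun.const 1)) hl)

section

variable (y : ℕ → ℕ)

private def SeqCode_k (l : ℕ) : ℕ := lg (y l + 2) + 1

private def SeqCode_t (l : ℕ) : ℕ := ∑ i ∈ range l, SeqCode_k y i

private def SeqCode_A (L : ℕ) : ℕ := ∑ i ∈ range L, y i * 2 ^ SeqCode_t y i

private def SeqCode_B (L : ℕ) : ℕ := ∑ i ∈ range (L + 1), 2 ^ SeqCode_t y i

private theorem SeqCode_t_succ (l : ℕ) : SeqCode_t y (l + 1) = SeqCode_t y l + SeqCode_k y l := by
  unfold SeqCode_t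
  rw [sum_range_succ]

private theorem SeqCode_t_mono {l L : ℕ} (h : l ≤ L) : SeqCode_t y l ≤ SeqCode_t y L := by
  unfold SeqCode_t
  exact sum_le_sum_of_subset (range_subset_range.2 h)

private theorem SeqCode_y_lt (l : ℕ) : y l + 1 < 2 ^ SeqCode_k y l := by
  have h := lt_two_pow_lg (y l + 2)
  unfold SeqCode_k
  omega

private theorem SeqCode_A_succ (L : ℕ) :
    SeqCode_A y (L + 1) = SeqCode_A y L + y L * 2 ^ SeqCode_t y L := by
  unfold SeqCode_A
  rw [sum_range_succ]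

private theorem SeqCode_B_succ (L : ℕ) :
    SeqCode_B y (L + 1) = SeqCode_B y L + 2 ^ SeqCode_t y (L + 1) := by
  unfold SeqCode_B
  rw [sum_range_succ _ (L + 1)]

private theorem SeqCode_A_lt (L : ℕ) : SeqCode_A y L < 2 ^ SeqCode_t y L := by
  induction L with
  | zero => simp [SeqCode_A]
  | succ L ih =>
    rw [SeqCode_A_succ, SeqCode_t_succ, pow_add]
    have h1 := SeqCode_y_lt y L
    have h2 : (y L + 1) * 2 ^ SeqCode_t y L ≤ 2 ^ SeqCode_k y L * 2 ^ SeqCode_t y L :=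
      Nat.mul_le_mul_right _ h1.le
    have h3 : (y L + 1) * 2 ^ SeqCode_t y L = y L * 2 ^ SeqCode_t y L + 2 ^ SeqCode_t y L := by
      ring
    have h4 : 2 ^ SeqCode_t y L * 2 ^ SeqCode_k y L = 2 ^ SeqCode_k y L * 2 ^ SeqCode_t y L :=
      mul_comm _ _
    omega

private theorem SeqCode_A_dig (L : ℕ) : ∀ l, l < L →
    SeqCode_A y L / 2 ^ SeqCode_t y l % 2 ^ SeqCode_k y l = y l := by
  induction L with
  | zero =>
    intro l hl
    omega
  | succ L ih =>
    intro l hl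
    rw [SeqCode_A_succ]
    rcases Nat.lt_succ_iff_lt_or_eq.1 hl with h | rfl
    · have h1 : SeqCode_t y l + SeqCode_k y l ≤ SeqCode_t y L := by
        rw [← SeqCode_t_succ]
        exact SeqCode_t_mono y h
      obtain ⟨e, he⟩ := Nat.exists_eq_add_of_le h1
      have h2 : y L * 2 ^ SeqCode_t y L =
          2 ^ SeqCode_t y l * (2 ^ SeqCode_k y l * (y L * 2 ^ e)) := by
        rw [he, pow_add, pow_add]
        ring
      rw [h2, Nat.add_mul_div_left _ _ (by positivity), Nat.add_mul_mod_self_left]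
      exact ih l h
    · rw [Nat.add_mul_div_right _ _ (by positivity), Nat.div_eq_of_lt (SeqCode_A_lt y l),
        zero_add]
      exact Nat.mod_eq_of_lt (by have := SeqCode_y_lt y l; omega)

private theorem SeqCode_B_lt (L : ℕ) : SeqCode_B y L < 2 ^ (SeqCode_t y L + 1) := by
  induction L with
  | zero =>
    have h0 : 0 < 2 ^ SeqCode_t y 0 := by positivity
    unfold SeqCode_B
    rw [zero_add, sum_range_one, pow_succ]
    omega
  | succ L ih =>
    rw [SeqCode_B_succ, pow_succ]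
    have h1 : SeqCode_t y L + 1 ≤ SeqCode_t y (L + 1) := by
      rw [SeqCode_t_succ]
      unfold SeqCode_k
      omega
    have h2 : 2 ^ (SeqCode_t y L + 1) ≤ 2 ^ SeqCode_t y (L + 1) :=
      Nat.pow_le_pow_right (by norm_num) h1
    omega

private theorem SeqCode_B_bit {L p : ℕ} (hp : p < SeqCode_t y (L + 1)) :
    SeqCode_B y (L + 1) / 2 ^ p % 2 = SeqCode_B y L / 2 ^ p % 2 := by
  obtain ⟨e, he⟩ := Nat.exists_eq_add_of_lt hp
  rw [SeqCode_B_succ]
  have h2 : 2 ^ SeqCode_t y (L + 1) = 2 ^ p * (2 * 2 ^ e) := by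
    rw [he, pow_add, pow_add]
    ring
  rw [h2, Nat.add_mul_div_left _ _ (by positivity), Nat.add_mul_mod_self_left]

private theorem SeqCode_B_le {l L : ℕ} (h : l ≤ L) : 2 ^ SeqCode_t y l ≤ SeqCode_B y L := by
  unfold SeqCode_B
  exact single_le_sum (f := fun i => 2 ^ SeqCode_t y i) (fun i _ => Nat.zero_le _)
    (mem_range.2 (by omega))

private theorem SeqCode_B_one (L : ℕ) : ∀ l, l ≤ L →
    SeqCode_B y L / 2 ^ SeqCode_t y l % 2 = 1 := by
  have htop : ∀ L, SeqCode_B y L / 2 ^ SeqCode_t y L % 2 = 1 := by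
    intro L
    have h1 : SeqCode_B y L / 2 ^ SeqCode_t y L = 1 := by
      refine Nat.div_eq_of_lt_le ?_ ?_
      · rw [one_mul]
        exact SeqCode_B_le y le_rfl
      · have h2 := SeqCode_B_lt y L
        rw [pow_succ] at h2
        omega
    rw [h1]
  induction L with
  | zero =>
    intro l hl
    obtain rfl : l = 0 := by omega
    exact htop 0
  | succ L ih =>
    intro l hl
    rcases Nat.le_succ_iff.1 hl with h | rfl
    · rw [SeqCode_B_bit y ?_]
      · exact ih l h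
      · have h1 := SeqCode_t_mono y h
        rw [SeqCode_t_succ]
        unfold SeqCode_k
        omega
    · exact htop _

private theorem SeqCode_B_cnt (L : ℕ) : ∀ l, l ≤ L →
    ∑ i ∈ range (SeqCode_t y l), (SeqCode_B y L / 2 ^ i % 2) = l := by
  induction L with
  | zero =>
    intro l hl
    obtain rfl : l = 0 := by omega
    simp [SeqCode_t]
  | succ L ih =>
    intro l hl
    have h1 : ∀ l, l ≤ L + 1 → ∑ i ∈ range (SeqCode_t y l), (SeqCode_B y (L + 1) / 2 ^ i % 2) =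
        ∑ i ∈ range (SeqCode_t y l), (SeqCode_B y L / 2 ^ i % 2) := by
      intro l hl
      refine sum_congr rfl fun i hi => SeqCode_B_bit y ?_
      exact (mem_range.1 hi).trans_le (SeqCode_t_mono y hl)
    rw [h1 l hl]
    rcases Nat.le_succ_iff.1 hl with h | rfl
    · exact ih l h
    · have h2 : SeqCode_t y (L + 1) = SeqCode_t y L + 1 + lg (y L + 2) := by
        rw [SeqCode_t_succ]
        unfold SeqCode_k
        omega
      rw [h2, sum_range_add, sum_range_succ, ih L le_rfl, SeqCode_B_one y L L le_rfl]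
      have h3 : ∑ x ∈ range (lg (y L + 2)), (SeqCode_B y L / 2 ^ (SeqCode_t y L + 1 + x) % 2) =
          0 := by
        refine sum_eq_zero fun x _ => ?_
        rw [Nat.div_eq_of_lt ((SeqCode_B_lt y L).trans_le (Nat.pow_le_pow_right (by norm_num)
          (by omega : SeqCode_t y L + 1 ≤ SeqCode_t y L + 1 + x))), Nat.zero_mod]
      rw [h3]

private theorem SeqCode_mk_eq {L l : ℕ} (hl : l ≤ L) :
    SeqCode_mk (SeqCode_B y L) l = SeqCode_t y l := by
  have hpos : SeqCode_B y L ≠ 0 := by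
    have h1 := SeqCode_B_le y hl
    have h2 : 0 < 2 ^ SeqCode_t y l := by positivity
    omega
  have hmem : SeqCode_R (SeqCode_B y L) l (SeqCode_t y l) := by
    have h1 : SeqCode_t y l ≤ lg (SeqCode_B y L) :=
      (Nat.le_log_iff_pow_le (by norm_num) hpos).2 (SeqCode_B_le y hl)
    refine ⟨h1, SeqCode_B_one y L l hl, ?_⟩
    unfold SeqCode_cnt
    rw [min_eq_left (by omega)]
    exact SeqCode_B_cnt y L l hl
  refine le_antisymm (Nat.sInf_le hmem) ?_
  refine le_csInf ⟨_, hmem⟩ ?_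
  rintro p ⟨h1, h2, h3⟩
  by_contra h4
  have h5 : p + 1 ≤ SeqCode_t y l := by omega
  unfold SeqCode_cnt at h3
  rw [min_eq_left (by omega)] at h3
  have h6 : ∑ i ∈ range (p + 1), (SeqCode_B y L / 2 ^ i % 2) ≤
      ∑ i ∈ range (SeqCode_t y l), (SeqCode_B y L / 2 ^ i % 2) :=
    sum_le_sum_of_subset (range_subset_range.2 h5)
  rw [sum_range_succ, h3, h2, SeqCode_B_cnt y L l hl] at h6
  omega

private theorem SeqCode_bound {X L : ℕ} (h : ∏ l ∈ range L, (y l + 2) ≤ X) :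
    2 ^ SeqCode_t y L ≤ X ^ 2 := by
  have h1 : ∀ l, 2 ^ SeqCode_k y l ≤ (y l + 2) ^ 2 := by
    intro l
    have h2 := lg_pow_ge (y l + 2) (by omega)
    have h3 : 1 ≤ lg (y l + 2) := one_le_lg (by omega)
    calc 2 ^ SeqCode_k y l ≤ 2 ^ (lg (y l + 2) + lg (y l + 2)) :=
          Nat.pow_le_pow_right (by norm_num) (by unfold SeqCode_k; omega)
      _ = 2 ^ lg (y l + 2) * 2 ^ lg (y l + 2) := pow_add _ _ _
      _ ≤ (y l + 2) * (y l + 2) := Nat.mul_le_mul h2 h2
      _ = (y l + 2) ^ 2 := (sq _).symm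
  calc 2 ^ SeqCode_t y L = ∏ l ∈ range L, 2 ^ SeqCode_k y l := by
        unfold SeqCode_t
        rw [prod_pow_eq_pow_sum]
    _ ≤ ∏ l ∈ range L, (y l + 2) ^ 2 := prod_le_prod' fun l _ => h1 l
    _ = (∏ l ∈ range L, (y l + 2)) ^ 2 := prod_pow _ _ _
    _ ≤ X ^ 2 := Nat.pow_le_pow_left h 2

end

theorem seq_code : ∃ (sq : ℕ → ℕ → ℕ) (C : ℕ), DFun 2 (fun v => sq (v 0) (v 1)) ∧
    ∀ (X L : ℕ) (y : ℕ → ℕ), ∏ l ∈ range L, (y l + 2) ≤ X →
      ∃ a, a ≤ (X + 2) ^ C ∧ ∀ l, l < L → sq a l = y l := by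
  refine ⟨SeqCode_sq, 6, SeqCode_dsq, fun X L y h => ?_⟩
  refine ⟨Nat.pair (SeqCode_A y L) (SeqCode_B y L), ?_, fun l hl => ?_⟩
  · have h1 := SeqCode_bound y h
    have h2 := SeqCode_A_lt y L
    have h3 := SeqCode_B_lt y L
    rw [pow_succ] at h3
    have h4 := Nat.pair_lt_max_add_one_sq (SeqCode_A y L) (SeqCode_B y L)
    have h5 : max (SeqCode_A y L) (SeqCode_B y L) + 1 ≤ (X + 2) ^ 3 := by
      have h6 : max (SeqCode_A y L) (SeqCode_B y L) ≤ X ^ 2 * 2 := max_le (by omega) (by omega)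
      nlinarith [sq_nonneg X]
    calc Nat.pair (SeqCode_A y L) (SeqCode_B y L)
        ≤ (max (SeqCode_A y L) (SeqCode_B y L) + 1) ^ 2 := h4.le
      _ ≤ ((X + 2) ^ 3) ^ 2 := Nat.pow_le_pow_left h5 2
      _ = (X + 2) ^ 6 := by ring
  · unfold SeqCode_sq
    rw [Nat.unpair_pair]
    show SeqCode_A y L / 2 ^ SeqCode_mk (SeqCode_B y L) l %
      2 ^ (SeqCode_mk (SeqCode_B y L) (l + 1) - SeqCode_mk (SeqCode_B y L) l) = y l
    rw [SeqCode_mk_eq y hl.le, SeqCode_mk_eq y hl, SeqCode_t_succ, Nat.add_sub_cancel_left]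
    exact SeqCode_A_dig y L l hl

end Pool.Agent.LPC
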