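import Pool.Agent.LPC.Leaf
import Pool.Agent.MTr.QMain

/-!
# Package LPC-ZFToolsA (part of ZFTools): closure properties of integer valued definable functions

All of these are routine from `Pool/Agent/MTr/ZF.lean` (`ZF.add`, `mul`, `sum`, `ite`, `le`, `eq`,
`toNat`, `natAbs`, `comp`), `Pool/Agent/Grz/Delta0.lean` and `Pool/Agent/PTr/Chain.lean`, `Pow.lean`.

* `zf_ofGraph`: a function with bounded absolute value and `Delta0` graph (stated through positive and
  negative part) — only a helper, optional.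
* `zf_ediv`: `f v / g v` (floor), `g` natural. For `g v = 0` the value is `0`. Graph:
  `y = f / g ↔ g y ≤ f < g (y + 1)`; the positive part `(f / g).toNat` and the negative part
  `(-(f/g)).toNat` are at most `|f|` and have `Delta0` graphs (`DFun.ofGraph`, `ZF.le`, `ZF.lt`);
  or use `f / g = (f - f % g) / g` with the existing `ZF.emod` and `DFun.divPos` on absolute values.
* `zf_prod`: finite products. `zf_det`: `Matrix.det_apply'`, signs are constants. `zf_adj`:
  `Matrix.adjugate_apply` (determinant of `updateRow` with a unit vector: entries `ZF`).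
* `zf_sign`: cases. `zf_Rm`. `d0_LP`: finite combination of `ZF.lt`, `ZF.eq`.
* `zf_pick`, `dfun_pick`: `f (ι v) v` for `ι v ∈ Fin d` with `(ι v : ℕ)` definable: equal to
  `∑_i [ι v = i] f i v`.
* `zf_app`: substitution (`ZF.comp` with `Fin.cons`).
* `zf_poly`: `MvPolynomial.eval` of a fixed polynomial at `ZF` functions (`MvPolynomial.induction_on`).
* `dfun_pow`: `b ^ g v` is `DFun` if it is bounded by a `DFun` (`Delta0.eqPow`, `DFun.ofGraph`).
* `zf_lidx`: `lidx` of `ZF` vectors.

Difficulty: 0.9 h (may be split).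
-/

set_option autoImplicit false

namespace Pool.Agent.LPC

open Finset Pool.Agent.Grz Pool.Agent.GAvg Pool.Agent.PTr Pool.Agent.MTr

variable {n d : ℕ}

theorem zf_ediv {f : (Fin n → ℕ) → ℤ} {g : (Fin n → ℕ) → ℕ} (hf : ZF n f) (hg : DFun n g) :
    ZF n (fun v => f v / (g v : ℤ)) := by
  classical
  obtain ⟨p, m, hp, hm, e⟩ := hf
  have hg1 := hg.sub (DFun.const 1)
  have h1 := (hp.add (hm.mul hg1)).div hg1
  have h2 := (ZF.nat h1).sub (ZF.nat hm)
  have h3 := ZF.ite (Delta0.eqFun hg (DFun.const 0)) (ZF.const 0) h2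
  refine h3.congr fun v => ?_
  by_cases h0 : g v = 0
  · rw [if_pos h0, h0]
    simp
  · rw [if_neg h0, e]
    have h4 : g v - 1 + 1 = g v := Nat.sub_add_cancel (Nat.pos_of_ne_zero h0)
    have h5 : ((g v - 1 : ℕ) : ℤ) = (g v : ℤ) - 1 := by
      have := Nat.pos_of_ne_zero h0
      push_cast [Nat.cast_sub this]
      ring
    have h6 : (p v : ℤ) - (m v : ℤ) =
        ((p v + m v * (g v - 1) : ℕ) : ℤ) + (-(m v : ℤ)) * (g v : ℤ) := by
      rw [Nat.cast_add, Nat.cast_mul, h5]
      ring
    have h7 : (g v : ℤ) ≠ 0 := by exact_mod_cast h0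
    rw [h6, Int.add_mul_ediv_right _ _ h7, h4]
    push_cast
    ring

theorem zf_prod {α : Type} (s : Finset α) {f : α → (Fin n → ℕ) → ℤ} (hf : ∀ i, ZF n (f i)) :
    ZF n (fun v => ∏ i ∈ s, f i v) := by
  classical
  induction s using Finset.induction_on with
  | empty => exact (ZF.const 1).congr fun v => by simp
  | insert a s ha ih => exact ((hf a).mul ih).congr fun v => by rw [Finset.prod_insert ha]

theorem zf_det {U : (Fin n → ℕ) → Matrix (Fin d) (Fin d) ℤ}
    (hU : ∀ i j, ZF n (fun v => U v i j)) : ZF n (fun v => (U v).det) := by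
  have h1 : ZF n (fun v => ∑ σ : Equiv.Perm (Fin d),
      ((Equiv.Perm.sign σ : ℤˣ) : ℤ) * ∏ i, U v (σ i) i) :=
    ZF.sum _ fun σ => (ZF.const _).mul (zf_prod _ fun i => hU (σ i) i)
  refine h1.congr fun v => ?_
  rw [Matrix.det_apply']
  refine Finset.sum_congr rfl fun σ _ => ?_
  norm_cast

theorem zf_adj {U : (Fin n → ℕ) → Matrix (Fin d) (Fin d) ℤ}
    (hU : ∀ i j, ZF n (fun v => U v i j)) (i j : Fin d) :
    ZF n (fun v => (U v).adjugate i j) := by
  classical
  have h1 : ZF n (fun v => ((U v).updateRow j (Pi.single i 1)).det) := by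
    refine zf_det fun a b => ?_
    by_cases h : a = j
    · refine (ZF.const ((Pi.single i 1 : Fin d → ℤ) b)).congr fun v => ?_
      rw [h, Matrix.updateRow_self]
    · refine (hU a b).congr fun v => ?_
      rw [Matrix.updateRow_ne h]
  refine h1.congr fun v => ?_
  rw [Matrix.adjugate_apply]

theorem zf_sign {f : (Fin n → ℕ) → ℤ} (hf : ZF n f) : ZF n (fun v => (f v).sign) := by
  classical
  have h1 := ZF.ite ((ZF.const 0).lt hf) (ZF.const 1)
    (ZF.ite (hf.lt (ZF.const 0)) (ZF.const (-1)) (ZF.const 0))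
  refine h1.congr fun v => ?_
  split_ifs with h2 h3
  · exact Int.sign_eq_one_of_pos h2
  · exact Int.sign_eq_neg_one_of_neg h3
  · have h4 : f v = 0 := le_antisymm (not_lt.mp h2) (not_lt.mp h3)
    rw [h4, Int.sign_zero]

theorem zf_Rm {U : (Fin n → ℕ) → Matrix (Fin d) (Fin d) ℤ}
    (hU : ∀ i j, ZF n (fun v => U v i j)) (i j : Fin d) : ZF n (fun v => Rm (U v) i j) := by
  refine ((zf_sign (zf_det hU)).mul (zf_adj hU i j)).congr fun v => ?_
  rw [Rm, Matrix.smul_apply, smul_eq_mul]

theorem d0_LP {r : ℕ} {y : (Fin n → ℕ) → ℤ} {w : (Fin n → ℕ) → Fin r → ℤ} (hy : ZF n y)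
    (hw : ∀ j, ZF n (fun v => w v j)) : Delta0 n (fun v => LP (y v) (w v)) := by
  have h1 : ∀ i j : Fin r, Delta0 n (fun v => j < i → w v j = 0) := by
    intro i j
    by_cases h : j < i
    · exact ((hw j).eq (ZF.const 0)).of_iff fun v => ⟨fun h1 => h1 h, fun h1 _ => h1⟩
    · exact (Delta0.eqFun (DFun.const 0) (DFun.const 0)).of_iff fun v =>
        ⟨fun _ => rfl, fun _ h1 => absurd h1 h⟩
  exact ((ZF.const 0).lt hy).or ((hy.eq (ZF.const 0)).and
    (Delta0.exOf fun i => ((ZF.const 0).lt (hw i)).and (Delta0.allOf fun j => h1 i j)))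

end Pool.Agent.LPC
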