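import Pool.Agent.LPC.Leaf
import Pool.Agent.MTr.QMain
import Pool.Agent.LPC.ZFToolsA

/-!
# Package LPC-ZFToolsB (part of ZFTools): closure properties of integer valued definable functions

All of these are routine from `Pool/Agent/MTr/ZF.lean` (`ZF.add`, `mul`, `sum`, `ite`, `le`, `eq`,
`toNat`, `natAbs`, `comp`), `Pool/Agent/Grz/Delta0.lean` and `Pool/Agent/PTr/Chain.lean`, `Pow.lean`.

* `zf_ofGraph`: a function with bounded absolute value and `Delta0` graph (stated through positive and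
  negative part) — only a helper, optional.
* `zf_ediv`: `f v / g v` (floor), `g` natural. For `g v = 0` the value is `0`. Graph:
  `y = f / g ↔ g y ≤ f < g (y + 1)`; the positive part `(f / g).toNat` and the negative part
  `(-(f/g)).toNat` are at most `|f|` and have `Delta0` graphs (`DFun.ofGraph`, `ZF.le`, `ZF.lt`);
  or use `f / g = (f - f % g) / g` with the existing `ZF.emod` and `DFun.divPos` on absolute values.
* `zf_prod`: finite products. `zf_det`: `Matrix.det_apply'`, signs are constants. `zf_adj`: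
  `Matrix.adjugate_apply` (determinant of `updateRow` with a unit vector: entries `ZF`).
* `zf_sign`: cases. `zf_Rm`. `d0_LP`: finite combination of `ZF.lt`, `ZF.eq`.
* `zf_pick`, `dfun_pick`: `f (ι v) v` for `ι v ∈ Fin d` with `(ι v : ℕ)` definable: equal to
  `∑_i [ι v = i] f i v`.
* `zf_app`: substitution (`ZF.comp` with `Fin.cons`).
* `zf_poly`: `MvPolynomial.eval` of a fixed polynomial at `ZF` functions (`MvPolynomial.induction_on`).
* `dfun_pow`: `b ^ g v` is `DFun` if it is bounded by a `DFun` (`Delta0.eqPow`, `DFun.ofGraph`).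
* `zf_lidx`: `lidx` of `ZF` vectors.

Difficulty: 0.9 h (may be split).
-/

set_option autoImplicit false

namespace Pool.Agent.LPC

open Finset Pool.Agent.Grz Pool.Agent.GAvg Pool.Agent.PTr Pool.Agent.MTr

variable {n d : ℕ}

theorem zf_pick {f : Fin d → (Fin n → ℕ) → ℤ} (hf : ∀ i, ZF n (f i)) {ι : (Fin n → ℕ) → Fin d}
    (hι : DFun n (fun v => (ι v : ℕ))) : ZF n (fun v => f (ι v) v) := by
  refine (ZF.sum univ (f := fun (i : Fin d) v => if (ι v : ℕ) = (i : ℕ) then f i v else 0)
    (fun i => ZF.ite (Delta0.eqFun hι (DFun.const (i : ℕ))) (hf i) (ZF.const 0))).congr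
    fun v => ?_
  rw [Finset.sum_eq_single (ι v)]
  · rw [if_pos rfl]
  · intro i _ hi
    rw [if_neg]
    intro h
    exact hi (Fin.ext h.symm)
  · intro h
    exact absurd (mem_univ _) h

theorem dfun_pick {f : Fin d → (Fin n → ℕ) → ℕ} (hf : ∀ i, DFun n (f i))
    {ι : (Fin n → ℕ) → Fin d} (hι : DFun n (fun v => (ι v : ℕ))) :
    DFun n (fun v => f (ι v) v) := by
  have h := (zf_pick (f := fun i v => (f i v : ℤ)) (fun i => ZF.nat (hf i)) hι).toNat
  simpa using h

theorem zf_app {m : ℕ} {F : ℕ → (Fin n → ℕ) → ℤ}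
    (hF : ZF (n + 1) (fun w => F (w 0) (fun i => w i.succ))) {u : (Fin m → ℕ) → ℕ}
    {v : Fin n → (Fin m → ℕ) → ℕ} (hu : DFun m u) (hv : ∀ i, DFun m (v i)) :
    ZF m (fun w => F (u w) (fun i => v i w)) := by
  exact hF.comp (h := Fin.cons u v) (fun i => by
    refine Fin.cases ?_ (fun i => ?_) i
    · exact hu
    · exact hv i)

theorem zf_poly {σ : Type} [Fintype σ] (p : MvPolynomial σ ℤ) {f : σ → (Fin n → ℕ) → ℤ}
    (hf : ∀ i, ZF n (f i)) : ZF n (fun v => MvPolynomial.eval (fun i => f i v) p) := by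
  induction p using MvPolynomial.induction_on with
  | C a => exact (ZF.const a).congr fun v => by rw [MvPolynomial.eval_C]
  | add p q hp hq => exact (hp.add hq).congr fun v => by rw [map_add]
  | mul_X p i hp => exact (hp.mul (hf i)).congr fun v => by rw [map_mul, MvPolynomial.eval_X]

theorem dfun_pow {b : ℕ} (hb : 2 ≤ b) {g B : (Fin n → ℕ) → ℕ} (hg : DFun n g) (hB : DFun n B)
    (h : ∀ v, b ^ g v ≤ B v) : DFun n (fun v => b ^ g v) := by
  exact DFun.ofGraph hB h (Delta0.eqPow hb (DFun.proj 0) hg.weak)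

theorem zf_lidx {R q : (Fin n → ℕ) → Fin d → ℤ} {h : (Fin n → ℕ) → ℕ}
    (hR : ∀ j, ZF n (fun v => R v j)) (hq : ∀ j, ZF n (fun v => q v j)) (hh : DFun n h) :
    ZF n (fun v => lidx (R v) (q v) (h v)) := by
  have hs : ZF n (fun v => ∑ j, R v j * q v j) := ZF.sum univ fun j => (hR j).mul (hq j)
  have h1 : ZF n (fun v => -((∑ j, R v j * q v j) / (h v : ℤ))) := (zf_ediv hs hh).neg
  have h2 : ZF n (fun v => (-(∑ j, R v j * q v j)) / (h v : ℤ) + 1) :=
    (zf_ediv hs.neg hh).add (ZF.const 1)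
  have h3 : Delta0 n (fun v => LP (0 : ℤ) (R v)) := d0_LP (ZF.const 0) hR
  unfold lidx
  classical
  refine (ZF.ite h3 h1 h2).congr fun v => ?_
  split_ifs <;> rfl


end Pool.Agent.LPC
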