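import Pool.Agent.LPC.Kid

/-!
# Package LPC-NodeA (part of Node): sizes along a path of the tree

`d = m + 2`, `U` an integer `d × d` matrix with `det U ≠ 0`, `D_l = |det (nd U s l)|`, `D = D_0`.

* `nd_det`: `det (nd U s l) ≠ 0`. Induction, `kid_det`.
* `nd_prod`: `∏_(l < L) D_l ≤ D^d`. *Proof.* Show `(∏_(l < L) D_l) D_L^d ≤ D^d` by induction on `L`, using
  `D_(L+1)^d ≤ D_L^(d-1)` (`kid_det`): `D_L · D_(L+1)^d ≤ D_L^d`. Then `D_L ≥ 1`.
* `nd_one`: `D_l = 1` for `l ≥ dep d D = d (lg (lg D + 1) + 1)`. *Proof.* By induction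
  `D_l^(d^l) ≤ D^((d-1)^l)`: `D_(l+1)^(d^(l+1)) = (D_(l+1)^d)^(d^l) ≤ (D_l^(d-1))^(d^l) =
  (D_l^(d^l))^(d-1) ≤ D^((d-1)^(l+1))`. Let `k = lg (lg D + 1) + 1`, `l = d k`, and suppose `D_l ≥ 2`.
  `D ≤ 2^(lg D + 1)`, so `2^(d^l) ≤ 2^((lg D + 1) (d-1)^l)`, `d^l ≤ (lg D + 1) (d-1)^l`. But
  `d^d ≥ 2 (d-1)^d` (`d^d = ((d-1) + 1)^d ≥ (d-1)^d + d (d-1)^(d-1)`: binomial theorem, or
  `one_add_mul_le_pow`), so `d^l ≥ 2^k (d-1)^l > (lg D + 1) (d-1)^l` since `2^k > lg D + 1`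
  (`Nat.lt_pow_succ_log_self`) and `(d-1)^l > 0`: contradiction. So `D_(dk) = 1`, and
  `D_(l+1) = 1` if `D_l = 1`.
* `nd_le`: entries of `nd U s l` are at most `d^l B`. Induction, `kid_le`.
* `pow_dep_le`: `d^(dep d D) ≤ (2 (lg D + 1))^(d^2)`. *Proof.* `d ≤ 2^d` (`Nat.lt_two_pow_self`), so
  `d^d ≤ 2^(d^2)`, `d^(d k) = (d^d)^k ≤ (2^k)^(d^2)`, and `2^k = 2 · 2^(lg (lg D + 1)) ≤ 2 (lg D + 1)`.
* `dat_prod_le`: there is `C` (depending on `m`) with `∏_(l < L) (dat (nd U s l) (dgt m s l) + 2) ≤ (D + 2)^C`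
  for all `U`, `s` and `L ≤ dep d D`. *Proof.* By `dat_le` the product is at most
  `∏_(l<L) ((d+3) D_l)^(4d+1) = ((d+3)^L ∏ D_l)^(4d+1) ≤ ((d+3)^(dep) D^d)^(4d+1)`. `d + 3 ≤ 2^(d+3)`, and
  `2^dep = (2^k)^d ≤ (2 (lg D + 1))^d ≤ (D + 2)^(2d)` (`lg D + 1 ≤ D + 1 `, `2 (D+1) ≤ (D+2)^2`). So
  `C = (4d+1) (2d(d+3) + d)` works.

Difficulty: 0.9 h (may be split).
-/

set_option autoImplicit false

namespace Pool.Agent.LPC

open Finset Pool.Agent.GAvg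

variable {m : ℕ}

theorem nd_det {U : Matrix (Fin (m + 2)) (Fin (m + 2)) ℤ} (hU : U.det ≠ 0) (s l : ℕ) :
    (nd U s l).det ≠ 0 := by
  induction l with
  | zero => exact hU
  | succ l ih => exact (kid_det (by omega) ih (dgt m s l)).1

private theorem nd_pos_NodeA {U : Matrix (Fin (m + 2)) (Fin (m + 2)) ℤ} (hU : U.det ≠ 0)
    (s l : ℕ) : 1 ≤ (nd U s l).det.natAbs :=
  Nat.one_le_iff_ne_zero.mpr (Int.natAbs_ne_zero.mpr (nd_det hU s l))

private theorem nd_step_NodeA {U : Matrix (Fin (m + 2)) (Fin (m + 2)) ℤ} (hU : U.det ≠ 0)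
    (s l : ℕ) : (nd U s (l + 1)).det.natAbs ^ (m + 2) ≤ (nd U s l).det.natAbs ^ (m + 1) :=
  (kid_det (by omega) (nd_det hU s l) (dgt m s l)).2

theorem nd_prod {U : Matrix (Fin (m + 2)) (Fin (m + 2)) ℤ} (hU : U.det ≠ 0) (s L : ℕ) :
    ∏ l ∈ range L, (nd U s l).det.natAbs ≤ U.det.natAbs ^ (m + 2) := by
  have h : ∀ L, (∏ l ∈ range L, (nd U s l).det.natAbs) * (nd U s L).det.natAbs ^ (m + 2) ≤
      U.det.natAbs ^ (m + 2) := by
    intro L
    induction L with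
    | zero => simp [nd]
    | succ L ih =>
      rw [Finset.prod_range_succ]
      calc (∏ l ∈ range L, (nd U s l).det.natAbs) * (nd U s L).det.natAbs *
            (nd U s (L + 1)).det.natAbs ^ (m + 2)
          ≤ (∏ l ∈ range L, (nd U s l).det.natAbs) * (nd U s L).det.natAbs *
            (nd U s L).det.natAbs ^ (m + 1) := Nat.mul_le_mul_left _ (nd_step_NodeA hU s L)
        _ = (∏ l ∈ range L, (nd U s l).det.natAbs) * (nd U s L).det.natAbs ^ (m + 2) := by ring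
        _ ≤ _ := ih
  refine le_trans ?_ (h L)
  exact Nat.le_mul_of_pos_right _ (pow_pos (nd_pos_NodeA hU s L) _)

private theorem binom_NodeA (a n : ℕ) : a ^ (n + 1) + (n + 1) * a ^ n ≤ (a + 1) ^ (n + 1) := by
  induction n with
  | zero => simp
  | succ n ih =>
    calc a ^ (n + 1 + 1) + (n + 1 + 1) * a ^ (n + 1)
        ≤ a ^ (n + 1 + 1) + (n + 1 + 1) * a ^ (n + 1) + (n + 1) * a ^ n := Nat.le_add_right _ _
      _ = (a ^ (n + 1) + (n + 1) * a ^ n) * (a + 1) := by ring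
      _ ≤ (a + 1) ^ (n + 1) * (a + 1) := Nat.mul_le_mul_right _ ih
      _ = (a + 1) ^ (n + 1 + 1) := by ring

private theorem pow_NodeA {U : Matrix (Fin (m + 2)) (Fin (m + 2)) ℤ} (hU : U.det ≠ 0)
    (s l : ℕ) : (nd U s l).det.natAbs ^ ((m + 2) ^ l) ≤ U.det.natAbs ^ ((m + 1) ^ l) := by
  induction l with
  | zero => simp [nd]
  | succ l ih =>
    calc (nd U s (l + 1)).det.natAbs ^ ((m + 2) ^ (l + 1))
        = ((nd U s (l + 1)).det.natAbs ^ (m + 2)) ^ ((m + 2) ^ l) := by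
          rw [← pow_mul]
          congr 1
          ring
      _ ≤ ((nd U s l).det.natAbs ^ (m + 1)) ^ ((m + 2) ^ l) :=
          Nat.pow_le_pow_left (nd_step_NodeA hU s l) _
      _ = ((nd U s l).det.natAbs ^ ((m + 2) ^ l)) ^ (m + 1) := by
          rw [← pow_mul, ← pow_mul, mul_comm]
      _ ≤ (U.det.natAbs ^ ((m + 1) ^ l)) ^ (m + 1) := Nat.pow_le_pow_left ih _
      _ = U.det.natAbs ^ ((m + 1) ^ (l + 1)) := by
          rw [← pow_mul]
          congr 1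

theorem nd_one {U : Matrix (Fin (m + 2)) (Fin (m + 2)) ℤ} (hU : U.det ≠ 0) (s : ℕ) {l : ℕ}
    (hl : dep (m + 2) U.det.natAbs ≤ l) : (nd U s l).det.natAbs = 1 := by
  induction l, hl using Nat.le_induction with
  | base =>
    by_contra hne
    have h1 := nd_pos_NodeA hU s (dep (m + 2) U.det.natAbs)
    have h2 : 2 ≤ (nd U s (dep (m + 2) U.det.natAbs)).det.natAbs := by omega
    set D := U.det.natAbs with hD
    set k := lg (lg D + 1) + 1 with hk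
    have hdep : dep (m + 2) D = (m + 2) * k := rfl
    rw [hdep] at h2
    have h3 := pow_NodeA hU s ((m + 2) * k)
    rw [← hD] at h3
    have h4 : D ≤ 2 ^ (lg D + 1) := (Nat.lt_pow_succ_log_self (by norm_num) D).le
    have h5 : 2 ^ ((m + 2) ^ ((m + 2) * k)) ≤ 2 ^ ((lg D + 1) * (m + 1) ^ ((m + 2) * k)) := by
      calc 2 ^ ((m + 2) ^ ((m + 2) * k))
          ≤ (nd U s ((m + 2) * k)).det.natAbs ^ ((m + 2) ^ ((m + 2) * k)) :=
            Nat.pow_le_pow_left h2 _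
        _ ≤ D ^ ((m + 1) ^ ((m + 2) * k)) := h3
        _ ≤ (2 ^ (lg D + 1)) ^ ((m + 1) ^ ((m + 2) * k)) := Nat.pow_le_pow_left h4 _
        _ = 2 ^ ((lg D + 1) * (m + 1) ^ ((m + 2) * k)) := by rw [← pow_mul]
    have h6 : (m + 2) ^ ((m + 2) * k) ≤ (lg D + 1) * (m + 1) ^ ((m + 2) * k) :=
      (Nat.pow_le_pow_iff_right (by norm_num)).mp h5
    have h7 : 2 * (m + 1) ^ (m + 2) ≤ (m + 2) ^ (m + 2) := by
      have h8 := binom_NodeA (m + 1) (m + 1)
      have h9 : (m + 1) ^ (m + 2) ≤ (m + 1 + 1) * (m + 1) ^ (m + 1) := by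
        rw [pow_succ' (m + 1) (m + 1)]
        exact Nat.mul_le_mul_right _ (by omega)
      have h10 : (m + 1 + 1) ^ (m + 1 + 1) = (m + 2) ^ (m + 2) := rfl
      have h11 : (m + 1) ^ (m + 1 + 1) = (m + 1) ^ (m + 2) := rfl
      omega
    have h12 : 2 ^ k * (m + 1) ^ ((m + 2) * k) ≤ (m + 2) ^ ((m + 2) * k) := by
      calc 2 ^ k * (m + 1) ^ ((m + 2) * k) = (2 * (m + 1) ^ (m + 2)) ^ k := by
            rw [mul_pow, ← pow_mul]
        _ ≤ ((m + 2) ^ (m + 2)) ^ k := Nat.pow_le_pow_left h7 _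
        _ = (m + 2) ^ ((m + 2) * k) := by rw [← pow_mul]
    have h13 : lg D + 1 < 2 ^ k := Nat.lt_pow_succ_log_self (by norm_num) _
    have h14 : 0 < (m + 1) ^ ((m + 2) * k) := by positivity
    have h15 : (lg D + 1) * (m + 1) ^ ((m + 2) * k) < 2 ^ k * (m + 1) ^ ((m + 2) * k) :=
      Nat.mul_lt_mul_of_pos_right h13 h14
    omega
  | succ l _ ih =>
    have h1 := nd_step_NodeA hU s l
    rw [ih, one_pow] at h1
    have h2 := nd_pos_NodeA hU s (l + 1)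
    by_contra hne
    have h3 : 2 ≤ (nd U s (l + 1)).det.natAbs := by omega
    have h4 : 2 ^ 1 ≤ (nd U s (l + 1)).det.natAbs ^ (m + 2) :=
      (Nat.pow_le_pow_left h3 1).trans (Nat.pow_le_pow_right (by omega) (by omega))
    omega

theorem nd_le {U : Matrix (Fin (m + 2)) (Fin (m + 2)) ℤ} (hU : U.det ≠ 0) {B : ℕ}
    (hB : ∀ a b, (U a b).natAbs ≤ B) (s l : ℕ) (a b : Fin (m + 2)) :
    (nd U s l a b).natAbs ≤ (m + 2) ^ l * B := by
  induction l generalizing a b with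
  | zero =>
    rw [pow_zero, one_mul]
    exact hB a b
  | succ l ih =>
    have h := kid_le (by omega) (nd_det hU s l) ih (dgt m s l) a b
    refine h.trans (le_of_eq ?_)
    ring

end Pool.Agent.LPC
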