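import Pool.Agent.LPC.Kid
import Pool.Agent.LPC.NodeA

/-!
# Package LPC-NodeB (part of Node): sizes along a path of the tree

`d = m + 2`, `U` an integer `d × d` matrix with `det U ≠ 0`, `D_l = |det (nd U s l)|`, `D = D_0`.

* `nd_det`: `det (nd U s l) ≠ 0`. Induction, `kid_det`.
* `nd_prod`: `∏_(l < L) D_l ≤ D^d`. *Proof.* Show `(∏_(l < L) D_l) D_L^d ≤ D^d` by induction on `L`, using
  `D_(L+1)^d ≤ D_L^(d-1)` (`kid_det`): `D_L · D_(L+1)^d ≤ D_L^d`. Then `D_L ≥ 1`.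
* `nd_one`: `D_l = 1` for `l ≥ dep d D = d (lg (lg D + 1) + 1)`. *Proof.* By induction
  `D_l^(d^l) ≤ D^((d-1)^l)`: `D_(l+1)^(d^(l+1)) = (D_(l+1)^d)^(d^l) ≤ (D_l^(d-1))^(d^l) =
  (D_l^(d^l))^(d-1) ≤ D^((d-1)^(l+1))`. Let `k = lg (lg D + 1) + 1`, `l = d k`, and suppose `D_l ≥ 2`.
  `D ≤ 2^(lg D + 1)`, so `2^(d^l) ≤ 2^((lg D + 1) (d-1)^l)`, `d^l ≤ (lg D + 1) (d-1)^l`. But
  `d^d ≥ 2 (d-1)^d` (`d^d = ((d-1) + 1)^d ≥ (d-1)^d + d (d-1)^(d-1)`: binomial theorem, or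
  `one_add_mul_le_pow`), so `d^l ≥ 2^k (d-1)^l > (lg D + 1) (d-1)^l` since `2^k > lg D + 1`
  (`Nat.lt_pow_succ_log_self`) and `(d-1)^l > 0`: contradiction. So `D_(dk) = 1`, and
  `D_(l+1) = 1` if `D_l = 1`.
* `nd_le`: entries of `nd U s l` are at most `d^l B`. Induction, `kid_le`.
* `pow_dep_le`: `d^(dep d D) ≤ (2 (lg D + 1))^(d^2)`. *Proof.* `d ≤ 2^d` (`Nat.lt_two_pow_self`), so
  `d^d ≤ 2^(d^2)`, `d^(d k) = (d^d)^k ≤ (2^k)^(d^2)`, and `2^k = 2 · 2^(lg (lg D + 1)) ≤ 2 (lg D + 1)`.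
* `dat_prod_le`: there is `C` (depending on `m`) with `∏_(l < L) (dat (nd U s l) (dgt m s l) + 2) ≤ (D + 2)^C`
  for all `U`, `s` and `L ≤ dep d D`. *Proof.* By `dat_le` the product is at most
  `∏_(l<L) ((d+3) D_l)^(4d+1) = ((d+3)^L ∏ D_l)^(4d+1) ≤ ((d+3)^(dep) D^d)^(4d+1)`. `d + 3 ≤ 2^(d+3)`, and
  `2^dep = (2^k)^d ≤ (2 (lg D + 1))^d ≤ (D + 2)^(2d)` (`lg D + 1 ≤ D + 1 `, `2 (D+1) ≤ (D+2)^2`). So
  `C = (4d+1) (2d(d+3) + d)` works.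

Difficulty: 0.9 h (may be split).
-/

set_option autoImplicit false

namespace Pool.Agent.LPC

open Finset Pool.Agent.GAvg

variable {m : ℕ}

private lemma NodeB_two_pow (D : ℕ) : 2 ^ (lg (lg D + 1) + 1) ≤ 2 * (lg D + 1) := by
  have h : 2 ^ lg (lg D + 1) ≤ lg D + 1 := Nat.pow_log_le_self 2 (by omega)
  rw [pow_succ]
  omega

theorem pow_dep_le (m D : ℕ) :
    (m + 2) ^ dep (m + 2) D ≤ (2 * (lg D + 1)) ^ ((m + 2) ^ 2) := by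
  have h1 : m + 2 ≤ 2 ^ (m + 2) := Nat.lt_two_pow_self.le
  have h2 : (m + 2) ^ (m + 2) ≤ 2 ^ ((m + 2) ^ 2) := by
    calc (m + 2) ^ (m + 2) ≤ (2 ^ (m + 2)) ^ (m + 2) := Nat.pow_le_pow_left h1 _
      _ = 2 ^ ((m + 2) ^ 2) := by rw [← pow_mul, sq]
  unfold dep
  calc (m + 2) ^ ((m + 2) * (lg (lg D + 1) + 1))
      = ((m + 2) ^ (m + 2)) ^ (lg (lg D + 1) + 1) := by rw [pow_mul]
    _ ≤ (2 ^ ((m + 2) ^ 2)) ^ (lg (lg D + 1) + 1) := Nat.pow_le_pow_left h2 _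
    _ = (2 ^ (lg (lg D + 1) + 1)) ^ ((m + 2) ^ 2) := by rw [← pow_mul, ← pow_mul, mul_comm]
    _ ≤ (2 * (lg D + 1)) ^ ((m + 2) ^ 2) := Nat.pow_le_pow_left (NodeB_two_pow D) _

private lemma NodeB_dep (m D : ℕ) :
    (m + 5) ^ dep (m + 2) D ≤ (D + 2) ^ (2 * (m + 2) * (m + 5)) := by
  have h1 : m + 5 ≤ 2 ^ (m + 5) := Nat.lt_two_pow_self.le
  have h2 : 2 * (lg D + 1) ≤ (D + 2) ^ 2 := by
    have : lg D ≤ D := Nat.log_le_self 2 D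
    nlinarith
  have h3 : 2 ^ dep (m + 2) D ≤ (D + 2) ^ (2 * (m + 2)) := by
    unfold dep
    calc 2 ^ ((m + 2) * (lg (lg D + 1) + 1))
        = (2 ^ (lg (lg D + 1) + 1)) ^ (m + 2) := by rw [← pow_mul, mul_comm]
      _ ≤ (2 * (lg D + 1)) ^ (m + 2) := Nat.pow_le_pow_left (NodeB_two_pow D) _
      _ ≤ ((D + 2) ^ 2) ^ (m + 2) := Nat.pow_le_pow_left h2 _
      _ = (D + 2) ^ (2 * (m + 2)) := by rw [← pow_mul]
  calc (m + 5) ^ dep (m + 2) D ≤ (2 ^ (m + 5)) ^ dep (m + 2) D := Nat.pow_le_pow_left h1 _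
    _ = (2 ^ dep (m + 2) D) ^ (m + 5) := by rw [← pow_mul, ← pow_mul, mul_comm]
    _ ≤ ((D + 2) ^ (2 * (m + 2))) ^ (m + 5) := Nat.pow_le_pow_left h3 _
    _ = (D + 2) ^ (2 * (m + 2) * (m + 5)) := by rw [← pow_mul]

theorem dat_prod_le (m : ℕ) : ∃ C : ℕ, ∀ {U : Matrix (Fin (m + 2)) (Fin (m + 2)) ℤ},
    U.det ≠ 0 → ∀ s L : ℕ, L ≤ dep (m + 2) U.det.natAbs →
      ∏ l ∈ range L, (dat (nd U s l) (dgt m s l) + 2) ≤ (U.det.natAbs + 2) ^ C := by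
  refine ⟨(2 * (m + 2) * (m + 5) + (m + 2)) * (4 * (m + 2) + 1), ?_⟩
  intro U hU s L hL
  set D := U.det.natAbs with hD
  have h1 : ∏ l ∈ range L, (dat (nd U s l) (dgt m s l) + 2) ≤
      ∏ l ∈ range L, ((m + 5) * (nd U s l).det.natAbs) ^ (4 * (m + 2) + 1) := by
    refine prod_le_prod' fun l _ => ?_
    exact dat_le (d := m + 2) (by omega) (nd_det hU s l) (dgt m s l)
  have h2 : ∏ l ∈ range L, ((m + 5) * (nd U s l).det.natAbs) ^ (4 * (m + 2) + 1) =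
      ((m + 5) ^ L * ∏ l ∈ range L, (nd U s l).det.natAbs) ^ (4 * (m + 2) + 1) := by
    rw [prod_pow, prod_mul_distrib, prod_const, card_range]
  have h3 : (m + 5) ^ L * ∏ l ∈ range L, (nd U s l).det.natAbs ≤
      (D + 2) ^ (2 * (m + 2) * (m + 5) + (m + 2)) := by
    calc (m + 5) ^ L * ∏ l ∈ range L, (nd U s l).det.natAbs
        ≤ (m + 5) ^ dep (m + 2) D * D ^ (m + 2) :=
          Nat.mul_le_mul (Nat.pow_le_pow_right (by omega) hL) (nd_prod hU s L)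
      _ ≤ (D + 2) ^ (2 * (m + 2) * (m + 5)) * (D + 2) ^ (m + 2) :=
          Nat.mul_le_mul (NodeB_dep m D) (Nat.pow_le_pow_left (by omega) _)
      _ = (D + 2) ^ (2 * (m + 2) * (m + 5) + (m + 2)) := (pow_add _ _ _).symm
  calc ∏ l ∈ range L, (dat (nd U s l) (dgt m s l) + 2)
      ≤ ((m + 5) ^ L * ∏ l ∈ range L, (nd U s l).det.natAbs) ^ (4 * (m + 2) + 1) := h2 ▸ h1
    _ ≤ ((D + 2) ^ (2 * (m + 2) * (m + 5) + (m + 2))) ^ (4 * (m + 2) + 1) :=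
        Nat.pow_le_pow_left h3 _
    _ = (D + 2) ^ ((2 * (m + 2) * (m + 5) + (m + 2)) * (4 * (m + 2) + 1)) := by rw [← pow_mul]


end Pool.Agent.LPC
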