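import Pool.Agent.LPC.SumPoly
import Pool.Agent.LPC.ZFTools

/-!
# Package LPC-ProdRes (part of ProdInt): long products of integer matrices with small result

Let `pm U E l = U E_0 E_1 ⋯ E_(l-1)`.

*Residues (`prod_res`).* `U v`, `E l v` matrices with `ZF` entries (in `v` and in `(l, v)`), `δ l v` a `DFun`,
`L v ≤ (lg (N v) + 1)^K`. There are `DFun`s `R i j (q, v)`, `Q (q, v)` with
`R i j q v ≡ (pm (U v) (E · v) (L v))_ij` and `Q q v ≡ ∏_(l < L v) δ l v` modulo `q`, for
`1 ≤ q ≤ (lg (N v) + 1)^K`. *Proof.* `rec_vec` with the state space `κ = Option (Fin d × Fin d)`, in the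
variables `(q, v)`, `q' = max 1 (min q ((lg (N v) + 1)^K))`: the component `(i, j)` is
`((pm l)_ij % q').toNat`, started at `(U v i j % q').toNat`, step
`x ↦ ((∑_k x_ik (E l v)_kj) % q').toNat` (`Matrix.mul_apply`, `Int.emod_emod_of_dvd`, `Int.add_mul_emod…`;
`ZF.emod`, `ZF.toNat`, `ZF.sum`, `ZF.mul`, `zf_app`), the component `none` is `(∏_(i<l) δ i v) % q'`.
All values are `≤ q' ≤ (lg (N v) + 1)^K`.

*The product (`prod_int`).* With a bound `Bd ∈ DFun n`: there is a matrix `G v` with `ZF` entries such that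
`G v = X` whenever `X` is an integer matrix with entries `≤ Bd v` in absolute value,
`pm (U v) (E · v) (L v) = Π X`, `Π = ∏_(l < L v) δ l v` and `0 < Π ≤ Bd v`. *Proof.* Let
`μ v = lg (2 (Bd v)^2 + 1) + 2`, so `2 (Bd v)^2 < 2^(μ v)`. Use `prod_res` with `N' = N + 8 (Bd + 2)^2` and
`K' ≥ K` so large that `2 μ v ≤ (lg (N' v) + 1)^K'` and `L v ≤ (lg (N' v) + 1)^K'`. Let `y = G i j v` be the least
`y' ≤ 2 Bd v` (then `y = y' - Bd v`) such that for all `1 ≤ q ≤ 2 μ v`:
`(Q q v) y ≡ R i j q v (mod q)` (`ZF.emod` or divisibility by `q` via `ZF`), `y' = Bd v` if there is none;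
definable by its graph (`DFun.ofGraph`, `Delta0.ballFun`). If `X` is as above, then `y = X i j` satisfies the
congruences, as `(pm)_ij = Π X_ij`. If `y, z` with `|y|, |z| ≤ Bd v` both do, then `q ∣ Π (y - z)` for
all `1 ≤ q ≤ 2 μ v` and `|Π (y - z)| ≤ 2 (Bd v)^2 < 2^(μ v)`, so `Π (y - z) = 0`
(`Pool.Agent.PTr.eq_zero_of_dvd_all`), `y = z`. ∎

Difficulty: 1.2 h (two packages: `prod_res`, `prod_int`).
-/

set_option autoImplicit false

namespace Pool.Agent.LPC

open Finset Pool.Agent.Grz Pool.Agent.GAvg Pool.Agent.PTr Pool.Agent.MTr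

/-- `U E_0 ⋯ E_(l-1)` -/
def pm {d : ℕ} (U : Matrix (Fin d) (Fin d) ℤ) (E : ℕ → Matrix (Fin d) (Fin d) ℤ) :
    ℕ → Matrix (Fin d) (Fin d) ℤ
  | 0 => U
  | l + 1 => pm U E l * E l

/-- the modulus used in the recursion -/
private noncomputable def prq {n : ℕ} (K : ℕ) (N : (Fin n → ℕ) → ℕ) (q : ℕ) (v : Fin n → ℕ) : ℕ :=
  min q ((lg (N v) + 1) ^ K) + (1 - min q ((lg (N v) + 1) ^ K))

private theorem prq_pos {n : ℕ} (K : ℕ) (N : (Fin n → ℕ) → ℕ) (q : ℕ) (v : Fin n → ℕ) :
    0 < prq K N q v := by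
  unfold prq
  omega

private theorem prq_le {n : ℕ} (K : ℕ) (N : (Fin n → ℕ) → ℕ) (q : ℕ) (v : Fin n → ℕ) :
    prq K N q v ≤ (lg (N v) + 1) ^ K := by
  have h1 : 0 < (lg (N v) + 1) ^ K := pow_pos (Nat.succ_pos _) K
  have h2 : min q ((lg (N v) + 1) ^ K) ≤ (lg (N v) + 1) ^ K := min_le_right _ _
  unfold prq
  omega

private theorem prq_eq {n : ℕ} (K : ℕ) (N : (Fin n → ℕ) → ℕ) {q : ℕ} {v : Fin n → ℕ}
    (h1 : 1 ≤ q) (h2 : q ≤ (lg (N v) + 1) ^ K) : prq K N q v = q := by
  unfold prq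
  rw [min_eq_left h2]
  omega

private theorem prq_dfun {n : ℕ} (K : ℕ) {N : (Fin n → ℕ) → ℕ} (hN : DFun n N) :
    DFun (n + 1) (fun w => prq K N (w 0) (fun i => w i.succ)) := by
  have h1 : DFun (n + 1) (fun w => (lg (N (fun i => w i.succ)) + 1) ^ K) :=
    DFun.powConst ((DFun.lg (hN.comp fun i => DFun.proj i.succ)).add (DFun.const 1)) K
  have h2 : DFun (n + 1) (fun w => min (w 0) ((lg (N (fun i => w i.succ)) + 1) ^ K)) :=
    (DFun.proj 0).min h1
  exact h2.add ((DFun.const 1).sub h2)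

private theorem toNat_emod (z : ℤ) {q : ℕ} (hq : 0 < q) :
    (((z % (q : ℤ)).toNat : ℕ) : ℤ) = z % (q : ℤ) :=
  Int.toNat_of_nonneg (Int.emod_nonneg _ (by exact_mod_cast hq.ne'))

private theorem mul_emod_aux (a e q : ℤ) : a * e % q = a % q * e % q := by
  conv_rhs => rw [Int.mul_emod, Int.emod_emod_of_dvd _ (dvd_refl q), ← Int.mul_emod]

/-- the states of the recursion -/
private noncomputable def prF {n d : ℕ} (U : (Fin n → ℕ) → Matrix (Fin d) (Fin d) ℤ)
    (E : ℕ → (Fin n → ℕ) → Matrix (Fin d) (Fin d) ℤ) (δ : ℕ → (Fin n → ℕ) → ℕ) (K : ℕ)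
    (N : (Fin n → ℕ) → ℕ) (l q : ℕ) (v : Fin n → ℕ) : Option (Fin d × Fin d) → ℕ
  | some ij => (pm (U v) (fun l => E l v) l ij.1 ij.2 % (prq K N q v : ℤ)).toNat
  | none => (∏ l ∈ range l, δ l v) % prq K N q v

/-- the step of the recursion -/
private noncomputable def prH {n d : ℕ} (E : ℕ → (Fin n → ℕ) → Matrix (Fin d) (Fin d) ℤ)
    (δ : ℕ → (Fin n → ℕ) → ℕ) (K : ℕ) (N : (Fin n → ℕ) → ℕ) :
    Option (Fin d × Fin d) → ℕ → (Option (Fin d × Fin d) → ℕ) → (Fin (n + 1) → ℕ) → ℕ
  | some ij, l, x, w => ((∑ k, (x (some (ij.1, k)) : ℤ) * E l (fun i => w i.succ) k ij.2) %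
      (prq K N (w 0) (fun i => w i.succ) : ℤ)).toNat
  | none, l, x, w => (x none * δ l (fun i => w i.succ)) % prq K N (w 0) (fun i => w i.succ)

theorem prod_res {n d K : ℕ} {U : (Fin n → ℕ) → Matrix (Fin d) (Fin d) ℤ}
    {E : ℕ → (Fin n → ℕ) → Matrix (Fin d) (Fin d) ℤ} {δ : ℕ → (Fin n → ℕ) → ℕ}
    {L N : (Fin n → ℕ) → ℕ} (hU : ∀ i j, ZF n (fun v => U v i j))
    (hE : ∀ i j, ZF (n + 1) (fun w => E (w 0) (fun i => w i.succ) i j))
    (hδ : DFun (n + 1) (fun w => δ (w 0) (fun i => w i.succ))) (hL : DFun n L) (hN : DFun n N)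
    (hLb : ∀ v, L v ≤ (lg (N v) + 1) ^ K) :
    ∃ (R : Fin d → Fin d → ℕ → (Fin n → ℕ) → ℕ) (Q : ℕ → (Fin n → ℕ) → ℕ),
      (∀ i j, DFun (n + 1) (fun w => R i j (w 0) (fun i => w i.succ))) ∧
      DFun (n + 1) (fun w => Q (w 0) (fun i => w i.succ)) ∧
      ∀ q v, 1 ≤ q → q ≤ (lg (N v) + 1) ^ K →
        (∀ i j, (R i j q v : ℤ) = pm (U v) (fun l => E l v) (L v) i j % (q : ℤ)) ∧
          Q q v = (∏ l ∈ range (L v), δ l v) % q := by
  have hq := prq_dfun K hN
  have htail : ∀ {f : (Fin n → ℕ) → ℕ}, DFun n f → DFun (n + 1) (fun w => f (fun i => w i.succ)) :=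
    fun hf => hf.comp fun i => DFun.proj i.succ
  have hmod : ∀ {m : ℕ} {f : (Fin m → ℕ) → ℤ} {g : (Fin m → ℕ) → ℕ}, ZF m f → DFun m g →
      (∀ w, 0 < g w) → DFun m (fun w => (f w % (g w : ℤ)).toNat) := by
    intro m f g hf hg hpos
    refine (?_ : (fun w => (f w % (g w : ℤ)).toNat) =
      fun w => if g w = 0 then 0 else (f w % (g w : ℤ)).toNat) ▸ hf.emod hg
    funext w
    rw [if_neg (hpos w).ne']
  -- definability of the start
  have hA : ∀ k : Option (Fin d × Fin d), DFun (n + 1)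
      (fun w => prF U E δ K N 0 (w 0) (fun i => w i.succ) k) := by
    rintro (_ | ⟨i, j⟩)
    · have h1 : DFun (n + 1) (fun w => (1 : ℕ) % prq K N (w 0) (fun i => w i.succ)) :=
        DFun.modAny (DFun.const 1) hq
      refine (?_ : _ = fun w : Fin (n + 1) → ℕ => (1 : ℕ) % prq K N (w 0) (fun i => w i.succ)) ▸ h1
      funext w
      rfl
    · have h1 := hmod (hU i j).weak hq fun w => prq_pos K N _ _
      exact h1
  -- definability of the step
  have hH : ∀ k : Option (Fin d × Fin d), DOp (Option (Fin d × Fin d)) (n + 1) (prH E δ K N k) := by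
    intro k m l x v hl hx hv
    have hq' : DFun m (fun w => prq K N (v 0 w) (fun i => v i.succ w)) :=
      hq.comp (h := fun i => v i) hv
    rcases k with _ | ⟨i, j⟩
    · have h1 : DFun m (fun w => δ (l w) (fun i => v i.succ w)) := by
        have h2 := hδ.comp (n := m) (h := Fin.cons l fun i => v i.succ) (by
          intro i
          refine Fin.cases ?_ (fun i => ?_) i
          · exact hl
          · exact hv i.succ)
        exact h2
      exact DFun.modAny ((hx none).mul h1) hq'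
    · have h1 : ∀ k, ZF m (fun w => E (l w) (fun i => v i.succ w) k j) := by
        intro k
        have h2 := (hE k j).comp (n := m) (h := Fin.cons l fun i => v i.succ) (by
          intro i
          refine Fin.cases ?_ (fun i => ?_) i
          · exact hl
          · exact hv i.succ)
        exact h2
      exact hmod (ZF.sum univ fun k => (ZF.nat (hx (some (i, k)))).mul (h1 k)) hq'
        fun w => prq_pos K N _ _
  -- the recursion
  have hstep : ∀ (w : Fin (n + 1) → ℕ) (l : ℕ) (k : Option (Fin d × Fin d)),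
      prF U E δ K N (l + 1) (w 0) (fun i => w i.succ) k =
        prH E δ K N k l (prF U E δ K N l (w 0) (fun i => w i.succ)) w := by
    intro w l k
    have hpos := prq_pos K N (w 0) (fun i => w i.succ)
    rcases k with _ | ⟨i, j⟩
    · simp only [prF, prH]
      rw [prod_range_succ, Nat.mod_mul_mod]
    · simp only [prF, prH]
      congr 1
      rw [show pm (U fun i => w i.succ) (fun l => E l fun i => w i.succ) (l + 1) i j =
        ∑ k, pm (U fun i => w i.succ) (fun l => E l fun i => w i.succ) l i k *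
          E l (fun i => w i.succ) k j from Matrix.mul_apply]
      simp only [toNat_emod _ hpos]
      rw [Finset.sum_int_mod, Finset.sum_int_mod (n := (prq K N (w 0) (fun i => w i.succ) : ℤ))
        (f := fun k => pm (U fun i => w i.succ) (fun l => E l fun i => w i.succ) l i k %
          (prq K N (w 0) (fun i => w i.succ) : ℤ) * E l (fun i => w i.succ) k j)]
      congr 1
      refine sum_congr rfl fun k _ => ?_
      exact mul_emod_aux _ _ _
  have hrec : ∀ k : Option (Fin d × Fin d), DFun (n + 1)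
      (fun w => prF U E δ K N (L (fun i => w i.succ)) (w 0) (fun i => w i.succ) k) := fun k =>
    rec_vec K (r := n + 1) (A := fun k w => prF U E δ K N 0 (w 0) (fun i => w i.succ) k)
      (L := fun w => L (fun i => w i.succ)) (N := fun w => N (fun i => w i.succ)) hA (htail hL)
      (htail hN) hH (f := fun l w k => prF U E δ K N l (w 0) (fun i => w i.succ) k)
      (fun w k => rfl) (fun w l _ k => hstep w l k) (fun w => hLb _) (by
        intro w l _ k
        have hpos := prq_pos K N (w 0) (fun i => w i.succ)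
        have hle := prq_le K N (w 0) (fun i => w i.succ)
        refine le_trans (le_of_lt ?_) hle
        rcases k with _ | ⟨i, j⟩
        · exact Nat.mod_lt _ hpos
        · simp only [prF]
          have h1 := toNat_emod
            (pm (U fun i => w i.succ) (fun l => E l fun i => w i.succ) l i j) hpos
          have h2 := Int.emod_lt_of_pos
            (pm (U fun i => w i.succ) (fun l => E l fun i => w i.succ) l i j)
            (by exact_mod_cast hpos : (0 : ℤ) < (prq K N (w 0) (fun i => w i.succ) : ℤ))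
          omega) k
  refine ⟨fun i j q v => prF U E δ K N (L v) q v (some (i, j)),
    fun q v => prF U E δ K N (L v) q v none, fun i j => hrec (some (i, j)), hrec none, ?_⟩
  intro q v h1 h2
  refine ⟨fun i j => ?_, ?_⟩
  · simp only [prF]
    rw [toNat_emod _ (prq_pos K N q v), prq_eq K N h1 h2]
  · simp only [prF]
    rw [prq_eq K N h1 h2]

end Pool.Agent.LPC
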