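import Pool.Agent.LPC.SumPoly
import Pool.Agent.LPC.ZFTools
import Pool.Agent.LPC.ProdRes

/-!
# Package LPC-ProdIntB (part of ProdInt): long products of integer matrices with small result

Let `pm U E l = U E_0 E_1 ⋯ E_(l-1)`.

*Residues (`prod_res`).* `U v`, `E l v` matrices with `ZF` entries (in `v` and in `(l, v)`), `δ l v` a `DFun`,
`L v ≤ (lg (N v) + 1)^K`. There are `DFun`s `R i j (q, v)`, `Q (q, v)` with
`R i j q v ≡ (pm (U v) (E · v) (L v))_ij` and `Q q v ≡ ∏_(l < L v) δ l v` modulo `q`, for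
`1 ≤ q ≤ (lg (N v) + 1)^K`. *Proof.* `rec_vec` with the state space `κ = Option (Fin d × Fin d)`, in the
variables `(q, v)`, `q' = max 1 (min q ((lg (N v) + 1)^K))`: the component `(i, j)` is
`((pm l)_ij % q').toNat`, started at `(U v i j % q').toNat`, step
`x ↦ ((∑_k x_ik (E l v)_kj) % q').toNat` (`Matrix.mul_apply`, `Int.emod_emod_of_dvd`, `Int.add_mul_emod…`;
`ZF.emod`, `ZF.toNat`, `ZF.sum`, `ZF.mul`, `zf_app`), the component `none` is `(∏_(i<l) δ i v) % q'`.
All values are `≤ q' ≤ (lg (N v) + 1)^K`.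

*The product (`prod_int`).* With a bound `Bd ∈ DFun n`: there is a matrix `G v` with `ZF` entries such that
`G v = X` whenever `X` is an integer matrix with entries `≤ Bd v` in absolute value,
`pm (U v) (E · v) (L v) = Π X`, `Π = ∏_(l < L v) δ l v` and `0 < Π ≤ Bd v`. *Proof.* Let
`μ v = lg (2 (Bd v)^2 + 1) + 2`, so `2 (Bd v)^2 < 2^(μ v)`. Use `prod_res` with `N' = N + 8 (Bd + 2)^2` and
`K' ≥ K` so large that `2 μ v ≤ (lg (N' v) + 1)^K'` and `L v ≤ (lg (N' v) + 1)^K'`. Let `y = G i j v` be the least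
`y' ≤ 2 Bd v` (then `y = y' - Bd v`) such that for all `1 ≤ q ≤ 2 μ v`:
`(Q q v) y ≡ R i j q v (mod q)` (`ZF.emod` or divisibility by `q` via `ZF`), `y' = Bd v` if there is none;
definable by its graph (`DFun.ofGraph`, `Delta0.ballFun`). If `X` is as above, then `y = X i j` satisfies the
congruences, as `(pm)_ij = Π X_ij`. If `y, z` with `|y|, |z| ≤ Bd v` both do, then `q ∣ Π (y - z)` for
all `1 ≤ q ≤ 2 μ v` and `|Π (y - z)| ≤ 2 (Bd v)^2 < 2^(μ v)`, so `Π (y - z) = 0`
(`Pool.Agent.PTr.eq_zero_of_dvd_all`), `y = z`. ∎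

Difficulty: 1.2 h (two packages: `prod_res`, `prod_int`).
-/

set_option autoImplicit false

namespace Pool.Agent.LPC

open Finset Pool.Agent.Grz Pool.Agent.GAvg Pool.Agent.PTr Pool.Agent.MTr

/-- the least number operator for functions with `Delta0` graph -/
private theorem ProdIntB_dleast {m : ℕ} {b : (Fin m → ℕ) → ℕ} (hb : DFun m b)
    {Q : ℕ → (Fin m → ℕ) → Prop} (hQb : ∀ x v, Q x v → x ≤ b v)
    (hQ : Delta0 (m + 1) (fun w => Q (w 0) (fun i => w i.succ))) :
    DFun m (fun v => sInf {x | Q x v}) := by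
  refine DFun.ofGraph hb (fun v => ?_) ?_
  · rcases Set.eq_empty_or_nonempty {x | Q x v} with h | h
    · rw [h, Nat.sInf_empty]; exact Nat.zero_le _
    · exact hQb _ _ (Nat.sInf_mem h)
  · have hA : Delta0 (m + 1) (fun w => ∀ y, y ≤ w 0 → (y < w 0 → ¬ Q y (fun i => w i.succ))) := by
      refine Delta0.ballFun (b := fun w => w 0)
        (P := fun y w => y < w 0 → ¬ Q y (fun i => w i.succ)) (DFun.proj 0) ?_
      refine (Delta0.ltFun (DFun.proj 0) (DFun.proj (Fin.succ 0))).imp (Delta0.not ?_)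
      have := hQ.rename (n := m + 1 + 1) (Fin.cons 0 (fun i => i.succ.succ))
      refine this.of_iff ?_
      intro w
      simp [Fin.cons_succ]
    have hN : Delta0 (m + 1) (fun w => ∀ y, y ≤ b (fun i => w i.succ) →
        ¬ Q y (fun i => w i.succ)) := by
      refine Delta0.ballFun (b := fun w => b (fun i => w i.succ))
        (P := fun y w => ¬ Q y (fun i => w i.succ)) hb.weak ?_
      refine Delta0.not ?_
      have := hQ.rename (n := m + 1 + 1) (Fin.cons 0 (fun i => i.succ.succ))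
      refine this.of_iff ?_
      intro w
      simp [Fin.cons_succ]
    have h0 : Delta0 (m + 1) (fun w => w 0 = 0) :=
      Delta0.eqFun (DFun.proj 0) (DFun.const 0)
    refine ((hQ.and hA).or (h0.and hN)).of_iff ?_
    intro w
    constructor
    · intro h
      rcases Set.eq_empty_or_nonempty {x | Q x (fun i => w i.succ)} with he | hne
      · right
        refine ⟨?_, ?_⟩
        · rw [h, he, Nat.sInf_empty]
        · intro y _ hy
          have : y ∈ ({x | Q x (fun i => w i.succ)} : Set ℕ) := hy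
          rw [he] at this
          exact this
      · left
        refine ⟨?_, ?_⟩
        · have := Nat.sInf_mem hne
          rw [← h] at this
          exact this
        · intro y _ hy hQy
          rw [h] at hy
          exact Nat.notMem_of_lt_sInf hy hQy
    · rintro (⟨h1, h2⟩ | ⟨h1, h2⟩)
      · refine le_antisymm ?_ (Nat.sInf_le h1)
        by_contra hlt
        push Not at hlt
        have hm : sInf {x | Q x (fun i => w i.succ)} ∈ ({x | Q x (fun i => w i.succ)} : Set ℕ) :=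
          Nat.sInf_mem ⟨w 0, h1⟩
        exact h2 _ hlt.le hlt hm
      · have : ({x | Q x (fun i => w i.succ)} : Set ℕ) = ∅ := by
          ext y
          simp only [Set.mem_ofPred_eq, Set.mem_empty_iff_false, iff_false]
          intro hy
          exact h2 y (hQb _ _ hy) hy
        rw [h1, this, Nat.sInf_empty]

/-- divisibility of an integer valued definable function by a positive definable function -/
private theorem ProdIntB_dvd {m : ℕ} {f : (Fin m → ℕ) → ℤ} {q : (Fin m → ℕ) → ℕ} (hf : ZF m f)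
    (hq : DFun m q) : Delta0 m (fun v => 1 ≤ q v → (q v : ℤ) ∣ f v) := by
  have h1 := Delta0.eqFun (hf.emod hq) (DFun.const 0)
  refine ((Delta0.leFun (DFun.const 1) hq).imp h1).of_iff fun v => ?_
  refine imp_congr_right fun h => ?_
  have h0 : q v ≠ 0 := by omega
  rw [if_neg h0, Int.dvd_iff_emod_eq_zero]
  have h2 : 0 ≤ f v % (q v : ℤ) := Int.emod_nonneg _ (by exact_mod_cast h0)
  omega

/-- two more parameters -/
private theorem ProdIntB_weak {n : ℕ} {F : ℕ → (Fin n → ℕ) → ℕ}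
    (hF : DFun (n + 1) (fun w => F (w 0) (fun i => w i.succ))) :
    DFun (n + 1 + 1) (fun w => F (w 0) (fun i => w i.succ.succ)) := by
  have h1 : ∀ i, DFun (n + 1 + 1)
      ((Fin.cons (fun w => w 0) (fun i w => w i.succ.succ) :
        Fin (n + 1) → (Fin (n + 1 + 1) → ℕ) → ℕ) i) := by
    intro i
    refine Fin.cases ?_ (fun j => ?_) i
    · exact DFun.proj 0
    · exact DFun.proj j.succ.succ
  have h2 := hF.comp h1
  exact h2

private theorem ProdIntB_lg (M N : ℕ) (hM : 1 ≤ M) : lg M + 2 ≤ lg (N + 4 * M) := by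
  have h1 : Nat.log 2 (M * 2 * 2) = Nat.log 2 M + 1 + 1 := by
    rw [Nat.log_mul_base (by norm_num) (by omega), Nat.log_mul_base (by norm_num) (by omega)]
  have h2 : Nat.log 2 (M * 2 * 2) ≤ Nat.log 2 (N + 4 * M) := Nat.log_mono_right (by omega)
  unfold lg
  omega

theorem prod_int {n d K : ℕ} {U : (Fin n → ℕ) → Matrix (Fin d) (Fin d) ℤ}
    {E : ℕ → (Fin n → ℕ) → Matrix (Fin d) (Fin d) ℤ} {δ : ℕ → (Fin n → ℕ) → ℕ}
    {L N Bd : (Fin n → ℕ) → ℕ} (hU : ∀ i j, ZF n (fun v => U v i j))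
    (hE : ∀ i j, ZF (n + 1) (fun w => E (w 0) (fun i => w i.succ) i j))
    (hδ : DFun (n + 1) (fun w => δ (w 0) (fun i => w i.succ))) (hL : DFun n L) (hN : DFun n N)
    (hB : DFun n Bd) (hLb : ∀ v, L v ≤ (lg (N v) + 1) ^ K) :
    ∃ G : (Fin n → ℕ) → Matrix (Fin d) (Fin d) ℤ, (∀ i j, ZF n (fun v => G v i j)) ∧
      ∀ v (X : Matrix (Fin d) (Fin d) ℤ),
        pm (U v) (fun l => E l v) (L v) = ((∏ l ∈ range (L v), δ l v : ℕ) : ℤ) • X →
        0 < ∏ l ∈ range (L v), δ l v → ∏ l ∈ range (L v), δ l v ≤ Bd v →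
        (∀ i j, (X i j).natAbs ≤ Bd v) → G v = X := by
  set M : (Fin n → ℕ) → ℕ := fun v => 2 * Bd v ^ 2 + 1 with hMdef
  set μ : (Fin n → ℕ) → ℕ := fun v => lg (M v) + 2 with hμdef
  set N' : (Fin n → ℕ) → ℕ := fun v => N v + 4 * M v with hN'def
  have hM1 : ∀ v, 1 ≤ M v := fun v => by simp only [hMdef]; omega
  have hMD : DFun n M := ((DFun.const 2).mul (Pool.Agent.PTr.DFun.powConst hB 2)).add (DFun.const 1)
  have hμD : DFun n μ := (Pool.Agent.PTr.DFun.lg hMD).add (DFun.const 2)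
  have hN'D : DFun n N' := hN.add ((DFun.const 4).mul hMD)
  have hlg : ∀ v, μ v ≤ lg (N' v) := fun v => ProdIntB_lg (M v) (N v) (hM1 v)
  have hμ2 : ∀ v, 2 ≤ μ v := fun v => by simp only [hμdef]; omega
  have hLb' : ∀ v, L v ≤ (lg (N' v) + 1) ^ (K + 2) := by
    intro v
    refine (hLb v).trans ((Nat.pow_le_pow_left ?_ K).trans
      (Nat.pow_le_pow_right (Nat.succ_pos _) (by omega)))
    refine Nat.succ_le_succ ?_
    unfold lg
    exact Nat.log_mono_right (by simp only [hN'def]; omega)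
  have hqb : ∀ v, 2 * μ v ≤ (lg (N' v) + 1) ^ (K + 2) := by
    intro v
    have h1 := hlg v
    have h2 := hμ2 v
    have h3 : (lg (N' v) + 1) ^ 2 ≤ (lg (N' v) + 1) ^ (K + 2) :=
      Nat.pow_le_pow_right (Nat.succ_pos _) (by omega)
    refine le_trans ?_ h3
    nlinarith
  have hlt : ∀ v, 2 * Bd v ^ 2 < 2 ^ μ v := by
    intro v
    have h1 : M v < 2 ^ (Nat.log 2 (M v) + 1) := Nat.lt_pow_succ_log_self (by norm_num) _
    have h2 : (2 : ℕ) ^ (Nat.log 2 (M v) + 1) ≤ 2 ^ μ v :=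
      Nat.pow_le_pow_right (by norm_num) (by simp only [hμdef, lg]; omega)
    have h3 : 2 * Bd v ^ 2 < M v := by simp only [hMdef]; omega
    omega
  obtain ⟨R, Q, hR, hQ, hRQ⟩ := prod_res (K := K + 2) hU hE hδ hL hN'D hLb'
  -- the condition
  let C : Fin d → Fin d → ℕ → (Fin n → ℕ) → Prop := fun i j x v =>
    x ≤ 2 * Bd v ∧ ∀ q, q ≤ 2 * μ v → (1 ≤ q →
      (q : ℤ) ∣ (Q q v : ℤ) * ((x : ℤ) - (Bd v : ℤ)) - (R i j q v : ℤ))
  have hC : ∀ i j, DFun n (fun v => sInf {x | C i j x v}) := by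
    intro i j
    refine ProdIntB_dleast (b := fun v => 2 * Bd v) ((DFun.const 2).mul hB)
      (fun x v h => h.1) ?_
    refine (Delta0.leFun (DFun.proj 0) ((DFun.const 2).mul hB.weak)).and ?_
    refine Delta0.ballFun (b := fun w => 2 * μ (fun i => w i.succ))
      (P := fun q w => 1 ≤ q → (q : ℤ) ∣ (Q q (fun i => w i.succ) : ℤ) *
        ((w 0 : ℤ) - (Bd (fun i => w i.succ) : ℤ)) - (R i j q (fun i => w i.succ) : ℤ))
      ((DFun.const 2).mul hμD.weak) ?_
    refine ProdIntB_dvd (q := fun w => w 0) ?_ (DFun.proj 0)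
    refine ZF.sub ((ZF.nat (ProdIntB_weak hQ)).mul (ZF.sub (ZF.nat (DFun.proj (Fin.succ 0)))
      (ZF.nat ?_))) (ZF.nat (ProdIntB_weak (hR i j)))
    exact hB.weak.weak
  refine ⟨fun v => Matrix.of fun i j => ((sInf {x | C i j x v} : ℕ) : ℤ) - (Bd v : ℤ),
    fun i j => ?_, fun v X hX hP0 hPB hXB => ?_⟩
  · exact ZF.sub (ZF.nat (hC i j)) (ZF.nat hB)
  · ext i j
    change ((sInf {x | C i j x v} : ℕ) : ℤ) - (Bd v : ℤ) = X i j
    set P : ℕ := ∏ l ∈ range (L v), δ l v with hPdef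
    have hXij := hXB i j
    obtain ⟨x0, hx0⟩ : ∃ x0 : ℕ, (x0 : ℤ) = X i j + (Bd v : ℤ) :=
      ⟨(X i j + (Bd v : ℤ)).toNat, by omega⟩
    have hpm : pm (U v) (fun l => E l v) (L v) i j = (P : ℤ) * X i j := by
      rw [hX, Matrix.smul_apply, smul_eq_mul]
    have hres : ∀ q, 1 ≤ q → q ≤ 2 * μ v →
        (R i j q v : ℤ) = ((P : ℤ) * X i j) % (q : ℤ) ∧ Q q v = P % q := by
      intro q h1 h2
      have h3 := hRQ q v h1 (h2.trans (hqb v))
      refine ⟨?_, h3.2⟩
      rw [h3.1 i j, hpm]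
    have hmem : C i j x0 v := by
      refine ⟨by omega, fun q h2 h1 => ?_⟩
      obtain ⟨e1, e2⟩ := hres q h1 h2
      rw [e1, e2, hx0, add_sub_cancel_right]
      rw [Int.natCast_mod]
      have h4 : (P : ℤ) % (q : ℤ) * X i j - (P : ℤ) * X i j % (q : ℤ) =
          (q : ℤ) * ((P : ℤ) * X i j / (q : ℤ) - (P : ℤ) / (q : ℤ) * X i j) := by
        have h5 := Int.emod_add_mul_ediv (P : ℤ) (q : ℤ)
        have h6 := Int.emod_add_mul_ediv ((P : ℤ) * X i j) (q : ℤ)
        have h7 : (P : ℤ) % (q : ℤ) = (P : ℤ) - (q : ℤ) * ((P : ℤ) / (q : ℤ)) := by linarith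
        have h8 : (P : ℤ) * X i j % (q : ℤ) =
          (P : ℤ) * X i j - (q : ℤ) * ((P : ℤ) * X i j / (q : ℤ)) := by linarith
        rw [h7, h8]
        ring
      rw [h4]
      exact dvd_mul_right _ _
    obtain ⟨hy1, hy2⟩ : C i j (sInf {x | C i j x v}) v := Nat.sInf_mem (s := {x | C i j x v})
      ⟨x0, hmem⟩
    set y : ℕ := sInf {x | C i j x v} with hydef
    -- uniqueness
    have hz : ((P : ℤ) * ((y : ℤ) - (x0 : ℤ))).natAbs = 0 := by
      refine eq_zero_of_dvd_all (m := μ v) (by have := hμ2 v; omega) (fun q h1 h2 => ?_) ?_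
      · have h3 := hy2 q h2 h1
        have h4 := hmem.2 q h2 h1
        have h5 : (q : ℤ) ∣ (Q q v : ℤ) * ((y : ℤ) - (x0 : ℤ)) := by
          have h6 := dvd_sub h3 h4
          have h7 : (Q q v : ℤ) * ((y : ℤ) - (Bd v : ℤ)) - (R i j q v : ℤ) -
              ((Q q v : ℤ) * ((x0 : ℤ) - (Bd v : ℤ)) - (R i j q v : ℤ)) =
              (Q q v : ℤ) * ((y : ℤ) - (x0 : ℤ)) := by ring
          rwa [h7] at h6
        obtain ⟨-, e2⟩ := hres q h1 h2
        have h8 : (q : ℤ) ∣ (P : ℤ) - (Q q v : ℤ) := by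
          rw [e2, Int.natCast_mod]
          exact Int.dvd_self_sub_emod
        have h9 : (q : ℤ) ∣ (P : ℤ) * ((y : ℤ) - (x0 : ℤ)) := by
          have h10 := dvd_add (Dvd.dvd.mul_right h8 ((y : ℤ) - (x0 : ℤ))) h5
          have h11 : ((P : ℤ) - (Q q v : ℤ)) * ((y : ℤ) - (x0 : ℤ)) +
              (Q q v : ℤ) * ((y : ℤ) - (x0 : ℤ)) = (P : ℤ) * ((y : ℤ) - (x0 : ℤ)) := by ring
          rwa [h11] at h10
        exact Int.natCast_dvd.1 h9
      · refine lt_of_le_of_lt ?_ (hlt v)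
        rw [Int.natAbs_mul, Int.natAbs_natCast]
        have h3 : ((y : ℤ) - (x0 : ℤ)).natAbs ≤ 2 * Bd v := by
          have := hmem.1
          omega
        calc P * ((y : ℤ) - (x0 : ℤ)).natAbs ≤ Bd v * (2 * Bd v) := Nat.mul_le_mul hPB h3
          _ = 2 * Bd v ^ 2 := by ring
    have hz2 : (P : ℤ) * ((y : ℤ) - (x0 : ℤ)) = 0 := Int.natAbs_eq_zero.1 hz
    rcases mul_eq_zero.1 hz2 with h | h
    · exfalso
      have : P = 0 := by exact_mod_cast h
      omega
    · omega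

end Pool.Agent.LPC
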