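import Pool.Agent.LPC.KidDef
import Pool.Agent.LPC.Node
import Pool.Agent.LPC.ProdInt
import Pool.Agent.LPC.SeqCode

/-!
# Package LPC-NodeDefA (part of NodeDef): the nodes of the tree are definable

`d = m + 2`, `U v` a matrix with `ZF` entries and `det (U v) ≠ 0` for all `v`, `D = |det (U v)|`,
`J v = dep d D`.

*Statement (`node_def`).* There is `G l s v` with entries `ZF` in `(l, s, v)` and
`G l s v = nd (U v) s l` for `l ≤ J v`.

*Proof.* Let `sq, C` be as in `seq_code`, `C'` as in `dat_prod_le`. Let `B₀ v = ∑_(i,j) |U v i j|`,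
`l' = min l (J v)`, `Bd = (2 (lg D + 1))^(d^2) B₀ v + D^d + 1`, a `DFun` in `v`, which bounds the entries of all
`nd (U v) s l`, `l ≤ J v` (`nd_le`, `pow_dep_le`) and `D^d`.
Write `y_l = dat (nd (U v) s l) (dgt m s l)` for `l < J v` and `D'_l = (Nat.unpair y_l).1`. By `kid_mul`,
`nd s l * mat y_l = D'_l • nd s (l+1)`, so by induction (with `pm` of `ProdInt`)
`pm (U v) (mat ∘ y) l = (∏_(i < l) D'_i) • nd (U v) s l`, and `1 ≤ ∏ D'_i ≤ ∏ |det (nd s i)| ≤ D^d` (`nd_prod`;
`D'_i = max 1 |det|`, i.e. `= |det (nd s i)|` as this is `≥ 1`).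
Apply `prod_int` in the variables `w = (a, l, s, v)` to `U v`, `E i w = mat (sq a i)`,
`δ i w = (Nat.unpair (sq a i)).1`, length `min l (J v) ≤ (lg (D + 2) + 1)^K` (`dep d D = d (lg (lg D + 1) + 1)`,
`lg (lg D + 1) + 1 ≤ lg D + 2`…), bound `Bd`: it gives `g a l s v` with `ZF` entries such that
(∗) if `l ≤ J v` and `sq a i = y_i` for all `i < l` then `g a l s v = nd (U v) s l`.
Let `Chk(a, l, s, v)` be: for all `i < min l (J v)`: `sq a i = dat (g a i s v) (dgt m s i)`. It is `Delta0`
(`dfun_dat`, `DFun.dig`-style digits: `dgt m s i = GAvg.dig (m+2) s i`, `zf_app`, `Delta0.ballFun`).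
(1) If `Chk(a, l, s, v)`, `l ≤ J v`, then `sq a i = y_i` for all `i < l`: induction on `i`: if it holds
below `i` then `g a i s v = nd (U v) s i` by (∗), so `sq a i = dat (nd s i) (dgt m s i) = y_i`. Hence
`g a l s v = nd (U v) s l` by (∗). (2) By `dat_prod_le` and `seq_code` there is
`a ≤ ((D + 2)^C' + 2)^C` with `sq a i = y_i` for all `i < J v`; for it `Chk(a, l, s, v)` holds for all
`l` by (∗). So let `G l s v i j` be the value `g a l s v i j` for the least `a ≤ ((D + 2)^C' + 2)^C` with
`Chk(a, l, s, v)` (or any: by (1) they agree): this least `a` is a `DFun` of `(l, s, v)` (graph,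
`DFun.ofGraph`), and `zf_app`. ∎

*Signs (`sgn_def`).* `(l, s, v) ↦ sgn (U v) s l` is `ZF` for `l ≤ J v`. *Proof.* `rec_poly` for
`f j (l, s, v) = (sgn (U v) s j + 1).toNat ∈ {0, 1, 2}` with length `min l (J v)`, step
`a ↦ ((a - 1) * sg (G j s v) (dgt m s j) + 1).toNat` (`zf_sg`).

Difficulty: 1.3 h (`node_def` 1 h, `sgn_def` 0.4 h).
-/

set_option autoImplicit false

namespace Pool.Agent.LPC

open Finset Pool.Agent.Grz Pool.Agent.GAvg Pool.Agent.PTr Pool.Agent.MTr

private theorem nda_fst {m : ℕ} {V : Matrix (Fin (m + 2)) (Fin (m + 2)) ℤ} (hV : V.det ≠ 0)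
    (i : Fin (m + 2)) : (Nat.unpair (dat V i)).1 = V.det.natAbs := by
  unfold dat
  rw [Nat.unpair_pair]
  have : 0 < V.det.natAbs := Int.natAbs_pos.2 hV
  split_ifs with h
  · show 1 = _
    omega
  · rfl

private theorem nda_pm {m : ℕ} {U : Matrix (Fin (m + 2)) (Fin (m + 2)) ℤ} (hU : U.det ≠ 0)
    (s : ℕ) (y : ℕ → ℕ) : ∀ l, (∀ i, i < l → y i = dat (nd U s i) (dgt m s i)) →
      pm U (fun i => mat (y i)) l =
        ((∏ i ∈ range l, (Nat.unpair (y i)).1 : ℕ) : ℤ) • nd U s l := by
  intro l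
  induction l with
  | zero =>
    intro _
    simp [pm, nd]
  | succ l ih =>
    intro h
    have h1 := ih fun i hi => h i (by omega)
    have h2 := h l (by omega)
    rw [pm, h1, Matrix.smul_mul]
    have h3 : nd U s l * mat (y l) = ((Nat.unpair (y l)).1 : ℤ) • nd U s (l + 1) := by
      rw [h2]
      exact kid_mul (by omega) (nd_det hU s l) _
    rw [h3, smul_smul, Finset.prod_range_succ]
    push_cast
    rfl

private theorem nda_prod {m : ℕ} {U : Matrix (Fin (m + 2)) (Fin (m + 2)) ℤ} (hU : U.det ≠ 0)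
    (s : ℕ) (y : ℕ → ℕ) (l : ℕ) (h : ∀ i, i < l → y i = dat (nd U s i) (dgt m s i)) :
    ∏ i ∈ range l, (Nat.unpair (y i)).1 = ∏ i ∈ range l, (nd U s i).det.natAbs := by
  refine Finset.prod_congr rfl fun i hi => ?_
  rw [h i (Finset.mem_range.1 hi)]
  exact nda_fst (nd_det hU s i) _

private theorem nda_dep (m D : ℕ) : dep (m + 2) D ≤ (lg (D + 2) + 1) ^ (m + 3) := by
  have h1 : 1 ≤ lg (D + 2) := Nat.log_pos (by norm_num) (by omega)
  have h2 : lg D ≤ lg (D + 2) := Nat.log_mono_right (by omega)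
  have h3 : lg (lg D + 1) ≤ lg D + 1 := Nat.log_le_self 2 _
  have h4 : m + 2 ≤ 2 ^ (m + 1) := by
    have := Nat.lt_two_pow_self (n := m + 1)
    omega
  have h5 : 2 ^ (m + 1) ≤ (lg (D + 2) + 1) ^ (m + 1) := Nat.pow_le_pow_left (by omega) _
  have h6 : lg (lg D + 1) + 1 ≤ (lg (D + 2) + 1) ^ 2 := by nlinarith
  calc dep (m + 2) D = (m + 2) * (lg (lg D + 1) + 1) := rfl
    _ ≤ (lg (D + 2) + 1) ^ (m + 1) * (lg (D + 2) + 1) ^ 2 :=
      Nat.mul_le_mul (h4.trans h5) h6
    _ = (lg (D + 2) + 1) ^ (m + 3) := by rw [← pow_add]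

theorem node_def {n m : ℕ} {U : (Fin n → ℕ) → Matrix (Fin (m + 2)) (Fin (m + 2)) ℤ}
    (hU : ∀ i j, ZF n (fun v => U v i j)) (hdet : ∀ v, (U v).det ≠ 0) :
    ∃ G : ℕ → ℕ → (Fin n → ℕ) → Matrix (Fin (m + 2)) (Fin (m + 2)) ℤ,
      (∀ i j, ZF (n + 2) (fun w => G (w 0) (w 1) (fun i => w i.succ.succ) i j)) ∧
      ∀ l s v, l ≤ dep (m + 2) (U v).det.natAbs → G l s v = nd (U v) s l := by
  classical
  obtain ⟨sq, C, hsq, hcode⟩ := seq_code
  obtain ⟨C', hC'⟩ := dat_prod_le m
  have hD : DFun n (fun v => (U v).det.natAbs) := (zf_det hU).natAbs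
  have hJ : DFun n (fun v => dep (m + 2) (U v).det.natAbs) :=
    (DFun.const (m + 2)).mul ((DFun.lg ((DFun.lg hD).add (DFun.const 1))).add (DFun.const 1))
  have hA : DFun n (fun v => (((U v).det.natAbs + 2) ^ C' + 2) ^ C) :=
    DFun.powConst ((DFun.powConst (hD.add (DFun.const 2)) C').add (DFun.const 2)) C
  have hBd : DFun n (fun v => (2 * (lg (U v).det.natAbs + 1)) ^ ((m + 2) ^ 2) *
      (∑ i, ∑ j, (U v i j).natAbs) + (U v).det.natAbs ^ (m + 2)) :=
    ((DFun.powConst ((DFun.const 2).mul ((DFun.lg hD).add (DFun.const 1))) _).mul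
      (DFun.finSum _ fun i => DFun.finSum _ fun j => (hU i j).natAbs)).add
      (DFun.powConst hD _)
  -- the products
  have hsqF : ∀ {r : ℕ} {a i : (Fin r → ℕ) → ℕ}, DFun r a → DFun r i →
      DFun r (fun w => sq (a w) (i w)) := fun ha hi => DFun.comp2 hsq ha hi
  have hU3 : ∀ i j, ZF (n + 3) (fun w => U (fun i => w i.succ.succ.succ) i j) := fun i j =>
    (hU i j).comp (h := fun i w => w i.succ.succ.succ) fun i => DFun.proj _
  obtain ⟨g, hg, hgX⟩ := prod_int (n := n + 3) (d := m + 2) (K := m + 3)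
    (U := fun w => U (fun i => w i.succ.succ.succ)) (E := fun i w => mat (sq (w 0) i))
    (δ := fun i w => (Nat.unpair (sq (w 0) i)).1)
    (L := fun w => min (w 1) (dep (m + 2) (U (fun i => w i.succ.succ.succ)).det.natAbs))
    (N := fun w => (U (fun i => w i.succ.succ.succ)).det.natAbs + 2)
    (Bd := fun w => (2 * (lg (U (fun i => w i.succ.succ.succ)).det.natAbs + 1)) ^ ((m + 2) ^ 2) *
      (∑ i, ∑ j, (U (fun i => w i.succ.succ.succ) i j).natAbs) +
        (U (fun i => w i.succ.succ.succ)).det.natAbs ^ (m + 2))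
    hU3 (fun i j => zf_mat (hsqF (DFun.proj 1) (DFun.proj 0)) i j)
    (DFun.unpair1 (hsqF (DFun.proj 1) (DFun.proj 0)))
    (DFun.min (DFun.proj 1) (hJ.comp (h := fun i w => w i.succ.succ.succ) fun i => DFun.proj _))
    ((hD.comp (h := fun i w => w i.succ.succ.succ) fun i => DFun.proj _).add (DFun.const 2))
    (hBd.comp (h := fun i w => w i.succ.succ.succ) fun i => DFun.proj _)
    (fun w => (min_le_right _ _).trans (nda_dep m _))
  -- the value for the right codes
  have key : ∀ a l s v, l ≤ dep (m + 2) (U v).det.natAbs →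
      (∀ i, i < l → sq a i = dat (nd (U v) s i) (dgt m s i)) →
      g (Matrix.vecCons a (Matrix.vecCons l (Matrix.vecCons s v))) = nd (U v) s l := by
    intro a l s v hl h
    have hL : min l (dep (m + 2) (U v).det.natAbs) = l := min_eq_left hl
    have e := hgX (Matrix.vecCons a (Matrix.vecCons l (Matrix.vecCons s v))) (nd (U v) s l)
    have hv : (fun i : Fin n => (Matrix.vecCons a (Matrix.vecCons l (Matrix.vecCons s v)) :
        Fin (n + 3) → ℕ) i.succ.succ.succ) = v := by
      funext i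
      rfl
    have h0 : (Matrix.vecCons a (Matrix.vecCons l (Matrix.vecCons s v)) : Fin (n + 3) → ℕ) 0 =
      a := rfl
    have h1 : (Matrix.vecCons a (Matrix.vecCons l (Matrix.vecCons s v)) : Fin (n + 3) → ℕ) 1 =
      l := rfl
    simp only [hv, h0, h1, hL] at e
    have hp := nda_prod (hdet v) s (fun i => sq a i) l h
    refine e (nda_pm (hdet v) s (fun i => sq a i) l h) ?_ ?_ ?_
    · rw [hp]
      exact Finset.prod_pos fun i _ => Int.natAbs_pos.2 (nd_det (hdet v) s i)
    · rw [hp]
      exact (nd_prod (hdet v) s l).trans (Nat.le_add_left _ _)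
    · intro i j
      refine le_trans ?_ (Nat.le_add_right _ _)
      refine (nd_le (hdet v) (B := ∑ i, ∑ j, (U v i j).natAbs) (fun a b => ?_) s l i j).trans ?_
      · exact (Finset.single_le_sum (f := fun b => (U v a b).natAbs) (fun _ _ => Nat.zero_le _)
          (mem_univ b)).trans (Finset.single_le_sum (f := fun a => ∑ b, (U v a b).natAbs)
            (fun _ _ => Nat.zero_le _) (mem_univ a))
      · refine Nat.mul_le_mul_right _ ?_
        exact (Nat.pow_le_pow_right (by omega) hl).trans (pow_dep_le m _)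
  -- the check
  let Chk : ℕ → (Fin (n + 2) → ℕ) → Prop := fun a w =>
    ∀ i, i ≤ w 0 → i < min (w 0) (dep (m + 2) (U (fun i => w i.succ.succ)).det.natAbs) →
      sq a i = dat (g (Matrix.vecCons a (Matrix.vecCons i (Matrix.vecCons (w 1)
        (fun i => w i.succ.succ))))) (dgt m (w 1) i)
  have hChk : Delta0 (n + 3) (fun w => Chk (w 0) (fun i => w i.succ)) := by
    refine Delta0.ballFun (b := fun w => w 1) (DFun.proj 1)
      (P := fun i w => i < min (w 1) (dep (m + 2) (U (fun i => w i.succ.succ.succ)).det.natAbs) →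
        sq (w 0) i = dat (g (Matrix.vecCons (w 0) (Matrix.vecCons i (Matrix.vecCons (w 2)
          (fun i => w i.succ.succ.succ))))) (dgt m (w 2) i)) ?_
    refine Delta0.imp ?_ ?_
    · exact Delta0.ltFun (DFun.proj 0) (DFun.min (DFun.proj 2)
        (hJ.comp (h := fun i w => w i.succ.succ.succ.succ) fun i => DFun.proj _))
    · refine Delta0.eqFun (hsqF (DFun.proj 1) (DFun.proj 0)) ?_
      refine dfun_dat (fun i j => ?_) ?_
      · refine ((hg i j).comp (n := n + 4)
          (h := fun k => Matrix.vecCons (fun w : Fin (n + 4) → ℕ => w 1)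
            (Matrix.vecCons (fun w : Fin (n + 4) → ℕ => w 0)
              (Matrix.vecCons (fun w : Fin (n + 4) → ℕ => w 3)
                (fun (i : Fin n) (w : Fin (n + 4) → ℕ) => w i.succ.succ.succ.succ))) k)
          (fun k => ?_)).congr fun w => ?_
        · refine Fin.cases ?_ (fun k => ?_) k
          · exact DFun.proj 1
          · refine Fin.cases ?_ (fun k => ?_) k
            · exact DFun.proj 0
            · refine Fin.cases ?_ (fun k => ?_) k
              · exact DFun.proj 3
              · exact DFun.proj _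
        · refine congrArg (fun u => g u i j) ?_
          funext k
          refine Fin.cases rfl (fun k => ?_) k
          refine Fin.cases rfl (fun k => ?_) k
          refine Fin.cases rfl (fun k => ?_) k
          rfl
      · exact DFun.dig (by omega) (DFun.proj 3) (DFun.proj 0)
  let aL : (Fin (n + 2) → ℕ) → ℕ := fun w =>
    sInf {a | a ≤ (((U (fun i => w i.succ.succ)).det.natAbs + 2) ^ C' + 2) ^ C ∧ Chk a w}
  have haL : DFun (n + 2) aL := by
    refine KidDef_dfun_sInf (P := fun a w =>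
      a ≤ (((U (fun i => w i.succ.succ)).det.natAbs + 2) ^ C' + 2) ^ C ∧ Chk a w)
      (hA.comp (h := fun i w => w i.succ.succ) fun i => DFun.proj _) ?_ (fun x v h => h.1)
    exact (Delta0.leFun (DFun.proj 0)
      (hA.comp (h := fun i w => w i.succ.succ.succ) fun i => DFun.proj _)).and hChk
  refine ⟨fun l s v => g (Matrix.vecCons (aL (Matrix.vecCons l (Matrix.vecCons s v)))
    (Matrix.vecCons l (Matrix.vecCons s v))), fun i j => ?_, ?_⟩
  · refine ((hg i j).comp (n := n + 2)
      (h := fun k => Matrix.vecCons aL (fun (k : Fin (n + 2)) (w : Fin (n + 2) → ℕ) => w k) k)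
      (fun k => ?_)).congr fun w => ?_
    · refine Fin.cases ?_ (fun k => ?_) k
      · exact haL
      · exact DFun.proj _
    · have hw : (Matrix.vecCons (w 0) (Matrix.vecCons (w 1) (fun i => w i.succ.succ)) :
          Fin (n + 2) → ℕ) = w := by
        funext k
        refine Fin.cases rfl (fun k => ?_) k
        refine Fin.cases rfl (fun k => ?_) k
        rfl
      change g (Matrix.vecCons (aL (Matrix.vecCons (w 0) (Matrix.vecCons (w 1)
        (fun i => w i.succ.succ)))) (Matrix.vecCons (w 0) (Matrix.vecCons (w 1)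
        (fun i => w i.succ.succ)))) i j = _
      rw [hw]
      refine congrArg (fun u => g u i j) ?_
      funext k
      refine Fin.cases rfl (fun k => ?_) k
      rfl
  · intro l s v hl
    have hv : (fun i : Fin n => (Matrix.vecCons l (Matrix.vecCons s v) :
        Fin (n + 2) → ℕ) i.succ.succ) = v := rfl
    -- the right code exists
    obtain ⟨a₀, ha₀, hs₀⟩ := hcode (((U v).det.natAbs + 2) ^ C')
      (dep (m + 2) (U v).det.natAbs) (fun i => dat (nd (U v) s i) (dgt m s i))
      (hC' (hdet v) s _ le_rfl)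
    have hne : ({a | a ≤ (((U v).det.natAbs + 2) ^ C' + 2) ^ C ∧
        Chk a (Matrix.vecCons l (Matrix.vecCons s v))} : Set ℕ).Nonempty := by
      refine ⟨a₀, ha₀, fun i _ hi => ?_⟩
      change i < min l (dep (m + 2) (U v).det.natAbs) at hi
      change sq a₀ i = dat (g (Matrix.vecCons a₀ (Matrix.vecCons i (Matrix.vecCons s v))))
        (dgt m s i)
      have hi2 : i < dep (m + 2) (U v).det.natAbs := lt_of_lt_of_le hi (min_le_right _ _)
      rw [key a₀ i s v hi2.le fun j hj => hs₀ j (by omega)]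
      exact hs₀ i hi2
    have hmem := Nat.sInf_mem hne
    have hChk2 : Chk (aL (Matrix.vecCons l (Matrix.vecCons s v)))
        (Matrix.vecCons l (Matrix.vecCons s v)) := hmem.2
    set a := aL (Matrix.vecCons l (Matrix.vecCons s v)) with ha
    have hall : ∀ i, i < l → sq a i = dat (nd (U v) s i) (dgt m s i) := by
      intro i
      induction i using Nat.strong_induction_on with
      | _ i ih =>
        intro hi
        have h1 := hChk2 i hi.le (by
          change i < min l (dep (m + 2) (U v).det.natAbs)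
          exact lt_min hi (lt_of_lt_of_le hi hl))
        change sq a i = dat (g (Matrix.vecCons a (Matrix.vecCons i (Matrix.vecCons s v))))
          (dgt m s i) at h1
        rw [h1, key a i s v (hi.le.trans hl) fun j hj => ih j hj (hj.trans hi)]
    exact key a l s v hl hall

end Pool.Agent.LPC
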