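import Pool.Agent.LPC.KidDef
import Pool.Agent.LPC.Node
import Pool.Agent.LPC.ProdInt
import Pool.Agent.LPC.SeqCode
import Pool.Agent.LPC.NodeDefA

/-!
# Package LPC-SgnDef (part of NodeDef): the nodes of the tree are definable

`d = m + 2`, `U v` a matrix with `ZF` entries and `det (U v) ≠ 0` for all `v`, `D = |det (U v)|`,
`J v = dep d D`.

*Statement (`node_def`).* There is `G l s v` with entries `ZF` in `(l, s, v)` and
`G l s v = nd (U v) s l` for `l ≤ J v`.

*Proof.* Let `sq, C` be as in `seq_code`, `C'` as in `dat_prod_le`. Let `B₀ v = ∑_(i,j) |U v i j|`,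
`l' = min l (J v)`, `Bd = (2 (lg D + 1))^(d^2) B₀ v + D^d + 1`, a `DFun` in `v`, which bounds the entries of all
`nd (U v) s l`, `l ≤ J v` (`nd_le`, `pow_dep_le`) and `D^d`.
Write `y_l = dat (nd (U v) s l) (dgt m s l)` for `l < J v` and `D'_l = (Nat.unpair y_l).1`. By `kid_mul`,
`nd s l * mat y_l = D'_l • nd s (l+1)`, so by induction (with `pm` of `ProdInt`)
`pm (U v) (mat ∘ y) l = (∏_(i < l) D'_i) • nd (U v) s l`, and `1 ≤ ∏ D'_i ≤ ∏ |det (nd s i)| ≤ D^d` (`nd_prod`;
`D'_i = max 1 |det|`, i.e. `= |det (nd s i)|` as this is `≥ 1`).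
Apply `prod_int` in the variables `w = (a, l, s, v)` to `U v`, `E i w = mat (sq a i)`,
`δ i w = (Nat.unpair (sq a i)).1`, length `min l (J v) ≤ (lg (D + 2) + 1)^K` (`dep d D = d (lg (lg D + 1) + 1)`,
`lg (lg D + 1) + 1 ≤ lg D + 2`…), bound `Bd`: it gives `g a l s v` with `ZF` entries such that
(∗) if `l ≤ J v` and `sq a i = y_i` for all `i < l` then `g a l s v = nd (U v) s l`.
Let `Chk(a, l, s, v)` be: for all `i < min l (J v)`: `sq a i = dat (g a i s v) (dgt m s i)`. It is `Delta0`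
(`dfun_dat`, `DFun.dig`-style digits: `dgt m s i = GAvg.dig (m+2) s i`, `zf_app`, `Delta0.ballFun`).
(1) If `Chk(a, l, s, v)`, `l ≤ J v`, then `sq a i = y_i` for all `i < l`: induction on `i`: if it holds
below `i` then `g a i s v = nd (U v) s i` by (∗), so `sq a i = dat (nd s i) (dgt m s i) = y_i`. Hence
`g a l s v = nd (U v) s l` by (∗). (2) By `dat_prod_le` and `seq_code` there is
`a ≤ ((D + 2)^C' + 2)^C` with `sq a i = y_i` for all `i < J v`; for it `Chk(a, l, s, v)` holds for all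
`l` by (∗). So let `G l s v i j` be the value `g a l s v i j` for the least `a ≤ ((D + 2)^C' + 2)^C` with
`Chk(a, l, s, v)` (or any: by (1) they agree): this least `a` is a `DFun` of `(l, s, v)` (graph,
`DFun.ofGraph`), and `zf_app`. ∎

*Signs (`sgn_def`).* `(l, s, v) ↦ sgn (U v) s l` is `ZF` for `l ≤ J v`. *Proof.* `rec_poly` for
`f j (l, s, v) = (sgn (U v) s j + 1).toNat ∈ {0, 1, 2}` with length `min l (J v)`, step
`a ↦ ((a - 1) * sg (G j s v) (dgt m s j) + 1).toNat` (`zf_sg`).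

Difficulty: 1.3 h (`node_def` 1 h, `sgn_def` 0.4 h).
-/

set_option autoImplicit false

namespace Pool.Agent.LPC

open Finset Pool.Agent.Grz Pool.Agent.GAvg Pool.Agent.PTr Pool.Agent.MTr

private theorem SgnDef_sg_le {d : ℕ} (U : Matrix (Fin d) (Fin d) ℤ) (i : Fin d) :
    (sg U i).natAbs ≤ 1 := by
  unfold sg
  split_ifs
  · exact le_rfl
  · exact Nat.zero_le _
  · rcases lt_trichotomy (sv U i) 0 with h | h | h
    · rw [Int.sign_eq_neg_one_of_neg h]
      exact le_rfl
    · rw [h]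
      exact Nat.zero_le _
    · rw [Int.sign_eq_one_of_pos h]
      exact le_rfl

private theorem SgnDef_sgn_le {m : ℕ} (U : Matrix (Fin (m + 2)) (Fin (m + 2)) ℤ) (s l : ℕ) :
    (sgn U s l).natAbs ≤ 1 := by
  induction l with
  | zero => exact le_rfl
  | succ l ih =>
    change (sgn U s l * sg (nd U s l) (dgt m s l)).natAbs ≤ 1
    rw [Int.natAbs_mul]
    exact (Nat.mul_le_mul ih (SgnDef_sg_le _ _)).trans le_rfl

private theorem SgnDef_two_le {D : ℕ} : 2 ≤ lg (D + 2) + 1 := by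
  have h : 0 < Nat.log 2 (D + 2) := Nat.log_pos (by norm_num) (by omega)
  unfold lg
  omega

private theorem SgnDef_dep_le (m D : ℕ) : dep (m + 2) D ≤ (lg (D + 2) + 1) ^ (m + 3) := by
  have h1 : lg (lg D + 1) + 1 ≤ lg (D + 2) + 1 := by
    have h2 : lg (lg D + 1) < lg D + 1 := Nat.log_lt_self 2 (Nat.succ_ne_zero _)
    have h3 : lg D ≤ lg (D + 2) := Nat.log_mono_right (by omega)
    omega
  have h4 : m + 2 ≤ (lg (D + 2) + 1) ^ (m + 2) :=
    (Nat.lt_two_pow_self (n := m + 2)).le.trans (Nat.pow_le_pow_left SgnDef_two_le _)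
  unfold dep
  calc (m + 2) * (lg (lg D + 1) + 1)
      ≤ (lg (D + 2) + 1) ^ (m + 2) * (lg (D + 2) + 1) := Nat.mul_le_mul h4 h1
    _ = (lg (D + 2) + 1) ^ (m + 3) := (pow_succ _ _).symm

theorem sgn_def {n m : ℕ} {U : (Fin n → ℕ) → Matrix (Fin (m + 2)) (Fin (m + 2)) ℤ}
    (hU : ∀ i j, ZF n (fun v => U v i j)) (hdet : ∀ v, (U v).det ≠ 0) :
    ∃ g : ℕ → ℕ → (Fin n → ℕ) → ℤ,
      ZF (n + 2) (fun w => g (w 0) (w 1) (fun i => w i.succ.succ)) ∧
      ∀ l s v, l ≤ dep (m + 2) (U v).det.natAbs → g l s v = sgn (U v) s l := by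
  obtain ⟨G, hG, hGe⟩ := node_def hU hdet
  have hD : DFun n (fun v => (U v).det.natAbs) := (zf_det hU).natAbs
  have hJ : DFun n (fun v => dep (m + 2) (U v).det.natAbs) :=
    (DFun.const (m + 2)).mul ((DFun.lg ((DFun.lg hD).add (DFun.const 1))).add (DFun.const 1))
  have htail : ∀ {g : (Fin n → ℕ) → ℕ}, DFun n g →
      DFun (n + 2) (fun w => g (fun i => w i.succ.succ)) :=
    fun hg => hg.comp fun i => DFun.proj _
  have hGz : ∀ i j, ZF (n + 2 + 2) (fun w => G (w 0) (w (1 : Fin (n + 2)).succ.succ)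
      (fun i => w i.succ.succ.succ.succ) i j) := by
    intro i j
    have h := (hG i j).comp (n := n + 2 + 2) (h := Fin.cons (fun w => w 0)
      (Fin.cons (fun w => w ((1 : Fin (n + 2)).succ.succ)) (fun k w => w k.succ.succ.succ.succ)))
      (by
        intro k
        refine Fin.cases ?_ (fun k => ?_) k
        · exact DFun.proj 0
        · refine Fin.cases ?_ (fun k => ?_) k
          · exact DFun.proj _
          · exact DFun.proj _)
    exact h
  have hdg : DFun (n + 2 + 2)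
      (fun w => (dgt m (w (1 : Fin (n + 2)).succ.succ) (w 0) : ℕ)) :=
    DFun.dig (b := m + 2) (by omega) (DFun.proj _) (DFun.proj 0)
  have hsg := zf_sg hGz hdg
  have hH : DFun (n + 2 + 2) (fun w => ((((w 1 : ℕ) : ℤ) - 1) *
      sg (G (w 0) (w (1 : Fin (n + 2)).succ.succ) (fun i => w i.succ.succ.succ.succ))
        (dgt m (w (1 : Fin (n + 2)).succ.succ) (w 0)) + 1).toNat) :=
    ((((ZF.nat (DFun.proj 1)).sub (ZF.const 1)).mul hsg).add (ZF.const 1)).toNat
  have hs : ∀ (v : Fin n → ℕ) (s j : ℕ),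
      (((sgn (U v) s j + 1).toNat : ℕ) : ℤ) = sgn (U v) s j + 1 := by
    intro v s j
    have := SgnDef_sgn_le (U v) s j
    omega
  have key := rec_poly (r := n + 2) (m + 3)
    (A := fun _ => 2) (L := fun w => min (w 0) (dep (m + 2)
      (U (fun i => w i.succ.succ)).det.natAbs))
    (N := fun w => (U (fun i => w i.succ.succ)).det.natAbs + 2)
    (DFun.const 2) ((DFun.proj 0).min (htail hJ)) ((htail hD).add (DFun.const 2))
    (H := fun j a w => (((a : ℤ) - 1) *
      sg (G j (w 1) (fun i => w i.succ.succ)) (dgt m (w 1) j) + 1).toNat)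
    hH
    (f := fun j w => (sgn (U (fun i => w i.succ.succ)) (w 1) j + 1).toNat)
    (fun _ => rfl)
    (by
      intro w j hj
      have hj' : j ≤ dep (m + 2) (U (fun i => w i.succ.succ)).det.natAbs :=
        (hj.trans_le (min_le_right _ _)).le
      rw [hGe j (w 1) _ hj', hs]
      congr 1
      change sgn _ _ j * sg (nd _ _ j) (dgt m _ j) + 1 = _
      ring)
    (fun w => (min_le_right _ _).trans (SgnDef_dep_le _ _))
    (by
      intro w j _
      have h1 := SgnDef_sgn_le (U (fun i => w i.succ.succ)) (w 1) j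
      have h2 : (2 : ℕ) ≤ (lg ((U (fun i => w i.succ.succ)).det.natAbs + 2) + 1) ^ (m + 3) :=
        SgnDef_two_le.trans (Nat.le_self_pow (by omega) _)
      refine le_trans ?_ h2
      omega)
  refine ⟨fun l s v => sgn (U v) s (min l (dep (m + 2) (U v).det.natAbs)), ?_, ?_⟩
  · refine ((ZF.nat key).sub (ZF.const 1)).congr fun w => ?_
    dsimp only
    rw [hs]
    ring
  · intro l s v hl
    dsimp only
    rw [min_eq_left hl]


end Pool.Agent.LPC
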