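import Pool.Agent.LPC.CountForm
import Pool.Agent.LPC.NodeDef

/-!
# Package LPC-CeilSum (part of LeafDef): the contributions of the leaves are definable; rounding

*`leaf_def`.* `U v` with `ZF` entries and non-zero determinants, `q v` with `ZF` entries, `h, Y ∈ DFun n`. There are
`g s v` (`ZF (n+1)`) and `k s v > 0` (`DFun (n+1)`) with `leafTerm (U v) (q v) (h v) (Y v) s = g s v / k s v`.
*Proof.* `J v = dep (m+2) |det (U v)|` is `DFun` (`zf_det`, `ZF.natAbs`, `DFun.lg`). By `node_def`, `sgn_def` at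
`l = J v`, the entries of `V = nd (U v) s (J v)` and the sign are `ZF` in `(s, v)`. By `zf_Rm`, `zf_lidx` so are
`m_i = lidx (Rm V i) q h`, and `b_i = cv Y (column i)` (a fixed sum). By `phi_poly`,
`leafTerm = sgn * p(m, b) / (C ∏ b_i)`; let `π = ∏ b_i` (`zf_prod`). If `π = 0` the term is `0` (division by
zero): `g = 0`, `k = 1`. Otherwise `g = sgn * p(m, b) * sign(π)`, `k = C |π|` (`zf_poly`, `zf_sign`, `ZF.ite`).

*`ceil_sum`.* `T` a finite set, `g i ∈ ℤ`, `k i > 0`, `∑_(i ∈ T) g i / k i = N` an integer, `#T ≤ W`, `0 < W`. Then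
`N = -((-∑_(i ∈ T) (W g_i / k_i)) / W)` (floor divisions in `ℤ`). *Proof.* `W g_i / k_i` (rational) minus its floor
lies in `[0, 1)`, so `R = ∑ ⌊W g_i / k_i⌋` satisfies `W N - W < R ≤ W N` if `T` is nonempty (`R > W N - #T`); for
`T = ∅`: `N = 0 = R`. So `-R ∈ [-W N, -W N + W)`, `⌊-R / W⌋ = -N`. ∎

Difficulty: 0.8 h.
-/

set_option autoImplicit false

namespace Pool.Agent.LPC

open Finset Pool.Agent.Grz Pool.Agent.GAvg Pool.Agent.PTr Pool.Agent.MTr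

theorem ceil_sum {ι : Type} (T : Finset ι) (g : ι → ℤ) (k : ι → ℕ) (hk : ∀ i ∈ T, 0 < k i)
    {N : ℤ} {W : ℕ} (hN : ∑ i ∈ T, (g i : ℚ) / (k i : ℚ) = (N : ℚ)) (hW : #T ≤ W)
    (hW0 : 0 < W) : N = -((-∑ i ∈ T, ((W : ℤ) * g i) / (k i : ℤ)) / (W : ℤ)) := by
  have hfl : ∀ i, ((W : ℤ) * g i) / (k i : ℤ) = ⌊((((W : ℤ) * g i : ℤ) : ℚ) / (k i : ℚ))⌋ := by
    intro i
    exact (Rat.floor_intCast_div_natCast _ _).symm
  set R : ℤ := ∑ i ∈ T, ((W : ℤ) * g i) / (k i : ℤ) with hR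
  have hsum : ∑ i ∈ T, ((((W : ℤ) * g i : ℤ) : ℚ) / (k i : ℚ)) = (W : ℚ) * (N : ℚ) := by
    rw [← hN, Finset.mul_sum]
    refine Finset.sum_congr rfl fun i _ => ?_
    push_cast
    ring
  have hRQ : (R : ℚ) = ∑ i ∈ T, ((⌊((((W : ℤ) * g i : ℤ) : ℚ) / (k i : ℚ))⌋ : ℤ) : ℚ) := by
    rw [hR]
    push_cast
    refine Finset.sum_congr rfl fun i _ => ?_
    rw [hfl i]
    push_cast
    rfl
  have h1 : (R : ℚ) ≤ (W : ℚ) * (N : ℚ) := by
    rw [← hsum, hRQ]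
    exact Finset.sum_le_sum fun i _ => Int.floor_le _
  have h2 : (W : ℚ) * (N : ℚ) < (R : ℚ) + (W : ℚ) := by
    rcases T.eq_empty_or_nonempty with hT | hT
    · have h3 : (W : ℚ) * (N : ℚ) = 0 := by rw [← hsum, hT, Finset.sum_empty]
      have h4 : (R : ℚ) = 0 := by rw [hRQ, hT, Finset.sum_empty]
      rw [h3, h4, zero_add]
      exact_mod_cast hW0
    · have h3 : ∑ i ∈ T, ((((W : ℤ) * g i : ℤ) : ℚ) / (k i : ℚ)) <
          ∑ i ∈ T, (((⌊((((W : ℤ) * g i : ℤ) : ℚ) / (k i : ℚ))⌋ : ℤ) : ℚ) + 1) :=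
        Finset.sum_lt_sum_of_nonempty hT fun i _ => Int.lt_floor_add_one _
      rw [hsum, Finset.sum_add_distrib, ← hRQ, Finset.sum_const, nsmul_eq_mul, mul_one] at h3
      have h4 : ((#T : ℕ) : ℚ) ≤ (W : ℚ) := by exact_mod_cast hW
      linarith
  have h1' : R ≤ (W : ℤ) * N := by exact_mod_cast h1
  have h2' : (W : ℤ) * N < R + (W : ℤ) := by exact_mod_cast h2
  have hW' : (0 : ℤ) < (W : ℤ) := by exact_mod_cast hW0
  have h5 : -N ≤ -R / (W : ℤ) := by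
    rw [Int.le_ediv_iff_mul_le hW']
    linarith
  have h6 : -R / (W : ℤ) < -N + 1 := by
    rw [Int.ediv_lt_iff_lt_mul hW']
    linarith
  omega


end Pool.Agent.LPC
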