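import Mathlib

/-!
The number of lattice points of a finite set which is a signed sum of unimodular cones: the constant
term formula.
-/

set_option autoImplicit false
set_option linter.unusedSectionVars false

open Finset Matrix PowerSeries

namespace Pool.Agent.LPC

section GF

variable {G : Type*} [AddCommGroup G] {R : Type*} [CommRing R]

/-- the difference operator -/
def Dif (u : G) (f : G → ℤ) : G → ℤ := fun x => f x - f (x - u)

instance instLcDif : LeftCommutative (Dif : G → (G → ℤ) → (G → ℤ)) :=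
  ⟨fun u v f => by
    funext x
    simp only [Dif]
    rw [sub_right_comm x u v]
    ring⟩

/-- the product of the difference operators of a multiset -/
def DifM (s : Multiset G) (f : G → ℤ) : G → ℤ := s.foldr Dif f

theorem difM_cons (u : G) (s : Multiset G) (f : G → ℤ) :
    DifM (u ::ₘ s) f = Dif u (DifM s f) := Multiset.foldr_cons _ _ _ _

theorem difM_add (s t : Multiset G) (f : G → ℤ) : DifM (s + t) f = DifM s (DifM t f) :=
  Multiset.foldr_add _ _ _ _

theorem difM_sum {ι : Type*} (S : Finset ι) (s : Multiset G) (ε : ι → ℤ) (f : ι → G → ℤ) :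
    DifM s (fun x => ∑ l ∈ S, ε l * f l x) = fun x => ∑ l ∈ S, ε l * DifM s (f l) x := by
  induction s using Multiset.induction with
  | empty => rfl
  | cons u s ih =>
    rw [difM_cons, ih]
    funext x
    simp only [Dif, difM_cons]
    rw [← Finset.sum_sub_distrib]
    exact Finset.sum_congr rfl fun l _ => by ring

/-- `F` is the generating function of the finitely supported function `f`. -/
def GF (E : G → R) (f : G → ℤ) (F : R) : Prop :=
  ∃ φ : G →₀ ℤ, ⇑φ = f ∧ F = φ.sum fun x n => (n : R) * E x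

theorem GF.unique {E : G → R} {f : G → ℤ} {F F' : R} (h : GF E f F) (h' : GF E f F') :
    F = F' := by
  obtain ⟨φ, h1, rfl⟩ := h
  obtain ⟨φ', h2, rfl⟩ := h'
  rw [DFunLike.coe_injective (h1.trans h2.symm)]

theorem GF.sum {ι : Type*} (S : Finset ι) {E : G → R} {f : ι → G → ℤ} {F : ι → R}
    (ε : ι → ℤ) (h : ∀ l ∈ S, GF E (f l) (F l)) :
    GF E (fun x => ∑ l ∈ S, ε l * f l x) (∑ l ∈ S, (ε l : R) * F l) := by
  classical
  induction S using Finset.induction_on with
  | empty => exact ⟨0, by ext; simp, by simp⟩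
  | insert a S ha ih =>
    obtain ⟨φ, h1, h2⟩ := h a (Finset.mem_insert_self a S)
    obtain ⟨ψ, h3, h4⟩ := ih fun l hl => h l (Finset.mem_insert_of_mem hl)
    refine ⟨ε a • φ + ψ, ?_, ?_⟩
    · funext x
      rw [Finset.sum_insert ha, Finsupp.add_apply, Finsupp.smul_apply, h1]
      have h5 := congrFun h3 x
      rw [h5, smul_eq_mul]
    · rw [Finset.sum_insert ha, h2, h4, Finsupp.sum_add_index' (by simp)
        (by intro x m n; push_cast; ring), Finsupp.sum_smul_index (by simp), Finsupp.mul_sum]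
      congr 1
      refine Finsupp.sum_congr fun x _ => ?_
      push_cast
      ring

theorem GF.single (E : G → R) (v : G) [DecidableEq G] :
    GF E (fun x => if x = v then 1 else 0) (E v) := by
  refine ⟨Finsupp.single v 1, ?_, by simp⟩
  funext x
  rw [Finsupp.single_apply]
  simp only [eq_comm]

theorem GF.dif {E : G → R} (hE : ∀ x y, E (x + y) = E x * E y) {f : G → ℤ} {F : R}
    (h : GF E f F) (u : G) : GF E (Dif u f) ((1 - E u) * F) := by
  obtain ⟨φ, rfl, rfl⟩ := h
  refine ⟨φ - φ.mapDomain (fun x => x + u), ?_, ?_⟩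
  · funext x
    rw [Finsupp.sub_apply, Dif]
    congr 1
    have h1 : φ.mapDomain (fun x => x + u) ((x - u) + u) = φ (x - u) :=
      Finsupp.mapDomain_apply (add_left_injective u) φ (x - u)
    rw [sub_add_cancel] at h1
    exact h1
  · rw [Finsupp.sum_sub_index (by intro x m n; push_cast; ring),
      Finsupp.sum_mapDomain_index (by simp) (by intro x m n; push_cast; ring), sub_mul, one_mul,
      Finsupp.mul_sum]
    congr 1
    refine Finsupp.sum_congr fun x _ => ?_
    rw [hE]
    ring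

theorem GF.difM {E : G → R} (hE : ∀ x y, E (x + y) = E x * E y) {f : G → ℤ} {F : R}
    (h : GF E f F) (s : Multiset G) :
    GF E (DifM s f) ((s.map fun u => 1 - E u).prod * F) := by
  induction s using Multiset.induction with
  | empty => simpa [DifM] using h
  | cons u s ih =>
    rw [difM_cons, Multiset.map_cons, Multiset.prod_cons, mul_assoc]
    exact ih.dif hE u

end GF

section Cone

variable {d : ℕ}

/-- the indicator of a cone becomes the indicator of its vertex -/
theorem difM_cone (U U' : Matrix (Fin d) (Fin d) ℤ) (hU : U * U' = 1) (m : Fin d → ℤ) :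
    DifM (Finset.univ.val.map fun i => U.col i)
      (fun x => if ∀ i, m i ≤ (U' *ᵥ x) i then 1 else 0) =
      fun x => if x = U *ᵥ m then 1 else 0 := by
  classical
  have hU' : U' * U = 1 := mul_eq_one_comm.1 hU
  have key : ∀ s : Finset (Fin d), DifM (s.val.map fun i => U.col i)
      (fun x => if ∀ i, m i ≤ (U' *ᵥ x) i then 1 else 0) =
      fun x => if (∀ i ∈ s, (U' *ᵥ x) i = m i) ∧ ∀ i ∉ s, m i ≤ (U' *ᵥ x) i then 1 else 0 := by
    intro s
    induction s using Finset.induction_on with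
    | empty => simp [DifM]
    | insert a s ha ih =>
      rw [Finset.insert_val_of_notMem ha, Multiset.map_cons, difM_cons, ih]
      funext x
      simp only [Dif]
      have h1 : ∀ i, (U' *ᵥ (x - U.col a)) i = (U' *ᵥ x) i - if i = a then 1 else 0 := by
        intro i
        have h2 : U' *ᵥ U.col a = Pi.single a 1 := by
          have h3 : U.col a = U *ᵥ Pi.single a 1 := by
            ext j
            simp
          rw [h3, Matrix.mulVec_mulVec, hU', Matrix.one_mulVec]
        rw [Matrix.mulVec_sub, h2, Pi.sub_apply, Pi.single_apply]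
      have hs : ∀ i ∈ s, i ≠ a := fun i hi h => ha (h ▸ hi)
      simp only [h1]
      by_cases hA : (∀ i ∈ s, (U' *ᵥ x) i = m i) ∧ ∀ i, i ∉ s → i ≠ a → m i ≤ (U' *ᵥ x) i
      · have e1 : ((∀ i ∈ s, (U' *ᵥ x) i = m i) ∧ ∀ i ∉ s, m i ≤ (U' *ᵥ x) i) ↔
            m a ≤ (U' *ᵥ x) a := by
          refine ⟨fun h => h.2 a ha, fun h => ⟨hA.1, fun i hi => ?_⟩⟩
          by_cases hia : i = a
          · rw [hia]
            exact h
          · exact hA.2 i hi hia
        have e2 : ((∀ i ∈ s, (U' *ᵥ x) i - (if i = a then 1 else 0) = m i) ∧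
            ∀ i ∉ s, m i ≤ (U' *ᵥ x) i - if i = a then 1 else 0) ↔
            m a ≤ (U' *ᵥ x) a - 1 := by
          constructor
          · intro h
            have := h.2 a ha
            rwa [if_pos rfl] at this
          · intro h
            refine ⟨fun i hi => ?_, fun i hi => ?_⟩
            · rw [if_neg (hs i hi), sub_zero]
              exact hA.1 i hi
            · by_cases hia : i = a
              · rw [hia, if_pos rfl]
                exact h
              · rw [if_neg hia, sub_zero]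
                exact hA.2 i hi hia
        have e3 : ((∀ i ∈ insert a s, (U' *ᵥ x) i = m i) ∧
            ∀ i ∉ insert a s, m i ≤ (U' *ᵥ x) i) ↔ (U' *ᵥ x) a = m a := by
          constructor
          · intro h
            exact h.1 a (Finset.mem_insert_self a s)
          · intro h
            refine ⟨fun i hi => ?_, fun i hi => ?_⟩
            · rcases Finset.mem_insert.1 hi with rfl | hi
              · exact h
              · exact hA.1 i hi
            · rw [Finset.mem_insert, not_or] at hi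
              exact hA.2 i hi.2 hi.1
        rw [if_congr e1 rfl rfl, if_congr e2 rfl rfl, if_congr e3 rfl rfl]
        split_ifs <;> omega
      · have e1 : ¬ ((∀ i ∈ s, (U' *ᵥ x) i = m i) ∧ ∀ i ∉ s, m i ≤ (U' *ᵥ x) i) :=
          fun h => hA ⟨h.1, fun i hi _ => h.2 i hi⟩
        have e2 : ¬ ((∀ i ∈ s, (U' *ᵥ x) i - (if i = a then 1 else 0) = m i) ∧
            ∀ i ∉ s, m i ≤ (U' *ᵥ x) i - if i = a then 1 else 0) := by
          intro h
          refine hA ⟨fun i hi => ?_, fun i hi hia => ?_⟩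
          · have := h.1 i hi
            rwa [if_neg (hs i hi), sub_zero] at this
          · have := h.2 i hi
            rwa [if_neg hia, sub_zero] at this
        have e3 : ¬ ((∀ i ∈ insert a s, (U' *ᵥ x) i = m i) ∧
            ∀ i ∉ insert a s, m i ≤ (U' *ᵥ x) i) := by
          intro h
          refine hA ⟨fun i hi => h.1 i (Finset.mem_insert_of_mem hi), fun i hi hia => ?_⟩
          refine h.2 i ?_
          rw [Finset.mem_insert, not_or]
          exact ⟨hia, hi⟩
        rw [if_neg e1, if_neg e2, if_neg e3]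
        rfl
  rw [key univ]
  funext x
  refine if_congr ?_ rfl rfl
  constructor
  · rintro ⟨h, -⟩
    have h1 : U' *ᵥ x = m := funext fun i => h i (mem_univ i)
    rw [← h1, Matrix.mulVec_mulVec, hU, Matrix.one_mulVec]
  · rintro rfl
    refine ⟨fun i _ => ?_, fun i hi => absurd (mem_univ i) hi⟩
    rw [Matrix.mulVec_mulVec, hU', Matrix.one_mulVec]

end Cone

section Final

variable {d : ℕ}

/-- the constant term of the product of the `e ^ (m i b i t) / (1 - e ^ (b i t))` -/
noncomputable def phi (m b : Fin d → ℤ) : ℚ :=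
  (-1) ^ d * ∑ k ∈ finsuppAntidiag (univ : Finset (Fin d)) d,
    ∏ i, (Polynomial.bernoulli (k i)).eval (m i : ℚ) * (b i : ℚ) ^ k i / (b i * (k i).factorial)

private noncomputable def gser (m b : ℤ) : ℚ⟦X⟧ :=
  PowerSeries.rescale (b : ℚ) (PowerSeries.mk fun n =>
    Polynomial.aeval (m : ℚ) ((1 / (n.factorial : ℚ)) • Polynomial.bernoulli n))

private theorem gser_mul (m b : ℤ) (hb : b ≠ 0) :
    C (b : ℚ)⁻¹ * gser m b * (1 - rescale (b : ℚ) (exp ℚ)) =
      - (X * rescale ((m * b : ℤ) : ℚ) (exp ℚ)) := by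
  have h := congrArg (rescale (b : ℚ)) (Polynomial.bernoulli_generating_function (A := ℚ) (m : ℚ))
  rw [map_mul, map_sub, map_one, map_mul, rescale_X, rescale_rescale] at h
  have hb' : (b : ℚ) ≠ 0 := by exact_mod_cast hb
  have h1 : C (b : ℚ)⁻¹ * C (b : ℚ) = (1 : ℚ⟦X⟧) := by
    rw [← map_mul, inv_mul_cancel₀ hb', map_one]
  have h2 : gser m b * (rescale (b : ℚ) (exp ℚ) - 1) =
      C (b : ℚ) * X * rescale ((m * b : ℤ) : ℚ) (exp ℚ) := by
    push_cast
    exact h
  calc C (b : ℚ)⁻¹ * gser m b * (1 - rescale (b : ℚ) (exp ℚ)) =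
      - (C (b : ℚ)⁻¹ * (gser m b * (rescale (b : ℚ) (exp ℚ) - 1))) := by ring
    _ = - (C (b : ℚ)⁻¹ * C (b : ℚ) * (X * rescale ((m * b : ℤ) : ℚ) (exp ℚ))) := by
      rw [h2]
      ring
    _ = _ := by rw [h1, one_mul]

private theorem coeff_gser (m b : ℤ) (n : ℕ) : PowerSeries.coeff n (C (b : ℚ)⁻¹ * gser m b) =
    (Polynomial.bernoulli n).eval (m : ℚ) * (b : ℚ) ^ n / (b * n.factorial) := by
  rw [coeff_C_mul, gser, coeff_rescale, coeff_mk, map_smul, Polynomial.aeval_def,
    Polynomial.eval₂_eq_eval_map, Algebra.algebraMap_self, Polynomial.map_id, smul_eq_mul]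
  ring

private theorem rescale_ne (b : ℤ) (hb : b ≠ 0) :
    (1 - rescale (b : ℚ) (exp ℚ) : ℚ⟦X⟧) ≠ 0 := by
  intro h
  have h1 := congrArg (PowerSeries.coeff 1) h
  simp [coeff_rescale, coeff_exp] at h1
  exact hb h1

private theorem rescale_sum {ι : Type*} (s : Finset ι) (a : ι → ℚ) :
    rescale (∑ i ∈ s, a i) (exp ℚ) = ∏ i ∈ s, rescale (a i) (exp ℚ) := by
  classical
  induction s using Finset.induction_on with
  | empty =>
    rw [Finset.sum_empty, Finset.prod_empty]
    ext n
    rw [coeff_rescale, coeff_exp, coeff_one]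
    rcases n with _ | n <;> simp
  | insert i s hi ih =>
    rw [Finset.sum_insert hi, Finset.prod_insert hi, ← ih, exp_mul_exp_eq_exp_add]

/-- The number of elements of a finite set of integer vectors whose indicator is a signed sum of
indicators of unimodular cones. -/
theorem card_of_cones {ι : Type*} [Fintype ι] (P : Finset (Fin d → ℤ)) (ε : ι → ℤ)
    (U U' : ι → Matrix (Fin d) (Fin d) ℤ) (hU : ∀ l, U l * U' l = 1) (m : ι → Fin d → ℤ)
    (hP : ∀ x, (if x ∈ P then (1 : ℤ) else 0) =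
      ∑ l, ε l * (if ∀ i, m l i ≤ (U' l *ᵥ x) i then 1 else 0))
    (c : Fin d → ℤ) (hc : ∀ l i, (c ᵥ* U l) i ≠ 0) :
    (P.card : ℚ) = ∑ l, (ε l : ℚ) * phi (m l) (c ᵥ* U l) := by
  classical
  let E : (Fin d → ℤ) → ℚ⟦X⟧ := fun x => rescale ((c ⬝ᵥ x : ℤ) : ℚ) (exp ℚ)
  have hE : ∀ x y, E (x + y) = E x * E y := by
    intro x y
    simp only [E]
    rw [exp_mul_exp_eq_exp_add, dotProduct_add]
    push_cast
    rfl
  let Sm : ι → Multiset (Fin d → ℤ) := fun l => Finset.univ.val.map fun i => (U l).col i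
  let DD : ι → ℚ⟦X⟧ := fun l => ∏ i, (1 - rescale (((c ᵥ* U l) i : ℤ) : ℚ) (exp ℚ))
  have hDD : ∀ l, ((Sm l).map fun u => 1 - E u).prod = DD l := by
    intro l
    simp only [Sm, DD, Multiset.map_map]
    rfl
  have hDD0 : ∀ l, DD l ≠ 0 := fun l => Finset.prod_ne_zero_iff.2 fun i _ =>
    rescale_ne _ (hc l i)
  -- the left side
  have hL : GF E (fun x => if x ∈ P then (1 : ℤ) else 0) (∑ x ∈ P, E x) := by
    have h1 := GF.sum P (E := E) (f := fun v x => if x = v then (1 : ℤ) else 0) (F := E)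
      (fun _ => 1) (fun v _ => GF.single E v)
    simp only [Int.cast_one, one_mul] at h1
    have h2 : (fun x : Fin d → ℤ => ∑ v ∈ P, if x = v then (1 : ℤ) else 0) =
        fun x => if x ∈ P then (1 : ℤ) else 0 := by
      funext x
      rw [Finset.sum_ite_eq]
    rw [h2] at h1
    exact h1
  have hL' := hL.difM hE (∑ l, Sm l)
  -- the right side
  have hall : ∀ l, (∑ l', Sm l') = (∑ l' ∈ univ.erase l, Sm l') + Sm l := fun l =>
    (Finset.sum_erase_add _ _ (mem_univ l)).symm
  have hR : GF E (DifM (∑ l, Sm l) fun x => if x ∈ P then (1 : ℤ) else 0)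
      (∑ l, (ε l : ℚ⟦X⟧) * ((((∑ l' ∈ univ.erase l, Sm l').map fun u => 1 - E u).prod) *
        E (U l *ᵥ m l))) := by
    have h1 : (fun x : Fin d → ℤ => if x ∈ P then (1 : ℤ) else 0) = fun x =>
        ∑ l ∈ univ, ε l * (if ∀ i, m l i ≤ (U' l *ᵥ x) i then 1 else 0) := funext hP
    rw [h1, difM_sum univ (∑ l, Sm l) ε
      (fun l x => if ∀ i, m l i ≤ (U' l *ᵥ x) i then 1 else 0)]
    refine GF.sum univ ε fun l _ => ?_
    rw [hall l, difM_add]
    have h2 := difM_cone (U l) (U' l) (hU l) (m l)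
    have h3 : DifM (Sm l) (fun x => if ∀ i, m l i ≤ (U' l *ᵥ x) i then 1 else 0) =
        fun x => if x = U l *ᵥ m l then 1 else 0 := h2
    rw [h3]
    exact (GF.single E (U l *ᵥ m l)).difM hE _
  have key := hL'.unique hR
  have hprod : ∀ S : Finset ι, ((∑ l ∈ S, Sm l).map fun u => 1 - E u).prod = ∏ l ∈ S, DD l := by
    intro S
    induction S using Finset.induction_on with
    | empty => simp
    | insert a S ha ih =>
      rw [Finset.sum_insert ha, Finset.prod_insert ha, Multiset.map_add, Multiset.prod_add, ih,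
        hDD]
  rw [hprod] at key
  simp only [hprod] at key
  -- the vertex
  have hvert : ∀ l, X ^ d * E (U l *ᵥ m l) =
      (-1) ^ d * (∏ i, (C (((c ᵥ* U l) i : ℤ) : ℚ)⁻¹ * gser (m l i) ((c ᵥ* U l) i))) * DD l := by
    intro l
    have h1 : ((c ⬝ᵥ (U l *ᵥ m l) : ℤ) : ℚ) =
        ∑ i, ((m l i * (c ᵥ* U l) i : ℤ) : ℚ) := by
      rw [Matrix.dotProduct_mulVec, dotProduct]
      push_cast
      exact Finset.sum_congr rfl fun i _ => by ring
    have h2 : E (U l *ᵥ m l) = ∏ i, rescale ((m l i * (c ᵥ* U l) i : ℤ) : ℚ) (exp ℚ) := by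
      change rescale ((c ⬝ᵥ (U l *ᵥ m l) : ℤ) : ℚ) (exp ℚ) = _
      rw [h1, rescale_sum]
    have h3 : (∏ i, (C (((c ᵥ* U l) i : ℤ) : ℚ)⁻¹ * gser (m l i) ((c ᵥ* U l) i))) * DD l =
        ∏ i, (- (X * rescale ((m l i * (c ᵥ* U l) i : ℤ) : ℚ) (exp ℚ))) := by
      rw [← Finset.prod_mul_distrib]
      exact Finset.prod_congr rfl fun i _ => gser_mul _ _ (hc l i)
    rw [mul_assoc, h3, h2]
    have h4 : ∀ i : Fin d, (- (X * rescale ((m l i * (c ᵥ* U l) i : ℤ) : ℚ) (exp ℚ)) : ℚ⟦X⟧) =
        (-1) * X * rescale ((m l i * (c ᵥ* U l) i : ℤ) : ℚ) (exp ℚ) := fun i => by ring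
    simp only [h4]
    rw [Finset.prod_mul_distrib, Finset.prod_const, Finset.card_univ, Fintype.card_fin, mul_pow,
      ← mul_assoc, ← mul_assoc, ← mul_pow, neg_one_mul, neg_neg, one_pow, one_mul]
  have hcancel : X ^ d * (∑ x ∈ P, E x) = ∑ l, (ε l : ℚ⟦X⟧) * ((-1) ^ d *
      (∏ i, (C (((c ᵥ* U l) i : ℤ) : ℚ)⁻¹ * gser (m l i) ((c ᵥ* U l) i)))) := by
    have hD : (∏ l, DD l) ≠ 0 := Finset.prod_ne_zero_iff.2 fun l _ => hDD0 l
    refine mul_left_cancel₀ hD ?_
    calc (∏ l, DD l) * (X ^ d * ∑ x ∈ P, E x) = X ^ d * ((∏ l, DD l) * ∑ x ∈ P, E x) := by ring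
      _ = X ^ d * ∑ l, (ε l : ℚ⟦X⟧) * ((∏ l' ∈ univ.erase l, DD l') * E (U l *ᵥ m l)) := by
        rw [key]
      _ = ∑ l, (ε l : ℚ⟦X⟧) * ((∏ l' ∈ univ.erase l, DD l') * (X ^ d * E (U l *ᵥ m l))) := by
        rw [Finset.mul_sum]
        exact Finset.sum_congr rfl fun l _ => by ring
      _ = _ := by
        rw [Finset.mul_sum]
        refine Finset.sum_congr rfl fun l _ => ?_
        rw [hvert l, ← Finset.prod_erase_mul univ DD (mem_univ l)]
        ring
  have hfin := congrArg (PowerSeries.coeff d) hcancel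
  have e1 : PowerSeries.coeff d (X ^ d * ∑ x ∈ P, E x) = (P.card : ℚ) := by
    have h1 := PowerSeries.coeff_X_pow_mul (∑ x ∈ P, E x) d 0
    rw [zero_add] at h1
    rw [h1, map_sum]
    have h2 : ∀ x ∈ P, PowerSeries.coeff 0 (E x) = (1 : ℚ) := by
      intro x _
      change PowerSeries.coeff 0 (rescale ((c ⬝ᵥ x : ℤ) : ℚ) (exp ℚ)) = 1
      rw [coeff_rescale, coeff_exp]
      simp
    rw [Finset.sum_congr rfl h2]
    simp
  rw [e1] at hfin
  rw [hfin, map_sum]
  refine Finset.sum_congr rfl fun l _ => ?_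
  have e2 : ((ε l : ℤ) : ℚ⟦X⟧) = C ((ε l : ℤ) : ℚ) := by simp
  have e3 : ((-1) ^ d : ℚ⟦X⟧) = C ((-1) ^ d : ℚ) := by simp
  rw [e2, e3, coeff_C_mul, coeff_C_mul, coeff_prod, phi]
  congr 2
  refine Finset.sum_congr rfl fun k _ => Finset.prod_congr rfl fun i _ => ?_
  exact coeff_gser _ _ _

end Final

end Pool.Agent.LPC
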