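import Pool.Agent.LPC.Defs

/-!
# Package LPC-Coord: the coordinates after replacing one generator

*Statement.* `U` an integer `d × d` matrix with `det U ≠ 0`, `n ∈ ℤ^d`, `U n = |det U| w` with
`w ∈ ℤ^d`, `V = U.updateCol i w`. (0) `Rm U * U = |det U| = U * Rm U`. (1) `det V = n_i sgn(det U)`, so
`|det V| = |n_i|`. (2) If `n_i ≠ 0`: row `i` of `Rm V` is `sgn(n_i)` times row `i` of `Rm U`, and for
`j ≠ i`: `|det U|` times row `j` of `Rm V` is `sgn(n_i) (n_i row_j - n_j row_i)` of `Rm U`.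

*Proof.* (0) `Rm U = sgn(det U) adj U`, `adj U * U = det U`, `sgn(x) x = |x|` (`Int.sign_mul_self`,
`Int.sign_mul_abs`). (1) `|det U| det V = det (U.updateCol i (|det U| w)) = det (U.updateCol i (U n)) =
n_i det U` (Cramer: `Matrix.det_updateCol_smul`, `Matrix.cramer`; or
`Matrix.det_updateCol_sum`/multilinearity: `U n = ∑_k n_k (column k)`); and
`det U = sgn(det U) |det U|`; cancel `|det U| ≠ 0`.
(2) Let `R = Rm U` and let `S` be the matrix with rows `S_i = |det U| sgn(n_i) R_i`,
`S_j = sgn(n_i) (n_i R_j - n_j R_i)` for `j ≠ i`. Then `R V` has the entries: column `k ≠ i`: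
`|det U| δ_jk`; column `i`: `(R w)_j = n_j`, because `|det U| R w = R U n = |det U| n`. Hence
`(S V)_(ik) = |det U| sgn(n_i) |det U| δ_ik` for `k ≠ i`, that is `0`, and
`(S V)_(ii) = |det U| sgn(n_i) n_i = |det U| |n_i|`; for `j ≠ i`: `(S V)_(jk) = sgn(n_i) n_i |det U| δ_jk`
for `k ≠ i` (as `δ_ik = 0`), and `(S V)_(ji) = sgn(n_i) (n_i n_j - n_j n_i) = 0`. So
`S V = |det U| |n_i| 1 = |det U| (Rm V) V` by (0) and (1), and `V` is invertible over `ℚ` (or multiply
by `adj V` on the right and cancel `det V ≠ 0`), so `S = |det U| Rm V`. For row `i` cancel `|det U|`. ∎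

Difficulty: 0.7 h.
-/

set_option autoImplicit false

namespace Pool.Agent.LPC

open Finset

private theorem sm_Coord (x : ℤ) : x.sign * x = (x.natAbs : ℤ) := by
  rw [mul_comm]
  exact Int.mul_sign_self x

theorem Rm_mul {d : ℕ} (U : Matrix (Fin d) (Fin d) ℤ) :
    Rm U * U = (U.det.natAbs : ℤ) • (1 : Matrix (Fin d) (Fin d) ℤ) ∧
      U * Rm U = (U.det.natAbs : ℤ) • (1 : Matrix (Fin d) (Fin d) ℤ) := by
  constructor
  · rw [Rm, Matrix.smul_mul, Matrix.adjugate_mul, smul_smul, sm_Coord]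
  · rw [Rm, Matrix.mul_smul, Matrix.mul_adjugate, smul_smul, sm_Coord]

private theorem D_ne_Coord {d : ℕ} {U : Matrix (Fin d) (Fin d) ℤ} (hU : U.det ≠ 0) :
    (U.det.natAbs : ℤ) ≠ 0 := by
  rw [Int.natCast_ne_zero]
  exact Int.natAbs_ne_zero.mpr hU

theorem coord_det {d : ℕ} {U : Matrix (Fin d) (Fin d) ℤ} (hU : U.det ≠ 0) {n w : Fin d → ℤ}
    (hw : ∀ k, U.mulVec n k = (U.det.natAbs : ℤ) * w k) (i : Fin d) :
    (U.updateCol i w).det = n i * U.det.sign := by
  have h1 : U.mulVec n = (U.det.natAbs : ℤ) • w := by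
    funext k
    rw [hw k]
    rfl
  have h2 : (U.updateCol i (U.mulVec n)).det = U.det * n i := by
    rw [← Matrix.cramer_apply, Matrix.cramer_eq_adjugate_mulVec, Matrix.mulVec_mulVec,
      Matrix.adjugate_mul, Matrix.smul_mulVec, Matrix.one_mulVec]
    rfl
  rw [h1, Matrix.det_updateCol_smul] at h2
  apply mul_left_cancel₀ (D_ne_Coord hU)
  rw [h2]
  have h4 := Int.sign_mul_natAbs U.det
  calc U.det * n i = (U.det.sign * U.det.natAbs) * n i := by rw [h4]
    _ = (U.det.natAbs : ℤ) * (n i * U.det.sign) := by ring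

private theorem abs_det_Coord {d : ℕ} {U : Matrix (Fin d) (Fin d) ℤ} (hU : U.det ≠ 0)
    {n w : Fin d → ℤ} (hw : ∀ k, U.mulVec n k = (U.det.natAbs : ℤ) * w k) (i : Fin d) :
    (U.updateCol i w).det.natAbs = (n i).natAbs := by
  rw [coord_det hU hw, Int.natAbs_mul, Int.natAbs_sign_of_ne_zero hU, mul_one]

private theorem RV_Coord {d : ℕ} {U : Matrix (Fin d) (Fin d) ℤ} (hU : U.det ≠ 0)
    {n w : Fin d → ℤ} (hw : ∀ k, U.mulVec n k = (U.det.natAbs : ℤ) * w k) (i j k : Fin d) :
    ∑ m, Rm U j m * (U.updateCol i w) m k =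
      if k = i then n j else (if j = k then (U.det.natAbs : ℤ) else 0) := by
  have h0 := (Rm_mul U).1
  split_ifs with hk hjk
  · subst hk
    have h1 : U.mulVec n = (U.det.natAbs : ℤ) • w := by
      funext k
      rw [hw k]
      rfl
    have h2 : (Rm U).mulVec (U.mulVec n) = (U.det.natAbs : ℤ) • n := by
      rw [Matrix.mulVec_mulVec, h0, Matrix.smul_mulVec, Matrix.one_mulVec]
    rw [h1, Matrix.mulVec_smul] at h2
    have h3 := congrFun h2 j
    simp only [Pi.smul_apply, smul_eq_mul] at h3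
    have h4 := mul_left_cancel₀ (D_ne_Coord hU) h3
    rw [← h4]
    simp only [Matrix.mulVec, dotProduct, Matrix.updateCol_self]
  · subst hjk
    have h1 := congrFun (congrFun h0 j) j
    rw [Matrix.mul_apply] at h1
    simp only [Matrix.updateCol_ne hk]
    rw [h1]
    simp
  · have h1 := congrFun (congrFun h0 j) k
    rw [Matrix.mul_apply] at h1
    simp only [Matrix.updateCol_ne hk]
    rw [h1]
    simp [hjk]

private theorem main_Coord {d : ℕ} {U : Matrix (Fin d) (Fin d) ℤ} (hU : U.det ≠ 0)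
    {n w : Fin d → ℤ} (hw : ∀ k, U.mulVec n k = (U.det.natAbs : ℤ) * w k) (i : Fin d)
    (hi : n i ≠ 0) (j k : Fin d) :
    (U.det.natAbs : ℤ) * Rm (U.updateCol i w) j k =
      if j = i then (U.det.natAbs : ℤ) * ((n i).sign * Rm U i k)
      else (n i).sign * (n i * Rm U j k - n j * Rm U i k) := by
  classical
  set V := U.updateCol i w with hV
  set D : ℤ := (U.det.natAbs : ℤ) with hD
  let S : Matrix (Fin d) (Fin d) ℤ := fun j k =>
    if j = i then D * ((n i).sign * Rm U i k)
      else (n i).sign * (n i * Rm U j k - n j * Rm U i k)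
  have hRV : ∀ j k, ∑ m, Rm U j m * V m k = if k = i then n j else (if j = k then D else 0) :=
    fun j k => RV_Coord hU hw i j k
  have hdV : (V.det.natAbs : ℤ) = ((n i).natAbs : ℤ) := by
    exact_mod_cast abs_det_Coord hU hw i
  have hV0 : V.det ≠ 0 := by
    rw [hV, coord_det hU hw]
    exact mul_ne_zero hi (by rw [Ne, Int.sign_eq_zero_iff_zero]; exact hU)
  have hSV : S * V = (D * ((n i).natAbs : ℤ)) • (1 : Matrix (Fin d) (Fin d) ℤ) := by
    ext j k
    rw [Matrix.mul_apply, Matrix.smul_apply, smul_eq_mul, Matrix.one_apply]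
    by_cases hj : j = i
    · subst hj
      have h1 : ∑ m, S j m * V m k = D * (n j).sign * ∑ m, Rm U j m * V m k := by
        rw [Finset.mul_sum]
        refine Finset.sum_congr rfl fun m _ => ?_
        simp only [S, if_true]
        ring
      rw [h1, hRV]
      by_cases hk : k = j
      · subst hk
        rw [if_pos rfl, if_pos rfl, mul_one, mul_assoc, sm_Coord]
      · rw [if_neg hk, if_neg (Ne.symm hk), if_neg (Ne.symm hk), mul_zero, mul_zero]
    · have h1 : ∑ m, S j m * V m k = (n i).sign * (n i * ∑ m, Rm U j m * V m k -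
          n j * ∑ m, Rm U i m * V m k) := by
        rw [Finset.mul_sum, Finset.mul_sum, ← Finset.sum_sub_distrib, Finset.mul_sum]
        refine Finset.sum_congr rfl fun m _ => ?_
        simp only [S, if_neg hj]
        ring
      rw [h1, hRV, hRV]
      by_cases hk : k = i
      · subst hk
        rw [if_pos rfl, if_pos rfl, if_neg hj]
        ring
      · rw [if_neg hk, if_neg hk, if_neg (Ne.symm hk)]
        by_cases hjk : j = k
        · subst hjk
          rw [if_pos rfl, if_pos rfl]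
          have := sm_Coord (n i)
          rw [← this]
          ring
        · rw [if_neg hjk, if_neg hjk]
          ring
  have h2 : (D • Rm V) * V = (D * ((n i).natAbs : ℤ)) • (1 : Matrix (Fin d) (Fin d) ℤ) := by
    rw [Matrix.smul_mul, (Rm_mul V).1, smul_smul, hdV]
  have h3 : (D • Rm V) * V = S * V := by rw [h2, hSV]
  have h4 : V.det • (D • Rm V) = V.det • S := by
    have h5 := congrArg (fun X => X * V.adjugate) h3
    simp only [Matrix.mul_assoc, Matrix.mul_adjugate, Matrix.mul_smul, Matrix.mul_one] at h5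
    exact h5
  have h6 := congrFun (congrFun h4 j) k
  simp only [Matrix.smul_apply, smul_eq_mul] at h6
  exact mul_left_cancel₀ hV0 h6

theorem coord_same {d : ℕ} {U : Matrix (Fin d) (Fin d) ℤ} (hU : U.det ≠ 0) {n w : Fin d → ℤ}
    (hw : ∀ k, U.mulVec n k = (U.det.natAbs : ℤ) * w k) (i : Fin d) (hi : n i ≠ 0) (k : Fin d) :
    Rm (U.updateCol i w) i k = (n i).sign * Rm U i k := by
  have h := main_Coord hU hw i hi i k
  rw [if_pos rfl] at h
  exact mul_left_cancel₀ (D_ne_Coord hU) h

theorem coord_other {d : ℕ} {U : Matrix (Fin d) (Fin d) ℤ} (hU : U.det ≠ 0) {n w : Fin d → ℤ}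
    (hw : ∀ k, U.mulVec n k = (U.det.natAbs : ℤ) * w k) (i j : Fin d) (hi : n i ≠ 0)
    (hj : j ≠ i) (k : Fin d) :
    (U.det.natAbs : ℤ) * Rm (U.updateCol i w) j k =
      (n i).sign * (n i * Rm U j k - n j * Rm U i k) := by
  have h := main_Coord hU hw i hi j k
  rw [if_neg hj] at h
  exact h

end Pool.Agent.LPC
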