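import Pool.Agent.LPC.ElimMain
import Pool.Agent.LPC.LeafDef

/-!
# Package LPC-CountCore: counting the lattice points of polytopes

*Statement.* For `ZF` families `a k i`, `b k` (`k < K`, `i < m + 2`) and `B ∈ DFun n`, the number of
`x ∈ [0, B v)^(m+2)` with `0 ≤ ∑_i a k i v x_i + b k v` for all `k` is a `DFun` of `v`.

*Proof.* Add the inequalities `0 ≤ x_i` (index `lo i`) and `0 ≤ B v - 1 - x_i` (index `up i`).
`tri_main` gives `Θ, σ, f, z`. For fixed `v` let `P ⊂ ℤ^(m+2)` be the image of the counted set under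
`ℕ → ℤ`; then `[x ∈ P]` is the left side of `tri_main` for all `x ∈ ℤ^(m+2)`. `count_form` gives
`#P = ∑_θ ∑_(s < S θ v) σ θ v leafTerm(θ, v, s)`. By `leaf_def` the term is `σ g / k`; round with
`ceil_sum`, sum with `zf_sumPoly`. ∎
-/

set_option autoImplicit false

namespace Pool.Agent.LPC

open Finset Pool.Agent.Grz Pool.Agent.GAvg Pool.Agent.PTr Pool.Agent.MTr

private theorem cc_lg (D : ℕ) : 2 * (lg D + 1) ≤ (lg (2 * D + 2) + 1) ^ 2 := by
  have h1 : lg D + 1 ≤ lg (2 * D + 2) := by
    have : lg (2 * D + 2) = lg (D + 1) + 1 := by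
      have h : (2 * D + 2) = (D + 1) * 2 := by ring
      unfold lg
      rw [h, Nat.log_mul_base (by norm_num) (by omega)]
    rw [this]
    have : lg D ≤ lg (D + 1) := Nat.log_mono_right (by omega)
    omega
  nlinarith [h1, Nat.zero_le (lg D)]

private theorem cc_mem {n m K : ℕ} {a : Fin K → Fin (m + 2) → (Fin n → ℕ) → ℤ}
    {b : Fin K → (Fin n → ℕ) → ℤ} {B : (Fin n → ℕ) → ℕ} (v : Fin n → ℕ) (x : Fin (m + 2) → ℤ) :
    x ∈ ((box (Fin (m + 2)) (B v)).filter
      (fun x => ∀ k, 0 ≤ ∑ i, a k i v * (x i : ℤ) + b k v)).image (fun y i => (y i : ℤ)) ↔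
      (∀ k, 0 ≤ ∑ i, a k i v * x i + b k v) ∧ ∀ i, 0 ≤ x i ∧ 0 ≤ -x i + ((B v : ℤ) - 1) := by
  classical
  rw [Finset.mem_image]
  constructor
  · rintro ⟨y, hy, rfl⟩
    rw [Finset.mem_filter, box, Fintype.mem_piFinset] at hy
    refine ⟨hy.2, fun i => ?_⟩
    have := Finset.mem_range.1 (hy.1 i)
    dsimp only
    omega
  · rintro ⟨h1, h2⟩
    refine ⟨fun i => (x i).toNat, ?_, ?_⟩
    · have e : ∀ i, (((x i).toNat : ℕ) : ℤ) = x i := fun i => Int.toNat_of_nonneg (h2 i).1
      rw [Finset.mem_filter, box, Fintype.mem_piFinset]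
      refine ⟨fun i => ?_, fun k => ?_⟩
      · have := h2 i
        have := e i
        rw [Finset.mem_range]
        omega
      · simp only [e]
        exact h1 k
    · funext i
      exact Int.toNat_of_nonneg (h2 i).1

theorem count_core {n m K : ℕ} {a : Fin K → Fin (m + 2) → (Fin n → ℕ) → ℤ}
    {b : Fin K → (Fin n → ℕ) → ℤ} {B : (Fin n → ℕ) → ℕ} (ha : ∀ k i, ZF n (a k i))
    (hb : ∀ k, ZF n (b k)) (hB : DFun n B) :
    DFun n (fun v => #{x ∈ box (Fin (m + 2)) (B v) |
      ∀ k, 0 ≤ ∑ i, a k i v * (x i : ℤ) + b k v}) := by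
  classical
  -- the system with the box constraints
  let a' : Fin (K + ((m + 2) + (m + 2))) → Fin (m + 2) → (Fin n → ℕ) → ℤ :=
    Fin.addCases a (Fin.addCases (fun i j _ => if j = i then 1 else 0)
      (fun i j _ => if j = i then -1 else 0))
  let b' : Fin (K + ((m + 2) + (m + 2))) → (Fin n → ℕ) → ℤ :=
    Fin.addCases b (Fin.addCases (fun _ _ => 0) (fun _ v => (B v : ℤ) - 1))
  let lo : Fin (m + 2) → Fin (K + ((m + 2) + (m + 2))) := fun i =>
    Fin.natAdd K (Fin.castAdd (m + 2) i)
  let up : Fin (m + 2) → Fin (K + ((m + 2) + (m + 2))) := fun i =>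
    Fin.natAdd K (Fin.natAdd (m + 2) i)
  have alo : ∀ i j v, a' (lo i) j v = if j = i then 1 else 0 := by
    intro i j v
    simp only [a', lo, Fin.addCases_right, Fin.addCases_left]
  have aup : ∀ i j v, a' (up i) j v = if j = i then -1 else 0 := by
    intro i j v
    simp only [a', up, Fin.addCases_right]
  have blo : ∀ i v, b' (lo i) v = 0 := by
    intro i v
    simp only [b', lo, Fin.addCases_right, Fin.addCases_left]
  have bup : ∀ i v, b' (up i) v = (B v : ℤ) - 1 := by
    intro i v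
    simp only [b', up, Fin.addCases_right]
  have aca : ∀ k j v, a' (Fin.castAdd _ k) j v = a k j v := by
    intro k j v
    simp only [a', Fin.addCases_left]
  have bca : ∀ k v, b' (Fin.castAdd _ k) v = b k v := by
    intro k v
    simp only [b', Fin.addCases_left]
  have ha' : ∀ k i, ZF n (a' k i) := by
    intro k i
    refine Fin.addCases (fun k => ?_) (fun k => ?_) k
    · exact (ha k i).congr fun v => aca k i v
    · refine Fin.addCases (fun k => ?_) (fun k => ?_) k
      · exact (ZF.const (if i = k then 1 else 0)).congr fun v => alo k i v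
      · exact (ZF.const (if i = k then -1 else 0)).congr fun v => aup k i v
  have hb' : ∀ k, ZF n (b' k) := by
    intro k
    refine Fin.addCases (fun k => ?_) (fun k => ?_) k
    · exact (hb k).congr fun v => bca k v
    · refine Fin.addCases (fun k => ?_) (fun k => ?_) k
      · exact (ZF.const 0).congr fun v => blo k v
      · exact ((ZF.nat hB).sub (ZF.const 1)).congr fun v => bup k v
  obtain ⟨Θ, _, σ, f, z, hσ, hf, hz, h0, h1, hodd, hid⟩ := tri_main ha' hb' lo up
    (fun i v => ⟨by rw [alo]; simp, fun j hj => by rw [alo, if_neg (ne_of_gt hj)]⟩)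
    (fun i v => ⟨by rw [aup]; simp, fun j hj => by rw [aup, if_neg (ne_of_gt hj)]⟩)
  -- the cones
  have hU : ∀ θ i j, ZF n (fun v => (f θ v).adjugate i j) := fun θ i j => zf_adj (hf θ) i j
  have hdet : ∀ θ v, (f θ v).adjugate.det ≠ 0 := fun θ v =>
    (tri_det (h0 θ v) (h1 θ v)).2.ne'
  have hDF : ∀ θ, DFun n (fun v => (f θ v).adjugate.det.natAbs) := fun θ =>
    (zf_det (hU θ)).natAbs
  have hdF : ∀ θ, DFun n (fun v => 2 * (f θ v).det.natAbs) := fun θ =>
    (DFun.const 2).mul (zf_det (hf θ)).natAbs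
  have hlg : ∀ θ, DFun n (fun v => (2 * (lg (f θ v).adjugate.det.natAbs + 1)) ^ ((m + 2) ^ 2)) :=
    fun θ => DFun.powConst ((DFun.const 2).mul ((DFun.lg (hDF θ)).add (DFun.const 1))) _
  let Mb : Θ → (Fin n → ℕ) → ℕ := fun θ v =>
    (2 * (lg (f θ v).adjugate.det.natAbs + 1)) ^ ((m + 2) ^ 2) *
      ∑ i, ∑ j, ((f θ v).adjugate i j).natAbs
  have hMb : ∀ θ, DFun n (Mb θ) := fun θ =>
    (hlg θ).mul (DFun.finSum _ fun i => DFun.finSum _ fun j => (hU θ i j).natAbs)
  let Y : (Fin n → ℕ) → ℕ := fun v => 2 * (∑ θ, Mb θ v) + 2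
  have hY : DFun n Y := ((DFun.const 2).mul (DFun.finSum _ hMb)).add (DFun.const 2)
  have hq : ∀ θ i, ZF n (fun v => (f θ v).adjugate.mulVec (z θ v) i) := by
    intro θ i
    refine (ZF.sum univ fun j => (hU θ i j).mul (hz θ j)).congr fun v => ?_
    simp only [Matrix.mulVec, dotProduct]
  choose g k hg hk hk0 hgk using fun θ => leaf_def (hU θ) (hdet θ) (hq θ) (hdF θ) hY
  -- the numbers of leaves
  let S : Θ → (Fin n → ℕ) → ℕ := fun θ v => (m + 2) ^ dep (m + 2) (f θ v).adjugate.det.natAbs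
  have hS : ∀ θ, DFun n (S θ) := by
    intro θ
    refine dfun_pow (by omega) ?_ (hlg θ) fun v => pow_dep_le m _
    exact (DFun.const (m + 2)).mul ((DFun.lg ((DFun.lg (hDF θ)).add (DFun.const 1))).add (DFun.const 1))
  let W : (Fin n → ℕ) → ℕ := fun v => (∑ θ, S θ v) + 1
  have hW : DFun n W := (DFun.finSum _ hS).add (DFun.const 1)
  let term : Θ → ℕ → (Fin n → ℕ) → ℤ := fun θ s v =>
    ((W v : ℤ) * (σ θ v * g θ s v)) / (k θ s v : ℤ)
  have hterm : ∀ θ, ZF (n + 1) (fun w => term θ (w 0) (fun i => w i.succ)) := by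
    intro θ
    exact zf_ediv (((ZF.nat hW).weak).mul (((hσ θ).weak).mul (hg θ))) (hk θ)
  have hR : ∀ θ, ZF n (fun v => ∑ s ∈ range (S θ v), term θ s v) := by
    intro θ
    refine zf_sumPoly (2 * (m + 2) ^ 2) (hterm θ) (hS θ)
      (((DFun.const 2).mul (hDF θ)).add (DFun.const 2)) fun v => ?_
    refine (pow_dep_le m _).trans ?_
    rw [pow_mul]
    exact Nat.pow_le_pow_left (cc_lg _) _
  have hfin : ZF n (fun v => -((-∑ θ, ∑ s ∈ range (S θ v), term θ s v) / (W v : ℤ))) :=
    (zf_ediv (ZF.sum univ hR).neg hW).neg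
  have key : ∀ v, ((#{x ∈ box (Fin (m + 2)) (B v) |
      ∀ k, 0 ≤ ∑ i, a k i v * (x i : ℤ) + b k v} : ℕ) : ℤ) =
      -((-∑ θ, ∑ s ∈ range (S θ v), term θ s v) / (W v : ℤ)) := by
    intro v
    have hinj : Function.Injective (fun (y : Fin (m + 2) → ℕ) i => (y i : ℤ)) := by
      intro y y' h
      funext i
      exact Nat.cast_injective (R := ℤ) (congrFun h i)
    have hP : ∀ x, ind (x ∈ ((box (Fin (m + 2)) (B v)).filter
        (fun x => ∀ k, 0 ≤ ∑ i, a k i v * (x i : ℤ) + b k v)).image (fun y i => (y i : ℤ))) =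
        ∑ θ, σ θ v * ind (∀ l, 0 < 2 * ∑ i, f θ v l i * x i + z θ v l) := by
      intro x
      rw [← hid v x]
      congr 1
      refine propext ((cc_mem v x).trans ?_)
      constructor
      · rintro ⟨e1, e2⟩ k
        refine Fin.addCases (fun k => ?_) (fun k => ?_) k
        · simp only [aca, bca]
          exact e1 k
        · refine Fin.addCases (fun k => ?_) (fun k => ?_) k
          · have := (e2 k).1
            have e3 := fun j => alo k j v
            have e4 := blo k v
            simp only [lo] at e3 e4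
            simp only [e3, e4, ite_mul, one_mul, zero_mul, Finset.sum_ite_eq', mem_univ, if_true]
            simpa using this
          · have := (e2 k).2
            have e3 := fun j => aup k j v
            have e4 := bup k v
            simp only [up] at e3 e4
            simp only [e3, e4, ite_mul, zero_mul, Finset.sum_ite_eq', mem_univ, if_true]
            linarith
      · intro e
        refine ⟨fun k => ?_, fun i => ⟨?_, ?_⟩⟩
        · have := e (Fin.castAdd _ k)
          simpa only [aca, bca] using this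
        · have := e (lo i)
          simp only [alo, blo, ite_mul, one_mul, zero_mul, Finset.sum_ite_eq', mem_univ,
            if_true] at this
          simpa using this
        · have := e (up i)
          simp only [aup, bup, ite_mul, zero_mul, Finset.sum_ite_eq', mem_univ, if_true] at this
          linarith
    have hcard : #(((box (Fin (m + 2)) (B v)).filter
        (fun x => ∀ k, 0 ≤ ∑ i, a k i v * (x i : ℤ) + b k v)).image (fun y i => (y i : ℤ))) =
        #{x ∈ box (Fin (m + 2)) (B v) | ∀ k, 0 ≤ ∑ i, a k i v * (x i : ℤ) + b k v} :=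
      Finset.card_image_of_injective _ hinj
    have hcf := count_form (fun θ => σ θ v) (fun θ => f θ v) (fun θ => z θ v)
      (fun θ => h0 θ v) (fun θ => h1 θ v) (fun θ => hodd θ v) _ hP (M := ∑ θ, Mb θ v)
      (Y := Y v) le_rfl (fun θ => Finset.single_le_sum (f := fun θ => Mb θ v)
        (fun _ _ => Nat.zero_le _) (mem_univ θ))
    rw [hcard] at hcf
    have hsum : ∑ p ∈ (univ : Finset Θ).sigma (fun θ => range (S θ v)),
        ((σ p.1 v * g p.1 p.2 v : ℤ) : ℚ) / (k p.1 p.2 v : ℚ) =
        ((#{x ∈ box (Fin (m + 2)) (B v) | ∀ k, 0 ≤ ∑ i, a k i v * (x i : ℤ) + b k v} : ℤ) :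
          ℚ) := by
      rw [Finset.sum_sigma, Int.cast_natCast, hcf]
      refine Finset.sum_congr rfl fun θ _ => ?_
      rw [Finset.mul_sum]
      refine Finset.sum_congr rfl fun s _ => ?_
      rw [hgk θ s v]
      push_cast
      ring
    have := ceil_sum ((univ : Finset Θ).sigma (fun θ => range (S θ v)))
      (fun p => σ p.1 v * g p.1 p.2 v) (fun p => k p.1 p.2 v) (fun p _ => hk0 p.1 p.2 v) hsum
      (W := W v) (by
        rw [Finset.card_sigma]
        simp only [Finset.card_range]
        exact Nat.le_succ _) (Nat.succ_pos _)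
    rw [this, Finset.sum_sigma]
  have hres := hfin.toNat
  refine (?_ : (fun v => #{x ∈ box (Fin (m + 2)) (B v) |
      ∀ k, 0 ≤ ∑ i, a k i v * (x i : ℤ) + b k v}) = _) ▸ hres
  funext v
  rw [← key v, Int.toNat_natCast]

end Pool.Agent.LPC
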