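import Pool.Agent.LPC.Coord

/-!
# Package LPC-Leaf: integer points of a cone with rational apex; triangular systems as cones

* `leaf_iff`: for the apex `κ_j = -q_j / h`, `q ∈ ℤ^d`, `h ≥ 1`, `R = Rm V`, `x ∈ ℤ^d`:
  `InCone V κ x ↔ ∀ i, lidx (R i) q h ≤ ∑_j R_ij x_j`. *Proof.* The `i`-th condition is
  `LP (t + g/h) (R_i)` with the integers `t = ∑_j R_ij x_j`, `g = ∑_j R_ij q_j`. If not
  `LP 0 R_i`: it says `t + g/h > 0`, `h t > -g`, `t > (-g)/h` (rational), `t ≥ ⌊(-g)/h⌋ + 1`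
  (`Int.ediv_lt_iff_lt_mul`…). If `LP 0 R_i`: it says `t + g/h ≥ 0`, `h (-t) ≤ g`,
  `-t ≤ ⌊g/h⌋` (`Int.le_ediv_iff_mul_le`), `t ≥ -(g/h)`. (`LP 0 (R_i : ℚ) ↔ LP 0 R_i`: unfold, casts.)

* `tri_cone`: let `f` be a lower triangular integer matrix with positive diagonal, `z ∈ ℤ^(m+2)` with all
  `z_l` odd, `U = adj f`, `Δ = det f = ∏ f_ll > 0`, `κ = -(U z) / (2Δ)`. Then for `x ∈ ℤ^(m+2)`:
  `InCone U κ x ↔ ∀ l, 0 < 2 (f x)_l + z_l`; and `det U > 0`. *Proof.* `det U = Δ^(m+1) > 0`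
  (`Matrix.det_adjugate`, `Matrix.det_of_lowerTriangular`), so `Rm U = adj (adj f) = Δ^m f`
  (`Matrix.adjugate_adjugate`, `card = m + 2 ≠ 1`). `f κ = -(f U z)/(2Δ) = -z/2`. So the `l`-th
  condition of `InCone U κ x` is `LP (Δ^m ((f x)_l + z_l / 2)) (Δ^m f_l)`, and
  `(f x)_l + z_l/2 ≠ 0` because `2 (f x)_l + z_l` is odd; so it holds iff `0 < (f x)_l + z_l/2`. ∎

Difficulty: 0.6 h.
-/

set_option autoImplicit false

namespace Pool.Agent.LPC

open Finset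

open scoped Classical in
/-- the least integer `t` with `LP (t + (∑ R_j q_j)/h) R` -/
noncomputable def lidx {d : ℕ} (R q : Fin d → ℤ) (h : ℕ) : ℤ :=
  if LP (0 : ℤ) R then -((∑ j, R j * q j) / (h : ℤ)) else (-(∑ j, R j * q j)) / (h : ℤ) + 1

private lemma Leaf_LP {K : Type*} [Zero K] [LT K] {d : ℕ} (y : K) (w : Fin d → K) (P : Prop)
    (hP : (∃ i, 0 < w i ∧ ∀ j, j < i → w j = 0) ↔ P) : LP y w ↔ 0 < y ∨ (y = 0 ∧ P) := by
  unfold LP
  rw [hP]

private lemma Leaf_P {d : ℕ} (R : Fin d → ℤ) :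
    (∃ i, 0 < (R i : ℚ) ∧ ∀ j, j < i → (R j : ℚ) = 0) ↔
      (∃ i, 0 < R i ∧ ∀ j, j < i → R j = 0) := by
  simp only [Int.cast_pos, Int.cast_eq_zero]

theorem leaf_iff {d : ℕ} (V : Matrix (Fin d) (Fin d) ℤ) (q : Fin d → ℤ) {h : ℕ} (hh : 0 < h)
    (x : Fin d → ℤ) :
    InCone V (fun k => -(q k : ℚ) / (h : ℚ)) x ↔
      ∀ i, lidx (Rm V i) q h ≤ ∑ j, Rm V i j * x j := by
  classical
  unfold InCone
  refine forall_congr' fun i => ?_
  rw [Leaf_LP _ _ _ (Leaf_P (Rm V i))]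
  have hh' : (0 : ℤ) < (h : ℤ) := by exact_mod_cast hh
  have hhQ : (0 : ℚ) < (h : ℚ) := by exact_mod_cast hh
  have hy : ∑ j, (Rm V i j : ℚ) * ((x j : ℚ) - -(q j : ℚ) / (h : ℚ)) =
      (((∑ j, Rm V i j * x j) * (h : ℤ) + ∑ j, Rm V i j * q j : ℤ) : ℚ) / (h : ℚ) := by
    rw [eq_div_iff hhQ.ne', Finset.sum_mul]
    push_cast
    rw [Finset.sum_mul, ← Finset.sum_add_distrib]
    refine Finset.sum_congr rfl fun j _ => ?_
    field_simp
    ring
  rw [hy, div_pos_iff_of_pos_right hhQ, div_eq_zero_iff, or_iff_left hhQ.ne', Int.cast_pos,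
    Int.cast_eq_zero]
  set t : ℤ := ∑ j, Rm V i j * x j with ht
  set g : ℤ := ∑ j, Rm V i j * q j with hg
  unfold lidx
  rw [← hg]
  have hL : LP (0 : ℤ) (Rm V i) ↔ (∃ i', 0 < Rm V i i' ∧ ∀ j, j < i' → Rm V i j = 0) := by
    rw [Leaf_LP (0 : ℤ) (Rm V i) _ Iff.rfl]
    constructor
    · rintro (h1 | ⟨_, h1⟩)
      · exact absurd h1 (lt_irrefl _)
      · exact h1
    · exact fun h1 => Or.inr ⟨rfl, h1⟩
  by_cases hP : LP (0 : ℤ) (Rm V i)
  · rw [if_pos hP]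
    have hP' := hL.mp hP
    have h1 : -(g / (h : ℤ)) ≤ t ↔ 0 ≤ t * (h : ℤ) + g := by
      rw [neg_le, Int.le_ediv_iff_mul_le hh']
      constructor
      · intro h2
        linarith
      · intro h2
        linarith
    rw [h1]
    constructor
    · rintro (h2 | ⟨h2, _⟩)
      · exact h2.le
      · exact h2.ge
    · intro h2
      rcases h2.lt_or_eq with h3 | h3
      · exact Or.inl h3
      · exact Or.inr ⟨h3.symm, hP'⟩
  · rw [if_neg hP]
    have hP' : ¬ (∃ i', 0 < Rm V i i' ∧ ∀ j, j < i' → Rm V i j = 0) := fun h1 => hP (hL.mpr h1)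
    have h1 : -g / (h : ℤ) + 1 ≤ t ↔ 0 < t * (h : ℤ) + g := by
      rw [Int.add_one_le_iff, Int.ediv_lt_iff_lt_mul hh']
      constructor
      · intro h2
        linarith
      · intro h2
        linarith
    rw [h1]
    constructor
    · rintro (h2 | ⟨_, h2⟩)
      · exact h2
      · exact absurd h2 hP'
    · exact Or.inl

theorem tri_det {m : ℕ} {f : Matrix (Fin (m + 2)) (Fin (m + 2)) ℤ} (h0 : ∀ l i, l < i → f l i = 0)
    (h1 : ∀ l, 0 < f l l) : 0 < f.det ∧ 0 < f.adjugate.det := by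
  have hdet : f.det = ∏ i, f i i := Matrix.det_of_isLowerTriangular f (fun i j hij => h0 i j hij)
  have h2 : 0 < f.det := by
    rw [hdet]
    exact Finset.prod_pos fun i _ => h1 i
  exact ⟨h2, by rw [Matrix.det_adjugate]; exact pow_pos h2 _⟩

theorem tri_cone {m : ℕ} {f : Matrix (Fin (m + 2)) (Fin (m + 2)) ℤ}
    (h0 : ∀ l i, l < i → f l i = 0) (h1 : ∀ l, 0 < f l l) {z : Fin (m + 2) → ℤ}
    (hz : ∀ l, z l % 2 = 1) (x : Fin (m + 2) → ℤ) :
    InCone f.adjugate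
        (fun k => -((f.adjugate.mulVec z k : ℤ) : ℚ) / ((2 * f.det.natAbs : ℕ) : ℚ)) x ↔
      ∀ l, 0 < 2 * ∑ i, f l i * x i + z l := by
  obtain ⟨hd, hd'⟩ := tri_det h0 h1
  have hR : Rm f.adjugate = f.det ^ m • f := by
    unfold Rm
    rw [Int.sign_eq_one_of_pos hd', one_smul, Matrix.adjugate_adjugate f (by simp)]
    simp
  have hdQ : (0 : ℚ) < (f.det : ℚ) := by exact_mod_cast hd
  have hnat : ((2 * f.det.natAbs : ℕ) : ℚ) = 2 * (f.det : ℚ) := by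
    rw [Nat.cast_mul, Nat.cast_natAbs, abs_of_pos hd, Nat.cast_two]
  unfold InCone
  refine forall_congr' fun l => ?_
  rw [Leaf_LP _ _ _ Iff.rfl]
  have hmul : ∑ j, f l j * f.adjugate.mulVec z j = f.det * z l := by
    have h3 : f.mulVec (f.adjugate.mulVec z) l = (f.det • (1 : Matrix _ _ ℤ)).mulVec z l := by
      rw [Matrix.mulVec_mulVec, Matrix.mul_adjugate]
    rw [Matrix.smul_mulVec, Matrix.one_mulVec] at h3
    exact h3
  have hy : ∑ j, (Rm f.adjugate l j : ℚ) *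
      ((x j : ℚ) - -((f.adjugate.mulVec z j : ℤ) : ℚ) / ((2 * f.det.natAbs : ℕ) : ℚ)) =
      (f.det : ℚ) ^ m * ((2 * ∑ i, f l i * x i + z l : ℤ) : ℚ) / 2 := by
    have h4 : ((∑ j, f l j * f.adjugate.mulVec z j : ℤ) : ℚ) = (f.det : ℚ) * (z l : ℚ) := by
      rw [hmul]
      push_cast
      rfl
    have h5 : ∀ j, (Rm f.adjugate l j : ℚ) *
        ((x j : ℚ) - -((f.adjugate.mulVec z j : ℤ) : ℚ) / ((2 * f.det.natAbs : ℕ) : ℚ)) =
        (f.det : ℚ) ^ m * ((f l j : ℚ) * (x j : ℚ)) +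
        (f.det : ℚ) ^ m / (2 * (f.det : ℚ)) * ((f l j : ℚ) *
          ((f.adjugate.mulVec z j : ℤ) : ℚ)) := by
      intro j
      rw [hR, hnat, Matrix.smul_apply, smul_eq_mul]
      push_cast
      field_simp
      ring
    rw [Finset.sum_congr rfl fun j _ => h5 j, Finset.sum_add_distrib, ← Finset.mul_sum,
      ← Finset.mul_sum]
    have h6 : ∑ j, (f l j : ℚ) * ((f.adjugate.mulVec z j : ℤ) : ℚ) =
        (f.det : ℚ) * (z l : ℚ) := by
      rw [← h4]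
      push_cast
      rfl
    rw [h6]
    obtain ⟨Δ, hΔ⟩ : ∃ Δ : ℚ, Δ = (f.det : ℚ) := ⟨_, rfl⟩
    rw [← hΔ] at hdQ ⊢
    push_cast
    field_simp
  rw [hy]
  have hne : (2 * ∑ i, f l i * x i + z l : ℤ) ≠ 0 := by
    have := hz l
    omega
  have hpow : (0 : ℚ) < (f.det : ℚ) ^ m := pow_pos hdQ m
  constructor
  · rintro (h2 | ⟨h2, _⟩)
    · have h3 : 0 < (f.det : ℚ) ^ m * ((2 * ∑ i, f l i * x i + z l : ℤ) : ℚ) := by linarith
      exact_mod_cast (pos_iff_pos_of_mul_pos h3).mp hpow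
    · exfalso
      have h3 : (f.det : ℚ) ^ m * ((2 * ∑ i, f l i * x i + z l : ℤ) : ℚ) = 0 := by linarith
      rcases mul_eq_zero.mp h3 with h4 | h4
      · exact hpow.ne' h4
      · exact hne (by exact_mod_cast h4)
  · intro h2
    left
    have h3 : (0 : ℚ) < ((2 * ∑ i, f l i * x i + z l : ℤ) : ℚ) := by exact_mod_cast h2
    positivity

end Pool.Agent.LPC
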