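import Pool.Agent.LPC.Defs
import Pool.Agent.LPC.ConstTerm

/-!
# Package LPC-CvNe (part of Phi): `phi` as a quotient of integer polynomials; the linear form `cv`

* `phi_poly`: for every `d` there are `C ≥ 1` and `p ∈ ℤ[x_1..x_d, y_1..y_d]` with
  `phi m b = p(m, b) / (C ∏ b_i)` for all `m, b ∈ ℤ^d` (also if some `b_i = 0`: both sides are `0`).
  *Proof.* `phi m b = (-1)^d (∏ b_i)⁻¹ q(m, b)` with
  `q(m, b) = ∑_(k ∈ finsuppAntidiag univ d) ∏_i (B_(k_i)(m_i) b_i^(k_i) / k_i!)`, a polynomial in `m, b` with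
  rational coefficients. Let `𝒢` be the set of functions `g(m, b)` of the form `p(m, b) / C`, `C ≥ 1`,
  `p ∈ ℤ[x, y]`. `𝒢` contains the rational constants, `f(m_i)` for every `f ∈ ℚ[X]` (induction on
  polynomials), `b_i^k`, and is closed under (finite) sums and products; so `(-1)^d q ∈ 𝒢`.

* `cv_ne`: if `u ∈ ℤ^d`, `u ≠ 0`, `|u_i| ≤ M` and `Y ≥ 2M + 2` then `cv Y u ≠ 0`. *Proof.* Let `i` be the
  first index with `u_i ≠ 0`. `|∑_(j > i) Y^(d-1-j) u_j| ≤ M ∑_(e < d-1-i) Y^e < Y^(d-1-i)`, because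
  `(Y - 1) ∑_(e < k) Y^e = Y^k - 1` and `M ≤ Y - 1`. So `cv Y u ≠ 0` as `|Y^(d-1-i) u_i| ≥ Y^(d-1-i)`.

Difficulty: 0.6 h.
-/

set_option autoImplicit false

namespace Pool.Agent.LPC

open Finset

private theorem CvNe_succ {d Y : ℕ} (u : Fin (d + 1) → ℤ) :
    cv Y u = (Y : ℤ) ^ d * u 0 + cv Y (fun i => u i.succ) := by
  unfold cv
  rw [Fin.sum_univ_succ]
  have h0 : d + 1 - 1 - ((0 : Fin (d + 1)) : ℕ) = d := by
    rw [Fin.val_zero]
    omega
  rw [h0]
  congr 1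
  refine sum_congr rfl fun i _ => ?_
  have h1 : d + 1 - 1 - ((i.succ : Fin (d + 1)) : ℕ) = d - 1 - (i : ℕ) := by
    rw [Fin.val_succ]
    omega
  rw [h1]

private theorem CvNe_lt {M Y : ℕ} (hY : M + 1 ≤ Y) : ∀ {d : ℕ} (u : Fin d → ℤ),
    (∀ i, (u i).natAbs ≤ M) → |cv Y u| < (Y : ℤ) ^ d := by
  intro d
  induction d with
  | zero =>
    intro u _
    simp [cv]
  | succ d ih =>
    intro u hM
    rw [CvNe_succ]
    have h1 := ih (fun i => u i.succ) (fun i => hM _)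
    have h2 : |(Y : ℤ) ^ d * u 0| ≤ (Y : ℤ) ^ d * M := by
      rw [abs_mul, abs_of_nonneg (by positivity : (0 : ℤ) ≤ (Y : ℤ) ^ d)]
      refine mul_le_mul_of_nonneg_left ?_ (by positivity)
      rw [Int.abs_eq_natAbs]
      exact_mod_cast hM 0
    have h4 := abs_add_le ((Y : ℤ) ^ d * u 0) (cv Y (fun i => u i.succ))
    have h5 : (Y : ℤ) ^ d * M + (Y : ℤ) ^ d ≤ (Y : ℤ) ^ (d + 1) := by
      have h6 : (Y : ℤ) ^ d * (M + 1) ≤ (Y : ℤ) ^ d * Y := by
        refine mul_le_mul_of_nonneg_left ?_ (by positivity)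
        exact_mod_cast hY
      rw [pow_succ]
      linarith
    linarith

theorem cv_ne {d M Y : ℕ} (hY : 2 * M + 2 ≤ Y) {u : Fin d → ℤ} (hu : u ≠ 0)
    (hM : ∀ i, (u i).natAbs ≤ M) : cv Y u ≠ 0 := by
  induction d with
  | zero => exact absurd (funext fun i => i.elim0) hu
  | succ d ih =>
    rw [CvNe_succ]
    by_cases h0 : u 0 = 0
    · rw [h0, mul_zero, zero_add]
      refine ih (u := fun i => u i.succ) ?_ (fun i => hM _)
      intro h1
      apply hu
      funext i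
      refine Fin.cases ?_ (fun i => ?_) i
      · exact h0
      · exact congrFun h1 i
    · intro hsum
      have h1 := CvNe_lt (by omega : M + 1 ≤ Y) (fun i : Fin d => u i.succ) (fun i => hM _)
      have h2 : cv Y (fun i : Fin d => u i.succ) = -((Y : ℤ) ^ d * u 0) := by linarith
      rw [h2, abs_neg, abs_mul, abs_of_nonneg (by positivity : (0 : ℤ) ≤ (Y : ℤ) ^ d)] at h1
      have h3 : (1 : ℤ) ≤ |u 0| := Int.one_le_abs h0
      have h4 : (Y : ℤ) ^ d * 1 ≤ (Y : ℤ) ^ d * |u 0| :=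
        mul_le_mul_of_nonneg_left h3 (by positivity)
      linarith

end Pool.Agent.LPC
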