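import Pool.Agent.LPC.Coord
import Pool.Agent.LPC.ConstTerm

/-!
# LPC-ResCount: the constant term formula for finite index sets and `Rm`
-/

set_option autoImplicit false

namespace Pool.Agent.LPC

open Finset Matrix

theorem res_count {d : ℕ} {τ : Type} (s : Finset τ) (ε : τ → ℤ)
    (V : τ → Matrix (Fin d) (Fin d) ℤ) (hV : ∀ t ∈ s, (V t).det.natAbs = 1) (m : τ → Fin d → ℤ)
    (P : Finset (Fin d → ℤ))
    (hP : ∀ x, ind (x ∈ P) = ∑ t ∈ s, ε t * ind (∀ i, m t i ≤ ∑ j, Rm (V t) i j * x j))
    (c : Fin d → ℤ) (hc : ∀ t ∈ s, ∀ i, ∑ k, c k * V t k i ≠ 0) :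
    (#P : ℚ) = ∑ t ∈ s, (ε t : ℚ) * phi (m t) (fun i => ∑ k, c k * V t k i) := by
  classical
  have h := card_of_cones (ι := s) P (fun t => ε t) (fun t => V t) (fun t => Rm (V t))
    (fun t => by
      have h1 := (Rm_mul (V t)).2
      rw [hV t t.2] at h1
      simpa using h1) (fun t => m t) (fun x => by
        have h2 := hP x
        simp only [ind] at h2
        rw [← Finset.sum_coe_sort s] at h2
        refine Eq.trans ?_ (h2.trans ?_)
        · split_ifs <;> rfl
        · refine Finset.sum_congr rfl fun t _ => ?_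
          congr 1
          simp only [Matrix.mulVec, dotProduct]
          split_ifs <;> rfl) c (fun t i => by
        have := hc t t.2 i
        simpa [Matrix.vecMul, dotProduct] using this)
  rw [h, ← Finset.sum_coe_sort s]
  rfl

end Pool.Agent.LPC
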