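import Pool.Agent.LPC.TreeId
import Pool.Agent.LPC.Leaf
import Pool.Agent.LPC.ResCount
import Pool.Agent.LPC.Phi

/-!
# Package LPC-CountForm: the number of points as a sum over the leaves

`leafTerm U q h Y s` is the contribution of the leaf `V = nd U s J`, `J = dep (m+2) |det U|`, of the
cone generated by `U` with apex `-q/h`.

*Statement.* Let `f θ` be lower triangular with positive diagonal, `z θ l` odd, `σ θ ∈ ℤ` (`θ ∈ Θ`,
finite), and
`P` a finite subset of `ℤ^(m+2)` with `[x ∈ P] = ∑_θ σ θ [0 < 2 (f θ x)_l + z θ l for all l]` for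
all
`x ∈ ℤ^(m+2)`. Let `U θ = adj (f θ)`, `D θ = |det (U θ)|`, and let `Y ≥ 2 M + 2`, where
`(2 (lg (D θ) + 1))^((m+2)^2) ∑_(i,j) |U θ i j| ≤ M` for all `θ`. Then
`#P = ∑_θ σ θ ∑_(s < (m+2)^(dep (m+2) (D θ))) leafTerm (U θ) (U θ (z θ)) (2 |det (f θ)|) Y s`.

*Proof.* `tri_cone`, `tri_det` (`det (U θ) ≠ 0`), `tree_id` with `L = dep (m+2) (D θ)` and
`leaf_iff` (with
`q = U θ (z θ)`, `h = 2 |det (f θ)| > 0`) give for all `x`:
`[x ∈ P] = ∑_θ ∑_s σ θ sgn(θ, s) [lidx (R_i) q h ≤ ∑_j R_ij x_j for all i]`, `V = nd (U θ) s L`, `R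
= Rm V`.
Apply `res_count` with `τ = Θ × ℕ`, `s = {(θ, s) : s < (m+2)^L}` (e.g. `Finset.univ.sigma` or
a filter of a product; `Finset.sum_product`/`sum_sigma`), `V (θ, s)` as above (`|det V| = 1` by
`nd_one`),
`c k = Y^(m+1-k)`, so that `∑_k c_k V_ki = cv Y (column i of V)`. It is non-zero by `cv_ne`: the
column is non-zero as `det V ≠ 0`, and its entries are at most
`(m+2)^L ∑ |U θ i j| ≤ (2 (lg D + 1))^((m+2)^2) ∑ |U θ i j| ≤ M` (`nd_le`, `pow_dep_le`). ∎

Difficulty: 0.8 h.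
-/

set_option autoImplicit false

namespace Pool.Agent.LPC

open Finset Pool.Agent.GAvg

/-- the contribution of one leaf -/
noncomputable def leafTerm {m : ℕ} (U : Matrix (Fin (m + 2)) (Fin (m + 2)) ℤ)
    (q : Fin (m + 2) → ℤ) (h Y s : ℕ) : ℚ :=
  (sgn U s (dep (m + 2) U.det.natAbs) : ℚ) *
    phi (fun i => lidx (Rm (nd U s (dep (m + 2) U.det.natAbs)) i) q h)
      (fun i => cv Y (fun k => nd U s (dep (m + 2) U.det.natAbs) k i))

theorem count_form {m : ℕ} {Θ : Type} [Fintype Θ] (σ : Θ → ℤ)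
    (f : Θ → Matrix (Fin (m + 2)) (Fin (m + 2)) ℤ) (z : Θ → Fin (m + 2) → ℤ)
    (h0 : ∀ θ l i, l < i → f θ l i = 0) (h1 : ∀ θ l, 0 < f θ l l) (hz : ∀ θ l, z θ l % 2 = 1)
    (P : Finset (Fin (m + 2) → ℤ))
    (hP : ∀ x, ind (x ∈ P) = ∑ θ, σ θ * ind (∀ l, 0 < 2 * ∑ i, f θ l i * x i + z θ l))
    {M Y : ℕ} (hY : 2 * M + 2 ≤ Y)
    (hM : ∀ θ, (2 * (lg (f θ).adjugate.det.natAbs + 1)) ^ ((m + 2) ^ 2) *
      ∑ i, ∑ j, ((f θ).adjugate i j).natAbs ≤ M) :
    (#P : ℚ) = ∑ θ, (σ θ : ℚ) *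
      ∑ s ∈ range ((m + 2) ^ dep (m + 2) (f θ).adjugate.det.natAbs),
        leafTerm (f θ).adjugate ((f θ).adjugate.mulVec (z θ)) (2 * (f θ).det.natAbs) Y s := by
  classical
  have hdet : ∀ θ, (f θ).adjugate.det ≠ 0 := fun θ => (tri_det (h0 θ) (h1 θ)).2.ne'
  have hdf : ∀ θ, 0 < 2 * (f θ).det.natAbs := fun θ => by
    have h := Int.natAbs_pos.2 (tri_det (h0 θ) (h1 θ)).1.ne'
    omega
  -- the size of the columns of the leaves
  have hcol : ∀ (θ : Θ) (s : ℕ) (i : Fin (m + 2)),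
      cv Y (fun k => nd (f θ).adjugate s (dep (m + 2) (f θ).adjugate.det.natAbs) k i) ≠ 0 := by
    intro θ s i
    refine cv_ne hY (fun hcon => ?_) fun k => ?_
    · refine nd_det (hdet θ) s (dep (m + 2) (f θ).adjugate.det.natAbs) ?_
      exact Matrix.det_eq_zero_of_column_eq_zero i fun k => congrFun hcon k
    · have hB : ∀ a b, ((f θ).adjugate a b).natAbs ≤
          ∑ i, ∑ j, ((f θ).adjugate i j).natAbs := fun a b =>
        (Finset.single_le_sum (f := fun j => ((f θ).adjugate a j).natAbs)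
          (fun _ _ => Nat.zero_le _) (Finset.mem_univ b)).trans
          (Finset.single_le_sum (f := fun i => ∑ j, ((f θ).adjugate i j).natAbs)
            (fun _ _ => Nat.zero_le _) (Finset.mem_univ a))
      exact ((nd_le (hdet θ) hB s _ k i).trans
        (Nat.mul_le_mul_right _ (pow_dep_le m _))).trans (hM θ)
  have key := res_count (d := m + 2)
    ((Finset.univ : Finset Θ).sigma fun θ =>
      range ((m + 2) ^ dep (m + 2) (f θ).adjugate.det.natAbs))
    (fun t : (Σ _ : Θ, ℕ) => σ t.1 *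
      sgn (f t.1).adjugate t.2 (dep (m + 2) (f t.1).adjugate.det.natAbs))
    (fun t => nd (f t.1).adjugate t.2 (dep (m + 2) (f t.1).adjugate.det.natAbs))
    (fun t _ => nd_one (hdet t.1) t.2 le_rfl)
    (fun t i => lidx (Rm (nd (f t.1).adjugate t.2 (dep (m + 2) (f t.1).adjugate.det.natAbs)) i)
      ((f t.1).adjugate.mulVec (z t.1)) (2 * (f t.1).det.natAbs))
    P (fun x => ?_) (fun k => (Y : ℤ) ^ (m + 2 - 1 - (k : ℕ)))
    (fun t _ i => hcol t.1 t.2 i)
  · rw [key, Finset.sum_sigma]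
    refine Finset.sum_congr rfl fun θ _ => ?_
    rw [Finset.mul_sum]
    refine Finset.sum_congr rfl fun s _ => ?_
    unfold leafTerm
    push_cast
    rw [mul_assoc]
    rfl
  · rw [hP x, Finset.sum_sigma]
    refine Finset.sum_congr rfl fun θ _ => ?_
    have e1 : ind (∀ l, 0 < 2 * ∑ i, f θ l i * x i + z θ l) =
        ind (InCone (f θ).adjugate (fun k => -(((f θ).adjugate.mulVec (z θ) k : ℤ) : ℚ) /
          ((2 * (f θ).det.natAbs : ℕ) : ℚ)) x) := by
      congr 1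
      exact propext (tri_cone (h0 θ) (h1 θ) (hz θ) x).symm
    rw [e1, tree_id (hdet θ) _ x (dep (m + 2) (f θ).adjugate.det.natAbs), Finset.mul_sum]
    refine Finset.sum_congr rfl fun s _ => ?_
    rw [mul_assoc]
    congr 2
    congr 1
    exact propext (leaf_iff _ _ (hdf θ) x)

end Pool.Agent.LPC
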