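import Pool.Agent.LPC.LinTools
import Pool.Agent.LPC.CountCore

/-!
# Package LPC-CountLin: counting for Boolean combinations of linear inequalities

*Statement.* For a finite type `ι`, `R ∈ LinRel ι n`, `B ∈ DFun n`:
`v ↦ #{x ∈ [0, B v)^ι : R x v}` is `DFun`.

*Proof.* (1) For `ι = Fin (m + 2)`: write `R` in normal form (`LinRel.normal`) with `K` atoms and
`β`. For `T ⊆ Fin K` let `N_T v` be the number of `x` in the box for which exactly the atoms
`k ∈ T` hold: conditions `0 ≤ L_k` for `k ∈ T`, `0 ≤ -L_k - 1` for `k ∉ T`, a `DFun` by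
`count_core`. The count is `∑_(T : β (k ↦ k ∈ T)) N_T v` (the box is the disjoint union;
`Finset.card_eq_sum_card_fiberwise` with `x ↦ {k | 0 ≤ L_k(x)}`), `DFun.finSum`. (2) For
`ι = Fin d`: count in `Fin (d + 2)` with the box `[0, B v + 1)` the points with
`R (x ∘ castAdd) v`, `x_i ≤ B v - 1` for `i < d` (`x_i + 1 ≤ B v`), and `x_d ≤ 0`, `x_(d+1) ≤ 0`
(`LinRel.rename`, `LinRel.le`, `LinRel.all`): restriction to the first `d` coordinates is a
bijection onto the set to be counted (also for `d = 0` or `B v = 0`). (3) General `ι`: transport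
by `Fintype.equivFin ι` (`LinRel.rename`, `Finset.card_bij'` or `card_equiv`). ∎

Difficulty: 0.7 h.

-/

set_option autoImplicit false

namespace Pool.Agent.LPC

open Finset Pool.Agent.Grz Pool.Agent.GAvg Pool.Agent.PTr Pool.Agent.MTr

open scoped Classical in
private theorem CountLin_fin {n m : ℕ} {R : (Fin (m + 2) → ℕ) → (Fin n → ℕ) → Prop}
    (hR : LinRel (Fin (m + 2)) n R) {B : (Fin n → ℕ) → ℕ} (hB : DFun n B) :
    DFun n (fun v => #{x ∈ box (Fin (m + 2)) (B v) | R x v}) := by
  obtain ⟨K, a, b, β, ha, hb, hab⟩ := hR.normal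
  have hT : ∀ T : Finset (Fin K), DFun n (fun v => if β (fun k => k ∈ T) then
      #{x ∈ box (Fin (m + 2)) (B v) | ∀ k, 0 ≤ ∑ i, (if k ∈ T then a k i v else - a k i v) *
        (x i : ℤ) + (if k ∈ T then b k v else - b k v - 1)} else 0) := by
    intro T
    by_cases hβ : β (fun k => k ∈ T)
    · simp only [if_pos hβ]
      have h := count_core (K := K) (m := m)
        (a := fun k i v => if k ∈ T then a k i v else - a k i v)
        (b := fun k v => if k ∈ T then b k v else - b k v - 1) (B := B)
        (fun k i => by
          by_cases hk : k ∈ T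
          · simp only [if_pos hk]
            exact ha k i
          · simp only [if_neg hk]
            exact (ha k i).neg)
        (fun k => by
          by_cases hk : k ∈ T
          · simp only [if_pos hk]
            exact hb k
          · simp only [if_neg hk]
            exact (hb k).neg.sub (ZF.const 1)) hB
      convert h using 3
    · simp only [if_neg hβ]
      exact DFun.const 0
  have hS := DFun.finSum (univ : Finset (Finset (Fin K))) hT
  have e : (fun v => #{x ∈ box (Fin (m + 2)) (B v) | R x v}) = fun v =>
      ∑ T : Finset (Fin K), if β (fun k => k ∈ T) then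
      #{x ∈ box (Fin (m + 2)) (B v) | ∀ k, 0 ≤ ∑ i, (if k ∈ T then a k i v else - a k i v) *
        (x i : ℤ) + (if k ∈ T then b k v else - b k v - 1)} else 0 := by
    funext v
    let F : (Fin (m + 2) → ℕ) → Finset (Fin K) := fun x =>
      {k : Fin K | 0 ≤ ∑ i, a k i v * (x i : ℤ) + b k v}
    have hF : ∀ x k, k ∈ F x ↔ 0 ≤ ∑ i, a k i v * (x i : ℤ) + b k v := by
      intro x k
      simp only [F, Finset.mem_filter, Finset.mem_univ, true_and]
    rw [Finset.card_eq_sum_card_fiberwise (f := F) (t := univ) (fun x _ => Finset.mem_univ _)]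
    refine Finset.sum_congr rfl fun T _ => ?_
    have key : ∀ x : Fin (m + 2) → ℕ, (∀ k, 0 ≤ ∑ i, (if k ∈ T then a k i v else - a k i v) *
        (x i : ℤ) + (if k ∈ T then b k v else - b k v - 1)) ↔ F x = T := by
      intro x
      have hk : ∀ k, 0 ≤ ∑ i, (if k ∈ T then a k i v else - a k i v) *
          (x i : ℤ) + (if k ∈ T then b k v else - b k v - 1) ↔ (k ∈ F x ↔ k ∈ T) := by
        intro k
        rw [hF]
        by_cases hk : k ∈ T
        · have e1 : ∑ i, (if k ∈ T then a k i v else - a k i v) * (x i : ℤ) =
              ∑ i, a k i v * (x i : ℤ) := Finset.sum_congr rfl fun i _ => by rw [if_pos hk]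
          rw [e1, if_pos hk]
          exact ⟨fun h => ⟨fun _ => hk, fun _ => h⟩, fun h => h.2 hk⟩
        · have e1 : ∑ i, (if k ∈ T then a k i v else - a k i v) * (x i : ℤ) =
              - ∑ i, a k i v * (x i : ℤ) := by
            rw [← Finset.sum_neg_distrib]
            refine Finset.sum_congr rfl fun i _ => ?_
            rw [if_neg hk]
            ring
          rw [e1, if_neg hk]
          constructor
          · intro h
            exact ⟨fun h2 => absurd h2 (by omega), fun h2 => absurd h2 hk⟩
          · intro h
            by_contra h3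
            exact hk (h.1 (by omega))
      constructor
      · intro h
        ext k
        exact (hk k).1 (h k)
      · intro h k
        exact (hk k).2 (by rw [h])
    split_ifs with hβ
    · congr 1
      ext x
      simp only [Finset.mem_filter]
      rw [key]
      constructor
      · rintro ⟨⟨h1, _⟩, h3⟩
        exact ⟨h1, h3⟩
      · rintro ⟨h1, h3⟩
        refine ⟨⟨h1, (hab x v).2 ?_⟩, h3⟩
        have e : (fun k => 0 ≤ ∑ i, a k i v * (x i : ℤ) + b k v) = fun k => k ∈ T := by
          funext k
          rw [← h3]
          exact propext (hF x k).symm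
        rw [e]
        exact hβ
    · rw [Finset.card_eq_zero, Finset.filter_eq_empty_iff]
      intro x hx h3
      apply hβ
      have h4 := (hab x v).1 (Finset.mem_filter.1 hx).2
      have e : (fun k => 0 ≤ ∑ i, a k i v * (x i : ℤ) + b k v) = fun k => k ∈ T := by
        funext k
        rw [← h3]
        exact propext (hF x k).symm
      rw [e] at h4
      exact h4
  rw [e]
  exact hS

open scoped Classical in
theorem count_lin {ι : Type} [Fintype ι] [DecidableEq ι] {n : ℕ}
    {R : (ι → ℕ) → (Fin n → ℕ) → Prop} (hR : LinRel ι n R) {B : (Fin n → ℕ) → ℕ}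
    (hB : DFun n B) : DFun n (fun v => #{x ∈ box ι (B v) | R x v}) := by
  let d := Fintype.card ι
  let E : ι ≃ Fin d := Fintype.equivFin ι
  let e : ι → Fin (d + 2) := fun i => Fin.castAdd 2 (E i)
  have hR' : LinRel (Fin (d + 2)) n (fun x v => R (fun i => x (e i)) v ∧
      ((∀ i : ι, (x (e i) : ℤ) + 1 ≤ (B v : ℤ)) ∧
        ∀ j : Fin 2, (x (Fin.natAdd d j) : ℤ) ≤ 0)) :=
    (LinRel.rename e hR).and ((LinRel.all fun i =>
      LinRel.le ((Aff.var (e i)).add (Aff.coef (ZF.const 1))) (Aff.coef (ZF.nat hB))).and
      (LinRel.all fun j => LinRel.le (Aff.var _) (Aff.coef (ZF.const 0))))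
  have h := CountLin_fin hR' (hB.add (DFun.const 1))
  have key : (fun v => #{x ∈ box ι (B v) | R x v}) = fun v =>
      #{x ∈ box (Fin (d + 2)) (B v + 1) | R (fun i => x (e i)) v ∧
      ((∀ i : ι, (x (e i) : ℤ) + 1 ≤ (B v : ℤ)) ∧
        ∀ j : Fin 2, (x (Fin.natAdd d j) : ℤ) ≤ 0)} := by
    funext v
    refine Finset.card_bij'
      (fun y _ => (Fin.addCases (fun k : Fin d => y (E.symm k)) (fun _ => 0) :
        Fin (d + 2) → ℕ))
      (fun x _ => fun i => x (e i)) ?_ ?_ ?_ ?_
    · intro y hy
      rw [Finset.mem_filter, box, Fintype.mem_piFinset] at hy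
      have hy1 : ∀ i, y i < B v := fun i => Finset.mem_range.1 (hy.1 i)
      have hye : ∀ i, (Fin.addCases (fun k : Fin d => y (E.symm k)) (fun _ => 0) :
          Fin (d + 2) → ℕ) (e i) = y i := by
        intro i
        simp only [e, Fin.addCases_left, Equiv.symm_apply_apply]
      rw [Finset.mem_filter, box, Fintype.mem_piFinset]
      refine ⟨fun k => ?_, ?_, ?_, ?_⟩
      · rw [Finset.mem_range]
        refine Fin.addCases (fun k => ?_) (fun k => ?_) k
        · rw [Fin.addCases_left]
          have := hy1 (E.symm k)
          omega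
        · rw [Fin.addCases_right]
          omega
      · simp only [hye]
        exact hy.2
      · intro i
        rw [hye]
        have := hy1 i
        omega
      · intro j
        beta_reduce
        rw [Fin.addCases_right]
        simp
    · intro x hx
      rw [Finset.mem_filter, box, Fintype.mem_piFinset] at hx
      rw [Finset.mem_filter, box, Fintype.mem_piFinset]
      refine ⟨fun i => ?_, hx.2.1⟩
      have := hx.2.2.1 i
      rw [Finset.mem_range]
      omega
    · intro y _
      funext i
      simp only [e, Fin.addCases_left, Equiv.symm_apply_apply]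
    · intro x hx
      rw [Finset.mem_filter] at hx
      funext k
      refine Fin.addCases (fun k => ?_) (fun k => ?_) k
      · simp only [e, Fin.addCases_left, Equiv.apply_symm_apply]
      · rw [Fin.addCases_right]
        have := hx.2.2.2 k
        omega
  rw [key]
  refine (?_ : (fun v => _) = fun v => _) ▸ h
  funext v
  congr 1
  ext x
  simp only [Finset.mem_filter]

end Pool.Agent.LPC
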