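import Mathlib
import Pool.Agent.Grz.Delta0

/-!
# Step functions with definable coefficients
-/

set_option autoImplicit false

namespace Pool.Agent.LPC

open Pool.Agent.Grz

/-- Step functions of `x ∈ ℕ^d` with parameter `v ∈ ℕ^n`: the least class containing the variables
`x i` and the functions of `v` with `Delta0` graph and polynomial growth, closed under addition,
truncated subtraction, multiplication and floor division by such functions of `v`. -/
inductive Step (d n : ℕ) : ((Fin d → ℕ) → (Fin n → ℕ) → ℕ) → Prop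
  | var (i : Fin d) : Step d n (fun x _ => x i)
  | coef {c : (Fin n → ℕ) → ℕ} : DFun n c → Step d n (fun _ v => c v)
  | add {f g : (Fin d → ℕ) → (Fin n → ℕ) → ℕ} :
      Step d n f → Step d n g → Step d n (fun x v => f x v + g x v)
  | sub {f g : (Fin d → ℕ) → (Fin n → ℕ) → ℕ} :
      Step d n f → Step d n g → Step d n (fun x v => f x v - g x v)
  | mul {c : (Fin n → ℕ) → ℕ} {f : (Fin d → ℕ) → (Fin n → ℕ) → ℕ} :
      DFun n c → Step d n f → Step d n (fun x v => c v * f x v)
  | div {c : (Fin n → ℕ) → ℕ} {f : (Fin d → ℕ) → (Fin n → ℕ) → ℕ} :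
      DFun n c → Step d n f → Step d n (fun x v => f x v / c v)

/-- Boolean combinations of inequalities between step functions. -/
inductive Rel (d n : ℕ) : ((Fin d → ℕ) → (Fin n → ℕ) → Prop) → Prop
  | le {f g : (Fin d → ℕ) → (Fin n → ℕ) → ℕ} :
      Step d n f → Step d n g → Rel d n (fun x v => f x v ≤ g x v)
  | not {R : (Fin d → ℕ) → (Fin n → ℕ) → Prop} : Rel d n R → Rel d n (fun x v => ¬ R x v)
  | and {R S : (Fin d → ℕ) → (Fin n → ℕ) → Prop} :
      Rel d n R → Rel d n S → Rel d n (fun x v => R x v ∧ S x v)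

end Pool.Agent.LPC
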