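import Mathlib
import Pool.Agent.MTr.ZF
import Pool.Agent.LPC.StepDefs

/-!
# Lattice sums in fixed dimension: definitions

Project LPC (`MP_a56640_lc`): sums over the lattice points of polytopes of fixed dimension, with
coefficients given by functions with bounded formula graph, have bounded formula graphs.

* `LP y w`: the sign of `y + w 0 ε + w 1 ε ^ 2 + …`, `ε` a positive infinitesimal;
* `Form`, `elim`: linear forms with a symbolic perturbation, one Fourier–Motzkin step;
* `Rm`, `InCone`: half-open cones;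
* `sv`, `kid`, `nd`: the signed decomposition into unimodular cones;
* `phi` (in `ConstTerm.lean`): the contribution of one unimodular cone to the number of points.
-/

set_option autoImplicit false

namespace Pool.Agent.LPC

open Finset Pool.Agent.Grz Pool.Agent.GAvg Pool.Agent.PTr Pool.Agent.MTr

/-! ### Signs and indicators -/

/-- The element `y + w 0 ε + w 1 ε ^ 2 + …` is positive, for an infinitesimal `ε > 0`. -/
def LP {K : Type*} [Zero K] [LT K] {r : ℕ} (y : K) (w : Fin r → K) : Prop :=
  0 < y ∨ (y = 0 ∧ ∃ i, 0 < w i ∧ ∀ j, j < i → w j = 0)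

open scoped Classical in
/-- The indicator of `P`. -/
noncomputable def ind (P : Prop) : ℤ := if P then 1 else 0

/-! ### Linear forms with perturbation -/

/-- A linear form in `d` variables: coefficients, constant and perturbation. -/
abbrev Form (r d : ℕ) := (Fin d → ℤ) × ℤ × (Fin r → ℤ)

/-- the value (without the perturbation) -/
def Form.ev {r d : ℕ} (F : Form r d) (x : Fin d → ℤ) : ℤ := ∑ i, F.1 i * x i + F.2.1

/-- the form is positive at `x` -/
def Form.pos {r d : ℕ} (F : Form r d) (x : Fin d → ℤ) : Prop := LP (F.ev x) F.2.2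

/-- the coefficient of the last variable -/
def Form.lead {r d : ℕ} (F : Form r (d + 1)) : ℤ := F.1 (Fin.last d)

/-- the form without its last term -/
def Form.init {r d : ℕ} (F : Form r (d + 1)) : Form r d := (fun i => F.1 i.castSucc, F.2)

/-- The perturbations are linearly independent. -/
def Indep {r d : ℕ} (S : Fin r → Form r d) : Prop :=
  ∀ c : Fin r → ℤ, (∀ j, ∑ k, c k * (S k).2.2 j = 0) → c = 0

/-- The conditions on the first `d` variables when the form `i` gives the largest lower bound and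
the form `j` the smallest upper bound for the last variable. -/
def elim {r d : ℕ} (S : Fin r → Form r (d + 1)) (i j : Fin r) : Fin r → Form r d := fun k =>
  if k = j then (0, 1, (S j).2.2)
  else if k = i then (-(S j).lead) • (S i).init + (S i).lead • (S j).init
  else if 0 < (S k).lead then (S i).lead • (S k).init - (S k).lead • (S i).init
  else if (S k).lead < 0 then (-(S j).lead) • (S k).init + (S k).lead • (S j).init
  else (S k).init

/-- families of forms whose entries are definable integer valued functions -/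
def FZ {r d : ℕ} (n : ℕ) (F : (Fin n → ℕ) → Form r d) : Prop :=
  (∀ i, ZF n (fun v => (F v).1 i)) ∧ ZF n (fun v => (F v).2.1) ∧ ∀ j, ZF n (fun v => (F v).2.2 j)

/-! ### Cones -/

/-- `|det U| U⁻¹` -/
noncomputable def Rm {d : ℕ} (U : Matrix (Fin d) (Fin d) ℤ) : Matrix (Fin d) (Fin d) ℤ :=
  U.det.sign • U.adjugate

/-- `x` lies in the cone generated by the columns of `U`, with apex `κ - (ε, ε ^ 2, …)`. -/
def InCone {d : ℕ} (U : Matrix (Fin d) (Fin d) ℤ) (κ : Fin d → ℚ) (x : Fin d → ℤ) : Prop :=
  ∀ i, LP (∑ j, (Rm U i j : ℚ) * ((x j : ℚ) - κ j)) (fun j => (Rm U i j : ℚ))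

/-! ### The decomposition into unimodular cones -/

section tree

variable {d : ℕ}

/-- the vector with code `z` and entries in `[-D, D]` -/
def dec (D z : ℕ) (i : Fin d) : ℤ := ((z / (2 * D + 1) ^ (i : ℕ) % (2 * D + 1) : ℕ) : ℤ) - D

/-- `n / |det U|` are the coordinates of a short vector of the lattice. -/
def Good (U : Matrix (Fin d) (Fin d) ℤ) (n : Fin d → ℤ) : Prop :=
  (∃ i, 0 < n i) ∧ (∀ k, U.det ∣ U.mulVec n k) ∧
    ∀ i, (n i).natAbs ^ d ≤ U.det.natAbs ^ (d - 1)

/-- the least code of a short vector -/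
noncomputable def svc (U : Matrix (Fin d) (Fin d) ℤ) : ℕ :=
  sInf {z | z < (2 * U.det.natAbs + 1) ^ d ∧ Good U (dec U.det.natAbs z)}

/-- the chosen short vector -/
noncomputable def sv (U : Matrix (Fin d) (Fin d) ℤ) : Fin d → ℤ := dec U.det.natAbs (svc U)

/-- `i` if `n i ≠ 0`, otherwise the first index with `n j > 0` (if there is one) -/
noncomputable def ix (n : Fin d → ℤ) (i : Fin d) : Fin d :=
  if h : n i = 0 ∧ ∃ j, 0 < n j then
    ({j : Fin d | 0 < n j} : Finset (Fin d)).min' (by
      obtain ⟨_, j, hj⟩ := h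
      exact ⟨j, by simpa using hj⟩)
  else i

/-- The `i`-th child of the cone generated by the columns of `U`. -/
noncomputable def kid (U : Matrix (Fin d) (Fin d) ℤ) (i : Fin d) : Matrix (Fin d) (Fin d) ℤ :=
  if U.det.natAbs ≤ 1 then U
  else U.updateCol (ix (sv U) i) (fun k => U.mulVec (sv U) k / (U.det.natAbs : ℤ))

/-- The sign of the `i`-th child. -/
noncomputable def sg (U : Matrix (Fin d) (Fin d) ℤ) (i : Fin d) : ℤ :=
  if U.det.natAbs ≤ 1 then (if (i : ℕ) = 0 then 1 else 0) else (sv U i).sign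

/-- The number that codes the step from `U` to `kid U i`. -/
noncomputable def dat (U : Matrix (Fin d) (Fin d) ℤ) (i : Fin d) : ℕ :=
  Nat.pair (if U.det.natAbs ≤ 1 then 1 else U.det.natAbs) (Nat.pair (svc U) (ix (sv U) i : ℕ))

/-- the matrix coded by the number `y` -/
def mat (y : ℕ) : Matrix (Fin d) (Fin d) ℤ := fun a b =>
  if (Nat.unpair y).1 ≤ 1 then (if a = b then 1 else 0)
  else if (b : ℕ) = (Nat.unpair (Nat.unpair y).2).2 then
    dec (Nat.unpair y).1 (Nat.unpair (Nat.unpair y).2).1 a
  else if a = b then ((Nat.unpair y).1 : ℤ) else 0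

end tree

/-- the `l`-th digit of `s` in base `m + 2` -/
def dgt (m s l : ℕ) : Fin (m + 2) := ⟨s / (m + 2) ^ l % (m + 2), Nat.mod_lt _ (by omega)⟩

/-- the node at level `l` on the path `s` -/
noncomputable def nd {m : ℕ} (U : Matrix (Fin (m + 2)) (Fin (m + 2)) ℤ) (s : ℕ) :
    ℕ → Matrix (Fin (m + 2)) (Fin (m + 2)) ℤ
  | 0 => U
  | l + 1 => kid (nd U s l) (dgt m s l)

/-- the sign of the path `s` -/
noncomputable def sgn {m : ℕ} (U : Matrix (Fin (m + 2)) (Fin (m + 2)) ℤ) (s : ℕ) : ℕ → ℤ
  | 0 => 1
  | l + 1 => sgn U s l * sg (nd U s l) (dgt m s l)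

/-- the depth of the tree below a cone with determinant `D` in dimension `d` -/
def dep (d D : ℕ) : ℕ := d * (lg (lg D + 1) + 1)

/-! ### The direction of the constant term formula -/

/-- the linear form `x ↦ ∑ Y ^ (d - 1 - i) x i` -/
def cv {d : ℕ} (Y : ℕ) (x : Fin d → ℤ) : ℤ := ∑ i : Fin d, (Y : ℤ) ^ (d - 1 - (i : ℕ)) * x i

/-! ### Boxes and linear relations (step functions: see `StepDefs.lean`) -/

/-- the points of `[0, B)^ι` -/
def box (ι : Type) [Fintype ι] [DecidableEq ι] (B : ℕ) : Finset (ι → ℕ) :=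
  Fintype.piFinset fun _ => range B

/-- Boolean combinations of linear inequalities in the variables `x i`, `i ∈ ι`, whose
coefficients are definable functions of the parameter `v ∈ ℕ^n`. -/
inductive LinRel (ι : Type) [Fintype ι] (n : ℕ) : ((ι → ℕ) → (Fin n → ℕ) → Prop) → Prop
  | atom (a : ι → (Fin n → ℕ) → ℤ) (b : (Fin n → ℕ) → ℤ) : (∀ i, ZF n (a i)) → ZF n b →
      LinRel ι n (fun x v => 0 ≤ ∑ i, a i v * (x i : ℤ) + b v)
  | not {R : (ι → ℕ) → (Fin n → ℕ) → Prop} : LinRel ι n R → LinRel ι n (fun x v => ¬ R x v)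
  | and {R S : (ι → ℕ) → (Fin n → ℕ) → Prop} :
      LinRel ι n R → LinRel ι n S → LinRel ι n (fun x v => R x v ∧ S x v)

end Pool.Agent.LPC
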