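import Pool.Agent.LPC.FMStep
import Pool.Agent.LPC.ZFTools

/-!
# Package LPC-ElimMainA (part of ElimMain): elimination of all variables, for definable families

*Statement (`elim_main`).* Let `S k v`, `k < r`, be definable families (`FZ`) of forms in `d` variables with
independent perturbations for every `v`, such that for every variable `i` the form `lo i` has a positive
and the form `up i` a negative coefficient at `i`, and both have coefficients `0` at all `j > i`. Then there are
finitely many `σ θ v` (`ZF`) and `F θ l v` (`FZ`), `l < d`, the form `F θ l v` having a positive coefficient at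
`l` and coefficients `0` at all `j > l`, such that for all `v` and `x ∈ ℤ^d`:
`[all S k v positive at x] = ∑_θ σ θ v ∏_l [F θ l v positive at x]`.

*Proof.* Induction on `d`. `d = 0`: the left side does not depend on `x` (there is only one) and is a `ZF` function
(`d0_LP`, `ZF.ite`): `Θ = Unit`. Step `d + 1`: for `i, j < r` let `valid v = 0 < lead (S i v) ∧ lead (S j v) < 0`
(a `Delta0` condition) and
`S^(ij) k v = if valid then elim (S · v) i j k else (S k v).init`. It is `FZ` (each entry is a fixed
finite case distinction of sums of products), independent (`fm_indep`, `indep_init`), and with `lo i.castSucc`,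
`up i.castSucc` satisfies the hypotheses: such a form `k` has `lead (S k v) = 0`, so `k ≠ i, j` in the
valid case and `elim … k = (S k v).init`. The induction hypothesis gives `Θ^(ij), σ^(ij), F^(ij)`. Put
`Θ = Σ (p : Fin r × Fin r × Bool), Θ^p`, `σ = [valid] (±1) σ^(ij)_θ` (`+` for `true`), `F_l = ` the extension of
`F^(ij)_θ l` by the coefficient `0` (for `l < d`; `Fin.snoc`), and for the last `l`:
`S i v` or `-(S j v)` (for `true`/`false`) if valid, `S (lo (last d)) v` if not. The identity is `fm_step`
(there are a positive and a negative leading coefficient: `lo (last d)`, `up (last d)`) with the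
induction hypothesis inserted; the extension of a form has the same value at `x` as the form at
`(x_0, …, x_(d-1))`. ∎

*`tri_main`.* Let `a, b` be `ZF` families of `K` inequalities in `d` variables, with `lo`, `up` as above. Then
`[0 ≤ ∑_i a k i v x_i + b k v for all k] = ∑_θ σ θ v [0 < 2 ∑_i f θ v l i x_i + z θ v l for all l]` with finitely
many `ZF` families, `f θ v` lower triangular with positive diagonal, all `z θ v l` odd. *Proof.* Apply
`elim_main` with `r = K` to the forms `(a k · v, b k v, e_k)`, `e_k` the unit vector: they are positive at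
`x` iff `0 ≤` the value (`LP y e_k ↔ 0 < y ∨ y = 0`), and independent. For a form `(f_l, c, w)` and
`τ = 1` if `LP 0 w`, `τ = -1` otherwise: `LP y w ↔ 0 < 2 y + τ` for integers `y`. So
`z_l = 2 c + τ`; `∏_l [·] = [∀ l ·]`. ∎

Difficulty: 1.2 h (two packages).
-/

set_option autoImplicit false

namespace Pool.Agent.LPC

open Finset Pool.Agent.Grz Pool.Agent.GAvg Pool.Agent.PTr Pool.Agent.MTr

variable {r d n : ℕ}

private theorem ElimMainA_ite {P : (Fin n → ℕ) → Prop} (hP : Delta0 n P)
    [∀ v, Decidable (P v)] {F G : (Fin n → ℕ) → Form r d} (hF : FZ n F) (hG : FZ n G) :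
    FZ n (fun v => if P v then F v else G v) := by
  refine ⟨fun i => ?_, ?_, fun j => ?_⟩
  · refine (ZF.ite hP (hF.1 i) (hG.1 i)).congr fun v => ?_
    by_cases h : P v
    · simp only [if_pos h]
    · simp only [if_neg h]
  · refine (ZF.ite hP hF.2.1 hG.2.1).congr fun v => ?_
    by_cases h : P v
    · simp only [if_pos h]
    · simp only [if_neg h]
  · refine (ZF.ite hP (hF.2.2 j) (hG.2.2 j)).congr fun v => ?_
    by_cases h : P v
    · simp only [if_pos h]
    · simp only [if_neg h]

private theorem ElimMainA_add {F G : (Fin n → ℕ) → Form r d} (hF : FZ n F) (hG : FZ n G) :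
    FZ n (fun v => F v + G v) :=
  ⟨fun i => ((hF.1 i).add (hG.1 i)).congr fun _ => rfl,
    (hF.2.1.add hG.2.1).congr fun _ => rfl,
    fun j => ((hF.2.2 j).add (hG.2.2 j)).congr fun _ => rfl⟩

private theorem ElimMainA_neg {F : (Fin n → ℕ) → Form r d} (hF : FZ n F) :
    FZ n (fun v => -(F v)) :=
  ⟨fun i => (hF.1 i).neg.congr fun _ => rfl, hF.2.1.neg.congr fun _ => rfl,
    fun j => (hF.2.2 j).neg.congr fun _ => rfl⟩

private theorem ElimMainA_sub {F G : (Fin n → ℕ) → Form r d} (hF : FZ n F) (hG : FZ n G) :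
    FZ n (fun v => F v - G v) :=
  ⟨fun i => ((hF.1 i).sub (hG.1 i)).congr fun _ => rfl,
    (hF.2.1.sub hG.2.1).congr fun _ => rfl,
    fun j => ((hF.2.2 j).sub (hG.2.2 j)).congr fun _ => rfl⟩

private theorem ElimMainA_smul {c : (Fin n → ℕ) → ℤ} {F : (Fin n → ℕ) → Form r d}
    (hc : ZF n c) (hF : FZ n F) : FZ n (fun v => c v • F v) :=
  ⟨fun i => (hc.mul (hF.1 i)).congr fun _ => by simp,
    (hc.mul hF.2.1).congr fun _ => by simp,
    fun j => (hc.mul (hF.2.2 j)).congr fun _ => by simp⟩

private theorem ElimMainA_init {F : (Fin n → ℕ) → Form r (d + 1)} (hF : FZ n F) :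
    FZ n (fun v => (F v).init) :=
  ⟨fun i => (hF.1 i.castSucc).congr fun _ => rfl, hF.2.1.congr fun _ => rfl,
    fun j => (hF.2.2 j).congr fun _ => rfl⟩

private theorem ElimMainA_lead {F : (Fin n → ℕ) → Form r (d + 1)} (hF : FZ n F) :
    ZF n (fun v => (F v).lead) := (hF.1 (Fin.last d)).congr fun _ => rfl

private theorem ElimMainA_elim {S : Fin r → (Fin n → ℕ) → Form r (d + 1)}
    (hS : ∀ k, FZ n (S k)) (i j k : Fin r) :
    FZ n (fun v => elim (fun k => S k v) i j k) := by
  classical
  unfold elim
  by_cases h1 : k = j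
  · simp only [if_pos h1]
    exact ⟨fun i => (ZF.const 0).congr fun _ => rfl, (ZF.const 1).congr fun _ => rfl,
      fun l => ((hS j).2.2 l).congr fun _ => rfl⟩
  · simp only [if_neg h1]
    by_cases h2 : k = i
    · simp only [if_pos h2]
      exact ElimMainA_add (ElimMainA_smul (ElimMainA_lead (hS j)).neg (ElimMainA_init (hS i)))
        (ElimMainA_smul (ElimMainA_lead (hS i)) (ElimMainA_init (hS j)))
    · simp only [if_neg h2]
      refine ElimMainA_ite ((ZF.const 0).lt (ElimMainA_lead (hS k))) ?_
        (ElimMainA_ite ((ElimMainA_lead (hS k)).lt (ZF.const 0)) ?_ (ElimMainA_init (hS k)))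
      · exact ElimMainA_sub
          (ElimMainA_smul (ElimMainA_lead (hS i)) (ElimMainA_init (hS k)))
          (ElimMainA_smul (ElimMainA_lead (hS k)) (ElimMainA_init (hS i)))
      · exact ElimMainA_add
          (ElimMainA_smul (ElimMainA_lead (hS j)).neg (ElimMainA_init (hS k)))
          (ElimMainA_smul (ElimMainA_lead (hS k)) (ElimMainA_init (hS j)))

private theorem ElimMainA_zero {S : Fin r → Form r (d + 1)} {i j k : Fin r}
    (hi : 0 < (S i).lead) (hj : (S j).lead < 0) (hk : (S k).lead = 0) :
    elim S i j k = (S k).init := by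
  have h1 : k ≠ j := by
    rintro rfl
    omega
  have h2 : k ≠ i := by
    rintro rfl
    omega
  unfold elim
  rw [if_neg h1, if_neg h2, if_neg (by omega), if_neg (by omega)]

/-- the extension of a form by the coefficient `0` -/
private def ElimMainA_ext (G : Form r d) : Form r (d + 1) :=
  ((Fin.snoc G.1 0 : Fin (d + 1) → ℤ), G.2)

private theorem ElimMainA_extPos (G : Form r d) (x : Fin (d + 1) → ℤ) :
    (ElimMainA_ext G).pos x ↔ G.pos (fun l => x l.castSucc) := by
  have h : (ElimMainA_ext G).ev x = G.ev (fun l => x l.castSucc) := by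
    unfold Form.ev ElimMainA_ext
    rw [Fin.sum_univ_castSucc]
    simp only [Fin.snoc_castSucc, Fin.snoc_last, zero_mul, add_zero]
  unfold Form.pos
  rw [h]
  exact Iff.rfl

private theorem ElimMainA_extFZ {F : (Fin n → ℕ) → Form r d} (hF : FZ n F) :
    FZ n (fun v => ElimMainA_ext (F v)) := by
  refine ⟨fun i => ?_, hF.2.1.congr fun _ => rfl, fun j => (hF.2.2 j).congr fun _ => rfl⟩
  refine Fin.lastCases ?_ (fun i => ?_) i
  · refine (ZF.const 0).congr fun v => ?_
    simp only [ElimMainA_ext, Fin.snoc_last]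
  · refine (hF.1 i).congr fun v => ?_
    simp only [ElimMainA_ext, Fin.snoc_castSucc]

theorem elim_main (r : ℕ) : ∀ (d : ℕ) {n : ℕ} (S : Fin r → (Fin n → ℕ) → Form r d),
    (∀ k, FZ n (S k)) → (∀ v, Indep (fun k => S k v)) → ∀ (lo up : Fin d → Fin r),
    (∀ i v, 0 < (S (lo i) v).1 i ∧ ∀ j, i < j → (S (lo i) v).1 j = 0) →
    (∀ i v, (S (up i) v).1 i < 0 ∧ ∀ j, i < j → (S (up i) v).1 j = 0) →
    ∃ (Θ : Type) (_ : Fintype Θ) (σ : Θ → (Fin n → ℕ) → ℤ)
      (F : Θ → Fin d → (Fin n → ℕ) → Form r d), (∀ θ, ZF n (σ θ)) ∧ (∀ θ l, FZ n (F θ l)) ∧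
      (∀ θ l v, 0 < (F θ l v).1 l ∧ ∀ j, l < j → (F θ l v).1 j = 0) ∧
      ∀ v x, ind (∀ k, (S k v).pos x) = ∑ θ, σ θ v * ∏ l, ind ((F θ l v).pos x) := by
  classical
  intro d
  induction d with
  | zero =>
    intro n S hS hI lo up hlo hup
    refine ⟨Unit, inferInstance, fun _ v => ind (∀ k, (S k v).pos (fun l => l.elim0)),
      fun _ l => l.elim0, ?_, fun _ l => l.elim0, fun _ l => l.elim0, ?_⟩
    · intro _
      have h1 : Delta0 n (fun v => ∀ k, (S k v).pos (fun l => l.elim0)) := by
        refine Delta0.allOf fun k => ?_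
        refine (d0_LP (hS k).2.1 (hS k).2.2).of_iff fun v => ?_
        unfold Form.pos Form.ev
        rw [Finset.univ_eq_empty, Finset.sum_empty, zero_add]
      refine (ZF.ite h1 (ZF.const 1) (ZF.const 0)).congr fun v => ?_
      by_cases h : ∀ k, (S k v).pos (fun l => l.elim0)
      · exact (if_pos h).trans (if_pos h).symm
      · exact (if_neg h).trans (if_neg h).symm
    · intro v x
      have hx : x = fun l => l.elim0 := Subsingleton.elim _ _
      subst hx
      simp
  | succ d ih =>
    intro n S hS hI lo up hlo hup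
    have hval : ∀ p : Fin r × Fin r,
        Delta0 n (fun v => 0 < (S p.1 v).lead ∧ (S p.2 v).lead < 0) := fun p =>
      ((ZF.const 0).lt (ElimMainA_lead (hS p.1))).and
        ((ElimMainA_lead (hS p.2)).lt (ZF.const 0))
    have key : ∀ p : Fin r × Fin r, ∃ (Θ : Type) (_ : Fintype Θ) (σ : Θ → (Fin n → ℕ) → ℤ)
        (F : Θ → Fin d → (Fin n → ℕ) → Form r d), (∀ θ, ZF n (σ θ)) ∧
        (∀ θ l, FZ n (F θ l)) ∧
        (∀ θ l v, 0 < (F θ l v).1 l ∧ ∀ j, l < j → (F θ l v).1 j = 0) ∧
        ∀ v, (0 < (S p.1 v).lead ∧ (S p.2 v).lead < 0) → ∀ x,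
          ind (∀ k, (elim (fun k => S k v) p.1 p.2 k).pos x) =
            ∑ θ, σ θ v * ∏ l, ind ((F θ l v).pos x) := by
      intro p
      have hfz : ∀ k, FZ n (fun v => if 0 < (S p.1 v).lead ∧ (S p.2 v).lead < 0 then
          elim (fun k => S k v) p.1 p.2 k else (S k v).init) := fun k =>
        ElimMainA_ite (hval p) (ElimMainA_elim hS p.1 p.2 k) (ElimMainA_init (hS k))
      have hind : ∀ v, Indep (fun k => if 0 < (S p.1 v).lead ∧ (S p.2 v).lead < 0 then
          elim (fun k => S k v) p.1 p.2 k else (S k v).init) := by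
        intro v
        by_cases h : 0 < (S p.1 v).lead ∧ (S p.2 v).lead < 0
        · simp only [if_pos h]
          exact fm_indep (hI v) h.1 h.2
        · simp only [if_neg h]
          exact indep_init (hI v)
      have hz : ∀ (k : Fin r) (v : Fin n → ℕ), (S k v).lead = 0 →
          (if 0 < (S p.1 v).lead ∧ (S p.2 v).lead < 0 then
            elim (fun k => S k v) p.1 p.2 k else (S k v).init) = (S k v).init := by
        intro k v hk
        by_cases h : 0 < (S p.1 v).lead ∧ (S p.2 v).lead < 0
        · rw [if_pos h]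
          exact ElimMainA_zero (S := fun k => S k v) h.1 h.2 hk
        · rw [if_neg h]
      obtain ⟨Θ, fΘ, σ, F, h1, h2, h3, h4⟩ := ih _ hfz hind (fun i => lo i.castSucc)
        (fun i => up i.castSucc) (by
          intro i v
          rw [hz _ _ ((hlo i.castSucc v).2 _ (Fin.castSucc_lt_last i))]
          exact ⟨(hlo i.castSucc v).1, fun j hj => (hlo i.castSucc v).2 j.castSucc
            (Fin.castSucc_lt_castSucc_iff.2 hj)⟩) (by
          intro i v
          rw [hz _ _ ((hup i.castSucc v).2 _ (Fin.castSucc_lt_last i))]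
          exact ⟨(hup i.castSucc v).1, fun j hj => (hup i.castSucc v).2 j.castSucc
            (Fin.castSucc_lt_castSucc_iff.2 hj)⟩)
      refine ⟨Θ, fΘ, σ, F, h1, h2, h3, fun v hv x => ?_⟩
      have h5 := h4 v x
      simp only [if_pos hv] at h5
      exact h5
    choose Θ fΘ σ F h1 h2 h3 h4 using key
    refine ⟨Σ q : (Fin r × Fin r) × Bool, Θ q.1, inferInstance,
      fun s v => if 0 < (S s.1.1.1 v).lead ∧ (S s.1.1.2 v).lead < 0 then
        (if s.1.2 = true then σ s.1.1 s.2 v else -(σ s.1.1 s.2 v)) else 0,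
      fun s l v => Fin.lastCases (motive := fun _ => Form r (d + 1))
        (if 0 < (S s.1.1.1 v).lead ∧ (S s.1.1.2 v).lead < 0 then
          (if s.1.2 = true then S s.1.1.1 v else -(S s.1.1.2 v)) else S (lo (Fin.last d)) v)
        (fun l => ElimMainA_ext (F s.1.1 s.2 l v)) l, ?_, ?_, ?_, ?_⟩
    · rintro ⟨⟨p, b⟩, θ⟩
      refine ZF.ite (hval p) ?_ (ZF.const 0)
      cases b
      · exact (h1 p θ).neg.congr fun v => by simp
      · exact (h1 p θ).congr fun v => by simp
    · rintro ⟨⟨p, b⟩, θ⟩ l
      refine Fin.lastCases ?_ (fun l => ?_) l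
      · simp only [Fin.lastCases_last]
        refine ElimMainA_ite (hval p) ?_ (hS _)
        cases b
        · simpa using ElimMainA_neg (hS p.2)
        · simpa using hS p.1
      · simp only [Fin.lastCases_castSucc]
        exact ElimMainA_extFZ (h2 p θ l)
    · rintro ⟨⟨p, b⟩, θ⟩ l v
      refine Fin.lastCases ?_ (fun l => ?_) l
      · simp only [Fin.lastCases_last]
        refine ⟨?_, fun j hj => absurd hj (not_lt.2 (Fin.le_last j))⟩
        by_cases h : 0 < (S p.1 v).lead ∧ (S p.2 v).lead < 0
        · rw [if_pos h]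
          cases b
          · have h5 : -(S p.2 v).1 (Fin.last d) > 0 := neg_pos.2 h.2
            simpa using h5
          · exact h.1
        · rw [if_neg h]
          exact (hlo (Fin.last d) v).1
      · simp only [Fin.lastCases_castSucc]
        refine ⟨?_, fun j => ?_⟩
        · simp only [ElimMainA_ext, Fin.snoc_castSucc]
          exact (h3 p θ l v).1
        · refine Fin.lastCases (fun _ => ?_) (fun j hj => ?_) j
          · simp only [ElimMainA_ext, Fin.snoc_last]
          · simp only [ElimMainA_ext, Fin.snoc_castSucc]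
            exact (h3 p θ l v).2 j (Fin.castSucc_lt_castSucc_iff.1 hj)
    · intro v x
      rw [fm_step (hI v) ⟨lo (Fin.last d), (hlo (Fin.last d) v).1⟩
        ⟨up (Fin.last d), (hup (Fin.last d) v).1⟩ x, Fintype.sum_sigma, Fintype.sum_prod_type,
        Fintype.sum_prod_type]
      refine Finset.sum_congr rfl fun i _ => Finset.sum_congr rfl fun j _ => ?_
      rw [Fintype.sum_bool]
      by_cases h : 0 < (S i v).lead ∧ (S j v).lead < 0
      · simp only [if_pos h, Fin.prod_univ_castSucc, Fin.lastCases_last,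
          Fin.lastCases_castSucc, ElimMainA_extPos]
        rw [h4 (i, j) v h, Finset.sum_mul, ← Finset.sum_add_distrib]
        refine Finset.sum_congr rfl fun θ _ => ?_
        simp only [if_true, Bool.false_eq_true, if_false]
        ring
      · simp only [if_neg h, zero_mul, Finset.sum_const_zero, add_zero]

end Pool.Agent.LPC
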