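import Pool.Agent.LPC.FMStep
import Pool.Agent.LPC.ZFTools
import Pool.Agent.LPC.ElimMainA

/-!
# Package LPC-TriMain (part of ElimMain): elimination of all variables, for definable families

*Statement (`elim_main`).* Let `S k v`, `k < r`, be definable families (`FZ`) of forms in `d` variables with
independent perturbations for every `v`, such that for every variable `i` the form `lo i` has a positive
and the form `up i` a negative coefficient at `i`, and both have coefficients `0` at all `j > i`. Then there are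
finitely many `σ θ v` (`ZF`) and `F θ l v` (`FZ`), `l < d`, the form `F θ l v` having a positive coefficient at
`l` and coefficients `0` at all `j > l`, such that for all `v` and `x ∈ ℤ^d`:
`[all S k v positive at x] = ∑_θ σ θ v ∏_l [F θ l v positive at x]`.

*Proof.* Induction on `d`. `d = 0`: the left side does not depend on `x` (there is only one) and is a `ZF` function
(`d0_LP`, `ZF.ite`): `Θ = Unit`. Step `d + 1`: for `i, j < r` let `valid v = 0 < lead (S i v) ∧ lead (S j v) < 0`
(a `Delta0` condition) and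
`S^(ij) k v = if valid then elim (S · v) i j k else (S k v).init`. It is `FZ` (each entry is a fixed
finite case distinction of sums of products), independent (`fm_indep`, `indep_init`), and with `lo i.castSucc`,
`up i.castSucc` satisfies the hypotheses: such a form `k` has `lead (S k v) = 0`, so `k ≠ i, j` in the
valid case and `elim … k = (S k v).init`. The induction hypothesis gives `Θ^(ij), σ^(ij), F^(ij)`. Put
`Θ = Σ (p : Fin r × Fin r × Bool), Θ^p`, `σ = [valid] (±1) σ^(ij)_θ` (`+` for `true`), `F_l = ` the extension of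
`F^(ij)_θ l` by the coefficient `0` (for `l < d`; `Fin.snoc`), and for the last `l`:
`S i v` or `-(S j v)` (for `true`/`false`) if valid, `S (lo (last d)) v` if not. The identity is `fm_step`
(there are a positive and a negative leading coefficient: `lo (last d)`, `up (last d)`) with the
induction hypothesis inserted; the extension of a form has the same value at `x` as the form at
`(x_0, …, x_(d-1))`. ∎

*`tri_main`.* Let `a, b` be `ZF` families of `K` inequalities in `d` variables, with `lo`, `up` as above. Then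
`[0 ≤ ∑_i a k i v x_i + b k v for all k] = ∑_θ σ θ v [0 < 2 ∑_i f θ v l i x_i + z θ v l for all l]` with finitely
many `ZF` families, `f θ v` lower triangular with positive diagonal, all `z θ v l` odd. *Proof.* Apply
`elim_main` with `r = K` to the forms `(a k · v, b k v, e_k)`, `e_k` the unit vector: they are positive at
`x` iff `0 ≤` the value (`LP y e_k ↔ 0 < y ∨ y = 0`), and independent. For a form `(f_l, c, w)` and
`τ = 1` if `LP 0 w`, `τ = -1` otherwise: `LP y w ↔ 0 < 2 y + τ` for integers `y`. So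
`z_l = 2 c + τ`; `∏_l [·] = [∀ l ·]`. ∎

Difficulty: 1.2 h (two packages).
-/

set_option autoImplicit false

namespace Pool.Agent.LPC

open Finset Pool.Agent.Grz Pool.Agent.GAvg Pool.Agent.PTr Pool.Agent.MTr

private theorem TriMain_LP {r : ℕ} (y : ℤ) (w : Fin r → ℤ) (τ : ℤ) (h1 : LP (0 : ℤ) w → τ = 1)
    (h2 : ¬ LP (0 : ℤ) w → τ = -1) : LP y w ↔ 0 < 2 * y + τ := by
  by_cases h : LP (0 : ℤ) w
  · rw [h1 h]
    have h3 : ∃ i, 0 < w i ∧ ∀ j, j < i → w j = 0 := by
      rcases h with h | ⟨_, h⟩
      · exact absurd h (lt_irrefl _)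
      · exact h
    constructor
    · rintro (h4 | ⟨h4, _⟩) <;> omega
    · intro h4
      rcases lt_trichotomy y 0 with h5 | h5 | h5
      · omega
      · exact Or.inr ⟨h5, h3⟩
      · exact Or.inl h5
  · rw [h2 h]
    constructor
    · rintro (h4 | ⟨_, h4⟩)
      · omega
      · exact absurd (Or.inr ⟨rfl, h4⟩) h
    · intro h4
      exact Or.inl (by omega)

private theorem TriMain_prod {α : Type} [Fintype α] (P : α → Prop) :
    ∏ l, ind (P l) = ind (∀ l, P l) := by
  classical
  by_cases h : ∀ l, P l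
  · rw [show ind (∀ l, P l) = 1 from if_pos h]
    exact prod_eq_one fun l _ => if_pos (h l)
  · rw [show ind (∀ l, P l) = 0 from if_neg h]
    push Not at h
    obtain ⟨l, hl⟩ := h
    exact prod_eq_zero (mem_univ l) (if_neg hl)

private theorem TriMain_single {K : ℕ} (k : Fin K) (y : ℤ) :
    LP y (Pi.single k (1 : ℤ)) ↔ 0 ≤ y := by
  constructor
  · rintro (h | ⟨h, _⟩) <;> omega
  · intro h
    rcases h.eq_or_lt with h | h
    · refine Or.inr ⟨h.symm, k, ?_, fun j hj => ?_⟩
      · rw [Pi.single_eq_same]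
        exact one_pos
      · rw [Pi.single_eq_of_ne hj.ne]
    · exact Or.inl h

theorem tri_main {n d K : ℕ} {a : Fin K → Fin d → (Fin n → ℕ) → ℤ}
    {b : Fin K → (Fin n → ℕ) → ℤ} (ha : ∀ k i, ZF n (a k i)) (hb : ∀ k, ZF n (b k))
    (lo up : Fin d → Fin K) (hlo : ∀ i v, 0 < a (lo i) i v ∧ ∀ j, i < j → a (lo i) j v = 0)
    (hup : ∀ i v, a (up i) i v < 0 ∧ ∀ j, i < j → a (up i) j v = 0) :
    ∃ (Θ : Type) (_ : Fintype Θ) (σ : Θ → (Fin n → ℕ) → ℤ)
      (f : Θ → (Fin n → ℕ) → Matrix (Fin d) (Fin d) ℤ) (z : Θ → (Fin n → ℕ) → Fin d → ℤ),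
      (∀ θ, ZF n (σ θ)) ∧ (∀ θ i j, ZF n (fun v => f θ v i j)) ∧
      (∀ θ i, ZF n (fun v => z θ v i)) ∧ (∀ θ v l i, l < i → f θ v l i = 0) ∧
      (∀ θ v l, 0 < f θ v l l) ∧ (∀ θ v l, z θ v l % 2 = 1) ∧
      ∀ v (x : Fin d → ℤ), ind (∀ k, 0 ≤ ∑ i, a k i v * x i + b k v) =
        ∑ θ, σ θ v * ind (∀ l, 0 < 2 * ∑ i, f θ v l i * x i + z θ v l) := by
  classical
  obtain ⟨Θ, fΘ, σ, F, h1, h2, h3, h4⟩ := elim_main K d
    (fun k v => ((fun i => a k i v, b k v, Pi.single k (1 : ℤ)) : Form K d))
    (fun k => ⟨fun i => ha k i, hb k, fun j => ZF.const _⟩)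
    (fun v c hc => by
      funext j
      have h5 := hc j
      simp only [Pi.single_apply] at h5
      simpa using h5) lo up hlo hup
  refine ⟨Θ, fΘ, σ, fun θ v l i => (F θ l v).1 i,
    fun θ v l => 2 * (F θ l v).2.1 + if LP (0 : ℤ) (F θ l v).2.2 then 1 else -1, h1,
    fun θ i j => (h2 θ i).1 j, ?_, fun θ v l i hi => (h3 θ l v).2 i hi,
    fun θ v l => (h3 θ l v).1, ?_, ?_⟩
  · intro θ l
    exact ((ZF.const 2).mul (h2 θ l).2.1).add
      (ZF.ite (d0_LP (ZF.const 0) (h2 θ l).2.2) (ZF.const 1) (ZF.const (-1)))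
  · intro θ v l
    dsimp only
    split_ifs <;> omega
  · intro v x
    have h5 : ind (∀ k, 0 ≤ ∑ i, a k i v * x i + b k v) =
        ind (∀ k, Form.pos ((fun i => a k i v, b k v, Pi.single k (1 : ℤ)) : Form K d) x) := by
      congr 1
      refine propext (forall_congr' fun k => ?_)
      exact (TriMain_single k _).symm
    rw [h5, h4 v x]
    refine sum_congr rfl fun θ _ => ?_
    rw [TriMain_prod]
    congr 2
    refine propext (forall_congr' fun l => ?_)
    have h6 := TriMain_LP ((F θ l v).ev x) (F θ l v).2.2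
      (if LP (0 : ℤ) (F θ l v).2.2 then 1 else -1) (fun h => if_pos h) (fun h => if_neg h)
    refine h6.trans ?_
    have h7 : 2 * (F θ l v).ev x + (if LP (0 : ℤ) (F θ l v).2.2 then (1 : ℤ) else -1) =
        2 * ∑ i, (F θ l v).1 i * x i +
          (2 * (F θ l v).2.1 + if LP (0 : ℤ) (F θ l v).2.2 then (1 : ℤ) else -1) := by
      unfold Form.ev
      ring
    rw [h7]


end Pool.Agent.LPC
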