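import Pool.Agent.LPC.Defs

/-!
# Package LPC-FMId: the Fourier–Motzkin identity over a field

*Statement.* `K` a linearly ordered field, `e, M : Fin r → K`, `t : K`; `L_k = M_k + e_k t`, all
`L_k ≠ 0`; some `e_i > 0`, some `e_j < 0`. For `i, j` with `e_i > 0 > e_j` let
`N^(ij)_k = 1` for `k = j`, `-e_j M_i + e_i M_j` for `k = i`, and for `k ≠ i, j`:
`e_i M_k - e_k M_i` if `e_k > 0`, `-e_j M_k + e_k M_j` if `e_k < 0`, `M_k` if `e_k = 0`; all of
these are `≠ 0`. Then `[all L_k > 0] = ∑_(i,j: e_i > 0 > e_j) [all N^(ij)_k > 0] ([L_i > 0] - [-L_j > 0])`.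

*Proof.* For `e_k ≠ 0` put `s_k = -M_k / e_k` (the zero of `L_k`). `L_k > 0` iff `t > s_k` for
`e_k > 0`, iff `t < s_k` for `e_k < 0`; `t ≠ s_k`. For `e_i > 0 > e_j`:
* `k ≠ i`, `e_k > 0`: `N_k = e_i e_k (s_i - s_k)`, positive iff `s_i > s_k`;
* `k ≠ j`, `e_k < 0`: `N_k = (-e_j)(-e_k)(s_k - s_j)`, positive iff `s_k > s_j`
  (check: `-e_j M_k + e_k M_j = e_j e_k (−M_k/e_k + M_j/e_j) = e_j e_k (s_k - s_j)`);
* `k = i`: `N_i = e_i (-e_j) (s_j - s_i)`, positive iff `s_j > s_i`.
By `N ≠ 0` the `s_k` with `e_k > 0` are distinct, and so are those with `e_k < 0`. Let `i*` have the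
largest `s` among `e > 0`, `j*` the smallest `s` among `e < 0`. For `(i, j) ≠ (i*, j*)` some
`N^(ij)_k` is negative: `k = i*` if `i ≠ i*`, `k = j*` if `j ≠ j*`. So only the term
`(i*, j*)` remains, and there `[all N_k > 0] = [s_(j*) > s_(i*)] [M_k > 0 for all k with e_k = 0]`.
For `e_k = 0`, `L_k = M_k`. If `s_(j*) > s_(i*)`: `[L_(i*) > 0] - [-L_(j*) > 0] = [t > s_(i*)] - [t > s_(j*)]
= [s_(i*) < t < s_(j*)]`, which is `[L_k > 0 for all k with e_k ≠ 0]`. If `s_(j*) < s_(i*)` (they are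
different by `N_i ≠ 0`): no `t` satisfies all, and the term vanishes. ∎

Difficulty: 0.8 h.
-/

set_option autoImplicit false

namespace Pool.Agent.LPC

open Finset

/-- the numbers `N^(ij)_k` -/
def elimK {K : Type*} [Field K] [LinearOrder K] {r : ℕ} (e M : Fin r → K) (i j k : Fin r) : K :=
  if k = j then 1
  else if k = i then -e j * M i + e i * M j
  else if 0 < e k then e i * M k - e k * M i
  else if e k < 0 then -e j * M k + e k * M j
  else M k

theorem fm_id {K : Type*} [Field K] [LinearOrder K] [IsStrictOrderedRing K] {r : ℕ}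
    (e M : Fin r → K) (t : K) (hL : ∀ k, M k + e k * t ≠ 0) (hpos : ∃ i, 0 < e i)
    (hneg : ∃ j, e j < 0) (hN : ∀ i j k, 0 < e i → e j < 0 → elimK e M i j k ≠ 0) :
    ind (∀ k, 0 < M k + e k * t) =
      ∑ i, ∑ j, if 0 < e i ∧ e j < 0 then ind (∀ k, 0 < elimK e M i j k) *
        (ind (0 < M i + e i * t) - ind (0 < -(M j + e j * t))) else 0 := by
  classical
  obtain ⟨s, hsM⟩ : ∃ s : Fin r → K, ∀ k, e k ≠ 0 → M k = -(e k * s k) := by
    refine ⟨fun k => -M k / e k, fun k hk => ?_⟩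
    field_simp
  obtain ⟨i₀, hi₀, himax⟩ := Finset.exists_max_image (univ.filter (fun i => 0 < e i)) s (by
    obtain ⟨i, hi⟩ := hpos
    exact ⟨i, by simpa using hi⟩)
  obtain ⟨j₀, hj₀, hjmin⟩ := Finset.exists_min_image (univ.filter (fun j => e j < 0)) s (by
    obtain ⟨j, hj⟩ := hneg
    exact ⟨j, by simpa using hj⟩)
  simp only [mem_filter, mem_univ, true_and] at hi₀ hj₀ himax hjmin
  -- the signs of the forms
  have hLp : ∀ k, 0 < e k → (0 < M k + e k * t ↔ s k < t) := by
    intro k hk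
    have h : M k + e k * t = e k * (t - s k) := by
      rw [hsM k hk.ne']
      ring
    rw [h, mul_pos_iff_of_pos_left hk, sub_pos]
  have hLn : ∀ k, e k < 0 → (0 < M k + e k * t ↔ t < s k) := by
    intro k hk
    have h : M k + e k * t = -e k * (s k - t) := by
      rw [hsM k hk.ne]
      ring
    rw [h, mul_pos_iff_of_pos_left (neg_pos.2 hk), sub_pos]
  have hLn' : ∀ k, e k < 0 → (0 < -(M k + e k * t) ↔ s k < t) := by
    intro k hk
    have h : -(M k + e k * t) = -e k * (t - s k) := by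
      rw [hsM k hk.ne]
      ring
    rw [h, mul_pos_iff_of_pos_left (neg_pos.2 hk), sub_pos]
  have hLne : ∀ k, e k ≠ 0 → s k ≠ t := by
    intro k hk h
    apply hL k
    rw [hsM k hk, h]
    ring
  -- the numbers `N`
  have hNp : ∀ i j k, 0 < e i → e j < 0 → 0 < e k → k ≠ i →
      elimK e M i j k = e i * e k * (s i - s k) := by
    intro i j k hi hj hk hki
    have hkj : k ≠ j := by
      rintro rfl
      exact lt_asymm hj hk
    unfold elimK
    rw [if_neg hkj, if_neg hki, if_pos hk, hsM k hk.ne', hsM i hi.ne']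
    ring
  have hNn : ∀ i j k, 0 < e i → e j < 0 → e k < 0 → k ≠ j →
      elimK e M i j k = e j * e k * (s k - s j) := by
    intro i j k hi hj hk hkj
    have hki : k ≠ i := by
      rintro rfl
      exact lt_asymm hi hk
    unfold elimK
    rw [if_neg hkj, if_neg hki, if_neg (lt_asymm hk), if_pos hk, hsM k hk.ne, hsM j hj.ne]
    ring
  have hNi : elimK e M i₀ j₀ i₀ = e i₀ * -e j₀ * (s j₀ - s i₀) := by
    have hij : i₀ ≠ j₀ := by
      intro h
      rw [h] at hi₀
      exact lt_asymm hi₀ hj₀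
    unfold elimK
    rw [if_neg hij, if_pos rfl, hsM i₀ hi₀.ne', hsM j₀ hj₀.ne]
    ring
  have hN0 : ∀ k, e k = 0 → elimK e M i₀ j₀ k = M k := by
    intro k hk
    have hkj : k ≠ j₀ := by
      rintro rfl
      exact hj₀.ne hk
    have hki : k ≠ i₀ := by
      rintro rfl
      exact hi₀.ne' hk
    unfold elimK
    rw [if_neg hkj, if_neg hki, if_neg (by rw [hk]; exact lt_irrefl _),
      if_neg (by rw [hk]; exact lt_irrefl _)]
  have hNj : elimK e M i₀ j₀ j₀ = 1 := by
    unfold elimK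
    rw [if_pos rfl]
  -- only one term remains
  have hsum : (∑ i, ∑ j, if 0 < e i ∧ e j < 0 then ind (∀ k, 0 < elimK e M i j k) *
      (ind (0 < M i + e i * t) - ind (0 < -(M j + e j * t))) else 0) =
      ind (∀ k, 0 < elimK e M i₀ j₀ k) *
        (ind (0 < M i₀ + e i₀ * t) - ind (0 < -(M j₀ + e j₀ * t))) := by
    rw [Finset.sum_eq_single i₀, Finset.sum_eq_single j₀]
    · rw [if_pos ⟨hi₀, hj₀⟩]
    · intro j _ hj
      split_ifs with h
      · have h1 : ¬ ∀ k, 0 < elimK e M i₀ j k := by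
          intro h2
          have h3 := h2 j₀
          rw [hNn i₀ j j₀ hi₀ h.2 hj₀ hj.symm] at h3
          have h4 : 0 < e j * e j₀ := mul_pos_of_neg_of_neg h.2 hj₀
          rw [mul_pos_iff_of_pos_left h4, sub_pos] at h3
          exact absurd (hjmin j h.2) (not_le.2 h3)
        rw [ind, if_neg h1, zero_mul]
      · rfl
    · intro h
      exact absurd (mem_univ _) h
    · intro i _ hi
      refine Finset.sum_eq_zero fun j _ => ?_
      split_ifs with h
      · have h1 : ¬ ∀ k, 0 < elimK e M i j k := by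
          intro h2
          have h3 := h2 i₀
          rw [hNp i j i₀ h.1 h.2 hi₀ hi.symm] at h3
          rw [mul_pos_iff_of_pos_left (mul_pos h.1 hi₀), sub_pos] at h3
          exact absurd (himax i h.1) (not_le.2 h3)
        rw [ind, if_neg h1, zero_mul]
      · rfl
    · intro h
      exact absurd (mem_univ _) h
  rw [hsum]
  -- the remaining term
  have hall : (∀ k, 0 < elimK e M i₀ j₀ k) ↔ s i₀ < s j₀ ∧ ∀ k, e k = 0 → 0 < M k := by
    constructor
    · intro h
      refine ⟨?_, fun k hk => ?_⟩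
      · have h1 := h i₀
        rw [hNi, mul_pos_iff_of_pos_left (mul_pos hi₀ (neg_pos.2 hj₀)), sub_pos] at h1
        exact h1
      · have h1 := h k
        rwa [hN0 k hk] at h1
    · rintro ⟨h1, h2⟩ k
      rcases lt_trichotomy (e k) 0 with hk | hk | hk
      · by_cases hkj : k = j₀
        · rw [hkj, hNj]
          exact one_pos
        · have h3 := hN i₀ j₀ k hi₀ hj₀
          rw [hNn i₀ j₀ k hi₀ hj₀ hk hkj] at h3 ⊢
          have h4 : 0 < e j₀ * e k := mul_pos_of_neg_of_neg hj₀ hk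
          rw [mul_pos_iff_of_pos_left h4, sub_pos]
          refine lt_of_le_of_ne (hjmin k hk) fun h5 => h3 ?_
          rw [h5, sub_self, mul_zero]
      · rw [hN0 k hk]
        exact h2 k hk
      · by_cases hki : k = i₀
        · rw [hki, hNi, mul_pos_iff_of_pos_left (mul_pos hi₀ (neg_pos.2 hj₀)), sub_pos]
          exact h1
        · have h3 := hN i₀ j₀ k hi₀ hj₀
          rw [hNp i₀ j₀ k hi₀ hj₀ hk hki] at h3 ⊢
          rw [mul_pos_iff_of_pos_left (mul_pos hi₀ hk), sub_pos]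
          refine lt_of_le_of_ne (himax k hk) fun h5 => h3 ?_
          rw [h5, sub_self, mul_zero]
  have hLall : (∀ k, 0 < M k + e k * t) ↔
      (s i₀ < t ∧ t < s j₀) ∧ ∀ k, e k = 0 → 0 < M k := by
    constructor
    · intro h
      refine ⟨⟨(hLp i₀ hi₀).1 (h i₀), (hLn j₀ hj₀).1 (h j₀)⟩, fun k hk => ?_⟩
      have h1 := h k
      rwa [hk, zero_mul, add_zero] at h1
    · rintro ⟨⟨h1, h2⟩, h3⟩ k
      rcases lt_trichotomy (e k) 0 with hk | hk | hk
      · rw [hLn k hk]
        exact h2.trans_le (hjmin k hk)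
      · rw [hk, zero_mul, add_zero]
        exact h3 k hk
      · rw [hLp k hk]
        exact (himax k hk).trans_lt h1
  have hne : s i₀ ≠ s j₀ := by
    intro h
    apply hN i₀ j₀ i₀ hi₀ hj₀
    rw [hNi, h, sub_self, mul_zero]
  have hjt := hLne j₀ hj₀.ne
  unfold ind
  simp only [hall, hLall, hLp i₀ hi₀, hLn' j₀ hj₀]
  by_cases hA : ∀ k, e k = 0 → 0 < M k
  · rcases lt_or_gt_of_ne hne with h | h
    · by_cases h1 : s i₀ < t
      · rcases lt_or_gt_of_ne hjt with h2 | h2
        · have h3 : ¬ t < s j₀ := lt_asymm h2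
          simp [h, h1, h2, h3]
        · have h3 : ¬ s j₀ < t := lt_asymm h2
          simp [hA, h, h1, h2, h3]
      · have h3 : ¬ s j₀ < t := fun h4 => h1 (h.trans h4)
        simp [h1, h3]
    · have h3 : ¬ (s i₀ < t ∧ t < s j₀) := by
        rintro ⟨h4, h5⟩
        exact lt_asymm h (h4.trans h5)
      have h6 : ¬ s i₀ < s j₀ := lt_asymm h
      simp [h3, h6]
  · simp [hA]

end Pool.Agent.LPC
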