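import Pool.Agent.LPC.Defs

/-!
# Package LPC-FMIndep: the perturbations stay independent

*Statement.* If the perturbations `w_k` of the forms `S k` are linearly independent over `ℤ` and
`lead (S i) > 0 > lead (S j)`, then those of `elim S i j k`, `k < r`, are independent as well.

*Proof.* `i ≠ j`. Let `e_k = lead (S k)` and `∑_k c_k w'_k = 0`, `w'_k` the perturbation of
`elim S i j k`: `w'_j = w_j`, `w'_i = -e_j w_i + e_i w_j`, and for `k ≠ i, j`: `e_i w_k - e_k w_i` if
`e_k > 0`, `-e_j w_k + e_k w_j` if `e_k < 0`, `w_k` if `e_k = 0`. So `∑_k c'_k w_k = 0` with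
`c'_k = c_k e_i`, `-c_k e_j`, `c_k` for `k ≠ i, j` in the three cases,
`c'_i = -e_j c_i - ∑_(k ≠ i, j, e_k > 0) e_k c_k`, and
`c'_j = c_j + e_i c_i + ∑_(k ≠ i, j, e_k < 0) e_k c_k`. By independence `c' = 0`. So `c_k = 0` for
`k ≠ i, j` (the factors are non-zero), then `c_i = 0`, then `c_j = 0`. ∎
(It may be convenient to write `∑_k c_k w'_k` as a sum over all `k` of
`c_k (α_k w_k + β_k w_i + γ_k w_j)` with coefficients given by `if`s.)

`forms_ne`: consequences: all perturbations are non-zero.

Difficulty: 0.5 h.
-/

set_option autoImplicit false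

namespace Pool.Agent.LPC

open Finset

theorem fm_indep {r d : ℕ} {S : Fin r → Form r (d + 1)} (hS : Indep S) {i j : Fin r}
    (hi : 0 < (S i).lead) (hj : (S j).lead < 0) : Indep (elim S i j) := by
  have hij : i ≠ j := by
    rintro rfl
    exact absurd hi (not_lt.mpr hj.le)
  intro c hc
  let e : Fin r → ℤ := fun k => (S k).lead
  have he : ∀ k, (S k).lead = e k := fun k => rfl
  rw [he] at hi hj
  let α : Fin r → ℤ := fun k =>
    if k = j then 1 else if k = i then -(e j) else if 0 < e k then e i
    else if e k < 0 then -(e j) else 1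
  let β : Fin r → ℤ := fun k =>
    if k = j then 0 else if k = i then 0 else if 0 < e k then -(e k) else 0
  let γ : Fin r → ℤ := fun k =>
    if k = j then 0 else if k = i then e i else if 0 < e k then 0
    else if e k < 0 then e k else 0
  have hw : ∀ k t, (elim S i j k).2.2 t =
      α k * (S k).2.2 t + β k * (S i).2.2 t + γ k * (S j).2.2 t := by
    intro k t
    simp only [elim, α, β, γ]
    by_cases h1 : k = j
    · subst h1
      simp
    · by_cases h2 : k = i
      · subst h2
        simp [h1, Form.init, e]
      · by_cases h3 : 0 < e k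
        · have h3' : 0 < (S k).lead := h3
          simp [h1, h2, h3, h3', Form.init, e]
          ring
        · have h3' : ¬ 0 < (S k).lead := h3
          by_cases h4 : e k < 0
          · have h4' : (S k).lead < 0 := h4
            simp [h1, h2, h3, h3', h4, h4', Form.init, e]
          · have h4' : ¬ (S k).lead < 0 := h4
            simp [h1, h2, h3, h3', h4, h4', Form.init]
  have hα : ∀ k, α k ≠ 0 := by
    intro k
    simp only [α]
    split_ifs
    · exact one_ne_zero
    · exact neg_ne_zero.mpr hj.ne
    · exact hi.ne'
    · exact neg_ne_zero.mpr hj.ne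
    · exact one_ne_zero
  let c' : Fin r → ℤ := fun k => c k * α k + (if k = i then ∑ l, c l * β l else 0) +
    (if k = j then ∑ l, c l * γ l else 0)
  have hc' : c' = 0 := by
    apply hS
    intro t
    rw [← hc t]
    have h1 : ∀ k, c' k * (S k).2.2 t = c k * α k * (S k).2.2 t +
        (if k = i then (∑ l, c l * β l) * (S k).2.2 t else 0) +
        (if k = j then (∑ l, c l * γ l) * (S k).2.2 t else 0) := by
      intro k
      simp only [c']
      rw [add_mul, add_mul, ite_mul, zero_mul, ite_mul, zero_mul]
    rw [sum_congr rfl fun k _ => h1 k, sum_add_distrib, sum_add_distrib, sum_ite_eq', sum_ite_eq',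
      if_pos (mem_univ _), if_pos (mem_univ _), sum_mul, sum_mul, ← sum_add_distrib,
      ← sum_add_distrib]
    apply sum_congr rfl
    intro k _
    rw [hw]
    ring
  have h0 : ∀ k, k ≠ i → k ≠ j → c k = 0 := by
    intro k hki hkj
    have h1 := congrFun hc' k
    simp only [c', if_neg hki, if_neg hkj, Pi.zero_apply, add_zero] at h1
    rcases mul_eq_zero.mp h1 with h | h
    · exact h
    · exact absurd h (hα k)
  have hβ : ∑ l, c l * β l = 0 := by
    apply sum_eq_zero
    intro l _
    by_cases h1 : l = i
    · subst h1
      simp [β]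
    · by_cases h2 : l = j
      · subst h2
        simp [β]
      · rw [h0 l h1 h2, zero_mul]
  have hci : c i = 0 := by
    have h1 := congrFun hc' i
    simp only [c', if_neg hij, hβ, Pi.zero_apply, add_zero, ite_self] at h1
    rcases mul_eq_zero.mp h1 with h | h
    · exact h
    · exact absurd h (hα i)
  have hγ : ∑ l, c l * γ l = 0 := by
    apply sum_eq_zero
    intro l _
    by_cases h1 : l = i
    · rw [h1, hci, zero_mul]
    · by_cases h2 : l = j
      · subst h2
        simp [γ]
      · rw [h0 l h1 h2, zero_mul]
  have hcj : c j = 0 := by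
    have h1 := congrFun hc' j
    simp only [c', if_neg hij.symm, hγ, Pi.zero_apply, add_zero, ite_self] at h1
    rcases mul_eq_zero.mp h1 with h | h
    · exact h
    · exact absurd h (hα j)
  funext k
  by_cases h1 : k = i
  · rw [h1, hci]
    rfl
  · by_cases h2 : k = j
    · rw [h2, hcj]
      rfl
    · rw [h0 k h1 h2]
      rfl

theorem forms_ne {r d : ℕ} {S : Fin r → Form r d} (hS : Indep S) (k : Fin r) :
    (S k).2.2 ≠ 0 := by
  intro h
  have h1 := hS (Pi.single k 1) (fun t => by
    rw [sum_eq_single k]
    · rw [h]
      simp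
    · intro l _ hl
      rw [Pi.single_eq_of_ne hl, zero_mul]
    · intro h2
      exact absurd (mem_univ _) h2)
  have h2 := congrFun h1 k
  simp at h2

/-- dropping the last variable keeps the independence -/
theorem indep_init {r d : ℕ} {S : Fin r → Form r (d + 1)} (hS : Indep S) :
    Indep (fun k => (S k).init) := by
  intro c hc
  exact hS c hc

end Pool.Agent.LPC
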