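import Pool.Agent.LPC.LexEps
import Pool.Agent.LPC.FMId
import Pool.Agent.LPC.FMIndep

/-!
# Package LPC-FMStep: one elimination step for forms with symbolic perturbation

*Statement.* `S k`, `k < r`, forms in `d + 1` variables with independent perturbations, at least one
with positive and one with negative leading coefficient. For every `x ∈ ℤ^(d+1)`, with
`x' = (x_0, …, x_(d-1))`:
`[all S k positive at x] = ∑_(i,j: lead (S i) > 0 > lead (S j)) [all (elim S i j k) positive at x']
([S i positive at x] - [-(S j) positive at x])`.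

*Proof.* For a form `F` (in any number of variables), a point `x` and `η ∈ ℚ` let
`F(x, η) = F.ev x + ∑_j F.2.2_j η^(j+1) ∈ ℚ`. By `lex_eps` and `LP_cast`: if `F.2.2 ≠ 0` then for all
small `η > 0`: `F.pos x ↔ 0 < F(x, η)` and `F(x, η) ≠ 0`. Take a small `η > 0` for which this
holds for all `S k` at `x`, all `-(S k)` at `x`, and all `elim S i j k` at `x'` with
`lead (S i) > 0 > lead (S j)`, (all have non-zero perturbation: `forms_ne`, `fm_indep`).
`F(x, η)` is additive and homogeneous in `F`. With `e_k = lead (S k)`, `t = x_d` (cast to `ℚ`) and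
`M_k = (S k).init (x', η)` we have `(S k)(x, η) = M_k + e_k t` (`Fin.sum_univ_castSucc`), and for
`k ≠ j`: `(elim S i j k)(x', η) = elimK e M i j k` (linearity, case by case); for `k = j` the form
`(0, 1, w_j)` is positive at `x'` (`LP 1 _`) and `elimK e M i j j = 1 > 0`. So `fm_id` over `ℚ` gives
the claim term by term (`elimK ≠ 0`: for `k = j` it is `1`, otherwise by the choice of `η`). ∎

Difficulty: 0.8 h.
-/

set_option autoImplicit false

namespace Pool.Agent.LPC

open Finset Filter Topology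

/-- the value with the perturbation at `η` -/
private def fe_FMStep {r d : ℕ} (F : Form r d) (x : Fin d → ℤ) (η : ℚ) : ℚ :=
  (F.ev x : ℚ) + ∑ j : Fin r, (F.2.2 j : ℚ) * η ^ ((j : ℕ) + 1)

private theorem fe_add_FMStep {r d : ℕ} (F G : Form r d) (x : Fin d → ℤ) (η : ℚ) :
    fe_FMStep (F + G) x η = fe_FMStep F x η + fe_FMStep G x η := by
  unfold fe_FMStep Form.ev
  simp only [Prod.fst_add, Prod.snd_add, Pi.add_apply, add_mul, Finset.sum_add_distrib,
    Int.cast_add, Int.cast_sum]
  ring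

private theorem fe_smul_FMStep {r d : ℕ} (a : ℤ) (F : Form r d) (x : Fin d → ℤ) (η : ℚ) :
    fe_FMStep (a • F) x η = a * fe_FMStep F x η := by
  unfold fe_FMStep Form.ev
  simp only [Prod.smul_fst, Prod.smul_snd, Pi.smul_apply, smul_eq_mul, Int.cast_add,
    Int.cast_sum, Int.cast_mul, mul_add, Finset.mul_sum, mul_assoc]

private theorem fe_neg_FMStep {r d : ℕ} (F : Form r d) (x : Fin d → ℤ) (η : ℚ) :
    fe_FMStep (-F) x η = -fe_FMStep F x η := by
  have h := fe_smul_FMStep (-1) F x η
  rw [neg_one_smul] at h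
  rw [h]
  push_cast
  ring

private theorem fe_sub_FMStep {r d : ℕ} (F G : Form r d) (x : Fin d → ℤ) (η : ℚ) :
    fe_FMStep (F - G) x η = fe_FMStep F x η - fe_FMStep G x η := by
  rw [sub_eq_add_neg, fe_add_FMStep, fe_neg_FMStep, sub_eq_add_neg]

private theorem fe_init_FMStep {r d : ℕ} (F : Form r (d + 1)) (x : Fin (d + 1) → ℤ) (η : ℚ) :
    fe_FMStep F.init (fun l => x l.castSucc) η + (F.lead : ℚ) * (x (Fin.last d) : ℚ) =
      fe_FMStep F x η := by
  unfold fe_FMStep Form.ev Form.init Form.lead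
  rw [Fin.sum_univ_castSucc (f := fun i => F.1 i * x i)]
  push_cast
  ring

private theorem fe_ev_FMStep {r d : ℕ} (F : Form r d) (hF : F.2.2 ≠ 0) (x : Fin d → ℤ) :
    ∀ᶠ η : ℚ in 𝓝[>] 0, (F.pos x ↔ 0 < fe_FMStep F x η) ∧ fe_FMStep F x η ≠ 0 := by
  have hw : (fun j => (F.2.2 j : ℚ)) ≠ 0 := by
    intro h
    apply hF
    funext j
    have h1 := congrFun h j
    simpa using h1
  have h := lex_eps (F.ev x : ℚ) (fun j => (F.2.2 j : ℚ)) (Or.inr hw)
  filter_upwards [h] with η hη
  refine ⟨?_, hη.2⟩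
  rw [Form.pos, ← LP_cast]
  exact hη.1

theorem fm_step {r d : ℕ} {S : Fin r → Form r (d + 1)} (hS : Indep S)
    (hpos : ∃ i, 0 < (S i).lead) (hneg : ∃ j, (S j).lead < 0) (x : Fin (d + 1) → ℤ) :
    ind (∀ k, (S k).pos x) =
      ∑ i, ∑ j, if 0 < (S i).lead ∧ (S j).lead < 0 then
        ind (∀ k, (elim S i j k).pos (fun l => x l.castSucc)) *
          (ind ((S i).pos x) - ind (Form.pos (-(S j)) x)) else 0 := by
  classical
  set x' : Fin d → ℤ := fun l => x l.castSucc with hx'
  have ev1 : ∀ᶠ η : ℚ in 𝓝[>] 0, ∀ k, ((S k).pos x ↔ 0 < fe_FMStep (S k) x η) ∧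
      fe_FMStep (S k) x η ≠ 0 :=
    eventually_all.2 fun k => fe_ev_FMStep (S k) (forms_ne hS k) x
  have ev2 : ∀ᶠ η : ℚ in 𝓝[>] 0, ∀ k, (Form.pos (-(S k)) x ↔ 0 < fe_FMStep (-(S k)) x η) ∧
      fe_FMStep (-(S k)) x η ≠ 0 :=
    eventually_all.2 fun k => fe_ev_FMStep (-(S k))
      (by
        have h := forms_ne hS k
        intro h1
        apply h
        have h2 : -(S k).2.2 = 0 := h1
        exact neg_eq_zero.1 h2) x
  have ev3 : ∀ᶠ η : ℚ in 𝓝[>] 0, ∀ i j k, 0 < (S i).lead → (S j).lead < 0 →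
      ((elim S i j k).pos x' ↔ 0 < fe_FMStep (elim S i j k) x' η) ∧
      fe_FMStep (elim S i j k) x' η ≠ 0 := by
    refine eventually_all.2 fun i => eventually_all.2 fun j => eventually_all.2 fun k => ?_
    by_cases h : 0 < (S i).lead ∧ (S j).lead < 0
    · filter_upwards [fe_ev_FMStep (elim S i j k) (forms_ne (fm_indep hS h.1 h.2) k) x']
        with η hη _ _ using hη
    · filter_upwards with η h1 h2
      exact absurd ⟨h1, h2⟩ h
  obtain ⟨η, h1, h2, h3⟩ := (ev1.and (ev2.and ev3)).exists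
  set e : Fin r → ℚ := fun k => ((S k).lead : ℚ) with he
  set M : Fin r → ℚ := fun k => fe_FMStep (S k).init x' η with hM
  set t : ℚ := (x (Fin.last d) : ℚ) with ht
  have hL : ∀ k, M k + e k * t = fe_FMStep (S k) x η := fun k => fe_init_FMStep (S k) x η
  have hep : ∀ k, 0 < e k ↔ 0 < (S k).lead := fun k => Int.cast_pos
  have hen : ∀ k, e k < 0 ↔ (S k).lead < 0 := fun k => Int.cast_lt_zero
  -- the elimination
  have hE : ∀ i j k, k ≠ j → fe_FMStep (elim S i j k) x' η = elimK e M i j k := by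
    intro i j k hkj
    unfold elim elimK
    rw [if_neg hkj, if_neg hkj]
    by_cases hki : k = i
    · rw [if_pos hki, if_pos hki, fe_add_FMStep, fe_smul_FMStep, fe_smul_FMStep]
      push_cast
      rfl
    · rw [if_neg hki, if_neg hki]
      by_cases hk : 0 < (S k).lead
      · rw [if_pos hk, if_pos ((hep k).2 hk), fe_sub_FMStep, fe_smul_FMStep, fe_smul_FMStep]
      · rw [if_neg hk, if_neg (fun h => hk ((hep k).1 h))]
        by_cases hk' : (S k).lead < 0
        · rw [if_pos hk', if_pos ((hen k).2 hk'), fe_add_FMStep, fe_smul_FMStep,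
            fe_smul_FMStep]
          push_cast
          rfl
        · rw [if_neg hk', if_neg (fun h => hk' ((hen k).1 h))]
  have hEj : ∀ i j, (elim S i j j).pos x' := by
    intro i j
    unfold elim
    rw [if_pos rfl]
    left
    simp [Form.ev]
  have hKj : ∀ i j, elimK e M i j j = 1 := by
    intro i j
    unfold elimK
    rw [if_pos rfl]
  have hall : ∀ i j, 0 < (S i).lead → (S j).lead < 0 →
      ((∀ k, (elim S i j k).pos x') ↔ ∀ k, 0 < elimK e M i j k) := by
    intro i j hi hj
    refine forall_congr' fun k => ?_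
    by_cases hkj : k = j
    · rw [hkj, hKj]
      exact ⟨fun _ => one_pos, fun _ => hEj i j⟩
    · rw [← hE i j k hkj]
      exact (h3 i j k hi hj).1
  have key := fm_id e M t (fun k => by rw [hL k]; exact (h1 k).2)
    (by
      obtain ⟨i, hi⟩ := hpos
      exact ⟨i, (hep i).2 hi⟩)
    (by
      obtain ⟨j, hj⟩ := hneg
      exact ⟨j, (hen j).2 hj⟩)
    (fun i j k hi hj => by
      by_cases hkj : k = j
      · rw [hkj, hKj]
        exact one_ne_zero
      · rw [← hE i j k hkj]
        exact (h3 i j k ((hep i).1 hi) ((hen j).1 hj)).2)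
  have hl : (∀ k, (S k).pos x) ↔ ∀ k, 0 < M k + e k * t := by
    refine forall_congr' fun k => ?_
    rw [hL k]
    exact (h1 k).1
  rw [show ind (∀ k, (S k).pos x) = ind (∀ k, 0 < M k + e k * t) from by rw [hl], key]
  refine Finset.sum_congr rfl fun i _ => Finset.sum_congr rfl fun j _ => ?_
  by_cases h : 0 < (S i).lead ∧ (S j).lead < 0
  · rw [if_pos h, if_pos ⟨(hep i).2 h.1, (hen j).2 h.2⟩]
    have g1 : (∀ k, 0 < elimK e M i j k) = ∀ k, (elim S i j k).pos x' :=
      propext (hall i j h.1 h.2).symm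
    have g2 : (0 < M i + e i * t) = (S i).pos x := by
      rw [hL i]
      exact propext (h1 i).1.symm
    have g3 : (0 < -(M j + e j * t)) = Form.pos (-(S j)) x := by
      rw [hL j, ← fe_neg_FMStep]
      exact propext (h2 j).1.symm
    rw [g1, g2, g3]
  · rw [if_neg h, if_neg (fun h' => h ⟨(hep i).1 h'.1, (hen j).1 h'.2⟩)]

end Pool.Agent.LPC
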