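import Pool.Agent.LPC.Defs

/-!
# Package LPC-SignedId: the signed identity for the coordinates (one step of the decomposition)

*Statement.* `K` a linearly ordered field, `Y, n : Fin d → K`, some `n_i > 0`, all `Y_j ≠ 0`, and
`n_i Y_j ≠ n_j Y_i` whenever `i ≠ j`, `n_i ≠ 0`. Then
`∑_i sgn(n_i) [0 < sgn(n_i) Y_i and 0 < sgn(n_i) (n_i Y_j - n_j Y_i) for all j ≠ i]` is
`[all Y_j > 0]`.

*Proof.* Terms with `n_i = 0` vanish. Let `P = {n_i > 0}` (nonempty), `N = {n_i < 0}`,
`Z = {n_i = 0}`. For `n_i ≠ 0` put `t_i = Y_i / n_i`; write `T_i` for the condition in the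
`i`-th term. Since `sgn(n_i)(n_i Y_j - n_j Y_i) = |n_i| (Y_j - n_j t_i)` and
`sgn(n_i) Y_i = |n_i| t_i`, the condition `T_i` says: `t_i > 0` and `Y_j > n_j t_i` for all
`j ≠ i`; for `j ∈ Z` this is `Y_j > 0`, for `j ∈ P` it is `t_i < t_j`, for `j ∈ N` it is
`t_i > t_j` (divide by `n_j`). Also `t_i ≠ t_j` for `i ≠ j` in `P ∪ N` and `t_i ≠ 0`.

If some `j ∈ Z` has `Y_j < 0` then all `T_i` with `n_i ≠ 0` fail and the right side is `0`.
Otherwise all `Y_j > 0` on `Z`. Let `p ∈ P` with `t_p` minimal in `P`, and, if `N ≠ ∅`, `q ∈ N` with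
`t_q` maximal in `N`. For `i ∈ P \ {p}`, `T_i` fails (it needs `t_i < t_p`). For `i ∈ N \ {q}`,
`T_i` fails (it needs `t_i > t_q`). `T_p` holds iff `t_p > 0` and (`N = ∅` or `t_p > t_q`)
(for `j ∈ P`, `j ≠ p`: `t_p < t_j` by minimality and `t_p ≠ t_j`; for `j ∈ N`: `t_p > t_q ≥ t_j`).
`T_q` holds iff `t_q > 0` and `t_q < t_p`. The right side: `Y_j > 0` for `j ∈ P` iff `t_j > 0`, for
`j ∈ N` iff `t_j < 0`; so it is `[t_p > 0 and (N = ∅ or t_q < 0)]`. The left side is
`[T_p] - [T_q]` (`[T_p]` if `N = ∅`). `N = ∅`: equal. `N ≠ ∅`, `t_q > t_p`: `T_p`, `T_q` fail; the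
right side fails as `t_p > 0` gives `t_q > 0`. `t_q < t_p`: `[t_p > 0] - [t_q > 0]`, and
`t_q > 0 → t_p > 0`, so this is `[t_p > 0 and t_q < 0]` as `t_q ≠ 0`. ∎

Here `σ i : ℤ` is `SignType.sign (n i)`; use `Finset.exists_min_image`, `exists_max_image`,
and `Finset.sum_eq_single`/`sum_eq_add` after showing that all other terms vanish.

Difficulty: 0.7 h.
-/

set_option autoImplicit false

namespace Pool.Agent.LPC

open Finset

private theorem SignedId_pp {K : Type*} [Field K] [LinearOrder K] [IsStrictOrderedRing K]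
    {a y m z : K} (ha : 0 < a) (hm : 0 < m) : 0 < a * z - m * y ↔ y / a < z / m := by
  rw [div_lt_div_iff₀ ha hm, sub_pos, mul_comm y m, mul_comm z a]

private theorem SignedId_pn {K : Type*} [Field K] [LinearOrder K] [IsStrictOrderedRing K]
    {a y m z : K} (ha : 0 < a) (hm : m < 0) : 0 < a * z - m * y ↔ z / m < y / a := by
  have h := SignedId_pp (y := -z) (z := y) (neg_pos.2 hm) ha
  rw [neg_div_neg_eq] at h
  rw [← h]
  constructor <;> intro h1 <;> linarith

private theorem SignedId_congr {P Q : Prop} (h : P ↔ Q) : ind P = ind Q := by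
  rw [propext h]

private theorem SignedId_char {K : Type*} [Field K] [LinearOrder K] [IsStrictOrderedRing K]
    {d : ℕ} (Y n : Fin d → K) (i : Fin d) (hi : n i ≠ 0) :
    (0 < (SignType.sign (n i) : K) * Y i ∧
      ∀ j, j ≠ i → 0 < (SignType.sign (n i) : K) * (n i * Y j - n j * Y i)) ↔
    0 < Y i / n i ∧ (∀ j, n j = 0 → 0 < Y j) ∧ (∀ j, j ≠ i → 0 < n j → Y i / n i < Y j / n j) ∧
      (∀ j, j ≠ i → n j < 0 → Y j / n j < Y i / n i) := by
  rcases lt_or_gt_of_ne hi with hi' | hi'
  · have hs : (SignType.sign (n i) : K) = -1 := by rw [sign_neg hi']; simp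
    rw [hs]
    have hpos : 0 < -n i := neg_pos.2 hi'
    have e1 : Y i / n i = -Y i / -n i := (neg_div_neg_eq _ _).symm
    constructor
    · rintro ⟨h1, h2⟩
      refine ⟨?_, fun j hj => ?_, fun j hj hj' => ?_, fun j hj hj' => ?_⟩
      · rw [e1]
        exact div_pos (by linarith) hpos
      · have hji : j ≠ i := by
          rintro rfl
          exact hi hj
        have h3 := h2 j hji
        rw [hj] at h3
        by_contra h4
        nlinarith [not_lt.1 h4]
      · rw [e1, ← SignedId_pp hpos hj']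
        have h3 := h2 j hj
        linarith
      · rw [e1, ← SignedId_pn hpos hj']
        have h3 := h2 j hj
        linarith
    · rintro ⟨h1, h2, h3, h4⟩
      refine ⟨?_, fun j hj => ?_⟩
      · rw [e1] at h1
        have := (div_pos_iff_of_pos_right hpos).1 h1
        linarith
      · rcases lt_trichotomy (n j) 0 with hj' | hj' | hj'
        · have h5 := h4 j hj hj'
          rw [e1, ← SignedId_pn hpos hj'] at h5
          linarith
        · have h5 := mul_pos hpos (h2 j hj')
          rw [hj']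
          linarith
        · have h5 := h3 j hj hj'
          rw [e1, ← SignedId_pp hpos hj'] at h5
          linarith
  · have hs : (SignType.sign (n i) : K) = 1 := by rw [sign_pos hi']; simp
    rw [hs]
    constructor
    · rintro ⟨h1, h2⟩
      refine ⟨?_, fun j hj => ?_, fun j hj hj' => ?_, fun j hj hj' => ?_⟩
      · exact div_pos (by linarith) hi'
      · have hji : j ≠ i := by
          rintro rfl
          exact hi hj
        have h3 := h2 j hji
        rw [hj] at h3
        by_contra h4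
        nlinarith [not_lt.1 h4]
      · rw [← SignedId_pp hi' hj']
        have h3 := h2 j hj
        linarith
      · rw [← SignedId_pn hi' hj']
        have h3 := h2 j hj
        linarith
    · rintro ⟨h1, h2, h3, h4⟩
      refine ⟨?_, fun j hj => ?_⟩
      · have := (div_pos_iff_of_pos_right hi').1 h1
        linarith
      · rcases lt_trichotomy (n j) 0 with hj' | hj' | hj'
        · have h5 := h4 j hj hj'
          rw [← SignedId_pn hi' hj'] at h5
          linarith
        · have h5 := mul_pos hi' (h2 j hj')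
          rw [hj']
          linarith
        · have h5 := h3 j hj hj'
          rw [← SignedId_pp hi' hj'] at h5
          linarith

theorem signed_id {K : Type*} [Field K] [LinearOrder K] [IsStrictOrderedRing K] {d : ℕ}
    (Y n : Fin d → K) (hn : ∃ i, 0 < n i) (hY : ∀ j, Y j ≠ 0)
    (hg : ∀ i j, i ≠ j → n i ≠ 0 → n i * Y j ≠ n j * Y i) :
    ∑ i, (SignType.sign (n i) : ℤ) * ind (0 < (SignType.sign (n i) : K) * Y i ∧
        ∀ j, j ≠ i → 0 < (SignType.sign (n i) : K) * (n i * Y j - n j * Y i)) =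
      ind (∀ j, 0 < Y j) := by
  classical
  set t : Fin d → K := fun i => Y i / n i with ht
  have hchar := SignedId_char Y n
  have ht0 : ∀ i, n i ≠ 0 → t i ≠ 0 := fun i hi => div_ne_zero (hY i) hi
  have htne : ∀ i j, i ≠ j → n i ≠ 0 → n j ≠ 0 → t i ≠ t j := by
    intro i j hij hi hj h
    rw [ht] at h
    simp only [] at h
    rw [div_eq_div_iff hi hj] at h
    exact hg i j hij hi (by linear_combination -h)
  have hR : (∀ j, 0 < Y j) ↔ (∀ j, n j = 0 → 0 < Y j) ∧ (∀ j, 0 < n j → 0 < t j) ∧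
      (∀ j, n j < 0 → t j < 0) := by
    constructor
    · intro h
      exact ⟨fun j _ => h j, fun j hj => div_pos (h j) hj,
        fun j hj => div_neg_of_pos_of_neg (h j) hj⟩
    · rintro ⟨h1, h2, h3⟩ j
      rcases lt_trichotomy (n j) 0 with hj | hj | hj
      · by_contra h4
        have h5 : Y j < 0 := lt_of_le_of_ne (not_lt.1 h4) (hY j)
        exact absurd (h3 j hj) (not_lt.2 (div_pos_of_neg_of_neg h5 hj).le)
      · exact h1 j hj
      · exact (div_pos_iff_of_pos_right hj).1 (h2 j hj)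
  by_cases hZ : ∀ j, n j = 0 → 0 < Y j
  swap
  · have h1 : ind (∀ j, 0 < Y j) = 0 := if_neg fun h => hZ (hR.1 h).1
    rw [h1]
    refine Finset.sum_eq_zero fun i _ => ?_
    by_cases hi : n i = 0
    · rw [hi, sign_zero]
      simp
    · have h2 : ind (0 < (SignType.sign (n i) : K) * Y i ∧
          ∀ j, j ≠ i → 0 < (SignType.sign (n i) : K) * (n i * Y j - n j * Y i)) = 0 :=
        if_neg fun h => hZ ((hchar i hi).1 h).2.1
      rw [h2, mul_zero]
  obtain ⟨i0, hi0⟩ := hn
  obtain ⟨p, hp, hpmin⟩ := Finset.exists_min_image ({i : Fin d | 0 < n i} : Finset (Fin d)) t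
    ⟨i0, by simpa using hi0⟩
  have hp : 0 < n p := by simpa using hp
  have hpmin : ∀ j, 0 < n j → t p ≤ t j := fun j hj => hpmin j (by simpa using hj)
  have hzero : ∀ i, i ≠ p → 0 ≤ n i → (SignType.sign (n i) : ℤ) *
      ind (0 < (SignType.sign (n i) : K) * Y i ∧
        ∀ j, j ≠ i → 0 < (SignType.sign (n i) : K) * (n i * Y j - n j * Y i)) = 0 := by
    intro i hip hi
    rcases hi.eq_or_lt with hi | hi
    · rw [← hi, sign_zero]
      simp
    · have h2 : ind (0 < (SignType.sign (n i) : K) * Y i ∧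
          ∀ j, j ≠ i → 0 < (SignType.sign (n i) : K) * (n i * Y j - n j * Y i)) = 0 :=
        if_neg fun h => absurd (((hchar i hi.ne').1 h).2.2.1 p hip.symm hp)
          (not_lt.2 (hpmin i hi))
      rw [h2, mul_zero]
  have hRp : (∀ j, 0 < n j → 0 < t j) ↔ 0 < t p :=
    ⟨fun h => h p hp, fun h j hj => lt_of_lt_of_le h (hpmin j hj)⟩
  by_cases hN : ∃ i, n i < 0
  · obtain ⟨i1, hi1⟩ := hN
    obtain ⟨q, hq, hqmax⟩ := Finset.exists_max_image ({i : Fin d | n i < 0} : Finset (Fin d)) t
      ⟨i1, by simpa using hi1⟩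
    have hq : n q < 0 := by simpa using hq
    have hqmax : ∀ j, n j < 0 → t j ≤ t q := fun j hj => hqmax j (by simpa using hj)
    have hpq : p ≠ q := by
      rintro rfl
      exact lt_asymm hp hq
    rw [Fintype.sum_eq_add p q hpq]
    swap
    · rintro i ⟨hip, hiq⟩
      rcases le_or_gt 0 (n i) with hi | hi
      · exact hzero i hip hi
      · have h2 : ind (0 < (SignType.sign (n i) : K) * Y i ∧
            ∀ j, j ≠ i → 0 < (SignType.sign (n i) : K) * (n i * Y j - n j * Y i)) = 0 :=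
          if_neg fun h => absurd (((hchar i hi.ne).1 h).2.2.2 q hiq.symm hq)
            (not_lt.2 (hqmax i hi))
        rw [h2, mul_zero]
    have hTp : (0 < (SignType.sign (n p) : K) * Y p ∧
        ∀ j, j ≠ p → 0 < (SignType.sign (n p) : K) * (n p * Y j - n j * Y p)) ↔
        0 < t p ∧ t q < t p := by
      rw [hchar p hp.ne']
      constructor
      · rintro ⟨h1, _, _, h4⟩
        exact ⟨h1, h4 q hpq.symm hq⟩
      · rintro ⟨h1, h2⟩
        exact ⟨h1, hZ, fun j hj hj' => lt_of_le_of_ne (hpmin j hj')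
          (htne p j hj.symm hp.ne' hj'.ne'), fun j _ hj' => lt_of_le_of_lt (hqmax j hj') h2⟩
    have hTq : (0 < (SignType.sign (n q) : K) * Y q ∧
        ∀ j, j ≠ q → 0 < (SignType.sign (n q) : K) * (n q * Y j - n j * Y q)) ↔
        0 < t q ∧ t q < t p := by
      rw [hchar q hq.ne]
      constructor
      · rintro ⟨h1, _, h3, _⟩
        exact ⟨h1, h3 p hpq hp⟩
      · rintro ⟨h1, h2⟩
        exact ⟨h1, hZ, fun j _ hj' => lt_of_lt_of_le h2 (hpmin j hj'),
          fun j hj hj' => lt_of_le_of_ne (hqmax j hj') (htne j q hj hj'.ne hq.ne)⟩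
    have hRq : (∀ j, n j < 0 → t j < 0) ↔ t q < 0 :=
      ⟨fun h => h q hq, fun h j hj => lt_of_le_of_lt (hqmax j hj) h⟩
    have hsp : (SignType.sign (n p) : ℤ) = 1 := by rw [sign_pos hp]; rfl
    have hsq : (SignType.sign (n q) : ℤ) = -1 := by rw [sign_neg hq]; rfl
    have hR' : (∀ j, 0 < Y j) ↔ 0 < t p ∧ t q < 0 := by
      rw [hR, hRp, hRq]
      exact ⟨fun h => h.2, fun h => ⟨hZ, h⟩⟩
    rw [SignedId_congr hTp, SignedId_congr hTq, SignedId_congr hR', hsp, hsq]
    unfold ind
    rcases lt_trichotomy (t q) 0 with h1 | h1 | h1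
    · by_cases h2 : 0 < t p
      · simp [h2, h1, h1.trans h2, h1.not_gt]
      · simp [h2, h1.not_gt]
    · exact absurd h1 (ht0 q hq.ne)
    · by_cases h2 : t q < t p
      · simp [h1, h2, h1.trans h2, h1.not_gt]
      · simp [h2, h1.not_gt]
  · rw [Fintype.sum_eq_single p fun i hi => hzero i hi (not_lt.1 fun h => hN ⟨i, h⟩)]
    have hTp : (0 < (SignType.sign (n p) : K) * Y p ∧
        ∀ j, j ≠ p → 0 < (SignType.sign (n p) : K) * (n p * Y j - n j * Y p)) ↔
        ∀ j, 0 < Y j := by
      rw [hchar p hp.ne', hR, hRp]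
      constructor
      · rintro ⟨h1, _, _, h4⟩
        exact ⟨hZ, h1, fun j hj => absurd ⟨j, hj⟩ hN⟩
      · rintro ⟨_, h1, _⟩
        exact ⟨h1, hZ, fun j hj hj' => lt_of_le_of_ne (hpmin j hj')
          (htne p j hj.symm hp.ne' hj'.ne'), fun j _ hj' => absurd ⟨j, hj'⟩ hN⟩
    have hsp : (SignType.sign (n p) : ℤ) = 1 := by rw [sign_pos hp]; rfl
    rw [hsp, one_mul]
    exact SignedId_congr hTp

end Pool.Agent.LPC
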