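import Pool.Agent.LPC.LexEps
import Pool.Agent.LPC.SignedId
import Pool.Agent.LPC.Coord

/-!
# Package LPC-LexStep: one step of the signed decomposition of half-open cones

*Statement.* `U` an integer matrix with `det U ≠ 0`, `n ∈ ℤ^d` with some `n_i > 0`,
`U n = |det U| w`, `w` integer. For all `κ ∈ ℚ^d`, `x ∈ ℤ^d`:
`[x ∈ InCone U κ] = ∑_i sgn(n_i) [x ∈ InCone (U.updateCol i w) κ]`.

*Proof.* Let `R = Rm U`, `D = |det U| > 0`, `y_k = ∑_j R_kj (x_j - κ_j)`, and for `η ∈ ℚ`: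
`Y_k(η) = y_k + ∑_j R_kj η^(j+1)`. The rows of `R` are linearly independent: if
`∑_k a_k R_k = 0` (row vectors, `a ∈ ℤ^d`) then multiplying by `U`, `D a = 0` (`Rm_mul`), so `a = 0`.
In particular `R_k ≠ 0`, and `n_i R_j - n_j R_i ≠ 0` for `i ≠ j`, `n_i ≠ 0`. By `lex_eps` (finitely
many conditions: `Filter.eventually_all`) there is a small `η > 0` (the filter `𝓝[>] 0` on `ℚ` is
`NeBot`: `Filter.Eventually.exists`) such that with `σ = sgn(n_i)`:
* `LP (y_k, R_k) ↔ 0 < Y_k(η)` and `Y_k(η) ≠ 0` for all `k`;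
* for `n_i ≠ 0`: `LP (σ y_i, σ R_i) ↔ 0 < σ Y_i(η)` (apply `lex_eps` to `(σ y_i, σ R_i)`);
* for `n_i ≠ 0`, `j ≠ i`: `LP (σ (n_i y_j - n_j y_i), σ (n_i R_j - n_j R_i)) ↔
  0 < σ (n_i Y_j(η) - n_j Y_i(η))`, and `n_i Y_j(η) ≠ n_j Y_i(η)`.
For `n_i ≠ 0` and `V = U.updateCol i w`: by `coord_same` the `i`-th condition of `InCone V κ x` is
`LP (σ y_i, σ R_i)`; by `coord_other` and `LP_smul` (factor `D > 0`, cast to `ℚ`) the `j`-th one is
`LP (σ (n_i y_j - n_j y_i), σ (n_i R_j - n_j R_i))`. So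
`InCone V κ x ↔ 0 < σ Y_i ∧ ∀ j ≠ i, 0 < σ (n_i Y_j - n_j Y_i)`, and `InCone U κ x ↔ ∀ k, 0 < Y_k`.
Terms with `n_i = 0` have the factor `sgn(n_i) = 0` on both sides. Now apply `signed_id` over `ℚ`
with `Y = Y(η)` and the casts of `n_i` (`sign` of a cast: `Int.sign_eq_sign`, `SignType` casts). ∎

Difficulty: 0.8 h.
-/

set_option autoImplicit false

namespace Pool.Agent.LPC

open Finset Filter Topology

/-- the rows of `Rm U` are linearly independent -/
private theorem LexStep_indep {d : ℕ} {U : Matrix (Fin d) (Fin d) ℤ} (hU : U.det ≠ 0)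
    (a : Fin d → ℤ) (ha : ∀ j, ∑ k, a k * Rm U k j = 0) : a = 0 := by
  have h1 : Matrix.vecMul a (Rm U) = 0 := by
    ext j
    simpa [Matrix.vecMul, dotProduct] using ha j
  have h2 : Matrix.vecMul a (Rm U * U) = 0 := by
    rw [← Matrix.vecMul_vecMul, h1, Matrix.zero_vecMul]
  rw [(Rm_mul U).1, Matrix.vecMul_smul, Matrix.vecMul_one] at h2
  have h3 : (U.det.natAbs : ℤ) ≠ 0 := by
    simpa using hU
  exact (smul_eq_zero.mp h2).resolve_left h3

private theorem LexStep_row {d : ℕ} {U : Matrix (Fin d) (Fin d) ℤ} (hU : U.det ≠ 0) (k : Fin d) :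
    (fun j => (Rm U k j : ℚ)) ≠ 0 := by
  intro h
  have h1 := LexStep_indep hU (Pi.single k 1) (fun j => by
    have h2 := congrFun h j
    have h3 : Rm U k j = 0 := by
      have h4 : ((Rm U k j : ℤ) : ℚ) = 0 := h2
      exact_mod_cast h4
    rw [Finset.sum_eq_single k]
    · rw [Pi.single_eq_same, h3, mul_zero]
    · intro b _ hb
      rw [Pi.single_eq_of_ne hb, zero_mul]
    · intro hk
      exact absurd (Finset.mem_univ k) hk)
  have h5 := congrFun h1 k
  rw [Pi.single_eq_same] at h5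
  exact one_ne_zero h5

private theorem LexStep_two {d : ℕ} {U : Matrix (Fin d) (Fin d) ℤ} (hU : U.det ≠ 0)
    (n : Fin d → ℤ) (i j : Fin d) (hij : i ≠ j) (hi : n i ≠ 0) :
    (fun l => (n i : ℚ) * (Rm U j l : ℚ) - (n j : ℚ) * (Rm U i l : ℚ)) ≠ 0 := by
  intro h
  have h1 := LexStep_indep hU (fun k => if k = j then n i else if k = i then - n j else 0)
    (fun l => by
      have h2 : (n i : ℚ) * (Rm U j l : ℚ) - (n j : ℚ) * (Rm U i l : ℚ) = 0 := congrFun h l
      have h3 : n i * Rm U j l - n j * Rm U i l = 0 := by exact_mod_cast h2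
      have h4 : ∀ k, (if k = j then n i else if k = i then - n j else 0) * Rm U k l =
          (if k = j then n i * Rm U j l else 0) + (if k = i then - n j * Rm U i l else 0) := by
        intro k
        by_cases hk : k = j
        · subst hk
          rw [if_pos rfl, if_pos rfl, if_neg (Ne.symm hij), add_zero]
        · rw [if_neg hk, if_neg hk]
          by_cases hk2 : k = i
          · subst hk2
            rw [if_pos rfl, if_pos rfl, zero_add]
          · rw [if_neg hk2, if_neg hk2, zero_mul, add_zero]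
      rw [Finset.sum_congr rfl (fun k _ => h4 k), Finset.sum_add_distrib, Finset.sum_ite_eq',
        Finset.sum_ite_eq', if_pos (Finset.mem_univ _), if_pos (Finset.mem_univ _)]
      linarith)
  have h5 := congrFun h1 j
  rw [if_pos rfl] at h5
  exact hi h5

theorem lex_step {d : ℕ} {U : Matrix (Fin d) (Fin d) ℤ} (hU : U.det ≠ 0) {n w : Fin d → ℤ}
    (hn : ∃ i, 0 < n i) (hw : ∀ k, U.mulVec n k = (U.det.natAbs : ℤ) * w k)
    (κ : Fin d → ℚ) (x : Fin d → ℤ) :
    ind (InCone U κ x) = ∑ i, (n i).sign * ind (InCone (U.updateCol i w) κ x) := by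
  set y : Fin d → ℚ := fun k => ∑ j, (Rm U k j : ℚ) * ((x j : ℚ) - κ j) with hy
  have hD : (0 : ℚ) < ((U.det.natAbs : ℤ) : ℚ) := by
    have h1 : 0 < U.det.natAbs := Int.natAbs_pos.mpr hU
    exact_mod_cast h1
  have hsgn0 : ∀ i, n i ≠ 0 → (((n i).sign : ℤ) : ℚ) ≠ 0 := by
    intro i hi
    have h1 : (n i).sign ≠ 0 := by
      intro h
      exact hi (Int.sign_eq_zero_iff_zero.mp h)
    exact_mod_cast h1
  have hA : ∀ᶠ η : ℚ in 𝓝[>] 0, ∀ k,
      (LP (y k) (fun j => (Rm U k j : ℚ)) ↔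
        0 < y k + ∑ l : Fin d, (Rm U k l : ℚ) * η ^ ((l : ℕ) + 1)) ∧
      y k + ∑ l : Fin d, (Rm U k l : ℚ) * η ^ ((l : ℕ) + 1) ≠ 0 := by
    rw [eventually_all]
    intro k
    exact lex_eps (y k) (fun j => (Rm U k j : ℚ)) (Or.inr (LexStep_row hU k))
  have hB : ∀ᶠ η : ℚ in 𝓝[>] 0, ∀ i, n i ≠ 0 →
      (LP (((n i).sign : ℚ) * y i) (fun j => ((n i).sign : ℚ) * (Rm U i j : ℚ)) ↔
        0 < ((n i).sign : ℚ) * y i +
          ∑ l : Fin d, (((n i).sign : ℚ) * (Rm U i l : ℚ)) * η ^ ((l : ℕ) + 1)) := by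
    rw [eventually_all]
    intro i
    by_cases hi : n i = 0
    · exact Eventually.of_forall fun η h => absurd hi h
    · have h1 : (fun j => ((n i).sign : ℚ) * (Rm U i j : ℚ)) ≠ 0 := by
        intro h
        apply LexStep_row hU i
        funext j
        exact (mul_eq_zero.mp (congrFun h j)).resolve_left (hsgn0 i hi)
      filter_upwards [lex_eps (((n i).sign : ℚ) * y i)
        (fun j => ((n i).sign : ℚ) * (Rm U i j : ℚ)) (Or.inr h1)] with η hη _
      exact hη.1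
  have hC : ∀ᶠ η : ℚ in 𝓝[>] 0, ∀ i j, i ≠ j → n i ≠ 0 →
      (LP (((n i).sign : ℚ) * ((n i : ℚ) * y j - (n j : ℚ) * y i))
        (fun l => ((n i).sign : ℚ) * ((n i : ℚ) * (Rm U j l : ℚ) - (n j : ℚ) * (Rm U i l : ℚ))) ↔
        0 < ((n i).sign : ℚ) * ((n i : ℚ) * y j - (n j : ℚ) * y i) +
          ∑ l : Fin d, (((n i).sign : ℚ) *
            ((n i : ℚ) * (Rm U j l : ℚ) - (n j : ℚ) * (Rm U i l : ℚ))) * η ^ ((l : ℕ) + 1)) ∧
        ((n i).sign : ℚ) * ((n i : ℚ) * y j - (n j : ℚ) * y i) +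
          ∑ l : Fin d, (((n i).sign : ℚ) *
            ((n i : ℚ) * (Rm U j l : ℚ) - (n j : ℚ) * (Rm U i l : ℚ))) * η ^ ((l : ℕ) + 1) ≠ 0 := by
    rw [eventually_all]
    intro i
    rw [eventually_all]
    intro j
    by_cases hij : i = j
    · exact Eventually.of_forall fun η h => absurd hij h
    by_cases hi : n i = 0
    · exact Eventually.of_forall fun η _ h => absurd hi h
    have h1 : (fun l => ((n i).sign : ℚ) *
        ((n i : ℚ) * (Rm U j l : ℚ) - (n j : ℚ) * (Rm U i l : ℚ))) ≠ 0 := by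
      intro h
      apply LexStep_two hU n i j hij hi
      funext l
      exact (mul_eq_zero.mp (congrFun h l)).resolve_left (hsgn0 i hi)
    filter_upwards [lex_eps (((n i).sign : ℚ) * ((n i : ℚ) * y j - (n j : ℚ) * y i))
      (fun l => ((n i).sign : ℚ) * ((n i : ℚ) * (Rm U j l : ℚ) - (n j : ℚ) * (Rm U i l : ℚ)))
      (Or.inr h1)] with η hη _ _
    exact hη
  obtain ⟨η, hA', hB', hC'⟩ := (hA.and (hB.and hC)).exists
  set Y : Fin d → ℚ := fun k => y k + ∑ l : Fin d, (Rm U k l : ℚ) * η ^ ((l : ℕ) + 1) with hY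
  have hYB : ∀ i, ((n i).sign : ℚ) * y i +
      ∑ l : Fin d, (((n i).sign : ℚ) * (Rm U i l : ℚ)) * η ^ ((l : ℕ) + 1) =
      ((n i).sign : ℚ) * Y i := by
    intro i
    simp only [hY, mul_add, Finset.mul_sum, mul_assoc]
  have hYC : ∀ i j, ((n i).sign : ℚ) * ((n i : ℚ) * y j - (n j : ℚ) * y i) +
      ∑ l : Fin d, (((n i).sign : ℚ) *
        ((n i : ℚ) * (Rm U j l : ℚ) - (n j : ℚ) * (Rm U i l : ℚ))) * η ^ ((l : ℕ) + 1) =
      ((n i).sign : ℚ) * ((n i : ℚ) * Y j - (n j : ℚ) * Y i) := by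
    intro i j
    have h1 : (n i : ℚ) * Y j - (n j : ℚ) * Y i = ((n i : ℚ) * y j - (n j : ℚ) * y i) +
        ∑ l : Fin d, ((n i : ℚ) * (Rm U j l : ℚ) - (n j : ℚ) * (Rm U i l : ℚ)) *
          η ^ ((l : ℕ) + 1) := by
      have h2 : ∀ l : Fin d, ((n i : ℚ) * (Rm U j l : ℚ) - (n j : ℚ) * (Rm U i l : ℚ)) *
          η ^ ((l : ℕ) + 1) = (n i : ℚ) * ((Rm U j l : ℚ) * η ^ ((l : ℕ) + 1)) -
          (n j : ℚ) * ((Rm U i l : ℚ) * η ^ ((l : ℕ) + 1)) := fun l => by ring
      rw [Finset.sum_congr rfl (fun l _ => h2 l), Finset.sum_sub_distrib, ← Finset.mul_sum,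
        ← Finset.mul_sum]
      simp only [hY]
      ring
    have h3 : ∑ l : Fin d, (((n i).sign : ℚ) *
        ((n i : ℚ) * (Rm U j l : ℚ) - (n j : ℚ) * (Rm U i l : ℚ))) * η ^ ((l : ℕ) + 1) =
        ((n i).sign : ℚ) * ∑ l : Fin d, ((n i : ℚ) * (Rm U j l : ℚ) -
          (n j : ℚ) * (Rm U i l : ℚ)) * η ^ ((l : ℕ) + 1) := by
      rw [Finset.mul_sum]
      exact Finset.sum_congr rfl fun l _ => mul_assoc _ _ _
    rw [h1, mul_add, h3]
  have hsZ : ∀ i, ((SignType.sign (n i : ℚ) : SignType) : ℤ) = (n i).sign := by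
    intro i
    rcases lt_trichotomy (n i) 0 with h | h | h
    · rw [sign_neg (by exact_mod_cast h), Int.sign_eq_neg_one_of_neg h]
      rfl
    · rw [h]
      simp
    · rw [sign_pos (by exact_mod_cast h), Int.sign_eq_one_of_pos h]
      rfl
  have hsQ : ∀ i, ((SignType.sign (n i : ℚ) : SignType) : ℚ) = ((n i).sign : ℚ) := by
    intro i
    rcases lt_trichotomy (n i) 0 with h | h | h
    · rw [sign_neg (by exact_mod_cast h), Int.sign_eq_neg_one_of_neg h]
      norm_num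
    · rw [h]
      simp
    · rw [sign_pos (by exact_mod_cast h), Int.sign_eq_one_of_pos h]
      norm_num
  have hkey := signed_id (K := ℚ) Y (fun i => (n i : ℚ))
    (by
      obtain ⟨i, hi⟩ := hn
      exact ⟨i, by exact_mod_cast hi⟩)
    (fun j => (hA' j).2)
    (fun i j hij hi h => by
      have hi' : n i ≠ 0 := by exact_mod_cast hi
      have h1 := (hC' i j hij hi').2
      rw [hYC] at h1
      apply h1
      have h2 : (n i : ℚ) * Y j - (n j : ℚ) * Y i = 0 := sub_eq_zero.mpr h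
      rw [h2, mul_zero])
  have hL : InCone U κ x ↔ ∀ j, 0 < Y j := by
    unfold InCone
    exact forall_congr' fun k => (hA' k).1
  have hR : ∀ i, n i ≠ 0 → (InCone (U.updateCol i w) κ x ↔ (0 < ((n i).sign : ℚ) * Y i ∧
      ∀ j, j ≠ i → 0 < ((n i).sign : ℚ) * ((n i : ℚ) * Y j - (n j : ℚ) * Y i))) := by
    intro i hi
    have h1 : (LP (∑ j, (Rm (U.updateCol i w) i j : ℚ) * ((x j : ℚ) - κ j))
        (fun j => (Rm (U.updateCol i w) i j : ℚ))) ↔ 0 < ((n i).sign : ℚ) * Y i := by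
      have h2 : ∀ j, (Rm (U.updateCol i w) i j : ℚ) = ((n i).sign : ℚ) * (Rm U i j : ℚ) := by
        intro j
        rw [coord_same hU hw i hi j]
        push_cast
        rfl
      have h3 : ∑ j, (Rm (U.updateCol i w) i j : ℚ) * ((x j : ℚ) - κ j) =
          ((n i).sign : ℚ) * y i := by
        simp only [h2, hy, Finset.mul_sum, mul_assoc]
      rw [h3]
      simp only [h2]
      rw [hB' i hi, hYB]
    have h4 : ∀ j, j ≠ i → ((LP (∑ l, (Rm (U.updateCol i w) j l : ℚ) * ((x l : ℚ) - κ l))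
        (fun l => (Rm (U.updateCol i w) j l : ℚ))) ↔
        0 < ((n i).sign : ℚ) * ((n i : ℚ) * Y j - (n j : ℚ) * Y i)) := by
      intro j hj
      have h2 : ∀ l, ((U.det.natAbs : ℤ) : ℚ) * (Rm (U.updateCol i w) j l : ℚ) =
          ((n i).sign : ℚ) * ((n i : ℚ) * (Rm U j l : ℚ) - (n j : ℚ) * (Rm U i l : ℚ)) := by
        intro l
        have h5 := coord_other hU hw i j hi hj l
        exact_mod_cast h5
      have h3 : ((U.det.natAbs : ℤ) : ℚ) *
          ∑ l, (Rm (U.updateCol i w) j l : ℚ) * ((x l : ℚ) - κ l) =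
          ((n i).sign : ℚ) * ((n i : ℚ) * y j - (n j : ℚ) * y i) := by
        rw [Finset.mul_sum]
        have h6 : ∀ l, ((U.det.natAbs : ℤ) : ℚ) *
            ((Rm (U.updateCol i w) j l : ℚ) * ((x l : ℚ) - κ l)) =
            ((n i).sign : ℚ) * ((n i : ℚ) * ((Rm U j l : ℚ) * ((x l : ℚ) - κ l)) -
              (n j : ℚ) * ((Rm U i l : ℚ) * ((x l : ℚ) - κ l))) := by
          intro l
          rw [← mul_assoc, h2 l]
          ring
        rw [Finset.sum_congr rfl (fun l _ => h6 l), ← Finset.mul_sum, Finset.sum_sub_distrib,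
          ← Finset.mul_sum, ← Finset.mul_sum]
      rw [← LP_smul hD, h3]
      simp only [h2]
      rw [(hC' i j (Ne.symm hj) hi).1, hYC]
    unfold InCone
    constructor
    · intro h
      exact ⟨h1.mp (h i), fun j hj => (h4 j hj).mp (h j)⟩
    · rintro ⟨h5, h6⟩ j
      by_cases hj : j = i
      · subst hj
        exact h1.mpr h5
      · exact (h4 j hj).mpr (h6 j hj)
  have hLe : InCone U κ x = ∀ j, 0 < Y j := propext hL
  rw [hLe, ← hkey]
  refine Finset.sum_congr rfl fun i _ => ?_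
  rw [hsZ i, hsQ i]
  by_cases hi : n i = 0
  · rw [hi, Int.sign_zero, zero_mul, zero_mul]
  · have h7 : InCone (U.updateCol i w) κ x = (0 < ((n i).sign : ℚ) * Y i ∧
      ∀ j, j ≠ i → 0 < ((n i).sign : ℚ) * ((n i : ℚ) * Y j - (n j : ℚ) * Y i)) :=
      propext (hR i hi)
    rw [h7]

end Pool.Agent.LPC
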