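import Pool.Agent.LPC.Short
import Pool.Agent.LPC.LexStep

/-!
# Package LPC-KidA (part of Kid): properties of the children

`U` an integer `d × d` matrix, `d ≥ 1`, `det U ≠ 0`, `D = |det U| ≥ 1`.

* `sv_good`: `sv U` is a short vector, `svc U < (2D+1)^d`. *Proof.* By `exists_short` there is a short
  vector `n`; `|n_i|^d ≤ D^(d-1) ≤ D^d`, so `|n_i| ≤ D`, and `n = dec D z` with
  `z = ∑_i (n_i + D) (2D+1)^i < (2D+1)^d` (digits in base `2D+1`; `Nat.ofDigits` or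
  `Pool.Agent.GAvg.dig_sum`, `Pool.Agent.PTr.dig_code`, `code_lt` with `d := 2D`). So the set in the
  definition of `svc` is nonempty and `Nat.sInf_mem` applies.
* `ix_ne`: `n_(ix n i) ≠ 0` if some `n_j > 0`; `ix n i = i` if `n_i ≠ 0`. (Unfold; `Finset.min'_mem`.)
* `w_spec`: `U (sv U) = D w` with `w_k = (U (sv U))_k / D` (`det U ∣` gives `D ∣`).
* `kid_det`: `det (kid U i) ≠ 0` and `|det (kid U i)|^d ≤ D^(d-1)`. *Proof.* `D = 1`: `kid U i = U`,
  `1 ≤ 1`. `D ≥ 2`: by `coord_det`, `|det (kid U i)| = |n_j|` with `j = ix n i`, `n = sv U`; `n_j ≠ 0`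
  and `|n_j|^d ≤ D^(d-1)`.
* `kid_le`: if all entries of `U` have absolute value `≤ B` then those of `kid U i` are `≤ d B`.
  *Proof.* `D = 1`: `B ≤ d B`. Otherwise the new column is `w`, `D |w_k| = |∑_i U_ki n_i| ≤
  ∑_i |U_ki| |n_i| ≤ d B D`, as `|n_i| ≤ D`.
* `kid_mul`: `U * mat (dat U i) = D' • kid U i`, `D' = (Nat.unpair (dat U i)).1` (which is `1` if `D = 1`
  and `D` otherwise). *Proof.* `D = 1`: `mat (dat U i) = 1`. `D ≥ 2`: `mat (dat U i)` has the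
  columns `D e_k`, `k ≠ j`, and `n` at `j = ix n i` (`Nat.unpair_pair`), so `U` times it has the
  columns `D U_k` and `U n = D w`.
* `kid_step`: `[x ∈ InCone U κ] = ∑_i sg U i [x ∈ InCone (kid U i) κ]`. *Proof.* `D = 1`: the right
  side is the term `i = 0`. `D ≥ 2`: `lex_step` with `n = sv U`; for `n_i ≠ 0`, `ix n i = i`; for
  `n_i = 0` both sides have the factor `0`.
* `dat_le`: `dat U i + 2 ≤ ((d+3) D)^(4d+1)`. *Proof.* `Nat.pair a b < (max a b + 1)^2`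
  (`Nat.pair_lt_max_add_one_sq`). With `T = 2D + 1 + d`: `svc U + 1 ≤ (2D+1)^d ≤ T^d`, `ix + 1 ≤ d ≤ T^d`, so
  the inner pair is `< T^(2d)`; `D + 1 ≤ T ≤ T^(2d)`, so `dat U i < T^(4d)`, `dat U i + 2 ≤ 2 T^(4d) ≤
  T^(4d+1)`, and `T ≤ (d+3) D`.

Difficulty: 0.9 h (may be split).
-/

set_option autoImplicit false

namespace Pool.Agent.LPC

open Finset

theorem sv_good {d : ℕ} (hd : 0 < d) {U : Matrix (Fin d) (Fin d) ℤ} (hU : U.det ≠ 0) :
    Good U (sv U) ∧ svc U < (2 * U.det.natAbs + 1) ^ d := by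
  obtain ⟨n, hn⟩ := exists_short hd hU
  obtain ⟨D, hD⟩ : ∃ D : ℕ, D = U.det.natAbs := ⟨_, rfl⟩
  have hD0 : 0 < D := by
    rw [hD]
    exact Int.natAbs_pos.2 hU
  have hle : ∀ i, (n i).natAbs ≤ D := by
    intro i
    have h1 := hn.2.2 i
    rw [← hD] at h1
    have h2 : D ^ (d - 1) ≤ D ^ d := Nat.pow_le_pow_right hD0 (Nat.sub_le _ _)
    exact (Nat.pow_le_pow_iff_left (by omega)).1 (h1.trans h2)
  have hdec : dec D (Pool.Agent.PTr.code (2 * D) (fun i => (n i + D).toNat)) = n := by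
    funext i
    have h1 := Pool.Agent.PTr.dig_code (2 * D) (fun i => (n i + D).toNat) i
    have h2 := hle i
    have h3 : (n i + D).toNat % (2 * D + 1) = (n i + D).toNat := Nat.mod_eq_of_lt (by omega)
    rw [h3] at h1
    unfold Pool.Agent.GAvg.dig at h1
    unfold dec
    rw [h1]
    omega
  have hne : {z | z < (2 * U.det.natAbs + 1) ^ d ∧ Good U (dec U.det.natAbs z)}.Nonempty := by
    refine ⟨Pool.Agent.PTr.code (2 * D) (fun i => (n i + D).toNat), ?_, ?_⟩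
    · rw [← hD]
      exact Pool.Agent.PTr.code_lt _ _
    · rw [← hD, hdec]
      exact hn
  have h := Nat.sInf_mem hne
  exact ⟨h.2, h.1⟩

theorem ix_ne {d : ℕ} {n : Fin d → ℤ} (h : ∃ j, 0 < n j) (i : Fin d) : n (ix n i) ≠ 0 := by
  unfold ix
  split_ifs with h'
  · have h1 := Finset.min'_mem ({j : Fin d | 0 < n j} : Finset (Fin d)) (by
      obtain ⟨j, hj⟩ := h
      exact ⟨j, by simpa using hj⟩)
    rw [mem_filter] at h1
    exact h1.2.ne'
  · exact fun h0 => h' ⟨h0, h⟩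

theorem ix_self {d : ℕ} {n : Fin d → ℤ} {i : Fin d} (h : n i ≠ 0) : ix n i = i := by
  unfold ix
  exact dif_neg fun h' => h h'.1

theorem w_spec {d : ℕ} (hd : 0 < d) {U : Matrix (Fin d) (Fin d) ℤ} (hU : U.det ≠ 0) (k : Fin d) :
    U.mulVec (sv U) k = (U.det.natAbs : ℤ) * (U.mulVec (sv U) k / (U.det.natAbs : ℤ)) := by
  have h1 := (sv_good hd hU).1.2.1 k
  exact (Int.mul_ediv_cancel' (Int.natAbs_dvd.2 h1)).symm

end Pool.Agent.LPC
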