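import Pool.Agent.LPC.Short
import Pool.Agent.LPC.LexStep
import Pool.Agent.LPC.KidA

/-!
# Package LPC-KidB (part of Kid): properties of the children

`U` an integer `d × d` matrix, `d ≥ 1`, `det U ≠ 0`, `D = |det U| ≥ 1`.

* `sv_good`: `sv U` is a short vector, `svc U < (2D+1)^d`. *Proof.* By `exists_short` there is a short
  vector `n`; `|n_i|^d ≤ D^(d-1) ≤ D^d`, so `|n_i| ≤ D`, and `n = dec D z` with
  `z = ∑_i (n_i + D) (2D+1)^i < (2D+1)^d` (digits in base `2D+1`; `Nat.ofDigits` or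
  `Pool.Agent.GAvg.dig_sum`, `Pool.Agent.PTr.dig_code`, `code_lt` with `d := 2D`). So the set in the
  definition of `svc` is nonempty and `Nat.sInf_mem` applies.
* `ix_ne`: `n_(ix n i) ≠ 0` if some `n_j > 0`; `ix n i = i` if `n_i ≠ 0`. (Unfold; `Finset.min'_mem`.)
* `w_spec`: `U (sv U) = D w` with `w_k = (U (sv U))_k / D` (`det U ∣` gives `D ∣`).
* `kid_det`: `det (kid U i) ≠ 0` and `|det (kid U i)|^d ≤ D^(d-1)`. *Proof.* `D = 1`: `kid U i = U`,
  `1 ≤ 1`. `D ≥ 2`: by `coord_det`, `|det (kid U i)| = |n_j|` with `j = ix n i`, `n = sv U`; `n_j ≠ 0`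
  and `|n_j|^d ≤ D^(d-1)`.
* `kid_le`: if all entries of `U` have absolute value `≤ B` then those of `kid U i` are `≤ d B`.
  *Proof.* `D = 1`: `B ≤ d B`. Otherwise the new column is `w`, `D |w_k| = |∑_i U_ki n_i| ≤
  ∑_i |U_ki| |n_i| ≤ d B D`, as `|n_i| ≤ D`.
* `kid_mul`: `U * mat (dat U i) = D' • kid U i`, `D' = (Nat.unpair (dat U i)).1` (which is `1` if `D = 1`
  and `D` otherwise). *Proof.* `D = 1`: `mat (dat U i) = 1`. `D ≥ 2`: `mat (dat U i)` has the
  columns `D e_k`, `k ≠ j`, and `n` at `j = ix n i` (`Nat.unpair_pair`), so `U` times it has the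
  columns `D U_k` and `U n = D w`.
* `kid_step`: `[x ∈ InCone U κ] = ∑_i sg U i [x ∈ InCone (kid U i) κ]`. *Proof.* `D = 1`: the right
  side is the term `i = 0`. `D ≥ 2`: `lex_step` with `n = sv U`; for `n_i ≠ 0`, `ix n i = i`; for
  `n_i = 0` both sides have the factor `0`.
* `dat_le`: `dat U i + 2 ≤ ((d+3) D)^(4d+1)`. *Proof.* `Nat.pair a b < (max a b + 1)^2`
  (`Nat.pair_lt_max_add_one_sq`). With `T = 2D + 1 + d`: `svc U + 1 ≤ (2D+1)^d ≤ T^d`, `ix + 1 ≤ d ≤ T^d`, so
  the inner pair is `< T^(2d)`; `D + 1 ≤ T ≤ T^(2d)`, so `dat U i < T^(4d)`, `dat U i + 2 ≤ 2 T^(4d) ≤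
  T^(4d+1)`, and `T ≤ (d+3) D`.

Difficulty: 0.9 h (may be split).
-/

set_option autoImplicit false

namespace Pool.Agent.LPC

open Finset

private theorem dpos_KidB {d : ℕ} {U : Matrix (Fin d) (Fin d) ℤ} (hU : U.det ≠ 0) :
    0 < U.det.natAbs := Int.natAbs_pos.mpr hU

private theorem det_le_one_KidB {d : ℕ} {U : Matrix (Fin d) (Fin d) ℤ} (hU : U.det ≠ 0)
    (h : U.det.natAbs ≤ 1) : U.det.natAbs = 1 := by
  have := dpos_KidB hU
  omega

private theorem sv_le_KidB {d : ℕ} (hd : 0 < d) {U : Matrix (Fin d) (Fin d) ℤ} (hU : U.det ≠ 0)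
    (i : Fin d) : (sv U i).natAbs ≤ U.det.natAbs := by
  have h := (sv_good hd hU).1.2.2 i
  by_contra hc
  have hlt : U.det.natAbs < (sv U i).natAbs := by omega
  have h1 : U.det.natAbs ^ d < (sv U i).natAbs ^ d := Nat.pow_lt_pow_left hlt (by omega)
  have h2 : U.det.natAbs ^ (d - 1) ≤ U.det.natAbs ^ d :=
    Nat.pow_le_pow_right (dpos_KidB hU) (by omega)
  omega

theorem kid_det {d : ℕ} (hd : 0 < d) {U : Matrix (Fin d) (Fin d) ℤ} (hU : U.det ≠ 0) (i : Fin d) :
    (kid U i).det ≠ 0 ∧ (kid U i).det.natAbs ^ d ≤ U.det.natAbs ^ (d - 1) := by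
  by_cases h1 : U.det.natAbs ≤ 1
  · have hk : kid U i = U := by
      unfold kid
      rw [if_pos h1]
    rw [hk, det_le_one_KidB hU h1, one_pow, one_pow]
    exact ⟨hU, le_refl 1⟩
  · have hk : kid U i = U.updateCol (ix (sv U) i)
        (fun k => U.mulVec (sv U) k / (U.det.natAbs : ℤ)) := by
      unfold kid
      rw [if_neg h1]
    have hg := (sv_good hd hU).1
    rw [hk, coord_det hU (w_spec hd hU)]
    constructor
    · exact mul_ne_zero (ix_ne hg.1 i) (by rw [Ne, Int.sign_eq_zero_iff_zero]; exact hU)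
    · rw [Int.natAbs_mul, Int.natAbs_sign_of_ne_zero hU, mul_one]
      exact hg.2.2 _

private theorem w_le_KidB {d : ℕ} (hd : 0 < d) {U : Matrix (Fin d) (Fin d) ℤ} (hU : U.det ≠ 0)
    {B : ℕ} (hB : ∀ a b, (U a b).natAbs ≤ B) (k : Fin d) :
    (U.mulVec (sv U) k / (U.det.natAbs : ℤ)).natAbs ≤ d * B := by
  have h1 := w_spec hd hU k
  set w := U.mulVec (sv U) k / (U.det.natAbs : ℤ) with hw
  have h2 : (U.mulVec (sv U) k).natAbs = U.det.natAbs * w.natAbs := by
    rw [h1, Int.natAbs_mul, Int.natAbs_natCast]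
  have h3 : (U.mulVec (sv U) k).natAbs ≤ d * (B * U.det.natAbs) := by
    have h4 : (U.mulVec (sv U) k).natAbs ≤ ∑ j : Fin d, (U k j * sv U j).natAbs := by
      unfold Matrix.mulVec dotProduct
      exact Int.natAbs_sum_le _ _
    refine h4.trans ?_
    refine (Finset.sum_le_card_nsmul _ _ (B * U.det.natAbs) fun j _ => ?_).trans ?_
    · rw [Int.natAbs_mul]
      exact Nat.mul_le_mul (hB k j) (sv_le_KidB hd hU j)
    · rw [Finset.card_univ, Fintype.card_fin, smul_eq_mul]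
  rw [h2] at h3
  have h5 : U.det.natAbs * w.natAbs ≤ U.det.natAbs * (d * B) := by
    refine h3.trans (le_of_eq ?_)
    ring
  exact Nat.le_of_mul_le_mul_left h5 (dpos_KidB hU)

theorem kid_le {d : ℕ} (hd : 0 < d) {U : Matrix (Fin d) (Fin d) ℤ} (hU : U.det ≠ 0) {B : ℕ}
    (hB : ∀ a b, (U a b).natAbs ≤ B) (i a b : Fin d) : (kid U i a b).natAbs ≤ d * B := by
  have hBd : B ≤ d * B := Nat.le_mul_of_pos_left B hd
  unfold kid
  split_ifs with h1
  · exact (hB a b).trans hBd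
  · by_cases hb : b = ix (sv U) i
    · subst hb
      rw [Matrix.updateCol_self]
      exact w_le_KidB hd hU hB a
    · rw [Matrix.updateCol_ne hb]
      exact (hB a b).trans hBd

theorem kid_mul {d : ℕ} (hd : 0 < d) {U : Matrix (Fin d) (Fin d) ℤ} (hU : U.det ≠ 0)
    (i : Fin d) : U * mat (dat U i) = ((Nat.unpair (dat U i)).1 : ℤ) • kid U i := by
  by_cases h1 : U.det.natAbs ≤ 1
  · have hk : kid U i = U := by
      unfold kid
      rw [if_pos h1]
    have hda : (Nat.unpair (dat U i)).1 = 1 := by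
      unfold dat
      rw [Nat.unpair_pair, if_pos h1]
    have hm : (mat (dat U i) : Matrix (Fin d) (Fin d) ℤ) = 1 := by
      ext a b
      unfold mat
      rw [hda, if_pos (le_refl 1), Matrix.one_apply]
    rw [hm, hda, hk, Matrix.mul_one, Nat.cast_one, one_smul]
  · have hk : kid U i = U.updateCol (ix (sv U) i)
        (fun k => U.mulVec (sv U) k / (U.det.natAbs : ℤ)) := by
      unfold kid
      rw [if_neg h1]
    have hda : Nat.unpair (dat U i) = (U.det.natAbs, Nat.pair (svc U) (ix (sv U) i : ℕ)) := by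
      unfold dat
      rw [Nat.unpair_pair, if_neg h1]
    rw [hda, hk]
    ext a b
    rw [Matrix.mul_apply, Matrix.smul_apply, smul_eq_mul]
    have hmb : ∀ c, (mat (dat U i) : Matrix (Fin d) (Fin d) ℤ) c b =
        if b = ix (sv U) i then sv U c else if c = b then (U.det.natAbs : ℤ) else 0 := by
      intro c
      unfold mat
      rw [hda, if_neg h1]
      simp only [Nat.unpair_pair]
      by_cases hb : b = ix (sv U) i
      · rw [if_pos hb, if_pos (by rw [hb])]
        rfl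
      · rw [if_neg hb, if_neg (fun h => hb (Fin.ext h))]
    by_cases hb : b = ix (sv U) i
    · have hs : ∑ c, U a c * (mat (dat U i) : Matrix (Fin d) (Fin d) ℤ) c b =
          U.mulVec (sv U) a := by
        unfold Matrix.mulVec dotProduct
        refine Finset.sum_congr rfl fun c _ => ?_
        rw [hmb c, if_pos hb]
      rw [hs, hb, Matrix.updateCol_self]
      exact w_spec hd hU a
    · have hs : ∑ c, U a c * (mat (dat U i) : Matrix (Fin d) (Fin d) ℤ) c b =
          U a b * (U.det.natAbs : ℤ) := by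
        rw [Finset.sum_eq_single b]
        · rw [hmb b, if_neg hb, if_pos rfl]
        · intro c _ hc
          rw [hmb c, if_neg hb, if_neg hc, mul_zero]
        · intro h
          exact absurd (Finset.mem_univ b) h
      rw [hs, Matrix.updateCol_ne hb, mul_comm]

theorem dat_le {d : ℕ} (hd : 0 < d) {U : Matrix (Fin d) (Fin d) ℤ} (hU : U.det ≠ 0)
    (i : Fin d) : dat U i + 2 ≤ ((d + 3) * U.det.natAbs) ^ (4 * d + 1) := by
  set D := U.det.natAbs with hD
  have hD1 : 1 ≤ D := dpos_KidB hU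
  obtain ⟨T, hT⟩ : ∃ T, T = 2 * D + 1 + d := ⟨_, rfl⟩
  have hT1 : 2 ≤ T := by omega
  have hTle : T ≤ (d + 3) * D := by
    rw [hT]
    nlinarith [Nat.mul_le_mul_left d hD1]
  have hs : svc U + 1 ≤ T ^ d := by
    have h1 := (sv_good hd hU).2
    rw [← hD] at h1
    have h2 : (2 * D + 1) ^ d ≤ T ^ d := Nat.pow_le_pow_left (by omega) d
    omega
  have hx : (ix (sv U) i : ℕ) + 1 ≤ T ^ d := by
    have h1 : (ix (sv U) i : ℕ) < d := (ix (sv U) i).isLt
    have h2 : T ^ 1 ≤ T ^ d := Nat.pow_le_pow_right (by omega) hd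
    rw [pow_one] at h2
    omega
  have hin : Nat.pair (svc U) (ix (sv U) i : ℕ) + 1 ≤ T ^ (2 * d) := by
    have h1 := Nat.pair_lt_max_add_one_sq (svc U) (ix (sv U) i : ℕ)
    have h2 : max (svc U) (ix (sv U) i : ℕ) + 1 ≤ T ^ d := by
      rcases max_cases (svc U) (ix (sv U) i : ℕ) with h | h
      · rw [h.1]
        exact hs
      · rw [h.1]
        exact hx
    have h3 : (max (svc U) (ix (sv U) i : ℕ) + 1) ^ 2 ≤ (T ^ d) ^ 2 := Nat.pow_le_pow_left h2 2
    rw [← pow_mul, mul_comm d 2] at h3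
    omega
  have hou : (if D ≤ 1 then 1 else D) + 1 ≤ T ^ (2 * d) := by
    have h2 : T ^ 1 ≤ T ^ (2 * d) := Nat.pow_le_pow_right (by omega) (by omega)
    rw [pow_one] at h2
    split_ifs <;> omega
  have hfin : dat U i + 1 ≤ T ^ (4 * d) := by
    unfold dat
    rw [← hD]
    have h1 := Nat.pair_lt_max_add_one_sq (if D ≤ 1 then 1 else D)
      (Nat.pair (svc U) (ix (sv U) i : ℕ))
    have h2 : max (if D ≤ 1 then 1 else D) (Nat.pair (svc U) (ix (sv U) i : ℕ)) + 1 ≤
        T ^ (2 * d) := by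
      rcases max_cases (if D ≤ 1 then 1 else D) (Nat.pair (svc U) (ix (sv U) i : ℕ)) with h | h
      · rw [h.1]
        exact hou
      · rw [h.1]
        exact hin
    have h3 : (max (if D ≤ 1 then 1 else D) (Nat.pair (svc U) (ix (sv U) i : ℕ)) + 1) ^ 2 ≤
        (T ^ (2 * d)) ^ 2 := Nat.pow_le_pow_left h2 2
    have h4 : (T ^ (2 * d)) ^ 2 = T ^ (4 * d) := by
      rw [← pow_mul]
      congr 1
      ring
    rw [h4] at h3
    omega
  have hpos : 1 ≤ T ^ (4 * d) := Nat.one_le_pow _ _ (by omega)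
  calc dat U i + 2 ≤ 2 * T ^ (4 * d) := by omega
    _ ≤ T * T ^ (4 * d) := Nat.mul_le_mul_right _ hT1
    _ = T ^ (4 * d + 1) := by rw [pow_succ, mul_comm]
    _ ≤ ((d + 3) * D) ^ (4 * d + 1) := Nat.pow_le_pow_left hTle _

end Pool.Agent.LPC
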