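import Pool.Agent.LPC.Short
import Pool.Agent.LPC.LexStep
import Pool.Agent.LPC.KidA

/-!
# Package LPC-KidC (part of Kid): properties of the children

`U` an integer `d × d` matrix, `d ≥ 1`, `det U ≠ 0`, `D = |det U| ≥ 1`.

* `sv_good`: `sv U` is a short vector, `svc U < (2D+1)^d`. *Proof.* By `exists_short` there is a short
  vector `n`; `|n_i|^d ≤ D^(d-1) ≤ D^d`, so `|n_i| ≤ D`, and `n = dec D z` with
  `z = ∑_i (n_i + D) (2D+1)^i < (2D+1)^d` (digits in base `2D+1`; `Nat.ofDigits` or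
  `Pool.Agent.GAvg.dig_sum`, `Pool.Agent.PTr.dig_code`, `code_lt` with `d := 2D`). So the set in the
  definition of `svc` is nonempty and `Nat.sInf_mem` applies.
* `ix_ne`: `n_(ix n i) ≠ 0` if some `n_j > 0`; `ix n i = i` if `n_i ≠ 0`. (Unfold; `Finset.min'_mem`.)
* `w_spec`: `U (sv U) = D w` with `w_k = (U (sv U))_k / D` (`det U ∣` gives `D ∣`).
* `kid_det`: `det (kid U i) ≠ 0` and `|det (kid U i)|^d ≤ D^(d-1)`. *Proof.* `D = 1`: `kid U i = U`,
  `1 ≤ 1`. `D ≥ 2`: by `coord_det`, `|det (kid U i)| = |n_j|` with `j = ix n i`, `n = sv U`; `n_j ≠ 0`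
  and `|n_j|^d ≤ D^(d-1)`.
* `kid_le`: if all entries of `U` have absolute value `≤ B` then those of `kid U i` are `≤ d B`.
  *Proof.* `D = 1`: `B ≤ d B`. Otherwise the new column is `w`, `D |w_k| = |∑_i U_ki n_i| ≤
  ∑_i |U_ki| |n_i| ≤ d B D`, as `|n_i| ≤ D`.
* `kid_mul`: `U * mat (dat U i) = D' • kid U i`, `D' = (Nat.unpair (dat U i)).1` (which is `1` if `D = 1`
  and `D` otherwise). *Proof.* `D = 1`: `mat (dat U i) = 1`. `D ≥ 2`: `mat (dat U i)` has the
  columns `D e_k`, `k ≠ j`, and `n` at `j = ix n i` (`Nat.unpair_pair`), so `U` times it has the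
  columns `D U_k` and `U n = D w`.
* `kid_step`: `[x ∈ InCone U κ] = ∑_i sg U i [x ∈ InCone (kid U i) κ]`. *Proof.* `D = 1`: the right
  side is the term `i = 0`. `D ≥ 2`: `lex_step` with `n = sv U`; for `n_i ≠ 0`, `ix n i = i`; for
  `n_i = 0` both sides have the factor `0`.
* `dat_le`: `dat U i + 2 ≤ ((d+3) D)^(4d+1)`. *Proof.* `Nat.pair a b < (max a b + 1)^2`
  (`Nat.pair_lt_max_add_one_sq`). With `T = 2D + 1 + d`: `svc U + 1 ≤ (2D+1)^d ≤ T^d`, `ix + 1 ≤ d ≤ T^d`, so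
  the inner pair is `< T^(2d)`; `D + 1 ≤ T ≤ T^(2d)`, so `dat U i < T^(4d)`, `dat U i + 2 ≤ 2 T^(4d) ≤
  T^(4d+1)`, and `T ≤ (d+3) D`.

Difficulty: 0.9 h (may be split).
-/

set_option autoImplicit false

namespace Pool.Agent.LPC

open Finset

theorem kid_step {d : ℕ} (hd : 0 < d) {U : Matrix (Fin d) (Fin d) ℤ} (hU : U.det ≠ 0)
    (κ : Fin d → ℚ) (x : Fin d → ℤ) :
    ind (InCone U κ x) = ∑ i, sg U i * ind (InCone (kid U i) κ x) := by
  by_cases hD : U.det.natAbs ≤ 1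
  · rw [Finset.sum_eq_single (⟨0, hd⟩ : Fin d)]
    · simp only [sg, kid, if_pos hD, if_true, one_mul]
    · intro i _ hi
      have h0 : (i : ℕ) ≠ 0 := fun h => hi (Fin.ext h)
      simp only [sg, if_pos hD, if_neg h0, zero_mul]
    · intro h
      exact absurd (Finset.mem_univ _) h
  · rw [lex_step hU (n := sv U) (w := fun k => U.mulVec (sv U) k / (U.det.natAbs : ℤ))
      (sv_good hd hU).1.1 (w_spec hd hU) κ x]
    refine Finset.sum_congr rfl fun i _ => ?_
    simp only [sg, kid, if_neg hD]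
    by_cases h0 : sv U i = 0
    · rw [h0, Int.sign_zero, zero_mul, zero_mul]
    · rw [ix_self h0]

end Pool.Agent.LPC
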