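import Pool.Agent.LPC.Kid
import Pool.Agent.LPC.ZFTools

/-!
# Package LPC-KidDef: the children are definable

`U v` a matrix with `ZF` entries (any matrices, `det U v = 0` allowed).

* `dfun_svc`: `v ↦ svc (U v)` is `DFun`. *Proof.* `D = |det (U v)|` is `DFun` (`zf_det`, `ZF.natAbs`). The
  relation `Good (U v) (dec D z)` in `(z, v)` is `Delta0`: the entries of `dec D z` are `ZF`
  (`z / (2D+1)^i % (2D+1)` with `i` fixed: `DFun.divPos`, `DFun.modPos`, `DFun.powConst`), `0 < n_i`: `ZF.lt`;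
  `det U ∣ (U n)_k` iff `(U n)_k % |det U| = 0` (`ZF.emod` needs `N > 0`? see its statement; for
  `det U = 0` it is `(U n)_k = 0`; treat the two cases by `Delta0.or`/`and`), the last condition is an inequality of
  `DFun`s. `svc (U v)` is the least `z < (2D+1)^d` with it, or `0` if there is none
  (`sInf ∅ = 0`): its graph is `Delta0`, and it is `≤ (2D+1)^d`: `DFun.ofGraph`.
* `zf_sv`: the entries of `sv (U v)`. `dfun_ix`: `v ↦ (ix (n v) (ι v) : ℕ)` for `ZF` vectors `n v` and
  `ι v ∈ Fin d` with definable value: finite case distinction: for fixed `i, j` the relation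
  `ix (n v) i = j` is `(n_i ≠ 0 or no n_k > 0) and j = i`, or `n_i = 0 and 0 < n_j and no k < j has
  0 < n_k`.
* `dfun_dat`: `v ↦ dat (U v) (ι v)` (`DFun.pair`). `zf_sg`: `v ↦ sg (U v) (ι v)`.
* `zf_mat`: the entries of `mat (y v)` for `y ∈ DFun n` (`DFun.unpair1`, `DFun.unpair2`, cases).

Difficulty: 0.8 h.
-/

set_option autoImplicit false

namespace Pool.Agent.LPC

open Finset Pool.Agent.Grz Pool.Agent.GAvg Pool.Agent.PTr Pool.Agent.MTr

variable {n d : ℕ}

/-- the entries of a decoded vector -/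
theorem KidDef_zf_dec {D z : (Fin n → ℕ) → ℕ} (hD : DFun n D) (hz : DFun n z) (k : Fin d) :
    ZF n (fun v => (dec (D v) (z v) : Fin d → ℤ) k) := by
  have h1 : DFun n (fun v => 2 * D v + 1) := ((DFun.const 2).mul hD).add (DFun.const 1)
  have h2 : DFun n (fun v => z v / (2 * D v + 1) ^ (k : ℕ)) :=
    DFun.divPos hz (DFun.powConst h1 (k : ℕ)) fun v => by positivity
  have h3 : DFun n (fun v => z v / (2 * D v + 1) ^ (k : ℕ) % (2 * D v + 1)) :=
    DFun.modPos h2 h1 fun v => by positivity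
  exact (ZF.nat h3).sub (ZF.nat hD)

/-- being a short vector is definable -/
theorem KidDef_d0_good {U : (Fin n → ℕ) → Matrix (Fin d) (Fin d) ℤ}
    (hU : ∀ i j, ZF n (fun v => U v i j)) {u : (Fin n → ℕ) → Fin d → ℤ}
    (hu : ∀ k, ZF n (fun v => u v k)) : Delta0 n (fun v => Good (U v) (u v)) := by
  have hD : DFun n (fun v => (U v).det.natAbs) := (zf_det hU).natAbs
  have h1 : Delta0 n (fun v => ∃ i, 0 < u v i) := Delta0.exOf fun i => (ZF.const 0).lt (hu i)
  have h2 : Delta0 n (fun v => ∀ k, (U v).det ∣ (U v).mulVec (u v) k) := by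
    refine Delta0.allOf fun k => ?_
    have h3 : ZF n (fun v => (U v).mulVec (u v) k) :=
      (ZF.sum univ fun j => (hU k j).mul (hu j)).congr fun v => rfl
    refine (Delta0.eqFun (DFun.modAny h3.natAbs hD) (DFun.const 0)).of_iff fun v => ?_
    rw [← Int.natAbs_dvd_natAbs, Nat.dvd_iff_mod_eq_zero]
  have h4 : Delta0 n (fun v => ∀ i, (u v i).natAbs ^ d ≤ (U v).det.natAbs ^ (d - 1)) :=
    Delta0.allOf fun i => Delta0.leFun (DFun.powConst (hu i).natAbs d) (DFun.powConst hD (d - 1))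
  exact h1.and (h2.and h4)

/-- the least number with a definable bounded property -/
theorem KidDef_dfun_sInf {P : ℕ → (Fin n → ℕ) → Prop} {b : (Fin n → ℕ) → ℕ} (hb : DFun n b)
    (hP : Delta0 (n + 1) (fun w => P (w 0) (fun i => w i.succ))) (hPb : ∀ x v, P x v → x ≤ b v) :
    DFun n (fun v => sInf {x | P x v}) := by
  refine DFun.ofGraph hb (fun v => ?_) ?_
  · rcases Set.eq_empty_or_nonempty {x | P x v} with h | h
    · rw [h, Nat.sInf_empty]
      exact Nat.zero_le _
    · exact hPb _ v (Nat.sInf_mem h)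
  · have h0 := DFun.proj (n := n + 1) 0
    -- `P x v` in the variables `x, w 0, v`
    have hP2 : Delta0 (n + 1 + 1) (fun w => P (w 0) (fun i => w i.succ.succ)) :=
      hP.subst (h := Fin.cons (fun w => w 0) (fun i w => w i.succ.succ)) (fun i => by
        refine Fin.cases ?_ (fun i => ?_) i
        · exact DFun.proj 0
        · exact DFun.proj i.succ.succ)
    have h1 : Delta0 (n + 1) (fun w => ∀ x, x ≤ w 0 → (P x (fun i => w i.succ) → w 0 ≤ x)) :=
      Delta0.ballFun (P := fun x w => (P x (fun i => w i.succ) → w 0 ≤ x)) h0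
        (hP2.imp (Delta0.leFun (DFun.proj 1) (DFun.proj 0)))
    have h2 : Delta0 (n + 1) (fun w => ∀ x, x ≤ b (fun i => w i.succ) →
        ¬ P x (fun i => w i.succ)) :=
      Delta0.ballFun (P := fun x w => ¬ P x (fun i => w i.succ)) hb.weak hP2.not
    refine ((hP.and h1).or ((Delta0.eqFun h0 (DFun.const 0)).and h2)).of_iff fun w => ?_
    constructor
    · intro h
      rcases Set.eq_empty_or_nonempty {x | P x (fun i => w i.succ)} with h3 | h3
      · right
        rw [h3, Nat.sInf_empty] at h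
        exact ⟨h, fun x _ hx => h3.subset hx⟩
      · left
        rw [h]
        exact ⟨Nat.sInf_mem h3, fun x _ hx => Nat.sInf_le hx⟩
    · rintro (⟨h3, h4⟩ | ⟨h3, h4⟩)
      · refine le_antisymm ?_ (Nat.sInf_le h3)
        have h5 : P (sInf {x | P x (fun i => w i.succ)}) (fun i => w i.succ) :=
          Nat.sInf_mem (s := {x | P x (fun i => w i.succ)}) ⟨_, h3⟩
        exact h4 _ (Nat.sInf_le h3) h5
      · have h5 : {x | P x (fun i => w i.succ)} = ∅ := by
          ext x
          constructor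
          · intro hx
            exact h4 x (hPb x _ hx) hx
          · intro hx
            exact absurd hx (Set.notMem_empty x)
        rw [h5, Nat.sInf_empty]
        exact h3

theorem dfun_svc {U : (Fin n → ℕ) → Matrix (Fin d) (Fin d) ℤ}
    (hU : ∀ i j, ZF n (fun v => U v i j)) : DFun n (fun v => svc (U v)) := by
  have hD : DFun n (fun v => (U v).det.natAbs) := (zf_det hU).natAbs
  have hb : DFun n (fun v => (2 * (U v).det.natAbs + 1) ^ d) :=
    DFun.powConst (((DFun.const 2).mul hD).add (DFun.const 1)) d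
  have hU' : ∀ i j, ZF (n + 1) (fun w => U (fun i => w i.succ) i j) := fun i j => (hU i j).weak
  have hD' : DFun (n + 1) (fun w => (U (fun i => w i.succ)).det.natAbs) := hD.weak
  refine KidDef_dfun_sInf (P := fun z v => z < (2 * (U v).det.natAbs + 1) ^ d ∧
    Good (U v) (dec (U v).det.natAbs z)) hb ?_ (fun x v h => h.1.le)
  exact (Delta0.ltFun (DFun.proj 0) hb.weak).and (KidDef_d0_good hU' fun k =>
    KidDef_zf_dec hD' (DFun.proj 0) k)

theorem zf_sv {U : (Fin n → ℕ) → Matrix (Fin d) (Fin d) ℤ}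
    (hU : ∀ i j, ZF n (fun v => U v i j)) (k : Fin d) : ZF n (fun v => sv (U v) k) :=
  KidDef_zf_dec (zf_det hU).natAbs (dfun_svc hU) k

/-- the values of `ix` -/
theorem KidDef_ix_iff (u : Fin d → ℤ) (i j : Fin d) : ix u i = j ↔
    ((u i ≠ 0 ∨ ∀ k, ¬ 0 < u k) ∧ i = j) ∨ (u i = 0 ∧ 0 < u j ∧ ∀ k, k < j → ¬ 0 < u k) := by
  unfold ix
  split_ifs with h
  · rw [Finset.min'_eq_iff]
    simp only [mem_filter, mem_univ, true_and]
    constructor
    · rintro ⟨h1, h2⟩
      exact Or.inr ⟨h.1, h1, fun k hk hk0 => absurd (h2 k hk0) (not_le.mpr hk)⟩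
    · rintro (⟨h1 | h1, -⟩ | ⟨-, h1, h2⟩)
      · exact absurd h.1 h1
      · obtain ⟨k, hk⟩ := h.2
        exact absurd hk (h1 k)
      · exact ⟨h1, fun k hk => not_lt.mp fun hkj => h2 k hkj hk⟩
  · constructor
    · intro hij
      refine Or.inl ⟨?_, hij⟩
      by_cases h0 : u i = 0
      · exact Or.inr fun k hk => h ⟨h0, k, hk⟩
      · exact Or.inl h0
    · rintro (⟨-, h1⟩ | ⟨h1, h2, -⟩)
      · exact h1
      · exact absurd ⟨h1, j, h2⟩ h

theorem dfun_ix {u : (Fin n → ℕ) → Fin d → ℤ} (hu : ∀ k, ZF n (fun v => u v k))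
    {ι : (Fin n → ℕ) → Fin d} (hι : DFun n (fun v => (ι v : ℕ))) :
    DFun n (fun v => (ix (u v) (ι v) : ℕ)) := by
  classical
  refine dfun_pick (f := fun i v => (ix (u v) i : ℕ)) (fun i => ?_) hι
  have hP : ∀ j : Fin d, Delta0 n (fun v => ix (u v) i = j) := by
    intro j
    have h1 : Delta0 n (fun v => (u v i ≠ 0 ∨ ∀ k, ¬ 0 < u v k) ∧ i = j) := by
      by_cases hij : i = j
      · refine ((((hu i).eq (ZF.const 0)).not).or
          (Delta0.allOf fun k => ((ZF.const 0).lt (hu k)).not)).of_iff fun v => ?_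
        exact ⟨fun h => h.1, fun h => ⟨h, hij⟩⟩
      · refine ((Delta0.eqFun (DFun.const 0) (DFun.const 0)).not).of_iff fun v => ?_
        exact ⟨fun h => absurd h.2 hij, fun h => absurd rfl h⟩
    have h2 : Delta0 n (fun v => u v i = 0 ∧ 0 < u v j ∧ ∀ k, k < j → ¬ 0 < u v k) := by
      refine ((hu i).eq (ZF.const 0)).and (((ZF.const 0).lt (hu j)).and
        (Delta0.allOf fun k => ?_))
      by_cases hkj : k < j
      · exact (((ZF.const 0).lt (hu k)).not).of_iff fun v => ⟨fun h => h hkj, fun h _ => h⟩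
      · exact (Delta0.eqFun (DFun.const 0) (DFun.const 0)).of_iff fun v =>
          ⟨fun _ => rfl, fun _ h => absurd h hkj⟩
    exact (h1.or h2).of_iff fun v => KidDef_ix_iff (u v) i j
  have h3 : DFun n (fun v => ∑ j : Fin d, if ix (u v) i = j then (j : ℕ) else 0) :=
    DFun.finSum univ fun j => DFun.ite (hP j) (DFun.const (j : ℕ)) (DFun.const 0)
  have h4 : (fun v => (ix (u v) i : ℕ)) =
      fun v => ∑ j : Fin d, if ix (u v) i = j then (j : ℕ) else 0 := by
    funext v
    rw [Finset.sum_ite_eq univ (ix (u v) i), if_pos (mem_univ _)]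
  rw [h4]
  exact h3

theorem dfun_dat {U : (Fin n → ℕ) → Matrix (Fin d) (Fin d) ℤ}
    (hU : ∀ i j, ZF n (fun v => U v i j)) {ι : (Fin n → ℕ) → Fin d}
    (hι : DFun n (fun v => (ι v : ℕ))) : DFun n (fun v => dat (U v) (ι v)) := by
  have hD : DFun n (fun v => (U v).det.natAbs) := (zf_det hU).natAbs
  have h1 : DFun n (fun v => if (U v).det.natAbs ≤ 1 then 1 else (U v).det.natAbs) :=
    DFun.ite (Delta0.leFun hD (DFun.const 1)) (DFun.const 1) hD
  exact h1.pair ((dfun_svc hU).pair (dfun_ix (u := fun v => sv (U v)) (zf_sv hU) hι))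

theorem zf_sg {U : (Fin n → ℕ) → Matrix (Fin d) (Fin d) ℤ}
    (hU : ∀ i j, ZF n (fun v => U v i j)) {ι : (Fin n → ℕ) → Fin d}
    (hι : DFun n (fun v => (ι v : ℕ))) : ZF n (fun v => sg (U v) (ι v)) := by
  have hD : DFun n (fun v => (U v).det.natAbs) := (zf_det hU).natAbs
  exact ZF.ite (Delta0.leFun hD (DFun.const 1))
    (ZF.ite (Delta0.eqFun hι (DFun.const 0)) (ZF.const 1) (ZF.const 0))
    (zf_sign (zf_pick (f := fun i v => sv (U v) i) (zf_sv hU) hι))

theorem zf_mat {y : (Fin n → ℕ) → ℕ} (hy : DFun n y) (i j : Fin d) :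
    ZF n (fun v => (mat (y v) : Matrix (Fin d) (Fin d) ℤ) i j) := by
  have h1 : ZF n (fun _ => if i = j then (1 : ℤ) else 0) := ZF.const _
  have h2 : ZF n (fun v => if i = j then ((Nat.unpair (y v)).1 : ℤ) else 0) := by
    by_cases hij : i = j
    · simp only [if_pos hij]
      exact ZF.nat hy.unpair1
    · simp only [if_neg hij]
      exact ZF.const 0
  exact ZF.ite (Delta0.leFun hy.unpair1 (DFun.const 1)) h1
    (ZF.ite (Delta0.eqFun (DFun.const (j : ℕ)) hy.unpair2.unpair2)
      (KidDef_zf_dec hy.unpair1 hy.unpair2.unpair1 i) h2)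

end Pool.Agent.LPC
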