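import Pool.Agent.LPC.CountForm
import Pool.Agent.LPC.NodeDef
import Pool.Agent.LPC.ZFTools

/-!
# Package LPC-LeafDefA (part of LeafDef): the contributions of the leaves are definable; rounding

*`leaf_def`.* `U v` with `ZF` entries and non-zero determinants, `q v` with `ZF` entries, `h, Y ∈ DFun n`. There are
`g s v` (`ZF (n+1)`) and `k s v > 0` (`DFun (n+1)`) with `leafTerm (U v) (q v) (h v) (Y v) s = g s v / k s v`.
*Proof.* `J v = dep (m+2) |det (U v)|` is `DFun` (`zf_det`, `ZF.natAbs`, `DFun.lg`). By `node_def`, `sgn_def` at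
`l = J v`, the entries of `V = nd (U v) s (J v)` and the sign are `ZF` in `(s, v)`. By `zf_Rm`, `zf_lidx` so are
`m_i = lidx (Rm V i) q h`, and `b_i = cv Y (column i)` (a fixed sum). By `phi_poly`,
`leafTerm = sgn * p(m, b) / (C ∏ b_i)`; let `π = ∏ b_i` (`zf_prod`). If `π = 0` the term is `0` (division by
zero): `g = 0`, `k = 1`. Otherwise `g = sgn * p(m, b) * sign(π)`, `k = C |π|` (`zf_poly`, `zf_sign`, `ZF.ite`).

*`ceil_sum`.* `T` a finite set, `g i ∈ ℤ`, `k i > 0`, `∑_(i ∈ T) g i / k i = N` an integer, `#T ≤ W`, `0 < W`. Then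
`N = -((-∑_(i ∈ T) (W g_i / k_i)) / W)` (floor divisions in `ℤ`). *Proof.* `W g_i / k_i` (rational) minus its floor
lies in `[0, 1)`, so `R = ∑ ⌊W g_i / k_i⌋` satisfies `W N - W < R ≤ W N` if `T` is nonempty (`R > W N - #T`); for
`T = ∅`: `N = 0 = R`. So `-R ∈ [-W N, -W N + W)`, `⌊-R / W⌋ = -N`. ∎

Difficulty: 0.8 h.
-/

set_option autoImplicit false

namespace Pool.Agent.LPC

open Finset Pool.Agent.Grz Pool.Agent.GAvg Pool.Agent.PTr Pool.Agent.MTr

private theorem ld_quot (C : ℕ) (S E b : ℤ) :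
    (S : ℚ) * ((E : ℚ) / ((C : ℚ) * (b : ℚ))) =
      ((if b = 0 then 0 else S * E * b.sign : ℤ) : ℚ) /
        ((if b = 0 then 1 else C * b.natAbs : ℕ) : ℚ) := by
  by_cases hb : b = 0
  · rw [if_pos hb, if_pos hb, hb]
    simp
  rw [if_neg hb, if_neg hb]
  have h1 : (b.sign : ℚ) ≠ 0 := by
    have : b.sign ≠ 0 := fun h => hb (Int.sign_eq_zero_iff_zero.1 h)
    exact_mod_cast this
  have h2 : ((b.natAbs : ℕ) : ℚ) = (b : ℚ) * (b.sign : ℚ) := by
    have h3 : ((b.natAbs : ℕ) : ℤ) = b * b.sign := by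
      rw [mul_comm, Int.sign_mul_self]
    rw [← Int.cast_natCast, h3, Int.cast_mul]
  rw [Int.cast_mul, Int.cast_mul, Nat.cast_mul, h2, ← mul_assoc, mul_div_mul_right _ _ h1,
    mul_div_assoc]

theorem leaf_def {n m : ℕ} {U : (Fin n → ℕ) → Matrix (Fin (m + 2)) (Fin (m + 2)) ℤ}
    {q : (Fin n → ℕ) → Fin (m + 2) → ℤ} {h Y : (Fin n → ℕ) → ℕ}
    (hU : ∀ i j, ZF n (fun v => U v i j)) (hdet : ∀ v, (U v).det ≠ 0)
    (hq : ∀ i, ZF n (fun v => q v i)) (hh : DFun n h) (hY : DFun n Y) :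
    ∃ (g : ℕ → (Fin n → ℕ) → ℤ) (k : ℕ → (Fin n → ℕ) → ℕ),
      ZF (n + 1) (fun w => g (w 0) (fun i => w i.succ)) ∧
      DFun (n + 1) (fun w => k (w 0) (fun i => w i.succ)) ∧ (∀ s v, 0 < k s v) ∧
      ∀ s v, leafTerm (U v) (q v) (h v) (Y v) s = (g s v : ℚ) / (k s v : ℚ) := by
  classical
  obtain ⟨G, hG, hGe⟩ := node_def hU hdet
  obtain ⟨sg', hs, hse⟩ := sgn_def hU hdet
  obtain ⟨C, p, hC, hp⟩ := phi_poly (m + 2)
  obtain ⟨J, hJe⟩ : ∃ J : (Fin n → ℕ) → ℕ, J = fun v => dep (m + 2) (U v).det.natAbs :=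
    ⟨_, rfl⟩
  have hJ : DFun n J := by
    rw [hJe]
    exact (DFun.const (m + 2)).mul
      ((DFun.lg ((DFun.lg (zf_det hU).natAbs).add (DFun.const 1))).add (DFun.const 1))
  have hJw : DFun (n + 1) (fun w : Fin (n + 1) → ℕ => J (fun i => w i.succ)) :=
    hJ.comp fun i => DFun.proj i.succ
  -- the node and the sign
  have hV : ∀ i j,
      ZF (n + 1) (fun w => G (J (fun i => w i.succ)) (w 0) (fun i => w i.succ) i j) := by
    intro i j
    exact zf_app (F := fun l w' => G l (w' 0) (fun i => w' i.succ) i j) (hG i j) hJw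
      (v := fun i w => w i) (fun i => DFun.proj i)
  have hS : ZF (n + 1) (fun w => sg' (J (fun i => w i.succ)) (w 0) (fun i => w i.succ)) :=
    zf_app (F := fun l w' => sg' l (w' 0) (fun i => w' i.succ)) hs hJw
      (v := fun i w => w i) (fun i => DFun.proj i)
  -- the data of the unimodular cone
  let mi : ℕ → (Fin n → ℕ) → Fin (m + 2) → ℤ := fun s v i =>
    lidx (Rm (G (J v) s v) i) (q v) (h v)
  let bi : ℕ → (Fin n → ℕ) → Fin (m + 2) → ℤ := fun s v i =>
    cv (Y v) (fun k => G (J v) s v k i)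
  have hmi : ∀ i, ZF (n + 1) (fun w => mi (w 0) (fun i => w i.succ) i) := fun i =>
    zf_lidx (fun j => zf_Rm hV i j) (fun j => (hq j).weak) (hh.comp fun i => DFun.proj i.succ)
  have hYw : DFun (n + 1) (fun w : Fin (n + 1) → ℕ => Y (fun i => w i.succ)) :=
    hY.comp fun i => DFun.proj i.succ
  have hbi : ∀ i, ZF (n + 1) (fun w => bi (w 0) (fun i => w i.succ) i) := by
    intro i
    refine (ZF.sum univ fun j : Fin (m + 2) =>
      (ZF.nat (DFun.powConst hYw (m + 2 - 1 - (j : ℕ)))).mul (hV j i)).congr fun w => ?_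
    simp only [bi, cv]
    push_cast
    rfl
  let b : ℕ → (Fin n → ℕ) → ℤ := fun s v => ∏ i, bi s v i
  let E : ℕ → (Fin n → ℕ) → ℤ := fun s v =>
    MvPolynomial.eval (Sum.elim (mi s v) (bi s v)) p
  have hb : ZF (n + 1) (fun w => b (w 0) (fun i => w i.succ)) := zf_prod univ hbi
  have hE : ZF (n + 1) (fun w => E (w 0) (fun i => w i.succ)) := by
    have h1 := zf_poly p (f := fun (x : Fin (m + 2) ⊕ Fin (m + 2)) (w : Fin (n + 1) → ℕ) =>
      Sum.elim (mi (w 0) (fun i => w i.succ)) (bi (w 0) (fun i => w i.succ)) x)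
      (fun x => by rcases x with x | x <;> [exact hmi x; exact hbi x])
    exact h1
  have hb0 : Delta0 (n + 1) (fun w => b (w 0) (fun i => w i.succ) = 0) := hb.eq (ZF.const 0)
  refine ⟨fun s v => if b s v = 0 then 0 else sg' (J v) s v * E s v * (b s v).sign,
    fun s v => if b s v = 0 then 1 else C * (b s v).natAbs, ?_, ?_, ?_, ?_⟩
  · exact ZF.ite hb0 (ZF.const 0) ((hS.mul hE).mul (zf_sign hb))
  · have h1 := DFun.ite hb0 (DFun.const 1) ((DFun.const C).mul hb.natAbs)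
    convert h1
  · intro s v
    show 0 < if b s v = 0 then 1 else C * (b s v).natAbs
    split_ifs with h1
    · exact one_pos
    · exact Nat.mul_pos hC (Int.natAbs_pos.2 h1)
  · intro s v
    have h1 : G (J v) s v = nd (U v) s (dep (m + 2) (U v).det.natAbs) := by
      rw [hJe]
      exact hGe _ s v le_rfl
    have h2 : sg' (J v) s v = sgn (U v) s (dep (m + 2) (U v).det.natAbs) := by
      rw [hJe]
      exact hse _ s v le_rfl
    have h3 : leafTerm (U v) (q v) (h v) (Y v) s =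
        (sg' (J v) s v : ℚ) * phi (mi s v) (bi s v) := by
      simp only [leafTerm, mi, bi, h1, h2]
    have h4 : (∏ i, (bi s v i : ℚ)) = (b s v : ℚ) := by
      simp only [b]
      push_cast
      rfl
    rw [h3, hp, h4]
    exact ld_quot C (sg' (J v) s v) (E s v) (b s v)

end Pool.Agent.LPC
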