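import Pool.Agent.LPC.Defs

/-!
# Package LPC-LexEps: the lexicographic sign is the sign for all small `η`

*Statement.* `y ∈ ℚ`, `w ∈ ℚ^r`, not all zero. For all sufficiently small `η > 0`:
`y + ∑ w_i η^(i+1) ≠ 0`, and it is positive iff `LP y w`.

*Proof.* Put `g(η) = y + ∑_i w_i η^(i+1)`. Case `y ≠ 0`: `g` is continuous with `g(0) = y`, so `g(η)`
has the sign of `y` for `η` near `0` (`Continuous.tendsto`, `eventually_gt_nhds`,
`nhdsWithin_le_nhds`), and `LP y w ↔ 0 < y`. Case `y = 0`: let `i` be the least index with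
`w_i ≠ 0`. Then `g(η) = η^(i+1) · h(η)`, `h(η) = ∑_{j ≥ i} w_j η^(j-i)` (terms with `j < i` vanish),
`h(0) = w_i ≠ 0`, so `h(η)` has the sign of `w_i` for small `η`, and `LP 0 w ↔ 0 < w_i` (if
`0 < w_k` and `w_j = 0` for `j < k` then `k = i`). Alternatively induct on `r` with
`y + ∑_{i<r+1} w_i η^(i+1) = y + η (w_0 + ∑_{i<r} w_(i+1) η^(i+1))` and the induction hypothesis for
`(w_0, tail)`: if `y ≠ 0` use continuity, if `y = 0` the sign is that of the bracket.
The other lemmas: unfold `LP`, positivity of products; for `LP_neg` trichotomy at the first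
index with `w_i ≠ 0`.

Difficulty: 0.4 h.
-/

set_option autoImplicit false

namespace Pool.Agent.LPC

open Finset Filter Topology

private theorem LexEps_succ {K : Type*} [Zero K] [LT K] {r : ℕ} (y : K) (w : Fin (r + 1) → K) :
    LP y w ↔ 0 < y ∨ (y = 0 ∧ LP (w 0) (fun i : Fin r => w i.succ)) := by
  unfold LP
  refine or_congr Iff.rfl (and_congr Iff.rfl ?_)
  rw [Fin.exists_fin_succ]
  refine or_congr ⟨fun h => h.1, fun h => ⟨h, fun j hj => absurd hj (Fin.not_lt_zero j)⟩⟩ ?_
  constructor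
  · rintro ⟨i, hi, hj⟩
    exact ⟨hj 0 (Fin.succ_pos i), i, hi, fun j hj' => hj j.succ (Fin.succ_lt_succ_iff.2 hj')⟩
  · rintro ⟨h0, i, hi, hj⟩
    refine ⟨i, hi, fun j => ?_⟩
    refine Fin.cases (fun _ => h0) (fun j' hj' => ?_) j
    exact hj j' (Fin.succ_lt_succ_iff.1 hj')

private theorem LexEps_zero {K : Type*} [Zero K] [LT K] (y : K) (w : Fin 0 → K) :
    LP y w ↔ 0 < y := by
  unfold LP
  constructor
  · rintro (h | ⟨_, i, _⟩)
    · exact h
    · exact i.elim0
  · exact Or.inl

private theorem LexEps_tail {K : Type*} [Zero K] {r : ℕ} {w : Fin (r + 1) → K} (h : w ≠ 0) :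
    w 0 ≠ 0 ∨ (fun i : Fin r => w i.succ) ≠ 0 := by
  by_contra hc
  rw [not_or, not_not, not_not] at hc
  apply h
  funext i
  refine Fin.cases hc.1 (fun j => ?_) i
  exact congrFun hc.2 j

theorem lex_eps {r : ℕ} (y : ℚ) (w : Fin r → ℚ) (h : y ≠ 0 ∨ w ≠ 0) :
    ∀ᶠ η : ℚ in 𝓝[>] 0, (LP y w ↔ 0 < y + ∑ i : Fin r, w i * η ^ ((i : ℕ) + 1)) ∧
      y + ∑ i : Fin r, w i * η ^ ((i : ℕ) + 1) ≠ 0 := by
  induction r generalizing y with
  | zero =>
    have hy : y ≠ 0 := by
      rcases h with h | h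
      · exact h
      · exact absurd (Subsingleton.elim _ _) h
    refine Eventually.of_forall fun η => ?_
    rw [Fin.sum_univ_zero, add_zero]
    exact ⟨LexEps_zero y w, hy⟩
  | succ r ih =>
    by_cases hy : y = 0
    · have hw : w ≠ 0 := h.resolve_left (fun h' => h' hy)
      have h1 := ih (w 0) (fun i : Fin r => w i.succ) (LexEps_tail hw)
      filter_upwards [h1, self_mem_nhdsWithin] with η hη hpos
      have hpos' : (0 : ℚ) < η := hpos
      have hsum : y + ∑ i : Fin (r + 1), w i * η ^ ((i : ℕ) + 1)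
          = η * (w 0 + ∑ i : Fin r, w i.succ * η ^ ((i : ℕ) + 1)) := by
        rw [hy, zero_add, Fin.sum_univ_succ, mul_add, Finset.mul_sum]
        congr 1
        · rw [Fin.val_zero, zero_add, pow_one, mul_comm]
        · refine Finset.sum_congr rfl fun i _ => ?_
          rw [Fin.val_succ, pow_succ]
          ring
      rw [hsum, LexEps_succ]
      refine ⟨?_, mul_ne_zero hpos'.ne' hη.2⟩
      rw [mul_pos_iff_of_pos_left hpos', ← hη.1]
      constructor
      · rintro (h2 | h2)
        · rw [hy] at h2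
          exact absurd h2 (lt_irrefl _)
        · exact h2.2
      · exact fun h2 => Or.inr ⟨hy, h2⟩
    · have hc : Continuous fun η : ℚ => y + ∑ i : Fin (r + 1), w i * η ^ ((i : ℕ) + 1) := by
        fun_prop
      have ht : Tendsto (fun η : ℚ => y + ∑ i : Fin (r + 1), w i * η ^ ((i : ℕ) + 1))
          (𝓝[>] 0) (𝓝 y) := by
        have h1 := hc.tendsto 0
        have h2 : y + ∑ i : Fin (r + 1), w i * (0 : ℚ) ^ ((i : ℕ) + 1) = y := by
          rw [Finset.sum_eq_zero, add_zero]
          intro i _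
          rw [zero_pow (Nat.succ_ne_zero _), mul_zero]
        rw [h2] at h1
        exact h1.mono_left nhdsWithin_le_nhds
      rcases lt_or_gt_of_ne hy with hlt | hgt
      · filter_upwards [ht.eventually_lt_const hlt] with η hη
        refine ⟨⟨fun h1 => ?_, fun h1 => absurd h1 (not_lt.2 hη.le)⟩, hη.ne⟩
        rcases h1 with h2 | h2
        · exact absurd h2 (not_lt.2 hlt.le)
        · exact absurd h2.1 hy
      · filter_upwards [ht.eventually_const_lt hgt] with η hη
        exact ⟨⟨fun _ => hη, fun _ => Or.inl hgt⟩, hη.ne'⟩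

/-- scaling by a positive number does not change `LP` -/
theorem LP_smul {K : Type*} [CommRing K] [LinearOrder K] [IsStrictOrderedRing K] {r : ℕ} {c : K}
    (hc : 0 < c) (y : K) (w : Fin r → K) : LP (c * y) (fun i => c * w i) ↔ LP y w := by
  unfold LP
  have h0 : ∀ z : K, c * z = 0 ↔ z = 0 := fun z => by
    rw [mul_eq_zero]
    exact ⟨fun h => h.resolve_left hc.ne', Or.inr⟩
  simp only [mul_pos_iff_of_pos_left hc, h0]

/-- integers and rationals -/
theorem LP_cast {r : ℕ} (y : ℤ) (w : Fin r → ℤ) :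
    LP (y : ℚ) (fun i => (w i : ℚ)) ↔ LP y w := by
  unfold LP
  simp only [Int.cast_pos, Int.cast_eq_zero]

/-- `LP` of the negative -/
theorem LP_neg {K : Type*} [CommRing K] [LinearOrder K] [IsStrictOrderedRing K] {r : ℕ}
    (y : K) (w : Fin r → K) (h : y ≠ 0 ∨ w ≠ 0) : LP (-y) (fun i => -w i) ↔ ¬ LP y w := by
  induction r generalizing y with
  | zero =>
    have hy : y ≠ 0 := by
      rcases h with h | h
      · exact h
      · exact absurd (Subsingleton.elim _ _) h
    rw [LexEps_zero, LexEps_zero, neg_pos, not_lt]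
    exact ⟨fun h1 => h1.le, fun h1 => lt_of_le_of_ne h1 hy⟩
  | succ r ih =>
    rw [LexEps_succ, LexEps_succ]
    by_cases hy : y = 0
    · have hw : w ≠ 0 := h.resolve_left (fun h' => h' hy)
      have h1 := ih (w 0) (fun i : Fin r => w i.succ) (LexEps_tail hw)
      subst hy
      simp only [neg_zero, lt_irrefl, true_and, false_or]
      exact h1
    · have h1 : ¬ (-y = 0) := by
        rw [neg_eq_zero]
        exact hy
      simp only [h1, hy, false_and, or_false, neg_pos, not_lt]
      exact ⟨fun h2 => h2.le, fun h2 => lt_of_le_of_ne h2 hy⟩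

end Pool.Agent.LPC
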