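import Pool.Agent.LPC.Defs

/-!
# Package LPC-LinTools: closure properties of `LinRel`

* `LinRel.true`, `or`, `imp`, `all` (finite conjunctions), `le`, `lt`, `eq` for affine forms (`0 ≤ g
  - f` etc.; strict: `0 ≤ g - f - 1` for integer valued forms), `cond`: a `Delta0` condition on `v`
  alone (atom with coefficients `0` and constant `[P v] - 1`, `ZF.ite`).
* `LinRel.rename`: `R ∘ e` for `e : ι → ι'`: `R (x ∘ e) v`. Atoms: `∑_i a i v x_(e i) =
  ∑_(i') (∑_(i : e i = i') a i v) x_(i')` (`Finset.sum_fiberwise`).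
* `LinRel.normal`: `R x v ↔ β (k ↦ 0 ≤ ∑_i a k i v x_i + b k v)` for finitely many atoms `k < K` and
  some `β : (Fin K → Prop) → Prop`. Induction on `R` (`Fin.append`/`Fin.addCases` for `and`).

Difficulty: 0.6 h.
-/

set_option autoImplicit false

namespace Pool.Agent.LPC

open Finset Pool.Agent.Grz Pool.Agent.GAvg Pool.Agent.PTr Pool.Agent.MTr

variable {ι ι' : Type} [Fintype ι] [Fintype ι'] {n : ℕ}

/-- affine forms with definable coefficients -/
def Aff (ι : Type) [Fintype ι] (n : ℕ) (f : (ι → ℕ) → (Fin n → ℕ) → ℤ) : Prop :=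
  ∃ (a : ι → (Fin n → ℕ) → ℤ) (b : (Fin n → ℕ) → ℤ), (∀ i, ZF n (a i)) ∧ ZF n b ∧
    ∀ x v, f x v = ∑ i, a i v * (x i : ℤ) + b v

theorem Aff.var (i : ι) : Aff ι n (fun x _ => (x i : ℤ)) := by
  classical
  refine ⟨fun j _ => if j = i then 1 else 0, fun _ => 0, fun j => ?_, ZF.const 0, fun x v => ?_⟩
  · exact ZF.const _
  · simp

theorem Aff.coef {b : (Fin n → ℕ) → ℤ} (hb : ZF n b) : Aff ι n (fun _ v => b v) :=
  ⟨fun _ _ => 0, b, fun _ => ZF.const 0, hb, fun x v => by simp⟩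

theorem Aff.add {f g : (ι → ℕ) → (Fin n → ℕ) → ℤ} (hf : Aff ι n f) (hg : Aff ι n g) :
    Aff ι n (fun x v => f x v + g x v) := by
  obtain ⟨a, b, ha, hb, e⟩ := hf
  obtain ⟨a', b', ha', hb', e'⟩ := hg
  refine ⟨fun i v => a i v + a' i v, fun v => b v + b' v, fun i => (ha i).add (ha' i),
    hb.add hb', fun x v => ?_⟩
  simp only [add_mul, sum_add_distrib]
  rw [e, e']
  ring

theorem Aff.mul {c : (Fin n → ℕ) → ℤ} (hc : ZF n c) {f : (ι → ℕ) → (Fin n → ℕ) → ℤ}
    (hf : Aff ι n f) : Aff ι n (fun x v => c v * f x v) := by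
  obtain ⟨a, b, ha, hb, e⟩ := hf
  refine ⟨fun i v => c v * a i v, fun v => c v * b v, fun i => hc.mul (ha i), hc.mul hb,
    fun x v => ?_⟩
  simp only [mul_assoc, ← mul_sum]
  rw [e]
  ring

theorem Aff.sub {f g : (ι → ℕ) → (Fin n → ℕ) → ℤ} (hf : Aff ι n f) (hg : Aff ι n g) :
    Aff ι n (fun x v => f x v - g x v) := by
  have h := hf.add (Aff.mul (ZF.const (-1)) hg)
  have e : (fun x v => f x v - g x v) = fun (x : ι → ℕ) (v : Fin n → ℕ) =>
      f x v + (-1) * g x v := by
    funext x v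
    ring
  rw [e]
  exact h

theorem Aff.rename (e : ι → ι') {f : (ι → ℕ) → (Fin n → ℕ) → ℤ} (hf : Aff ι n f) :
    Aff ι' n (fun x v => f (fun i => x (e i)) v) := by
  classical
  obtain ⟨a, b, ha, hb, h⟩ := hf
  refine ⟨fun j v => ∑ i ∈ univ.filter (fun i => e i = j), a i v, b, fun j => ZF.sum _ ha, hb,
    fun x v => ?_⟩
  simp only []
  rw [h]
  congr 1
  rw [← Finset.sum_fiberwise univ e]
  refine sum_congr rfl fun j _ => ?_
  rw [sum_mul]
  refine sum_congr rfl fun i hi => ?_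
  rw [(mem_filter.1 hi).2]

private theorem LinTools_congr {R S : (ι → ℕ) → (Fin n → ℕ) → Prop} (hR : LinRel ι n R)
    (h : ∀ x v, S x v ↔ R x v) : LinRel ι n S := by
  have e : S = R := by
    funext x v
    exact propext (h x v)
  rw [e]
  exact hR

theorem LinRel.le {f g : (ι → ℕ) → (Fin n → ℕ) → ℤ} (hf : Aff ι n f) (hg : Aff ι n g) :
    LinRel ι n (fun x v => f x v ≤ g x v) := by
  obtain ⟨a, b, ha, hb, e⟩ := hg.sub hf
  refine LinTools_congr (LinRel.atom a b ha hb) fun x v => ?_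
  rw [← e, sub_nonneg]

theorem LinRel.lt {f g : (ι → ℕ) → (Fin n → ℕ) → ℤ} (hf : Aff ι n f) (hg : Aff ι n g) :
    LinRel ι n (fun x v => f x v < g x v) :=
  LinTools_congr (LinRel.not (LinRel.le hg hf)) fun _ _ => not_le.symm

theorem LinRel.eq {f g : (ι → ℕ) → (Fin n → ℕ) → ℤ} (hf : Aff ι n f) (hg : Aff ι n g) :
    LinRel ι n (fun x v => f x v = g x v) :=
  LinTools_congr (LinRel.and (LinRel.le hf hg) (LinRel.le hg hf)) fun _ _ => le_antisymm_iff

theorem LinRel.cond {P : (Fin n → ℕ) → Prop} (hP : Delta0 n P) :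
    LinRel ι n (fun _ v => P v) := by
  classical
  have h1 : ZF n (fun v => if P v then (0 : ℤ) else -1) := ZF.ite hP (ZF.const 0) (ZF.const (-1))
  refine LinTools_congr (LinRel.le (Aff.coef (ι := ι) (ZF.const 0)) (Aff.coef h1)) fun x v => ?_
  by_cases h : P v
  · simp [h]
  · simp [h]

theorem LinRel.or {R S : (ι → ℕ) → (Fin n → ℕ) → Prop} (hR : LinRel ι n R)
    (hS : LinRel ι n S) : LinRel ι n (fun x v => R x v ∨ S x v) :=
  LinTools_congr (LinRel.not (LinRel.and (LinRel.not hR) (LinRel.not hS))) fun _ _ =>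
    or_iff_not_and_not

theorem LinRel.imp {R S : (ι → ℕ) → (Fin n → ℕ) → Prop} (hR : LinRel ι n R)
    (hS : LinRel ι n S) : LinRel ι n (fun x v => R x v → S x v) :=
  LinTools_congr (LinRel.or (LinRel.not hR) hS) fun _ _ => imp_iff_not_or

theorem LinRel.all {α : Type} [Fintype α] {R : α → (ι → ℕ) → (Fin n → ℕ) → Prop}
    (hR : ∀ a, LinRel ι n (R a)) : LinRel ι n (fun x v => ∀ a, R a x v) := by
  classical
  have h : ∀ s : Finset α, LinRel ι n (fun x v => ∀ a ∈ s, R a x v) := by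
    intro s
    induction s using Finset.induction_on with
    | empty =>
      refine LinTools_congr (LinRel.le (Aff.coef (ι := ι) (n := n) (ZF.const 0))
        (Aff.coef (ZF.const 0))) fun x v => ?_
      simp
    | insert a s _ ih =>
      refine LinTools_congr (LinRel.and (hR a) ih) fun x v => ?_
      simp
  refine LinTools_congr (h univ) fun x v => ?_
  simp

theorem LinRel.rename (e : ι → ι') {R : (ι → ℕ) → (Fin n → ℕ) → Prop} (hR : LinRel ι n R) :
    LinRel ι' n (fun x v => R (fun i => x (e i)) v) := by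
  induction hR with
  | atom a b ha hb =>
    have h1 : Aff ι n (fun x v => ∑ i, a i v * (x i : ℤ) + b v) := ⟨a, b, ha, hb, fun _ _ => rfl⟩
    exact LinRel.le (Aff.coef (ZF.const 0)) (h1.rename e)
  | not _ ih => exact LinRel.not ih
  | and _ _ ih1 ih2 => exact LinRel.and ih1 ih2

theorem LinRel.normal {R : (ι → ℕ) → (Fin n → ℕ) → Prop} (hR : LinRel ι n R) :
    ∃ (K : ℕ) (a : Fin K → ι → (Fin n → ℕ) → ℤ) (b : Fin K → (Fin n → ℕ) → ℤ)
      (β : (Fin K → Prop) → Prop), (∀ k i, ZF n (a k i)) ∧ (∀ k, ZF n (b k)) ∧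
      ∀ x v, R x v ↔ β (fun k => 0 ≤ ∑ i, a k i v * (x i : ℤ) + b k v) := by
  induction hR with
  | atom a b ha hb =>
    exact ⟨1, fun _ => a, fun _ => b, fun P => P 0, fun _ => ha, fun _ => hb, fun _ _ => Iff.rfl⟩
  | not _ ih =>
    obtain ⟨K, a, b, β, ha, hb, h⟩ := ih
    exact ⟨K, a, b, fun P => ¬ β P, ha, hb, fun x v => not_congr (h x v)⟩
  | and _ _ ih1 ih2 =>
    obtain ⟨K, a, b, β, ha, hb, h⟩ := ih1
    obtain ⟨K', a', b', β', ha', hb', h'⟩ := ih2
    refine ⟨K + K', Fin.addCases a a', Fin.addCases b b', fun P => β (fun k =>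
      P (Fin.castAdd K' k)) ∧ β' (fun k => P (Fin.natAdd K k)), fun k => ?_, fun k => ?_,
      fun x v => ?_⟩
    · refine Fin.addCases (fun k => ?_) (fun k => ?_) k
      · simp only [Fin.addCases_left]
        exact ha k
      · simp only [Fin.addCases_right]
        exact ha' k
    · refine Fin.addCases (fun k => ?_) (fun k => ?_) k
      · simp only [Fin.addCases_left]
        exact hb k
      · simp only [Fin.addCases_right]
        exact hb' k
    · simp only [Fin.addCases_left, Fin.addCases_right]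
      exact and_congr (h x v) (h' x v)

end Pool.Agent.LPC
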