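import Pool.Agent.LPC.Defs
import Pool.Agent.LPC.ConstTerm

/-!
# Package LPC-PhiA (part of Phi): `phi` as a quotient of integer polynomials; the linear form `cv`

* `phi_poly`: for every `d` there are `C ≥ 1` and `p ∈ ℤ[x_1..x_d, y_1..y_d]` with
  `phi m b = p(m, b) / (C ∏ b_i)` for all `m, b ∈ ℤ^d` (also if some `b_i = 0`: both sides are `0`).
  *Proof.* `phi m b = (-1)^d (∏ b_i)⁻¹ q(m, b)` with
  `q(m, b) = ∑_(k ∈ finsuppAntidiag univ d) ∏_i (B_(k_i)(m_i) b_i^(k_i) / k_i!)`, a polynomial in `m, b` with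
  rational coefficients. Let `𝒢` be the set of functions `g(m, b)` of the form `p(m, b) / C`, `C ≥ 1`,
  `p ∈ ℤ[x, y]`. `𝒢` contains the rational constants, `f(m_i)` for every `f ∈ ℚ[X]` (induction on
  polynomials), `b_i^k`, and is closed under (finite) sums and products; so `(-1)^d q ∈ 𝒢`.

* `cv_ne`: if `u ∈ ℤ^d`, `u ≠ 0`, `|u_i| ≤ M` and `Y ≥ 2M + 2` then `cv Y u ≠ 0`. *Proof.* Let `i` be the
  first index with `u_i ≠ 0`. `|∑_(j > i) Y^(d-1-j) u_j| ≤ M ∑_(e < d-1-i) Y^e < Y^(d-1-i)`, because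
  `(Y - 1) ∑_(e < k) Y^e = Y^k - 1` and `M ≤ Y - 1`. So `cv Y u ≠ 0` as `|Y^(d-1-i) u_i| ≥ Y^(d-1-i)`.

Difficulty: 0.6 h.
-/

set_option autoImplicit false

namespace Pool.Agent.LPC

open Finset

/-- quotients of an integer polynomial by a positive integer -/
private def PG (d : ℕ) (g : (Fin d → ℤ) → (Fin d → ℤ) → ℚ) : Prop :=
  ∃ (C : ℕ) (p : MvPolynomial (Fin d ⊕ Fin d) ℤ), 0 < C ∧
    ∀ m b : Fin d → ℤ, g m b = ((MvPolynomial.eval (Sum.elim m b) p : ℤ) : ℚ) / (C : ℚ)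

private theorem PG.const (d : ℕ) (q : ℚ) : PG d fun _ _ => q := by
  refine ⟨q.den, MvPolynomial.C q.num, q.den_pos, fun m b => ?_⟩
  rw [MvPolynomial.eval_C, Rat.num_div_den]

private theorem PG.varm {d : ℕ} (i : Fin d) : PG d fun m _ => (m i : ℚ) := by
  refine ⟨1, MvPolynomial.X (Sum.inl i), one_pos, fun m b => ?_⟩
  rw [MvPolynomial.eval_X, Sum.elim_inl, Nat.cast_one, div_one]

private theorem PG.varb {d : ℕ} (i : Fin d) : PG d fun _ b => (b i : ℚ) := by
  refine ⟨1, MvPolynomial.X (Sum.inr i), one_pos, fun m b => ?_⟩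
  rw [MvPolynomial.eval_X, Sum.elim_inr, Nat.cast_one, div_one]

private theorem PG.add {d : ℕ} {g g' : (Fin d → ℤ) → (Fin d → ℤ) → ℚ} (h : PG d g)
    (h' : PG d g') : PG d fun m b => g m b + g' m b := by
  obtain ⟨C, p, hC, hp⟩ := h
  obtain ⟨C', p', hC', hp'⟩ := h'
  refine ⟨C * C', p * MvPolynomial.C (C' : ℤ) + p' * MvPolynomial.C (C : ℤ), Nat.mul_pos hC hC',
    fun m b => ?_⟩
  have h1 : (C : ℚ) ≠ 0 := Nat.cast_ne_zero.mpr hC.ne'
  have h2 : (C' : ℚ) ≠ 0 := Nat.cast_ne_zero.mpr hC'.ne'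
  beta_reduce
  rw [hp, hp', map_add, map_mul, map_mul, MvPolynomial.eval_C, MvPolynomial.eval_C]
  push_cast
  field_simp

private theorem PG.mul {d : ℕ} {g g' : (Fin d → ℤ) → (Fin d → ℤ) → ℚ} (h : PG d g)
    (h' : PG d g') : PG d fun m b => g m b * g' m b := by
  obtain ⟨C, p, hC, hp⟩ := h
  obtain ⟨C', p', hC', hp'⟩ := h'
  refine ⟨C * C', p * p', Nat.mul_pos hC hC', fun m b => ?_⟩
  beta_reduce
  rw [hp, hp', map_mul]
  push_cast
  rw [div_mul_div_comm]

private theorem PG.pow {d : ℕ} {g : (Fin d → ℤ) → (Fin d → ℤ) → ℚ} (h : PG d g) (n : ℕ) :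
    PG d fun m b => g m b ^ n := by
  induction n with
  | zero =>
    simp only [pow_zero]
    exact PG.const d 1
  | succ n ih =>
    simp only [pow_succ]
    exact ih.mul h

private theorem PG.sum {d : ℕ} {ι : Type} (S : Finset ι)
    {g : ι → (Fin d → ℤ) → (Fin d → ℤ) → ℚ} (h : ∀ i, PG d (g i)) :
    PG d fun m b => ∑ i ∈ S, g i m b := by
  classical
  induction S using Finset.induction_on with
  | empty =>
    simp only [sum_empty]
    exact PG.const d 0
  | insert a S ha ih =>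
    simp only [sum_insert ha]
    exact (h a).add ih

private theorem PG.prod {d : ℕ} {ι : Type} (S : Finset ι)
    {g : ι → (Fin d → ℤ) → (Fin d → ℤ) → ℚ} (h : ∀ i, PG d (g i)) :
    PG d fun m b => ∏ i ∈ S, g i m b := by
  classical
  induction S using Finset.induction_on with
  | empty =>
    simp only [prod_empty]
    exact PG.const d 1
  | insert a S ha ih =>
    simp only [prod_insert ha]
    exact (h a).mul ih

private theorem PG.poly {d : ℕ} (i : Fin d) (f : Polynomial ℚ) :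
    PG d fun m _ => f.eval (m i : ℚ) := by
  simp only [Polynomial.eval_eq_sum_range]
  exact PG.sum _ fun n => (PG.const d _).mul ((PG.varm i).pow n)

theorem phi_poly (d : ℕ) : ∃ (C : ℕ) (p : MvPolynomial (Fin d ⊕ Fin d) ℤ), 0 < C ∧
    ∀ m b : Fin d → ℤ,
      phi m b = ((MvPolynomial.eval (Sum.elim m b) p : ℤ) : ℚ) / ((C : ℚ) * ∏ i, (b i : ℚ)) := by
  have h : PG d fun m b => (-1) ^ d * ∑ k ∈ finsuppAntidiag (univ : Finset (Fin d)) d,
      ∏ i, ((Polynomial.bernoulli (k i)).eval (m i : ℚ) * (b i : ℚ) ^ k i *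
        (1 / ((k i).factorial : ℚ))) := by
    refine (PG.const d ((-1) ^ d)).mul (PG.sum _ fun k => PG.prod _ fun i => ?_)
    exact ((PG.poly i _).mul ((PG.varb i).pow _)).mul (PG.const d _)
  obtain ⟨C, p, hC, hp⟩ := h
  refine ⟨C, p, hC, fun m b => ?_⟩
  have h1 : phi m b = ((-1) ^ d * ∑ k ∈ finsuppAntidiag (univ : Finset (Fin d)) d,
      ∏ i, ((Polynomial.bernoulli (k i)).eval (m i : ℚ) * (b i : ℚ) ^ k i *
        (1 / ((k i).factorial : ℚ)))) / ∏ i, (b i : ℚ) := by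
    rw [phi, mul_div_assoc, sum_div]
    congr 1
    apply sum_congr rfl
    intro k _
    rw [← prod_div_distrib]
    apply prod_congr rfl
    intro i _
    rw [mul_one_div, div_div, mul_comm ((k i).factorial : ℚ)]
  have h2 := hp m b
  beta_reduce at h2
  rw [h1, h2, div_div]

end Pool.Agent.LPC
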