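import Pool.Agent.LPC.Defs

/-!
# Package LPC-Short: short vectors

*Statement.* `d ≥ 1`, `U` an integer `d × d` matrix with `det U ≠ 0`, `D = |det U|`. There is
`n ∈ ℤ^d` with some `n_i > 0`, `det U ∣ (U n)_k` for all `k`, and `|n_i|^d ≤ D^(d-1)` for all `i`.

*Proof.* Let `N = {n ∈ ℤ^d : det U ∣ (U n)_k for all k}`, a subgroup of `ℤ^d`. It contains
`adj(U) ℤ^d`, because `U adj(U) x = det U · x`. The index of `adj(U) ℤ^d` in `ℤ^d` is
`|det adj(U)| = D^(d-1)` (`Matrix.det_adjugate`, `AddSubgroup.index_eq_natAbs_det` with the basis of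
columns of `adj U`: they are linearly independent as `det adj(U) ≠ 0`, basis by
`Basis.span`/`LinearEquiv.ofInjective` of `Matrix.mulVecLin`), so the index of `N` is non-zero
and at most `D^(d-1)` (it divides it: `AddSubgroup.index_dvd_of_le`). Let `s` be the largest number
with `s^d ≤ D^(d-1)` (e.g. `Nat.nthRoot` or `Nat.findGreatest`; `1^d ≤ D^(d-1)` as `D ≥ 1`), so
`(s+1)^d > D^(d-1)`. By the pigeonhole principle (`Finset.exists_ne_map_eq_of_card_lt_of_maps_to`
for `a ↦ (a : ℤ^d ⧸ N)` on the `(s+1)^d` points of `[0, s]^d`; the quotient is finite with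
`index` elements) there are `a ≠ b` in `[0, s]^d` with `a - b ∈ N`. Some coordinate of `a - b` is
non-zero; let `n = a - b` if some coordinate of it is positive, else `n = b - a`. Then `|n_i| ≤ s`
and `|n_i|^d ≤ s^d ≤ D^(d-1)`. ∎

Difficulty: 0.8 h.
-/

set_option autoImplicit false

namespace Pool.Agent.LPC

open Finset

private theorem Short_card {d : ℕ} {U : Matrix (Fin d) (Fin d) ℤ} (hU : U.det ≠ 0) :
    Nat.card ((Fin d → ℤ) ⧸ LinearMap.range U.adjugate.mulVecLin) = U.det.natAbs ^ (d - 1) := by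
  have hA : U.adjugate.det ≠ 0 := by
    rw [Matrix.det_adjugate]
    exact pow_ne_zero _ hU
  have hinj : Function.Injective U.adjugate.mulVecLin := by
    rw [Matrix.coe_mulVecLin]
    exact Matrix.mulVec_injective_of_det_ne_zero hA
  have h1 := Submodule.natAbs_det_equiv (LinearMap.range U.adjugate.mulVecLin)
    (LinearEquiv.ofInjective U.adjugate.mulVecLin hinj)
  rw [← h1, ← Int.natAbs_pow]
  congr 1
  have h2 : (LinearMap.range U.adjugate.mulVecLin).subtype ∘ₗ AddMonoidHom.toIntLinearMap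
      ((LinearEquiv.ofInjective U.adjugate.mulVecLin hinj :
        (Fin d → ℤ) ≃ₗ[ℤ] LinearMap.range U.adjugate.mulVecLin) :
        (Fin d → ℤ) →+ LinearMap.range U.adjugate.mulVecLin) = Matrix.toLin' U.adjugate := by
    refine LinearMap.ext fun x => ?_
    rfl
  rw [h2, LinearMap.det_toLin', Matrix.det_adjugate, Fintype.card_fin]

private theorem Short_root {d B : ℕ} (hd : 0 < d) : ∃ s, s ^ d ≤ B ∧ B < (s + 1) ^ d := by
  classical
  have h0 : (0 : ℕ) ^ d ≤ B := by rw [zero_pow hd.ne']; exact Nat.zero_le _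
  refine ⟨Nat.findGreatest (fun k => k ^ d ≤ B) B,
    Nat.findGreatest_spec (P := fun k => k ^ d ≤ B) (Nat.zero_le _) h0, ?_⟩
  set s := Nat.findGreatest (fun k => k ^ d ≤ B) B
  by_cases h : s + 1 ≤ B
  · exact not_le.1 (Nat.findGreatest_is_greatest (P := fun k => k ^ d ≤ B) (Nat.lt_succ_self s) h)
  · exact lt_of_lt_of_le (not_le.1 h) (Nat.le_self_pow hd.ne' _)

theorem exists_short {d : ℕ} (hd : 0 < d) {U : Matrix (Fin d) (Fin d) ℤ} (hU : U.det ≠ 0) :
    ∃ n, Good U n := by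
  classical
  obtain ⟨s, hs1, hs2⟩ := Short_root (B := U.det.natAbs ^ (d - 1)) hd
  set R := LinearMap.range U.adjugate.mulVecLin with hR
  have hcard := Short_card hU
  have hne : Nat.card ((Fin d → ℤ) ⧸ R) ≠ 0 := by
    rw [hcard]
    exact pow_ne_zero _ (Int.natAbs_ne_zero.2 hU)
  have : Finite ((Fin d → ℤ) ⧸ R) := Nat.finite_of_card_ne_zero hne
  let _ : Fintype ((Fin d → ℤ) ⧸ R) := Fintype.ofFinite _
  have hlt : Fintype.card ((Fin d → ℤ) ⧸ R) < Fintype.card (Fin d → Fin (s + 1)) := by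
    rw [← Nat.card_eq_fintype_card, hcard]
    simpa using hs2
  obtain ⟨a, b, hab, h⟩ := Fintype.exists_ne_map_eq_of_card_lt
    (fun a : Fin d → Fin (s + 1) => (Submodule.Quotient.mk (fun i => ((a i : ℕ) : ℤ)) :
      (Fin d → ℤ) ⧸ R)) hlt
  have key : ∀ a b : Fin d → Fin (s + 1),
      (Submodule.Quotient.mk (fun i => ((a i : ℕ) : ℤ)) : (Fin d → ℤ) ⧸ R) =
        Submodule.Quotient.mk (fun i => ((b i : ℕ) : ℤ)) → (∃ i, (b i : ℕ) < a i) →
      ∃ n, Good U n := by
    intro a b h hi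
    have h1 := (Submodule.Quotient.eq R).1 h
    obtain ⟨x, hx⟩ := LinearMap.mem_range.1 h1
    refine ⟨fun i => ((a i : ℕ) : ℤ) - ((b i : ℕ) : ℤ), ?_, fun k => ?_, fun i => ?_⟩
    · obtain ⟨i, hi⟩ := hi
      exact ⟨i, by simp only []; omega⟩
    · have h2 : (fun i => ((a i : ℕ) : ℤ) - ((b i : ℕ) : ℤ)) = U.adjugate.mulVec x := by
        rw [← Matrix.mulVecLin_apply, hx]
        rfl
      rw [h2, Matrix.mulVec_mulVec, Matrix.mul_adjugate, Matrix.smul_mulVec, Matrix.one_mulVec]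
      exact Dvd.intro _ rfl
    · refine le_trans (Nat.pow_le_pow_left ?_ d) hs1
      have h3 := (a i).2
      have h4 := (b i).2
      simp only []
      omega
  by_cases h5 : ∃ i, (b i : ℕ) < a i
  · exact key a b h h5
  · refine key b a h.symm ?_
    by_contra h6
    push Not at h5 h6
    exact hab (funext fun i => Fin.ext (le_antisymm (h5 i) (h6 i)))

end Pool.Agent.LPC
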