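import Pool.Agent.LPC.LinTools

/-!
# Package LPC-StepRepA (part of StepRep): step functions as affine forms in determined additional variables

*Statement (`step_rep`).* Let `T ∈ Step d n`, `B ∈ DFun n`. There are a finite type `κ`, `Φ ∈ LinRel (Fin d ⊕ κ) n`,
an affine form `f` (`Aff`) and `C ∈ DFun n` such that for all `v` and `x ∈ [0, B v)^d` there is exactly one
`z ∈ ℕ^κ` with `Φ (x, z) v`, it lies in `[0, C v)^κ`, and `T x v = f (x, z) v < C v`.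

*Proof.* Induction on `T`. Variable `x_i`: `κ` empty, `Φ` true, `f = x_i`, `C = B + 1` (`x_i < B v`).
Coefficient `c`: `κ` empty, `f = c v`, `C = c + 1`. Sum: `κ = κ₁ ⊕ κ₂`, `Φ₁ ∧ Φ₂` (renamed), `f₁ + f₂`,
`C = C₁ + C₂`. Multiple `c T`: same `κ, Φ`, `c f`, `C' = c C + C + 1`. Truncated difference: `κ = κ₁ ⊕ κ₂ ⊕ Unit` with
a new variable `y`, `Φ = Φ₁ ∧ Φ₂ ∧ ((f₂ ≤ f₁ ∧ y = f₁ - f₂) ∨ (f₁ < f₂ ∧ y = 0))`, `f = y`, `C = C₁ + C₂`.
Division by `c`: `κ ⊕ Unit` with a new variable `y` and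
`Φ ∧ ((c = 0 ∧ y = 0) ∨ (1 ≤ c ∧ c y ≤ f ∧ f < c y + c))`, `f' = y` (`LinRel.cond`, `Aff.mul`;
`f ≥ 0` as it is the value of `T`; `Nat.div_eq_iff`), `C' = C`. ∎

*`rel_step`.* For `R ∈ Rel d n` there is `T ∈ Step d n` with `T x v = 1` if `R x v` and `0` otherwise.
`f ≤ g`: `1 - (f - g)` (truncated). `not`: `1 - T`. `and`: `1 - ((1 - T) + (1 - T'))`.

Difficulty: 0.8 h.
-/

set_option autoImplicit false

namespace Pool.Agent.LPC

open Finset Pool.Agent.Grz Pool.Agent.GAvg Pool.Agent.PTr Pool.Agent.MTr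

private theorem StepRepA_true {ι : Type} [Fintype ι] {n : ℕ} :
    LinRel ι n (fun _ _ => True) :=
  LinRel.cond ((Delta0.eqFun (DFun.const 0) (DFun.const 0)).of_iff fun v => by simp)

/-- adding a new variable with a given value -/
private theorem StepRepA_new {d n : ℕ} {B : (Fin n → ℕ) → ℕ}
    {T : (Fin d → ℕ) → (Fin n → ℕ) → ℕ} {κ : Type} [Fintype κ] [DecidableEq κ]
    {Φ : (Fin d ⊕ κ → ℕ) → (Fin n → ℕ) → Prop} (hΦ : LinRel (Fin d ⊕ κ) n Φ)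
    {Ψ : (Fin d ⊕ (κ ⊕ Unit) → ℕ) → (Fin n → ℕ) → Prop}
    (hΨ : LinRel (Fin d ⊕ (κ ⊕ Unit)) n Ψ) {C : (Fin n → ℕ) → ℕ} (hC : DFun n C)
    (h : ∀ v (x : Fin d → ℕ), (∀ i, x i < B v) → ∃ z : κ → ℕ, (∀ i, z i < C v) ∧
        Φ (Sum.elim x z) v ∧ (∀ z', Φ (Sum.elim x z') v → z' = z) ∧ T x v < C v ∧
        ∀ y : ℕ, Ψ (Sum.elim x (Sum.elim z (fun _ => y))) v ↔ y = T x v) :
    ∃ (κ : Type) (_ : Fintype κ) (_ : DecidableEq κ)
      (Φ : (Fin d ⊕ κ → ℕ) → (Fin n → ℕ) → Prop)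
      (f : (Fin d ⊕ κ → ℕ) → (Fin n → ℕ) → ℤ) (C : (Fin n → ℕ) → ℕ),
      LinRel (Fin d ⊕ κ) n Φ ∧ Aff (Fin d ⊕ κ) n f ∧ DFun n C ∧
      ∀ v (x : Fin d → ℕ), (∀ i, x i < B v) → ∃ z : κ → ℕ, (∀ i, z i < C v) ∧
        Φ (Sum.elim x z) v ∧ (∀ z', Φ (Sum.elim x z') v → z' = z) ∧
        (T x v : ℤ) = f (Sum.elim x z) v ∧ T x v < C v := by
  have he : ∀ (x : Fin d → ℕ) (z : κ ⊕ Unit → ℕ),
      (fun i => (Sum.elim x z : Fin d ⊕ (κ ⊕ Unit) → ℕ) (Sum.map id Sum.inl i)) =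
        Sum.elim x (fun k => z (Sum.inl k)) := by
    intro x z
    funext i
    rcases i with i | i <;> rfl
  refine ⟨κ ⊕ Unit, inferInstance, inferInstance,
    fun y v => Φ (fun i => y (Sum.map id Sum.inl i)) v ∧ Ψ y v,
    fun y _ => (y (Sum.inr (Sum.inr ())) : ℤ), C, (hΦ.rename _).and hΨ,
    Aff.var _, hC, fun v x hx => ?_⟩
  obtain ⟨z, h1, h2, h3, h4, h5⟩ := h v x hx
  refine ⟨Sum.elim z (fun _ => T x v), ?_, ⟨?_, (h5 _).2 rfl⟩, ?_, rfl, h4⟩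
  · rintro (i | i)
    · exact h1 i
    · exact h4
  · rw [he]
    exact h2
  · rintro z' ⟨h6, h7⟩
    rw [he] at h6
    have h8 := h3 _ h6
    have h9 : z' = Sum.elim z (fun _ => z' (Sum.inr ())) := by
      funext i
      rcases i with i | i
      · exact congrFun h8 i
      · rfl
    rw [h9] at h7
    have h10 := (h5 _).1 h7
    rw [h9, h10]

/-- two representations with the same additional variables -/
private theorem StepRepA_join {d n : ℕ} {B : (Fin n → ℕ) → ℕ}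
    {T₁ T₂ : (Fin d → ℕ) → (Fin n → ℕ) → ℕ}
    (h₁ : ∃ (κ : Type) (_ : Fintype κ) (_ : DecidableEq κ)
      (Φ : (Fin d ⊕ κ → ℕ) → (Fin n → ℕ) → Prop)
      (f : (Fin d ⊕ κ → ℕ) → (Fin n → ℕ) → ℤ) (C : (Fin n → ℕ) → ℕ),
      LinRel (Fin d ⊕ κ) n Φ ∧ Aff (Fin d ⊕ κ) n f ∧ DFun n C ∧
      ∀ v (x : Fin d → ℕ), (∀ i, x i < B v) → ∃ z : κ → ℕ, (∀ i, z i < C v) ∧
        Φ (Sum.elim x z) v ∧ (∀ z', Φ (Sum.elim x z') v → z' = z) ∧
        (T₁ x v : ℤ) = f (Sum.elim x z) v ∧ T₁ x v < C v)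
    (h₂ : ∃ (κ : Type) (_ : Fintype κ) (_ : DecidableEq κ)
      (Φ : (Fin d ⊕ κ → ℕ) → (Fin n → ℕ) → Prop)
      (f : (Fin d ⊕ κ → ℕ) → (Fin n → ℕ) → ℤ) (C : (Fin n → ℕ) → ℕ),
      LinRel (Fin d ⊕ κ) n Φ ∧ Aff (Fin d ⊕ κ) n f ∧ DFun n C ∧
      ∀ v (x : Fin d → ℕ), (∀ i, x i < B v) → ∃ z : κ → ℕ, (∀ i, z i < C v) ∧
        Φ (Sum.elim x z) v ∧ (∀ z', Φ (Sum.elim x z') v → z' = z) ∧
        (T₂ x v : ℤ) = f (Sum.elim x z) v ∧ T₂ x v < C v) :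
    ∃ (κ : Type) (_ : Fintype κ) (_ : DecidableEq κ)
      (Φ : (Fin d ⊕ κ → ℕ) → (Fin n → ℕ) → Prop)
      (f g : (Fin d ⊕ κ → ℕ) → (Fin n → ℕ) → ℤ) (C : (Fin n → ℕ) → ℕ),
      LinRel (Fin d ⊕ κ) n Φ ∧ Aff (Fin d ⊕ κ) n f ∧ Aff (Fin d ⊕ κ) n g ∧ DFun n C ∧
      ∀ v (x : Fin d → ℕ), (∀ i, x i < B v) → ∃ z : κ → ℕ, (∀ i, z i < C v) ∧
        Φ (Sum.elim x z) v ∧ (∀ z', Φ (Sum.elim x z') v → z' = z) ∧
        (T₁ x v : ℤ) = f (Sum.elim x z) v ∧ (T₂ x v : ℤ) = g (Sum.elim x z) v ∧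
        T₁ x v + T₂ x v < C v := by
  obtain ⟨κ₁, i₁, j₁, Φ₁, f₁, C₁, a1, a2, a3, a4⟩ := h₁
  obtain ⟨κ₂, i₂, j₂, Φ₂, f₂, C₂, b1, b2, b3, b4⟩ := h₂
  have he1 : ∀ (x : Fin d → ℕ) (z : κ₁ ⊕ κ₂ → ℕ),
      (fun i => (Sum.elim x z : Fin d ⊕ (κ₁ ⊕ κ₂) → ℕ) (Sum.map id Sum.inl i)) =
        Sum.elim x (fun k => z (Sum.inl k)) := by
    intro x z
    funext i
    rcases i with i | i <;> rfl
  have he2 : ∀ (x : Fin d → ℕ) (z : κ₁ ⊕ κ₂ → ℕ),
      (fun i => (Sum.elim x z : Fin d ⊕ (κ₁ ⊕ κ₂) → ℕ) (Sum.map id Sum.inr i)) =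
        Sum.elim x (fun k => z (Sum.inr k)) := by
    intro x z
    funext i
    rcases i with i | i <;> rfl
  refine ⟨κ₁ ⊕ κ₂, inferInstance, inferInstance,
    fun y v => Φ₁ (fun i => y (Sum.map id Sum.inl i)) v ∧
      Φ₂ (fun i => y (Sum.map id Sum.inr i)) v,
    fun y v => f₁ (fun i => y (Sum.map id Sum.inl i)) v,
    fun y v => f₂ (fun i => y (Sum.map id Sum.inr i)) v, fun v => C₁ v + C₂ v,
    (a1.rename _).and (b1.rename _), a2.rename _, b2.rename _, a3.add b3,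
    fun v x hx => ?_⟩
  obtain ⟨z, h1, h2, h3, h4, h5⟩ := a4 v x hx
  obtain ⟨w, g1, g2, g3, g4, g5⟩ := b4 v x hx
  refine ⟨Sum.elim z w, ?_, ⟨?_, ?_⟩, ?_, ?_, ?_, ?_⟩
  · rintro (i | i)
    · exact lt_of_lt_of_le (h1 i) (Nat.le_add_right _ _)
    · exact lt_of_lt_of_le (g1 i) (Nat.le_add_left _ _)
  · rw [he1]
    exact h2
  · rw [he2]
    exact g2
  · rintro z' ⟨h6, h7⟩
    rw [he1] at h6
    rw [he2] at h7
    funext i
    rcases i with i | i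
    · exact congrFun (h3 _ h6) i
    · exact congrFun (g3 _ h7) i
  · dsimp only
    rw [he1]
    exact h4
  · dsimp only
    rw [he2]
    exact g4
  · dsimp only
    omega

theorem step_rep {d n : ℕ} {T : (Fin d → ℕ) → (Fin n → ℕ) → ℕ} (hT : Step d n T)
    {B : (Fin n → ℕ) → ℕ} (hB : DFun n B) :
    ∃ (κ : Type) (_ : Fintype κ) (_ : DecidableEq κ)
      (Φ : (Fin d ⊕ κ → ℕ) → (Fin n → ℕ) → Prop)
      (f : (Fin d ⊕ κ → ℕ) → (Fin n → ℕ) → ℤ) (C : (Fin n → ℕ) → ℕ),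
      LinRel (Fin d ⊕ κ) n Φ ∧ Aff (Fin d ⊕ κ) n f ∧ DFun n C ∧
      ∀ v (x : Fin d → ℕ), (∀ i, x i < B v) → ∃ z : κ → ℕ, (∀ i, z i < C v) ∧
        Φ (Sum.elim x z) v ∧ (∀ z', Φ (Sum.elim x z') v → z' = z) ∧
        (T x v : ℤ) = f (Sum.elim x z) v ∧ T x v < C v := by
  induction hT with
  | var i =>
    refine ⟨Empty, inferInstance, inferInstance, fun _ _ => True,
      fun y _ => (y (Sum.inl i) : ℤ), B, StepRepA_true, Aff.var _, hB, fun v x hx => ?_⟩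
    exact ⟨fun e => e.elim, fun e => e.elim, trivial, fun z' _ => funext fun e => e.elim,
      rfl, hx i⟩
  | @coef c hc =>
    refine ⟨Empty, inferInstance, inferInstance, fun _ _ => True,
      fun _ v => (c v : ℤ), fun v => c v + 1, StepRepA_true, Aff.coef (ZF.nat hc),
      hc.add (DFun.const 1), fun v x hx => ?_⟩
    exact ⟨fun e => e.elim, fun e => e.elim, trivial, fun z' _ => funext fun e => e.elim,
      rfl, Nat.lt_succ_self _⟩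
  | @add f g _ _ ihf ihg =>
    obtain ⟨κ, i, j, Φ, f', g', C, h1, h2, h3, h4, h5⟩ := StepRepA_join ihf ihg
    refine ⟨κ, i, j, Φ, fun y v => f' y v + g' y v, C, h1, h2.add h3, h4, fun v x hx => ?_⟩
    obtain ⟨z, k1, k2, k3, k4, k5, k6⟩ := h5 v x hx
    exact ⟨z, k1, k2, k3, by push_cast; rw [k4, k5], k6⟩
  | @sub f g _ _ ihf ihg =>
    obtain ⟨κ, i, j, Φ, f', g', C, h1, h2, h3, h4, h5⟩ := StepRepA_join ihf ihg
    have hf := h2.rename (Sum.map id Sum.inl : Fin d ⊕ κ → Fin d ⊕ (κ ⊕ Unit))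
    have hg := h3.rename (Sum.map id Sum.inl : Fin d ⊕ κ → Fin d ⊕ (κ ⊕ Unit))
    have hy := Aff.var (n := n) (Sum.inr (Sum.inr ()) : Fin d ⊕ (κ ⊕ Unit))
    refine StepRepA_new h1 (((LinRel.le hg hf).and (LinRel.eq hy (hf.sub hg))).or
      ((LinRel.lt hf hg).and (LinRel.eq hy (Aff.coef (ZF.const 0))))) h4 fun v x hx => ?_
    obtain ⟨z, k1, k2, k3, k4, k5, k6⟩ := h5 v x hx
    refine ⟨z, k1, k2, k3, by omega, fun y => ?_⟩
    have he : (fun i => (Sum.elim x (Sum.elim z (fun _ => y)) : Fin d ⊕ (κ ⊕ Unit) → ℕ)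
        (Sum.map id Sum.inl i)) = Sum.elim x z := by
      funext i
      rcases i with i | i <;> rfl
    simp only [he, ← k4, ← k5, Sum.elim_inr]
    omega
  | @mul c f hc _ ih =>
    obtain ⟨κ, i, j, Φ, f', C, h1, h2, h3, h4⟩ := ih
    refine ⟨κ, i, j, Φ, fun y v => (c v : ℤ) * f' y v, fun v => c v * C v + C v + 1, h1,
      h2.mul (ZF.nat hc), ((hc.mul h3).add h3).add (DFun.const 1), fun v x hx => ?_⟩
    obtain ⟨z, k1, k2, k3, k4, k5⟩ := h4 v x hx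
    refine ⟨z, fun i => ?_, k2, k3, by push_cast; rw [k4], ?_⟩
    · have := k1 i
      dsimp only
      omega
    · have := Nat.mul_le_mul_left (c v) k5.le
      dsimp only
      omega
  | @div c f hc _ ih =>
    obtain ⟨κ, i, j, Φ, f', C, h1, h2, h3, h4⟩ := ih
    have hf := h2.rename (Sum.map id Sum.inl : Fin d ⊕ κ → Fin d ⊕ (κ ⊕ Unit))
    have hy := Aff.var (n := n) (Sum.inr (Sum.inr ()) : Fin d ⊕ (κ ⊕ Unit))
    have hcy := hy.mul (ZF.nat hc)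
    refine StepRepA_new h1 (((LinRel.cond (Delta0.eqFun hc (DFun.const 0))).and
      (LinRel.eq hy (Aff.coef (ZF.const 0)))).or
      ((LinRel.cond (Delta0.leFun (DFun.const 1) hc)).and
        ((LinRel.le hcy hf).and (LinRel.lt hf (hcy.add (Aff.coef (ZF.nat hc)))))))
      h3 fun v x hx => ?_
    obtain ⟨z, k1, k2, k3, k4, k5⟩ := h4 v x hx
    refine ⟨z, k1, k2, k3, lt_of_le_of_lt (Nat.div_le_self _ _) k5, fun y => ?_⟩
    have he : (fun i => (Sum.elim x (Sum.elim z (fun _ => y)) : Fin d ⊕ (κ ⊕ Unit) → ℕ)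
        (Sum.map id Sum.inl i)) = Sum.elim x z := by
      funext i
      rcases i with i | i <;> rfl
    simp only [he, ← k4, Sum.elim_inr]
    rcases Nat.eq_zero_or_pos (c v) with hc0 | hc0
    · rw [hc0, Nat.div_zero]
      constructor
      · rintro (⟨-, h⟩ | ⟨h, -⟩)
        · exact_mod_cast h
        · omega
      · rintro rfl
        left
        simp
    · constructor
      · rintro (⟨h, -⟩ | ⟨-, h, h'⟩)
        · omega
        · symm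
          rw [Nat.div_eq_iff hc0]
          have e1 : c v * y ≤ f x v := by exact_mod_cast h
          have e2 : f x v < c v * y + c v := by exact_mod_cast h'
          rw [mul_comm] at e1 e2
          omega
      · rintro rfl
        right
        refine ⟨hc0, ?_, ?_⟩
        · exact_mod_cast Nat.mul_div_le _ _
        · have := Nat.lt_mul_div_succ (f x v) hc0
          rw [mul_add, mul_one] at this
          exact_mod_cast this

end Pool.Agent.LPC
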