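import Pool.Agent.LPC.Node

/-!
# Package LPC-TreeId: the signed decomposition, all levels

*Statement.* `[x ∈ InCone U κ] = ∑_(s < (m+2)^L) sgn U s L [x ∈ InCone (nd U s L) κ]` for all `L`.

*Proof.* Induction on `L`; `L = 0` is clear (`sgn = 1`, `nd = U`). First: if
`dgt m s l = dgt m s' l` for all `l < L` then `nd U s L = nd U s' L` and `sgn U s L = sgn U s' L`
(induction on `L`). Every `s' < d^(L+1)`, `d = m + 2`, is uniquely `s' = s + i d^L` with `s < d^L`,
`i < d` (`Finset.sum_nat_mod`-like reindexing; `Finset.range` product bijection, e.g.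
`Finset.sum_nbij'`, or `Finset.sum_range_mul`/`Nat.sum_range_succ_mul_comm`); then
`dgt m s' l = dgt m s l` for `l < L` and `dgt m s' L = i`. So the right side for `L + 1` is
`∑_(s < d^L) sgn U s L ∑_i sg (nd U s L) i [x ∈ InCone (kid (nd U s L) i) κ]`, which is the right
side for `L` by `kid_step` (`nd_det`). ∎

Difficulty: 0.5 h.
-/

set_option autoImplicit false

namespace Pool.Agent.LPC

open Finset

private theorem TreeId_range (N : ℕ) (F : ℕ → ℤ) (k : ℕ) :
    ∑ s ∈ range (N * k), F s = ∑ i ∈ range k, ∑ s ∈ range N, F (N * i + s) := by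
  induction k with
  | zero => simp
  | succ k ih => rw [Nat.mul_succ, sum_range_add, ih, sum_range_succ]

private theorem TreeId_dgt_lt (m L s i l : ℕ) (hl : l < L) :
    dgt m ((m + 2) ^ L * i + s) l = dgt m s l := by
  apply Fin.ext
  change ((m + 2) ^ L * i + s) / (m + 2) ^ l % (m + 2) = s / (m + 2) ^ l % (m + 2)
  obtain ⟨k, rfl⟩ : ∃ k, L = l + 1 + k := ⟨L - (l + 1), by omega⟩
  have h1 : (m + 2) ^ (l + 1 + k) * i + s =
      (m + 2) ^ l * ((m + 2) * ((m + 2) ^ k * i)) + s := by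
    rw [pow_add, pow_succ]
    ring
  rw [h1, Nat.mul_add_div (by positivity), Nat.mul_add_mod]

private theorem TreeId_dgt_eq (m L s : ℕ) (i : Fin (m + 2)) (hs : s < (m + 2) ^ L) :
    dgt m ((m + 2) ^ L * (i : ℕ) + s) L = i := by
  apply Fin.ext
  change ((m + 2) ^ L * (i : ℕ) + s) / (m + 2) ^ L % (m + 2) = i
  rw [Nat.mul_add_div (by positivity), Nat.div_eq_of_lt hs, add_zero, Nat.mod_eq_of_lt i.2]

private theorem TreeId_congr {m : ℕ} (U : Matrix (Fin (m + 2)) (Fin (m + 2)) ℤ) (s s' L : ℕ)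
    (h : ∀ l < L, dgt m s l = dgt m s' l) : nd U s L = nd U s' L ∧ sgn U s L = sgn U s' L := by
  induction L with
  | zero => exact ⟨rfl, rfl⟩
  | succ L ih =>
    obtain ⟨h1, h2⟩ := ih (fun l hl => h l (by omega))
    have h3 := h L (by omega)
    constructor
    · change kid (nd U s L) (dgt m s L) = kid (nd U s' L) (dgt m s' L)
      rw [h1, h3]
    · change sgn U s L * sg (nd U s L) (dgt m s L) = sgn U s' L * sg (nd U s' L) (dgt m s' L)
      rw [h1, h2, h3]

theorem tree_id {m : ℕ} {U : Matrix (Fin (m + 2)) (Fin (m + 2)) ℤ} (hU : U.det ≠ 0)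
    (κ : Fin (m + 2) → ℚ) (x : Fin (m + 2) → ℤ) (L : ℕ) :
    ind (InCone U κ x) =
      ∑ s ∈ range ((m + 2) ^ L), sgn U s L * ind (InCone (nd U s L) κ x) := by
  induction L with
  | zero => simp [sgn, nd]
  | succ L ih =>
    rw [ih, pow_succ, TreeId_range, sum_comm]
    refine sum_congr rfl fun s hs => ?_
    rw [sum_range, kid_step (by omega) (nd_det hU s L), mul_sum]
    refine sum_congr rfl fun i _ => ?_
    obtain ⟨h1, h2⟩ := TreeId_congr U ((m + 2) ^ L * (i : ℕ) + s) s L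
      (fun l hl => TreeId_dgt_lt m L s i l hl)
    have h3 := TreeId_dgt_eq m L s i (mem_range.1 hs)
    change _ = sgn U ((m + 2) ^ L * (i : ℕ) + s) L *
      sg (nd U ((m + 2) ^ L * (i : ℕ) + s) L) (dgt m ((m + 2) ^ L * (i : ℕ) + s) L) *
      ind (InCone (kid (nd U ((m + 2) ^ L * (i : ℕ) + s) L)
        (dgt m ((m + 2) ^ L * (i : ℕ) + s) L)) κ x)
    rw [h1, h2, h3, mul_assoc]

end Pool.Agent.LPC
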